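import Mathlib

set_option autoImplicit false

/-!
# A seven-dimensional centrally essential algebra
-/

namespace Pool.Agent.R700

universe u

/-- The free module with basis `1, x, y, z, c, p, q` (the fields are the coordinates). -/
@[ext] structure A7 (K : Type u) : Type u where
  /-- coefficient of `1` -/
  o : K
  /-- coefficient of `x` -/
  x : K
  /-- coefficient of `y` -/
  y : K
  /-- coefficient of `z` -/
  z : K
  /-- coefficient of `c = x y` -/
  c : K
  /-- coefficient of `p = x z = z x` -/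
  p : K
  /-- coefficient of `q = y z = z y` -/
  q : K

namespace A7

variable {K : Type u} [CommRing K]

instance : Zero (A7 K) := ⟨⟨0, 0, 0, 0, 0, 0, 0⟩⟩
instance : One (A7 K) := ⟨⟨1, 0, 0, 0, 0, 0, 0⟩⟩
instance : Add (A7 K) := ⟨fun s t => ⟨s.o + t.o, s.x + t.x, s.y + t.y, s.z + t.z, s.c + t.c,
  s.p + t.p, s.q + t.q⟩⟩
instance : Neg (A7 K) := ⟨fun s => ⟨-s.o, -s.x, -s.y, -s.z, -s.c, -s.p, -s.q⟩⟩
instance : SMul K (A7 K) := ⟨fun k s => ⟨k * s.o, k * s.x, k * s.y, k * s.z, k * s.c, k * s.p,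
  k * s.q⟩⟩
/-- `x y = c`, `x z = z x = p`, `y z = z y = q`, and all other products of two of the basis vectors
`x, y, z, c, p, q` are zero. -/
instance : Mul (A7 K) := ⟨fun s t => ⟨s.o * t.o, s.o * t.x + s.x * t.o, s.o * t.y + s.y * t.o,
  s.o * t.z + s.z * t.o, s.o * t.c + s.c * t.o + s.x * t.y,
  s.o * t.p + s.p * t.o + (s.x * t.z + s.z * t.x),
  s.o * t.q + s.q * t.o + (s.y * t.z + s.z * t.y)⟩⟩

@[simp] theorem zero_o : (0 : A7 K).o = 0 := rfl
@[simp] theorem zero_x : (0 : A7 K).x = 0 := rfl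
@[simp] theorem zero_y : (0 : A7 K).y = 0 := rfl
@[simp] theorem zero_z : (0 : A7 K).z = 0 := rfl
@[simp] theorem zero_c : (0 : A7 K).c = 0 := rfl
@[simp] theorem zero_p : (0 : A7 K).p = 0 := rfl
@[simp] theorem zero_q : (0 : A7 K).q = 0 := rfl
@[simp] theorem one_o : (1 : A7 K).o = 1 := rfl
@[simp] theorem one_x : (1 : A7 K).x = 0 := rfl
@[simp] theorem one_y : (1 : A7 K).y = 0 := rfl
@[simp] theorem one_z : (1 : A7 K).z = 0 := rfl
@[simp] theorem one_c : (1 : A7 K).c = 0 := rfl
@[simp] theorem one_p : (1 : A7 K).p = 0 := rfl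
@[simp] theorem one_q : (1 : A7 K).q = 0 := rfl
@[simp] theorem add_o (s t : A7 K) : (s + t).o = s.o + t.o := rfl
@[simp] theorem add_x (s t : A7 K) : (s + t).x = s.x + t.x := rfl
@[simp] theorem add_y (s t : A7 K) : (s + t).y = s.y + t.y := rfl
@[simp] theorem add_z (s t : A7 K) : (s + t).z = s.z + t.z := rfl
@[simp] theorem add_c (s t : A7 K) : (s + t).c = s.c + t.c := rfl
@[simp] theorem add_p (s t : A7 K) : (s + t).p = s.p + t.p := rfl
@[simp] theorem add_q (s t : A7 K) : (s + t).q = s.q + t.q := rfl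
@[simp] theorem neg_o (s : A7 K) : (-s).o = -s.o := rfl
@[simp] theorem neg_x (s : A7 K) : (-s).x = -s.x := rfl
@[simp] theorem neg_y (s : A7 K) : (-s).y = -s.y := rfl
@[simp] theorem neg_z (s : A7 K) : (-s).z = -s.z := rfl
@[simp] theorem neg_c (s : A7 K) : (-s).c = -s.c := rfl
@[simp] theorem neg_p (s : A7 K) : (-s).p = -s.p := rfl
@[simp] theorem neg_q (s : A7 K) : (-s).q = -s.q := rfl
@[simp] theorem smul_o (k : K) (s : A7 K) : (k • s).o = k * s.o := rfl
@[simp] theorem smul_x (k : K) (s : A7 K) : (k • s).x = k * s.x := rfl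
@[simp] theorem smul_y (k : K) (s : A7 K) : (k • s).y = k * s.y := rfl
@[simp] theorem smul_z (k : K) (s : A7 K) : (k • s).z = k * s.z := rfl
@[simp] theorem smul_c (k : K) (s : A7 K) : (k • s).c = k * s.c := rfl
@[simp] theorem smul_p (k : K) (s : A7 K) : (k • s).p = k * s.p := rfl
@[simp] theorem smul_q (k : K) (s : A7 K) : (k • s).q = k * s.q := rfl
@[simp] theorem mul_o (s t : A7 K) : (s * t).o = s.o * t.o := rfl
@[simp] theorem mul_x (s t : A7 K) : (s * t).x = s.o * t.x + s.x * t.o := rfl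
@[simp] theorem mul_y (s t : A7 K) : (s * t).y = s.o * t.y + s.y * t.o := rfl
@[simp] theorem mul_z (s t : A7 K) : (s * t).z = s.o * t.z + s.z * t.o := rfl
@[simp] theorem mul_c (s t : A7 K) : (s * t).c = s.o * t.c + s.c * t.o + s.x * t.y := rfl
@[simp] theorem mul_p (s t : A7 K) :
    (s * t).p = s.o * t.p + s.p * t.o + (s.x * t.z + s.z * t.x) := rfl
@[simp] theorem mul_q (s t : A7 K) :
    (s * t).q = s.o * t.q + s.q * t.o + (s.y * t.z + s.z * t.y) := rfl

/-- The ring structure. -/
instance instRing : Ring (A7 K) where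
  add_assoc a b c := by ext <;> simp [add_assoc]
  zero_add a := by ext <;> simp
  add_zero a := by ext <;> simp
  add_comm a b := by ext <;> simp [add_comm]
  neg_add_cancel a := by ext <;> simp
  mul_assoc a b c := by ext <;> simp <;> ring
  one_mul a := by ext <;> simp
  mul_one a := by ext <;> simp
  zero_mul a := by ext <;> simp
  mul_zero a := by ext <;> simp
  left_distrib a b c := by ext <;> simp <;> ring
  right_distrib a b c := by ext <;> simp <;> ring
  nsmul := nsmulRec
  zsmul := zsmulRec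

instance instModule : Module K (A7 K) where
  one_smul a := by ext <;> simp
  mul_smul a b c := by ext <;> simp [mul_assoc]
  smul_zero a := by ext <;> simp
  smul_add a b c := by ext <;> simp [mul_add]
  add_smul a b c := by ext <;> simp [add_mul]
  zero_smul a := by ext <;> simp

/-- The coordinates, as an additive isomorphism. -/
def coord : A7 K ≃+ (Fin 7 → K) where
  toFun s := ![s.o, s.x, s.y, s.z, s.c, s.p, s.q]
  invFun v := ⟨v 0, v 1, v 2, v 3, v 4, v 5, v 6⟩
  left_inv s := rfl
  right_inv v := by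
    funext i
    fin_cases i <;> rfl
  map_add' s t := by
    funext i
    fin_cases i <;> rfl

end A7

end Pool.Agent.R700
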