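import Mathlib

/-!
# Overgroups of block monomial groups in rings with many isometries: the algebraic part
-/

namespace Pool.Agent.R700.AS

section find

variable {R Q : Type*} [Ring R] [Ring Q] {π : R →+* Q}

theorem pi_ne_of_mul (h1 : π 1 ≠ 0) {a b c : R} (h : a * b * c = 1) : π b ≠ 0 := by
  intro hb
  apply h1
  rw [← h, map_mul, map_mul, hb, mul_zero, zero_mul]

/-- The elements needed to build a transvection, second half of the choice. -/
theorem find_aux (h1 : π 1 ≠ 0) (hP : ∀ a, π a ≠ 0 → ∃ x y, x * a * y = 1)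
    {e f g g' s s' t t' y1 z1 : R} (he : e * e = e) (hf : f * f = f)
    (hss : s' * s = 1) (htt : t' * t = 1) (hst : s' * t = 0) (hts : t' * s = 0)
    (hy1 : e * y1 = y1) (hz1 : z1 * f = z1) (hzy : z1 * g * y1 = 1)
    (hq : π ((e - y1 * s * (s' * z1) * g * e) * (e * g' * (1 - f))) ≠ 0) :
    ∃ x y z w w' : R, x * e = x ∧ e * y = y ∧ z * f = z ∧ f * w = w ∧ x * y = 0 ∧ z * w = 0 ∧
      z * g * y = 1 ∧ π (x * g' * w) = 0 ∧ π (x * g' * (1 - f)) ≠ 0 ∧ w' * w = 1 := by
  set y := y1 * s with hy
  set z := s' * z1 with hz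
  set q := y * z * g * e with hqdef
  have hey : e * y = y := by rw [hy, ← mul_assoc, hy1]
  have hzf : z * f = z := by rw [hz, mul_assoc, hz1]
  have hzgy : z * g * y = 1 := by
    calc z * g * y = s' * (z1 * g * y1) * s := by rw [hz, hy]; noncomm_ring
      _ = 1 := by rw [hzy, mul_one, hss]
  have hzgy' : z * (g * y) = 1 := by rw [← mul_assoc]; exact hzgy
  have hqe : q * e = q := by rw [hqdef, mul_assoc, he]
  have hqy : q * y = y := by
    calc q * y = y * (z * g * (e * y)) := by rw [hqdef]; noncomm_ring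
      _ = y := by rw [hey, hzgy, mul_one]
  have hEe : (e - q) * e = e - q := by rw [sub_mul, he, hqe]
  have hEy : (e - q) * y = 0 := by rw [sub_mul, hey, hqy, sub_self]
  -- the idempotent `r`
  set r := f * g * y * z with hr
  have hfr : f * r = r := by
    calc f * r = (f * f) * g * y * z := by rw [hr]; noncomm_ring
      _ = r := by rw [hf]
  have hrf : r * f = r := by rw [hr, mul_assoc, hzf]
  have hzr : z * r = z := by
    calc z * r = (z * f) * g * y * z := by rw [hr]; noncomm_ring
      _ = z := by rw [hzf, hzgy, one_mul]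
  have hrr : r * r = r := by
    calc r * r = f * g * y * (z * r) := by rw [hr]; noncomm_ring
      _ = r := by rw [hzr]
  have hff : (f - r) * (f - r) = f - r := by
    rw [sub_mul, mul_sub, mul_sub, hf, hfr, hrf, hrr]; noncomm_ring
  have hfF : f * (f - r) = f - r := by rw [mul_sub, hf, hfr]
  have hzF : z * (f - r) = 0 := by rw [mul_sub, hzf, hzr, sub_self]
  -- room
  have hroom : π (f - r) ≠ 0 := by
    intro h0
    set y' := y1 * t with hy'
    set z' := t' * z1 with hz'
    have hz'f : z' * f = z' := by rw [hz', mul_assoc, hz1]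
    have hz'gy' : z' * g * y' = 1 := by
      calc z' * g * y' = t' * (z1 * g * y1) * t := by rw [hz', hy']; noncomm_ring
        _ = 1 := by rw [hzy, mul_one, htt]
    have hzgy'0 : z * g * y' = 0 := by
      calc z * g * y' = s' * (z1 * g * y1) * t := by rw [hz, hy']; noncomm_ring
        _ = 0 := by rw [hzy, mul_one, hst]
    have e1 : (f - r) * (f * g * y' * z') = f * g * y' * z' := by
      have e2 : r * (f * g * y' * z') = 0 := by
        calc r * (f * g * y' * z') = f * g * y * ((z * f) * g * y') * z' := by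
              rw [hr]; noncomm_ring
          _ = 0 := by rw [hzf, hzgy'0, mul_zero, zero_mul]
      rw [sub_mul, e2, sub_zero]
      calc f * (f * g * y' * z') = (f * f) * g * y' * z' := by noncomm_ring
        _ = f * g * y' * z' := by rw [hf]
    have e3 : z' * (f * g * y' * z') = z' := by
      calc z' * (f * g * y' * z') = ((z' * f) * g * y') * z' := by noncomm_ring
        _ = z' := by rw [hz'f, hz'gy', one_mul]
    have e4 : π z' = 0 := by
      have e5 : z' = z' * ((f - r) * (f * g * y' * z')) := by rw [e1, e3]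
      rw [e5, map_mul π z', map_mul π (f - r), h0, zero_mul, mul_zero]
    apply h1
    rw [← hz'gy', map_mul, map_mul, e4, zero_mul, zero_mul]
  -- the element `C`
  obtain ⟨x0, v0, hxv⟩ := hP _ hq
  set C := x0 * (e - q) * g' * (1 - f) with hC
  have hCv : C * v0 = 1 := by
    calc C * v0 = x0 * (((e - q) * e) * g' * (1 - f)) * v0 := by rw [hEe, hC]; noncomm_ring
      _ = x0 * ((e - q) * (e * g' * (1 - f))) * v0 := by noncomm_ring
      _ = 1 := hxv
  have hC0 : π C ≠ 0 := pi_ne_of_mul h1 (a := 1) (b := C) (c := v0) (by rw [one_mul]; exact hCv)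
  by_cases hA : π (x0 * (e - q) * g' * (f - r)) = 0
  · obtain ⟨w', w0, hw⟩ := hP _ hroom
    refine ⟨x0 * (e - q), y, z, (f - r) * w0, w', ?_, hey, hzf, ?_, ?_, ?_, hzgy, ?_, hC0, ?_⟩
    · rw [mul_assoc, hEe]
    · rw [← mul_assoc, hfF]
    · rw [mul_assoc, hEy, mul_zero]
    · rw [← mul_assoc, hzF, zero_mul]
    · rw [← mul_assoc, map_mul, hA, zero_mul]
    · rw [← mul_assoc]; exact hw
  · set A := x0 * (e - q) * g' * (f - r) with hAdef
    obtain ⟨x2, v2', hxAv⟩ := hP _ hA
    set v2 := (f - r) * v2' with hv2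
    have hAv : A * v2 = A * v2' := by
      calc A * v2 = x0 * (e - q) * g' * ((f - r) * (f - r)) * v2' := by
            rw [hv2, hAdef]; noncomm_ring
        _ = A * v2' := by rw [hff]
    have hxAv2 : x2 * A * v2 = 1 := by rw [mul_assoc, hAv, ← mul_assoc]; exact hxAv
    have hFv : (f - r) * v2 = v2 := by rw [hv2, ← mul_assoc, hff]
    have hgv : x0 * (e - q) * g' * v2 = A * v2 := by
      rw [hAdef, mul_assoc (x0 * (e - q) * g'), hFv]
    -- the final choice
    have main : ∀ p p' : R, p' * p = 1 → π ((1 - A * v2 * p * (p' * x2)) * C) ≠ 0 →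
        ∃ x y z w w' : R, x * e = x ∧ e * y = y ∧ z * f = z ∧ f * w = w ∧ x * y = 0 ∧
          z * w = 0 ∧ z * g * y = 1 ∧ π (x * g' * w) = 0 ∧ π (x * g' * (1 - f)) ≠ 0 ∧
          w' * w = 1 := by
      intro p p' hpp hne
      refine ⟨(1 - A * v2 * p * (p' * x2)) * (x0 * (e - q)), y, z, v2 * p,
        p' * x2 * (x0 * (e - q) * g'), ?_, hey, hzf, ?_, ?_, ?_, hzgy, ?_, ?_, ?_⟩
      · rw [mul_assoc, mul_assoc x0, hEe]
      · rw [hv2, ← mul_assoc, ← mul_assoc, hfF]
      · rw [mul_assoc, mul_assoc x0, hEy, mul_zero, mul_zero]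
      · rw [hv2, ← mul_assoc, ← mul_assoc, hzF, zero_mul, zero_mul]
      · have : (1 - A * v2 * p * (p' * x2)) * (x0 * (e - q)) * g' * (v2 * p) = 0 := by
          calc (1 - A * v2 * p * (p' * x2)) * (x0 * (e - q)) * g' * (v2 * p)
              = (1 - A * v2 * p * (p' * x2)) * ((x0 * (e - q) * g' * v2) * p) := by noncomm_ring
            _ = A * v2 * p - A * v2 * p * (p' * (x2 * A * v2) * p) := by
                rw [hgv]; noncomm_ring
            _ = 0 := by rw [hxAv2, mul_one, hpp, mul_one, sub_self]
        rw [this, map_zero]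
      · have : (1 - A * v2 * p * (p' * x2)) * (x0 * (e - q)) * g' * (1 - f) =
            (1 - A * v2 * p * (p' * x2)) * C := by rw [hC]; noncomm_ring
        rw [this]; exact hne
      · calc p' * x2 * (x0 * (e - q) * g') * (v2 * p)
            = p' * (x2 * (x0 * (e - q) * g' * v2)) * p := by noncomm_ring
          _ = 1 := by rw [hgv, ← mul_assoc x2, hxAv2, mul_one, hpp]
    by_cases hs : π ((1 - A * v2 * s * (s' * x2)) * C) = 0
    · by_cases ht : π ((1 - A * v2 * t * (t' * x2)) * C) = 0
      · exfalso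
        apply hC0
        have e1 : π C = π (A * v2 * s * (s' * x2)) * π C := by
          have := hs
          rw [sub_mul, one_mul, map_sub, sub_eq_zero] at this
          rw [← map_mul]; exact this
        have e2 : π C = π (A * v2 * t * (t' * x2)) * π C := by
          have := ht
          rw [sub_mul, one_mul, map_sub, sub_eq_zero] at this
          rw [← map_mul]; exact this
        have e3 : A * v2 * s * (s' * x2) * (A * v2 * t * (t' * x2)) = 0 := by
          calc A * v2 * s * (s' * x2) * (A * v2 * t * (t' * x2))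
              = A * v2 * s * (s' * (x2 * A * v2) * t) * (t' * x2) := by noncomm_ring
            _ = 0 := by rw [hxAv2, mul_one, hst, mul_zero, zero_mul]
        rw [e1, e2, ← mul_assoc, ← map_mul, e3, map_zero, zero_mul]
      · exact main t t' htt ht
    · exact main s s' hss hs

/-- The elements needed to build a transvection. -/
theorem find (h1 : π 1 ≠ 0) (hP : ∀ a, π a ≠ 0 → ∃ x y, x * a * y = 1)
    {e f g g' s s' t t' : R} (he : e * e = e) (hf : f * f = f)
    (hss : s' * s = 1) (htt : t' * t = 1) (hst : s' * t = 0) (hts : t' * s = 0)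
    (hb : π (f * g * e) ≠ 0) (hc : π (e * g' * (1 - f)) ≠ 0) :
    ∃ x y z w w' : R, x * e = x ∧ e * y = y ∧ z * f = z ∧ f * w = w ∧ x * y = 0 ∧ z * w = 0 ∧
      z * g * y = 1 ∧ π (x * g' * w) = 0 ∧ π (x * g' * (1 - f)) ≠ 0 ∧ w' * w = 1 := by
  obtain ⟨z0, y0, hzy⟩ := hP _ hb
  have hy1 : e * (e * y0) = e * y0 := by rw [← mul_assoc, he]
  have hz1 : z0 * f * f = z0 * f := by rw [mul_assoc, hf]
  have hzy1 : z0 * f * g * (e * y0) = 1 := by
    calc z0 * f * g * (e * y0) = z0 * (f * g * e) * y0 := by noncomm_ring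
      _ = 1 := hzy
  set c := e * g' * (1 - f) with hcdef
  have hec : e * c = c := by rw [hcdef, ← mul_assoc, ← mul_assoc, he]
  by_cases hs : π ((e - (e * y0) * s * (s' * (z0 * f)) * g * e) * c) = 0
  · by_cases ht : π ((e - (e * y0) * t * (t' * (z0 * f)) * g * e) * c) = 0
    · exfalso
      apply hc
      have e1 : π c = π ((e * y0) * s * (s' * (z0 * f)) * g * e) * π c := by
        have := hs
        rw [sub_mul, hec, map_sub, sub_eq_zero] at this
        rw [← map_mul]; exact this
      have e2 : π c = π ((e * y0) * t * (t' * (z0 * f)) * g * e) * π c := by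
        have := ht
        rw [sub_mul, hec, map_sub, sub_eq_zero] at this
        rw [← map_mul]; exact this
      have e3 : (e * y0) * s * (s' * (z0 * f)) * g * e *
          ((e * y0) * t * (t' * (z0 * f)) * g * e) = 0 := by
        calc (e * y0) * s * (s' * (z0 * f)) * g * e * ((e * y0) * t * (t' * (z0 * f)) * g * e)
            = (e * y0) * s * (s' * (z0 * f * g * (e * (e * y0))) * t) *
              ((t' * (z0 * f)) * g * e) := by noncomm_ring
          _ = 0 := by rw [hy1, hzy1, mul_one, hst, mul_zero, zero_mul]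
      rw [e1, e2, ← mul_assoc, ← map_mul, e3, map_zero, zero_mul]
    · exact find_aux h1 hP he hf htt hss hts hst hy1 hz1 hzy1 ht
  · exact find_aux h1 hP he hf hss htt hst hts hy1 hz1 hzy1 hs

end find

end Pool.Agent.R700.AS
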