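import Mathlib
import Pool.Agent.R700.ASa

/-!
# Overgroups of block monomial groups in rings with many isometries: the group part
-/

namespace Pool.Agent.R700.AS

section basics

variable {R : Type*} [Ring R]

/-- membership of an element of the ring in a group of units -/
def InK (K : Subgroup Rˣ) (a : R) : Prop := ∃ u ∈ K, (u : R) = a

theorem InK.mul {K : Subgroup Rˣ} {a b : R} (ha : InK K a) (hb : InK K b) : InK K (a * b) := by
  obtain ⟨u, hu, rfl⟩ := ha
  obtain ⟨v, hv, rfl⟩ := hb
  exact ⟨u * v, K.mul_mem hu hv, by simp⟩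

theorem InK.one {K : Subgroup Rˣ} : InK K 1 := ⟨1, K.one_mem, rfl⟩

theorem InK.inv {K : Subgroup Rˣ} {a b : R} (ha : InK K a) (hab : a * b = 1) : InK K b := by
  obtain ⟨u, hu, rfl⟩ := ha
  refine ⟨u⁻¹, K.inv_mem hu, ?_⟩
  calc ((u⁻¹ : Rˣ) : R) = u⁻¹ * (u * b) := by rw [hab, mul_one]
    _ = b := by rw [← mul_assoc, Units.inv_mul, one_mul]

/-- blocks: isometries `τ i` with adjoints `τs i` -/
structure Blocks {ι : Type*} [Fintype ι] [DecidableEq ι] (τ τs : ι → R) : Prop where
  orth : ∀ i k, τs i * τ k = if i = k then 1 else 0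
  sum : ∑ i, τ i * τs i = 1

variable {ι : Type*} [Fintype ι] [DecidableEq ι] {τ τs : ι → R}

theorem Blocks.same (h : Blocks τ τs) (i : ι) : τs i * τ i = 1 := by rw [h.orth, if_pos rfl]

theorem Blocks.ne (h : Blocks τ τs) {i k : ι} (hik : i ≠ k) : τs i * τ k = 0 := by
  rw [h.orth, if_neg hik]

theorem Blocks.ee (h : Blocks τ τs) (i : ι) : τ i * τs i * (τ i * τs i) = τ i * τs i := by
  calc τ i * τs i * (τ i * τs i) = τ i * (τs i * τ i) * τs i := by noncomm_ring
    _ = τ i * τs i := by rw [h.same, mul_one]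

theorem Blocks.ene (h : Blocks τ τs) {i k : ι} (hik : i ≠ k) :
    τ i * τs i * (τ k * τs k) = 0 := by
  calc τ i * τs i * (τ k * τs k) = τ i * (τs i * τ k) * τs k := by noncomm_ring
    _ = 0 := by rw [h.ne hik, mul_zero, zero_mul]

theorem isUnit_one_add {n : R} (h : n * n = 0) : IsUnit (1 + n) := by
  refine ⟨⟨1 + n, 1 - n, ?_, ?_⟩, rfl⟩
  · calc (1 + n) * (1 - n) = 1 - n * n := by noncomm_ring
      _ = 1 := by rw [h, sub_zero]
  · calc (1 - n) * (1 + n) = 1 - n * n := by noncomm_ring
      _ = 1 := by rw [h, sub_zero]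

theorem one_add_mul_one_sub {n : R} (h : n * n = 0) : (1 + n) * (1 - n) = 1 := by
  calc (1 + n) * (1 - n) = 1 - n * n := by noncomm_ring
    _ = 1 := by rw [h, sub_zero]

theorem one_sub_mul_one_add {n : R} (h : n * n = 0) : (1 - n) * (1 + n) = 1 := by
  calc (1 - n) * (1 + n) = 1 - n * n := by noncomm_ring
    _ = 1 := by rw [h, sub_zero]

/-- block units -/
def bu (τ τs : ι → R) (i : ι) (u : R) : R := 1 - τ i * τs i + τ i * u * τs i

theorem Blocks.bu_mul (h : Blocks τ τs) (i : ι) (u v : R) :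
    bu τ τs i u * bu τ τs i v = bu τ τs i (u * v) := by
  unfold bu
  have hs := h.same i
  calc (1 - τ i * τs i + τ i * u * τs i) * (1 - τ i * τs i + τ i * v * τs i)
      = 1 - τ i * τs i + τ i * v * τs i - τ i * τs i + τ i * (τs i * τ i) * τs i
        - τ i * (τs i * τ i) * v * τs i + τ i * u * τs i - τ i * u * (τs i * τ i) * τs i
        + τ i * u * (τs i * τ i) * v * τs i := by noncomm_ring
    _ = 1 - τ i * τs i + τ i * (u * v) * τs i := by rw [hs]; noncomm_ring

omit [Fintype ι] [DecidableEq ι] in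
theorem bu_one (i : ι) : bu τ τs i 1 = 1 := by unfold bu; rw [mul_one]; abel

/-- every element is a sum of elements `±(u - 1)`, `u` a unit -/
theorem Blocks.closure (h : Blocks τ τs) [Nontrivial ι] :
    AddSubgroup.closure {r : R | IsUnit (r + 1)} = ⊤ := by
  rw [eq_top_iff]
  intro r _
  have hr : r = ∑ k, ∑ l, τ k * (τs k * r * τ l) * τs l := by
    calc r = (∑ k, τ k * τs k) * r * (∑ l, τ l * τs l) := by rw [h.sum, one_mul, mul_one]
      _ = ∑ k, ∑ l, τ k * (τs k * r * τ l) * τs l := by
        rw [Finset.sum_mul, Finset.sum_mul]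
        refine Finset.sum_congr rfl fun k _ => ?_
        rw [Finset.mul_sum]
        refine Finset.sum_congr rfl fun l _ => ?_
        noncomm_ring
  rw [hr]
  refine AddSubgroup.sum_mem _ fun k _ => AddSubgroup.sum_mem _ fun l _ => ?_
  generalize τs k * r * τ l = a
  have hsq : ∀ k l : ι, k ≠ l → ∀ a : R, (τ k * a * τs l) * (τ k * a * τs l) = 0 := by
    intro k l hkl a
    calc (τ k * a * τs l) * (τ k * a * τs l) = τ k * a * (τs l * τ k) * a * τs l := by
          noncomm_ring
      _ = 0 := by rw [h.ne (Ne.symm hkl)]; noncomm_ring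
  by_cases hkl : k = l
  · subst hkl
    obtain ⟨m, hm⟩ := exists_ne k
    -- the swap
    set w : R := τ k * τs m + τ m * τs k + (1 - τ k * τs k - τ m * τs m) with hw
    have hww : w * w = 1 := by
      have h1 := h.same k
      have h2 := h.same m
      have h3 := h.ne hm
      have h4 := h.ne (Ne.symm hm)
      calc w * w = τ k * (τs m * τ k) * τs m + τ k * (τs m * τ m) * τs k + τ k * τs m
              - τ k * (τs m * τ k) * τs k - τ k * (τs m * τ m) * τs m
              + τ m * (τs k * τ k) * τs m + τ m * (τs k * τ m) * τs k + τ m * τs k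
              - τ m * (τs k * τ k) * τs k - τ m * (τs k * τ m) * τs m
              + τ k * τs m + τ m * τs k + (1 - τ k * τs k - τ m * τs m)
              - τ k * (τs k * τ k) * τs m - τ k * (τs k * τ m) * τs k - τ k * τs k
              + τ k * (τs k * τ k) * τs k + τ k * (τs k * τ m) * τs m
              - τ m * (τs m * τ k) * τs m - τ m * (τs m * τ m) * τs k - τ m * τs m
              + τ m * (τs m * τ k) * τs k + τ m * (τs m * τ m) * τs m := by
            rw [hw]; noncomm_ring
        _ = 1 := by rw [h1, h2, h3, h4]; noncomm_ring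
    have hwu : IsUnit w := ⟨⟨w, w, hww, hww⟩, rfl⟩
    have hsw : τs k * w = τs m := by
      calc τs k * w = (τs k * τ k) * τs m + (τs k * τ m) * τs k
            + (τs k - (τs k * τ k) * τs k - (τs k * τ m) * τs m) := by rw [hw]; noncomm_ring
        _ = τs m := by rw [h.same, h.ne (Ne.symm hm)]; noncomm_ring
    have e : τ k * a * τs k = (w + τ k * a * τs k - 1) - (w - 1) := by noncomm_ring
    rw [e]
    refine AddSubgroup.sub_mem _ (AddSubgroup.subset_closure ?_) (AddSubgroup.subset_closure ?_)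
    · show IsUnit (w + τ k * a * τs k - 1 + 1)
      have e2 : w + τ k * a * τs k - 1 + 1 = (1 + τ k * a * τs m) * w := by
        have e3 : τs m * w = τs k := by
          calc τs m * w = (τs m * τ k) * τs m + (τs m * τ m) * τs k
                + (τs m - (τs m * τ k) * τs k - (τs m * τ m) * τs m) := by rw [hw]; noncomm_ring
            _ = τs k := by rw [h.same, h.ne hm]; noncomm_ring
        calc w + τ k * a * τs k - 1 + 1 = w + τ k * a * τs k := by abel
          _ = w + τ k * a * (τs m * w) := by rw [e3]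
          _ = (1 + τ k * a * τs m) * w := by noncomm_ring
      rw [e2]
      exact (isUnit_one_add (hsq k m (Ne.symm hm) a)).mul hwu
    · show IsUnit (w - 1 + 1)
      rw [sub_add_cancel]; exact hwu
  · refine AddSubgroup.subset_closure ?_
    show IsUnit (τ k * a * τs l + 1)
    rw [add_comm]
    exact isUnit_one_add (hsq k l hkl a)

end basics

section group

variable {R Q : Type*} [Ring R] [Ring Q] {π : R →+* Q} {ι : Type*} [Fintype ι] [DecidableEq ι]
  {τ τs : ι → R}

/-- the overgroups of the block monomial group -/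
structure Over (π : R →+* Q) (τ τs : ι → R) (K : Subgroup Rˣ) : Prop where
  small : ∀ u : Rˣ, π u = 1 → u ∈ K
  diag : ∀ u : Rˣ, (∀ i, (u : R) * (τ i * τs i) = τ i * τs i * u) → u ∈ K
  perm : ∀ σ : Equiv.Perm ι, ∀ u : Rˣ, (u : R) = ∑ i, τ (σ i) * τs i → u ∈ K

variable {K : Subgroup Rˣ}

omit [DecidableEq ι] in
theorem Over.congr (hK : Over π τ τs K) {a b : R} (ha : InK K a) (hb : IsUnit b)
    (h : π a = π b) : InK K b := by
  obtain ⟨u, hu, rfl⟩ := ha
  obtain ⟨v, rfl⟩ := hb
  have h1 : v * u⁻¹ ∈ K := by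
    apply hK.small
    rw [Units.val_mul, map_mul, ← h, ← map_mul, Units.mul_inv, map_one]
  refine ⟨v, ?_, rfl⟩
  have := K.mul_mem h1 hu
  rwa [inv_mul_cancel_right] at this

omit [DecidableEq ι] in
theorem Over.diag' (hK : Over π τ τs K) {a b : R} (hab : a * b = 1) (hba : b * a = 1)
    (h : ∀ i, a * (τ i * τs i) = τ i * τs i * a) : InK K a :=
  ⟨⟨a, b, hab, hba⟩, hK.diag _ h, rfl⟩

theorem Blocks.bu_comm (h : Blocks τ τs) (i : ι) (u : R) (k : ι) :
    bu τ τs i u * (τ k * τs k) = τ k * τs k * bu τ τs i u := by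
  unfold bu
  by_cases hik : i = k
  · subst hik
    have hs := h.same i
    calc (1 - τ i * τs i + τ i * u * τs i) * (τ i * τs i)
        = τ i * τs i - τ i * (τs i * τ i) * τs i + τ i * u * (τs i * τ i) * τs i := by
          noncomm_ring
      _ = τ i * τs i - τ i * (τs i * τ i) * τs i + τ i * (τs i * τ i) * u * τs i := by
          rw [hs]; noncomm_ring
      _ = _ := by noncomm_ring
  · have h1 := h.ne hik
    have h2 := h.ne (Ne.symm hik)
    calc (1 - τ i * τs i + τ i * u * τs i) * (τ k * τs k)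
        = τ k * τs k - τ i * (τs i * τ k) * τs k + τ i * u * (τs i * τ k) * τs k := by
          noncomm_ring
      _ = τ k * τs k - τ k * (τs k * τ i) * τs i + τ k * (τs k * τ i) * u * τs i := by
          rw [h1, h2]; noncomm_ring
      _ = _ := by noncomm_ring

theorem Over.bu_mem (hK : Over π τ τs K) (h : Blocks τ τs) (i : ι) {u v : R} (huv : u * v = 1)
    (hvu : v * u = 1) : InK K (bu τ τs i u) := by
  refine hK.diag' (b := bu τ τs i v) ?_ ?_ (h.bu_comm i u)
  · rw [h.bu_mul, huv, bu_one]
  · rw [h.bu_mul, hvu, bu_one]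

/-- the first transvection, still modulo small elements -/
theorem Over.first (hK : Over π τ τs K) (h : Blocks τ τs) (h1 : π 1 ≠ 0)
    (hP : ∀ a, π a ≠ 0 → ∃ x y, x * a * y = 1) {g g' : R} (hg : InK K g) (hgg : g * g' = 1)
    (hgg' : g' * g = 1) {i j m : ι} (hjm : j ≠ m) (hb : π (τ j * τs j * g * (τ i * τs i)) ≠ 0)
    (hc : π (τ i * τs i * g' * (1 - τ j * τs j)) ≠ 0) :
    ∃ p a : R, InK K a ∧ π a = 1 + π p ∧ τ j * τs j * p = p ∧ π (p * (1 - τ j * τs j)) ≠ 0 := by
  obtain ⟨x, y, z, w, w', hxe, hey, hzf, hfw, hxy, hzw, hzgy, hxgw, hxgf, hww⟩ :=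
    find h1 hP (h.ee i) (h.ee j) (h.same j) (h.same m) (h.ne hjm) (h.ne (Ne.symm hjm)) hb hc
  have hn : (y * x) * (y * x) = 0 := by
    calc (y * x) * (y * x) = y * (x * y) * x := by noncomm_ring
      _ = 0 := by rw [hxy, mul_zero, zero_mul]
  have hk : (w * z) * (w * z) = 0 := by
    calc (w * z) * (w * z) = w * (z * w) * z := by noncomm_ring
      _ = 0 := by rw [hzw, mul_zero, zero_mul]
  have hcomm : ∀ (s : ι) (n : R), τ s * τs s * n = n → n * (τ s * τs s) = n → n * n = 0 →
      InK K (1 + n) := by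
    intro s n hn1 hn2 hn3
    refine hK.diag' (one_add_mul_one_sub hn3) (one_sub_mul_one_add hn3) fun k => ?_
    by_cases hks : k = s
    · subst hks
      rw [mul_add, add_mul, hn1, hn2, one_mul, mul_one]
    · have e1 : n * (τ k * τs k) = 0 := by
        rw [← hn2, mul_assoc, h.ene (Ne.symm hks), mul_zero]
      have e2 : τ k * τs k * n = 0 := by
        rw [← hn1, ← mul_assoc, h.ene hks, zero_mul]
      rw [mul_add, add_mul, e1, e2, one_mul, mul_one]
  have ht : InK K (1 + y * x) := by
    refine hcomm i _ ?_ ?_ hn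
    · rw [← mul_assoc, hey]
    · rw [mul_assoc, hxe]
  have hd : InK K (1 + w * z) := by
    refine hcomm j _ ?_ ?_ hk
    · rw [← mul_assoc, hfw]
    · rw [mul_assoc, hzf]
  have hg' : InK K g' := hg.inv hgg
  have ht' : InK K (1 - y * x) := ht.inv (one_add_mul_one_sub hn)
  have hd' : InK K (1 - w * z) := hd.inv (one_add_mul_one_sub hk)
  refine ⟨w * x * g', (1 + w * z) * (g * (1 + y * x) * g') * (1 - w * z) *
    (g * (1 - y * x) * g'), ?_, ?_, ?_, ?_⟩
  · exact ((hd.mul ((hg.mul ht).mul hg')).mul hd').mul ((hg.mul ht').mul hg')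
  · have e1 : g * (1 + y * x) * g' = 1 + g * (y * x) * g' := by
      calc g * (1 + y * x) * g' = g * g' + g * (y * x) * g' := by noncomm_ring
        _ = _ := by rw [hgg]
    have e2 : g * (1 - y * x) * g' = 1 - g * (y * x) * g' := by
      calc g * (1 - y * x) * g' = g * g' - g * (y * x) * g' := by noncomm_ring
        _ = _ := by rw [hgg]
    rw [e1, e2]
    have hNN : g * (y * x) * g' * (g * (y * x) * g') = 0 := by
      calc g * (y * x) * g' * (g * (y * x) * g') = g * ((y * x) * (g' * g) * (y * x)) * g' := by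
            noncomm_ring
        _ = 0 := by rw [hgg', mul_one, hn, mul_zero, zero_mul]
    have hNk : π (g * (y * x) * g' * (w * z)) = 0 := by
      have : g * (y * x) * g' * (w * z) = g * y * (x * g' * w) * z := by noncomm_ring
      rw [this, map_mul, map_mul, hxgw, mul_zero, zero_mul]
    have hkN : (w * z) * (g * (y * x) * g') = w * x * g' := by
      calc (w * z) * (g * (y * x) * g') = w * (z * g * y) * x * g' := by noncomm_ring
        _ = w * x * g' := by rw [hzgy, mul_one]
    have key : (1 + w * z) * (1 + g * (y * x) * g') * (1 - w * z) * (1 - g * (y * x) * g') =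
        1 + (w * z) * (g * (y * x) * g')
        - (w * z) * (w * z) * (1 - g * (y * x) * g')
        - (1 + w * z) * (g * (y * x) * g' * (w * z)) * (1 - g * (y * x) * g')
        - (1 + w * z) * (g * (y * x) * g' * (g * (y * x) * g')) := by
      generalize w * z = k
      generalize g * (y * x) * g' = N
      noncomm_ring
    rw [key, hNN, hk, hkN]
    have hz1 : π ((1 + w * z) * (g * (y * x) * g' * (w * z)) * (1 - g * (y * x) * g')) = 0 := by
      rw [map_mul π ((1 + w * z) * (g * (y * x) * g' * (w * z))), map_mul π (1 + w * z), hNk,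
        mul_zero, zero_mul]
    rw [map_sub, map_sub, map_sub, hz1]
    simp
  · rw [← mul_assoc, ← mul_assoc, hfw]
  · intro h0
    apply hxgf
    have e : w' * (w * x * g' * (1 - τ j * τs j)) = x * g' * (1 - τ j * τs j) := by
      calc w' * (w * x * g' * (1 - τ j * τs j)) = (w' * w) * (x * g' * (1 - τ j * τs j)) := by
            noncomm_ring
        _ = _ := by rw [hww, one_mul]
    rw [← e, map_mul, h0, mul_zero]

/-- additivity of the transvections in `K` -/
theorem InK.add_tv (h : Blocks τ τs) {i j : ι} (hij : i ≠ j) {a b : R}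
    (ha : InK K (1 + τ j * a * τs i)) (hb : InK K (1 + τ j * b * τs i)) :
    InK K (1 + τ j * (a + b) * τs i) := by
  have := ha.mul hb
  have e : (1 + τ j * a * τs i) * (1 + τ j * b * τs i) = 1 + τ j * (a + b) * τs i := by
    calc (1 + τ j * a * τs i) * (1 + τ j * b * τs i)
        = 1 + τ j * (a + b) * τs i + τ j * a * (τs i * τ j) * b * τs i := by noncomm_ring
      _ = _ := by rw [h.ne hij]; noncomm_ring
  rwa [e] at this

theorem InK.neg_tv (h : Blocks τ τs) {i j : ι} (hij : i ≠ j) {a : R}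
    (ha : InK K (1 + τ j * a * τs i)) : InK K (1 + τ j * (-a) * τs i) := by
  refine ha.inv ?_
  calc (1 + τ j * a * τs i) * (1 + τ j * (-a) * τs i)
      = 1 - τ j * a * (τs i * τ j) * a * τs i := by noncomm_ring
    _ = 1 := by rw [h.ne hij]; noncomm_ring

/-- all transvections for one pair -/
theorem Over.pair (hK : Over π τ τs K) (h : Blocks τ τs) (h1 : π 1 ≠ 0) [Nontrivial ι]
    (hP : ∀ a, π a ≠ 0 → ∃ x y, x * a * y = 1) {p a : R} {j : ι} (ha : InK K a)
    (hap : π a = 1 + π p) (hjp : τ j * τs j * p = p) (hp : π (p * (1 - τ j * τs j)) ≠ 0) :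
    ∃ i, i ≠ j ∧ ∀ r, InK K (1 + τ j * r * τs i) := by
  -- choose the block `i`
  obtain ⟨i, hij, hi⟩ : ∃ i, i ≠ j ∧ π (p * (τ i * τs i)) ≠ 0 := by
    by_contra hcon
    push Not at hcon
    apply hp
    have e : 1 - τ j * τs j = ∑ i ∈ Finset.univ.erase j, τ i * τs i := by
      rw [← h.sum, ← Finset.sum_erase_add _ _ (Finset.mem_univ j), add_sub_cancel_right]
    rw [e, Finset.mul_sum, map_sum]
    exact Finset.sum_eq_zero fun i hi => hcon i (Finset.ne_of_mem_erase hi)
  refine ⟨i, hij, ?_⟩
  obtain ⟨u, hu, rfl⟩ := ha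
  set c := τs j * p * τ i with hc
  have hpi : p * (τ i * τs i) = τ j * c * τs i := by
    calc p * (τ i * τs i) = (τ j * τs j * p) * (τ i * τs i) := by rw [hjp]
      _ = τ j * c * τs i := by rw [hc]; noncomm_ring
  have hc0 : π c ≠ 0 := by
    intro h0
    apply hi
    rw [hpi, map_mul, map_mul, h0, mul_zero, zero_mul]
  have hadd : ∀ {r s : R}, InK K (1 + τ j * r * τs i) → InK K (1 + τ j * s * τs i) →
      InK K (1 + τ j * (r + s) * τs i) := fun hr hs => InK.add_tv h hij hr hs
  have hneg : ∀ {r : R}, InK K (1 + τ j * r * τs i) → InK K (1 + τ j * (-r) * τs i) :=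
    fun hr => InK.neg_tv h hij hr
  have hzero : InK K (1 + τ j * 0 * τs i) := by
    rw [mul_zero, zero_mul, add_zero]; exact InK.one
  have hsq : ∀ r : R, (τ j * r * τs i) * (τ j * r * τs i) = 0 := by
    intro r
    calc (τ j * r * τs i) * (τ j * r * τs i) = τ j * r * (τs i * τ j) * r * τs i := by
          noncomm_ring
      _ = 0 := by rw [h.ne hij]; noncomm_ring
  -- facts modulo small elements
  have hep : τs i * p = 0 := by
    calc τs i * p = τs i * (τ j * τs j * p) := by rw [hjp]
      _ = (τs i * τ j) * (τs j * p) := by noncomm_ring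
      _ = 0 := by rw [h.ne hij, zero_mul]
  have hH : π (τs i) * π (u : R) = π (τs i) := by
    rw [hap, mul_add, mul_one, ← map_mul, hep, map_zero, add_zero]
  have hH' : π (τs i) * π ((u⁻¹ : Rˣ) : R) = π (τs i) := by
    have : π (τs i) * π (u : R) * π ((u⁻¹ : Rˣ) : R) = π (τs i) * π ((u⁻¹ : Rˣ) : R) := by rw [hH]
    rw [← this, mul_assoc, ← map_mul, Units.mul_inv, map_one, mul_one]
  have huu : π (u : R) * π ((u⁻¹ : Rˣ) : R) = 1 := by rw [← map_mul, Units.mul_inv, map_one]
  -- the commutators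
  have step1 : ∀ v v' : R, v * v' = 1 → v' * v = 1 → InK K (1 + τ j * (c * (1 - v')) * τs i) := by
    intro v v' hvv hvv'
    have hU := hK.bu_mem h i hvv hvv'
    have hU' := hK.bu_mem h i hvv' hvv
    have hu1 : InK K (u : R) := ⟨u, hu, rfl⟩
    have hu2 : InK K ((u⁻¹ : Rˣ) : R) := ⟨u⁻¹, K.inv_mem hu, rfl⟩
    have hin : InK K ((u : R) * bu τ τs i v * ((u⁻¹ : Rˣ) : R) * bu τ τs i v') :=
      ((hu1.mul hU).mul hu2).mul hU'
    refine hK.congr hin (isUnit_one_add (hsq _)) ?_
    have e1 : bu τ τs i v = 1 + τ i * (v - 1) * τs i := by unfold bu; noncomm_ring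
    have e2 : bu τ τs i v * bu τ τs i v' = 1 := by rw [h.bu_mul, hvv, bu_one]
    have e3 : π ((u : R) * bu τ τs i v * ((u⁻¹ : Rˣ) : R)) =
        π (bu τ τs i v) + π (p * τ i * (v - 1) * τs i) := by
      calc π ((u : R) * bu τ τs i v * ((u⁻¹ : Rˣ) : R))
          = π (u : R) * (1 + π (τ i) * π (v - 1) * π (τs i)) * π ((u⁻¹ : Rˣ) : R) := by
            rw [e1]; simp only [map_mul, map_add, map_one]
        _ = π (u : R) * π ((u⁻¹ : Rˣ) : R) + π (u : R) * (π (τ i) * π (v - 1)) *
              (π (τs i) * π ((u⁻¹ : Rˣ) : R)) := by noncomm_ring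
        _ = 1 + (1 + π p) * (π (τ i) * π (v - 1)) * π (τs i) := by rw [huu, hH', hap]
        _ = _ := by
          rw [e1]; simp only [map_mul, map_add, map_one]; noncomm_ring
    rw [map_mul, e3, add_mul, ← map_mul, e2, ← map_mul]
    have e4 : p * τ i * (v - 1) * τs i * bu τ τs i v' = τ j * (c * (1 - v')) * τs i := by
      have e5 : τs i * bu τ τs i v' = v' * τs i := by
        unfold bu
        calc τs i * (1 - τ i * τs i + τ i * v' * τs i)
            = τs i - (τs i * τ i) * τs i + (τs i * τ i) * v' * τs i := by noncomm_ring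
          _ = v' * τs i := by rw [h.same]; noncomm_ring
      calc p * τ i * (v - 1) * τs i * bu τ τs i v'
          = p * τ i * (v - 1) * (τs i * bu τ τs i v') := by noncomm_ring
        _ = p * τ i * (v * v' - v') * τs i := by rw [e5]; noncomm_ring
        _ = (p * (τ i * τs i)) * τ i * (1 - v') * τs i := by
            rw [hvv]
            calc p * τ i * (1 - v') * τs i = p * τ i * 1 * (1 - v') * τs i := by rw [mul_one]
              _ = p * τ i * (τs i * τ i) * (1 - v') * τs i := by rw [h.same]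
              _ = _ := by noncomm_ring
        _ = τ j * c * (τs i * τ i) * (1 - v') * τs i := by rw [hpi]; noncomm_ring
        _ = _ := by rw [h.same]; noncomm_ring
    rw [e4]
    simp only [map_add, map_one]
  have step2 : ∀ r, InK K (1 + τ j * (c * r) * τs i) := by
    intro r
    have hr : r ∈ AddSubgroup.closure {r : R | IsUnit (r + 1)} := by
      rw [h.closure]; exact AddSubgroup.mem_top r
    induction hr using AddSubgroup.closure_induction with
    | mem r hr =>
      obtain ⟨v, hv⟩ := hr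
      have := hneg (step1 ((v⁻¹ : Rˣ) : R) v (Units.inv_mul v) (Units.mul_inv v))
      have e : -(c * (1 - (v : R))) = c * r := by rw [hv]; noncomm_ring
      rwa [e] at this
    | zero => rw [mul_zero]; exact hzero
    | add x y _ _ hx hy => rw [mul_add]; exact hadd hx hy
    | neg x _ hx => rw [mul_neg]; exact hneg hx
  have step3 : ∀ r s, InK K (1 + τ j * (r * (c * s)) * τs i) := by
    intro r s
    have hr : r ∈ AddSubgroup.closure {r : R | IsUnit (r + 1)} := by
      rw [h.closure]; exact AddSubgroup.mem_top r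
    induction hr using AddSubgroup.closure_induction with
    | mem r hr =>
      obtain ⟨v, hv⟩ := hr
      have hU := hK.bu_mem h j (Units.mul_inv v) (Units.inv_mul v)
      have hU' := hK.bu_mem h j (Units.inv_mul v) (Units.mul_inv v)
      have h2 := (hU.mul (step2 s)).mul hU'
      have e : bu τ τs j (v : R) * (1 + τ j * (c * s) * τs i) * bu τ τs j ((v⁻¹ : Rˣ) : R) =
          1 + τ j * ((v : R) * (c * s)) * τs i := by
        have e1 : bu τ τs j (v : R) * τ j = τ j * v := by
          unfold bu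
          calc (1 - τ j * τs j + τ j * (v : R) * τs j) * τ j
              = τ j - τ j * (τs j * τ j) + τ j * v * (τs j * τ j) := by noncomm_ring
            _ = τ j * v := by rw [h.same]; noncomm_ring
        have e2 : τs i * bu τ τs j ((v⁻¹ : Rˣ) : R) = τs i := by
          unfold bu
          calc τs i * (1 - τ j * τs j + τ j * ((v⁻¹ : Rˣ) : R) * τs j)
              = τs i - (τs i * τ j) * τs j + (τs i * τ j) * ((v⁻¹ : Rˣ) : R) * τs j := by
                noncomm_ring
            _ = τs i := by rw [h.ne hij]; noncomm_ring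
        have e3 : bu τ τs j (v : R) * bu τ τs j ((v⁻¹ : Rˣ) : R) = 1 := by
          rw [h.bu_mul, Units.mul_inv, bu_one]
        calc bu τ τs j (v : R) * (1 + τ j * (c * s) * τs i) * bu τ τs j ((v⁻¹ : Rˣ) : R)
            = bu τ τs j (v : R) * bu τ τs j ((v⁻¹ : Rˣ) : R) +
              (bu τ τs j (v : R) * τ j) * (c * s) * (τs i * bu τ τs j ((v⁻¹ : Rˣ) : R)) := by
              noncomm_ring
          _ = _ := by rw [e1, e2, e3]; noncomm_ring
      rw [e] at h2
      have h3 := hadd h2 (hneg (step2 s))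
      have e4 : (v : R) * (c * s) + -(c * s) = r * (c * s) := by rw [hv]; noncomm_ring
      rwa [e4] at h3
    | zero => rw [zero_mul]; exact hzero
    | add x y _ _ hx hy => rw [add_mul]; exact hadd hx hy
    | neg x _ hx => rw [neg_mul]; exact hneg hx
  intro r
  obtain ⟨x, y, hxy⟩ := hP c hc0
  have e : r = (r * x) * (c * y) := by
    calc r = r * (x * c * y) := by rw [hxy, mul_one]
      _ = _ := by noncomm_ring
  rw [e]
  exact step3 _ _

omit [Fintype ι] [DecidableEq ι] in
theorem perm_apply_inv (σ : Equiv.Perm ι) (x : ι) : σ (σ⁻¹ x) = x := σ.apply_symm_apply x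

omit [Fintype ι] [DecidableEq ι] in
theorem perm_inv_apply (σ : Equiv.Perm ι) (x : ι) : σ⁻¹ (σ x) = x := σ.symm_apply_apply x

/-- permutation units -/
theorem Blocks.perm_mul (h : Blocks τ τs) (σ ρ : Equiv.Perm ι) :
    (∑ i, τ (σ i) * τs i) * (∑ i, τ (ρ i) * τs i) = ∑ i, τ (σ (ρ i)) * τs i := by
  rw [Finset.mul_sum]
  refine Finset.sum_congr rfl fun k _ => ?_
  rw [Finset.sum_mul, Finset.sum_eq_single (ρ k)]
  · calc τ (σ (ρ k)) * τs (ρ k) * (τ (ρ k) * τs k)
        = τ (σ (ρ k)) * (τs (ρ k) * τ (ρ k)) * τs k := by noncomm_ring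
      _ = _ := by rw [h.same, mul_one]
  · intro i _ hi
    calc τ (σ i) * τs i * (τ (ρ k) * τs k) = τ (σ i) * (τs i * τ (ρ k)) * τs k := by noncomm_ring
      _ = 0 := by rw [h.ne hi]; noncomm_ring
  · intro h'; exact absurd (Finset.mem_univ _) h'

theorem Over.perm' (hK : Over π τ τs K) (h : Blocks τ τs) (σ : Equiv.Perm ι) :
    InK K (∑ i, τ (σ i) * τs i) := by
  have e1 : (∑ i, τ (σ i) * τs i) * (∑ i, τ (σ⁻¹ i) * τs i) = 1 := by
    rw [h.perm_mul]; simp only [perm_apply_inv]; exact h.sum
  have e2 : (∑ i, τ (σ⁻¹ i) * τs i) * (∑ i, τ (σ i) * τs i) = 1 := by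
    rw [h.perm_mul]; simp only [perm_inv_apply]; exact h.sum
  exact ⟨⟨_, _, e1, e2⟩, hK.perm σ _ rfl, rfl⟩

theorem Over.conj (hK : Over π τ τs K) (h : Blocks τ τs) (σ : Equiv.Perm ι) {i j : ι}
    (hij : ∀ r, InK K (1 + τ j * r * τs i)) (r : R) :
    InK K (1 + τ (σ j) * r * τs (σ i)) := by
  have h1 := ((hK.perm' h σ).mul (hij r)).mul (hK.perm' h σ⁻¹)
  have e1 : (∑ i, τ (σ i) * τs i) * (∑ i, τ (σ⁻¹ i) * τs i) = 1 := by
    rw [h.perm_mul]; simp only [perm_apply_inv]; exact h.sum
  have e2 : (∑ i, τ (σ i) * τs i) * τ j = τ (σ j) := by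
    rw [Finset.sum_mul, Finset.sum_eq_single j]
    · rw [mul_assoc, h.same, mul_one]
    · intro k _ hk; rw [mul_assoc, h.ne hk, mul_zero]
    · intro h'; exact absurd (Finset.mem_univ _) h'
  have e3 : τs i * (∑ i, τ (σ⁻¹ i) * τs i) = τs (σ i) := by
    rw [Finset.mul_sum, Finset.sum_eq_single (σ i)]
    · rw [perm_inv_apply, ← mul_assoc, h.same, one_mul]
    · intro k _ hk
      rw [← mul_assoc, h.ne, zero_mul]
      intro h'
      apply hk
      rw [h', perm_apply_inv]
    · intro h'; exact absurd (Finset.mem_univ _) h'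
  have e4 : (∑ i, τ (σ i) * τs i) * (1 + τ j * r * τs i) * (∑ i, τ (σ⁻¹ i) * τs i) =
      1 + τ (σ j) * r * τs (σ i) := by
    calc (∑ i, τ (σ i) * τs i) * (1 + τ j * r * τs i) * (∑ i, τ (σ⁻¹ i) * τs i)
        = (∑ i, τ (σ i) * τs i) * (∑ i, τ (σ⁻¹ i) * τs i) +
          ((∑ i, τ (σ i) * τs i) * τ j) * r * (τs i * (∑ i, τ (σ⁻¹ i) * τs i)) := by
          noncomm_ring
      _ = _ := by rw [e1, e2, e3]
  rwa [e4] at h1

/-- all transvections between blocks -/
theorem Over.all_pairs (hK : Over π τ τs K) (h : Blocks τ τs) {i j : ι} (hne : i ≠ j)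
    (hij : ∀ r, InK K (1 + τ j * r * τs i)) {i' j' : ι} (hne' : i' ≠ j') (r : R) :
    InK K (1 + τ j' * r * τs i') := by
  have h1 := hK.conj h (Equiv.swap i i') hij
  rw [Equiv.swap_apply_left] at h1
  set j1 := Equiv.swap i i' j with hj1
  have hj1' : j1 ≠ i' := by
    intro h'
    apply hne
    have := (Equiv.swap i i').injective
    apply this
    rw [Equiv.swap_apply_left, ← hj1, h']
  have h2 := hK.conj h (Equiv.swap j1 j') h1 r
  rw [Equiv.swap_apply_left, Equiv.swap_apply_of_ne_of_ne (Ne.symm hj1') hne'] at h2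
  exact h2

/-- transvections for the two-block decomposition `e = e_o`, `1 - e` -/
theorem Over.lower (h : Blocks τ τs) (o : ι)
    (hall : ∀ {i j : ι}, i ≠ j → ∀ r, InK K (1 + τ j * r * τs i)) (n : R) :
    InK K (1 + (1 - τ o * τs o) * n * (τ o * τs o)) := by
  have e : 1 - τ o * τs o = ∑ i ∈ Finset.univ.erase o, τ i * τs i := by
    rw [← h.sum, ← Finset.sum_erase_add _ _ (Finset.mem_univ o), add_sub_cancel_right]
  rw [e]
  have key : ∀ s : Finset ι, o ∉ s → InK K (1 + (∑ i ∈ s, τ i * τs i) * n * (τ o * τs o)) := by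
    intro s
    induction s using Finset.induction_on with
    | empty => intro _; rw [Finset.sum_empty, zero_mul, zero_mul, add_zero]; exact InK.one
    | insert k s hk ih =>
      intro ho
      rw [Finset.mem_insert, not_or] at ho
      have h1 := ih ho.2
      have h2 := (hall ho.1 (τs k * n * τ o)).mul h1
      have e1 : τs o * (∑ i ∈ s, τ i * τs i) = 0 := by
        rw [Finset.mul_sum]
        refine Finset.sum_eq_zero fun i hi => ?_
        rw [← mul_assoc, h.ne, zero_mul]
        rintro rfl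
        exact ho.2 hi
      have e2 : (1 + τ k * (τs k * n * τ o) * τs o) *
          (1 + (∑ i ∈ s, τ i * τs i) * n * (τ o * τs o)) =
          1 + (∑ i ∈ insert k s, τ i * τs i) * n * (τ o * τs o) := by
        rw [Finset.sum_insert hk]
        calc (1 + τ k * (τs k * n * τ o) * τs o) *
            (1 + (∑ i ∈ s, τ i * τs i) * n * (τ o * τs o))
            = 1 + (τ k * τs k + ∑ i ∈ s, τ i * τs i) * n * (τ o * τs o) +
              τ k * (τs k * n * τ o) * (τs o * (∑ i ∈ s, τ i * τs i)) * n * (τ o * τs o) := by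
              noncomm_ring
          _ = _ := by rw [e1]; noncomm_ring
      rwa [e2] at h2
  exact key _ (Finset.notMem_erase _ _)

theorem Over.upper (h : Blocks τ τs) (o : ι)
    (hall : ∀ {i j : ι}, i ≠ j → ∀ r, InK K (1 + τ j * r * τs i)) (n : R) :
    InK K (1 + τ o * τs o * n * (1 - τ o * τs o)) := by
  have e : 1 - τ o * τs o = ∑ i ∈ Finset.univ.erase o, τ i * τs i := by
    rw [← h.sum, ← Finset.sum_erase_add _ _ (Finset.mem_univ o), add_sub_cancel_right]
  rw [e]
  have key : ∀ s : Finset ι, o ∉ s → InK K (1 + τ o * τs o * n * (∑ i ∈ s, τ i * τs i)) := by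
    intro s
    induction s using Finset.induction_on with
    | empty => intro _; rw [Finset.sum_empty, mul_zero, add_zero]; exact InK.one
    | insert k s hk ih =>
      intro ho
      rw [Finset.mem_insert, not_or] at ho
      have h1 := ih ho.2
      have h2 := h1.mul (hall (Ne.symm ho.1) (τs o * n * τ k))
      have e1 : (∑ i ∈ s, τ i * τs i) * τ o = 0 := by
        rw [Finset.sum_mul]
        refine Finset.sum_eq_zero fun i hi => ?_
        rw [mul_assoc, h.ne, mul_zero]
        rintro rfl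
        exact ho.2 hi
      have e2 : (1 + τ o * τs o * n * (∑ i ∈ s, τ i * τs i)) *
          (1 + τ o * (τs o * n * τ k) * τs k) =
          1 + τ o * τs o * n * (∑ i ∈ insert k s, τ i * τs i) := by
        rw [Finset.sum_insert hk]
        calc (1 + τ o * τs o * n * (∑ i ∈ s, τ i * τs i)) *
            (1 + τ o * (τs o * n * τ k) * τs k)
            = 1 + τ o * τs o * n * (τ k * τs k + ∑ i ∈ s, τ i * τs i) +
              τ o * τs o * n * ((∑ i ∈ s, τ i * τs i) * τ o) * (τs o * n * τ k) * τs k := by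
              noncomm_ring
          _ = _ := by rw [e1]; noncomm_ring
      rwa [e2] at h2
  exact key _ (Finset.notMem_erase _ _)

/-- an element outside the block monomial group -/
def NotMono (π : R →+* Q) (τ τs : ι → R) (g : R) : Prop :=
  ¬ ∃ σ : Equiv.Perm ι, ∀ i k, k ≠ σ i → π (τ k * τs k * g * (τ i * τs i)) = 0

theorem NotMono.exists_two (h : Blocks τ τs) (h1 : π 1 ≠ 0) {g g' : R} (hgg : g * g' = 1)
    (hgg' : g' * g = 1) (hg : NotMono π τ τs g) :
    ∃ i k l, k ≠ l ∧ π (τ k * τs k * g * (τ i * τs i)) ≠ 0 ∧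
      π (τ l * τs l * g * (τ i * τs i)) ≠ 0 := by
  by_contra hcon
  push Not at hcon
  apply hg
  have hei : ∀ i, π (τ i * τs i) ≠ 0 := by
    intro i h0
    apply h1
    have e : (1 : R) = τs i * (τ i * τs i) * τ i := by
      calc (1 : R) = (τs i * τ i) * (τs i * τ i) := by rw [h.same, one_mul]
        _ = _ := by noncomm_ring
    rw [e, map_mul, map_mul, h0, mul_zero, zero_mul]
  have hex : ∀ i, ∃ k, π (τ k * τs k * g * (τ i * τs i)) ≠ 0 := by
    intro i
    by_contra hc
    push Not at hc
    apply hei i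
    have e : g' * (∑ k, τ k * τs k * g * (τ i * τs i)) = τ i * τs i := by
      rw [← Finset.sum_mul, ← Finset.sum_mul, h.sum, one_mul, ← mul_assoc, hgg', one_mul]
    rw [← e, map_mul, map_sum, Finset.sum_eq_zero (fun k _ => hc k), mul_zero]
  choose f hf using hex
  have hf0 : ∀ i k, k ≠ f i → π (τ k * τs k * g * (τ i * τs i)) = 0 := by
    intro i k hk
    exact hcon i (f i) k (Ne.symm hk) (hf i)
  have hsurj : Function.Surjective f := by
    intro m
    by_contra hc
    push Not at hc
    apply hei m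
    have e : τ m * τs m = (∑ i, τ m * τs m * g * (τ i * τs i)) * g' := by
      rw [← Finset.mul_sum, h.sum, mul_one, mul_assoc, hgg, mul_one]
    rw [e, map_mul, map_sum, Finset.sum_eq_zero (fun i _ => hf0 i m (Ne.symm (hc i))), zero_mul]
  have hbij : Function.Bijective f := Finite.surjective_iff_bijective.1 hsurj
  exact ⟨Equiv.ofBijective f hbij, fun i k hk => hf0 i k hk⟩

/-- The main algebraic result: an overgroup of the block monomial group that contains a further
element contains all transvections between blocks. -/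
theorem Over.main (hK : Over π τ τs K) (h : Blocks τ τs) (h1 : π 1 ≠ 0) [Nontrivial ι]
    (hP : ∀ a, π a ≠ 0 → ∃ x y, x * a * y = 1) {g g' : R} (hg : InK K g) (hgg : g * g' = 1)
    (hgg' : g' * g = 1) (hn : NotMono π τ τs g) {i j : ι} (hij : i ≠ j) (r : R) :
    InK K (1 + τ j * r * τs i) := by
  obtain ⟨i0, k, l, hkl, hk, hl⟩ := hn.exists_two h h1 hgg hgg'
  have key : ∃ j0, π (τ j0 * τs j0 * g * (τ i0 * τs i0)) ≠ 0 ∧
      π (τ i0 * τs i0 * g' * (1 - τ j0 * τs j0)) ≠ 0 := by
    by_contra hcon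
    push Not at hcon
    have h2 := hcon k hk
    have h3 := hcon l hl
    have e1 : τ i0 * τs i0 * g' * (τ k * τs k) =
        τ i0 * τs i0 * g' * (1 - τ l * τs l) * (τ k * τs k) := by
      calc τ i0 * τs i0 * g' * (τ k * τs k)
          = τ i0 * τs i0 * g' * (τ k * τs k) - τ i0 * τs i0 * g' * (τ l * τs l * (τ k * τs k)) := by
            rw [h.ene (Ne.symm hkl), mul_zero, sub_zero]
        _ = _ := by noncomm_ring
    have h4 : π (τ i0 * τs i0 * g' * (τ k * τs k)) = 0 := by
      rw [e1, map_mul, h3, zero_mul]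
    have h5 : π (τ i0 * τs i0 * g') = 0 := by
      have e2 : τ i0 * τs i0 * g' = τ i0 * τs i0 * g' * (1 - τ k * τs k) +
          τ i0 * τs i0 * g' * (τ k * τs k) := by noncomm_ring
      rw [e2, map_add, h2, h4, add_zero]
    apply h1
    have e3 : (1 : R) = τs i0 * (τ i0 * τs i0 * g') * (g * τ i0) := by
      calc (1 : R) = (τs i0 * τ i0) * (τs i0 * τ i0) := by rw [h.same, one_mul]
        _ = τs i0 * (τ i0 * τs i0) * (g' * g) * τ i0 := by rw [hgg']; noncomm_ring
        _ = _ := by noncomm_ring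
    rw [e3, map_mul, map_mul, h5, mul_zero, zero_mul]
  obtain ⟨j0, hb, hc⟩ := key
  obtain ⟨m, hm⟩ := exists_ne j0
  obtain ⟨p, a, ha, hap, hjp, hp⟩ := hK.first h h1 hP hg hgg hgg' (Ne.symm hm) hb hc
  obtain ⟨i1, hi1, hall⟩ := hK.pair h h1 hP ha hap hjp hp
  exact hK.all_pairs h hi1 hall hij r

end group

end Pool.Agent.R700.AS
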