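import Mathlib
import Pool.Agent.R700.ASb

/-!
# Overgroups of block monomial groups: the endomorphism ring of a vector space
-/

namespace Pool.Agent.R700.AS

open Module

universe u v

section avoid

variable {R Q : Type*} [Ring R] [Ring Q] {π : R →+* Q}

theorem avoid (h1 : π 1 ≠ 0) (hP : ∀ a, π a ≠ 0 → ∃ x y, x * a * y = 1) {p q : R}
    (hp : π p ≠ 0) (hq : π q ≠ 0) : ∃ y p' q', p' * p * y = 1 ∧ q' * q * y = 1 := by
  obtain ⟨p1, y0, hpy⟩ := hP p hp
  obtain ⟨q1, y1, hqy⟩ := hP q hq
  by_cases h2 : π (q * y0) = 0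
  · by_cases h3 : π (p * y1) = 0
    · have e1 : π (p1 * p * (y0 + y1)) = 1 := by
        rw [mul_add, hpy, mul_assoc, map_add, map_mul, h3, mul_zero, add_zero, map_one]
      have e2 : π (q1 * q * (y0 + y1)) = 1 := by
        rw [mul_add, hqy, mul_assoc, map_add, map_mul, h2, mul_zero, zero_add, map_one]
      obtain ⟨c, v, hcv⟩ := hP (p1 * p * (y0 + y1)) (by rw [e1, ← map_one π]; exact h1)
      have h4 : π (q1 * q * (y0 + y1) * v) ≠ 0 := by
        rw [map_mul, e2, one_mul]
        intro hv
        apply h1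
        rw [← hcv, map_mul, hv, mul_zero]
      obtain ⟨d, w, hdw⟩ := hP _ h4
      refine ⟨(y0 + y1) * v * w, d * (q1 * q * (y0 + y1) * v) * (c * p1), d * q1, ?_, ?_⟩
      · calc d * (q1 * q * (y0 + y1) * v) * (c * p1) * p * ((y0 + y1) * v * w)
            = d * (q1 * q * (y0 + y1) * v) * (c * (p1 * p * (y0 + y1)) * v) * w := by
              noncomm_ring
          _ = 1 := by rw [hcv, mul_one]; exact hdw
      · calc d * q1 * q * ((y0 + y1) * v * w) = d * (q1 * q * (y0 + y1) * v) * w := by
              noncomm_ring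
          _ = 1 := hdw
    · obtain ⟨c, v, hcv⟩ := hP _ h3
      refine ⟨y1 * v, c, c * p * y1 * q1, ?_, ?_⟩
      · calc c * p * (y1 * v) = c * (p * y1) * v := by noncomm_ring
          _ = 1 := hcv
      · calc c * p * y1 * q1 * q * (y1 * v) = c * p * y1 * (q1 * q * y1) * v := by noncomm_ring
          _ = c * (p * y1) * v := by rw [hqy]; noncomm_ring
          _ = 1 := hcv
  · obtain ⟨c, v, hcv⟩ := hP _ h2
    refine ⟨y0 * v, c * q * y0 * p1, c, ?_, ?_⟩
    · calc c * q * y0 * p1 * p * (y0 * v) = c * q * y0 * (p1 * p * y0) * v := by noncomm_ring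
        _ = c * (q * y0) * v := by rw [hpy]; noncomm_ring
        _ = 1 := hcv
    · calc c * q * (y0 * v) = c * (q * y0) * v := by noncomm_ring
        _ = 1 := hcv

end avoid

section ideal

variable {F : Type v} [Field F] {V : Type u} [AddCommGroup V] [Module F V]

/-- the ideal of the endomorphisms of rank less than the dimension -/
noncomputable def smallI (h : Cardinal.aleph0 ≤ Module.rank F V) : TwoSidedIdeal (Module.End F V) :=
  TwoSidedIdeal.mk' {f | LinearMap.rank f < Module.rank F V}
    (by
      show LinearMap.rank (0 : V →ₗ[F] V) < _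
      rw [LinearMap.rank_zero]
      exact lt_of_lt_of_le Cardinal.aleph0_pos h)
    (by
      intro f g hf hg
      exact lt_of_le_of_lt (LinearMap.rank_add_le f g) (Cardinal.add_lt_of_lt h hf hg))
    (by
      intro f hf
      show LinearMap.rank (-f) < _
      rw [LinearMap.rank, LinearMap.range_neg]
      exact hf)
    (by
      intro f g hg
      exact lt_of_le_of_lt (LinearMap.rank_comp_le_right g f) hg)
    (by
      intro f g hf
      exact lt_of_le_of_lt (LinearMap.rank_comp_le_left g f) hf)

/-- reduction modulo the small endomorphisms -/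
noncomputable def pr (h : Cardinal.aleph0 ≤ Module.rank F V) :
    Module.End F V →+* (smallI h).ringCon.Quotient :=
  RingCon.mk' (smallI h).ringCon

theorem pr_eq_zero (h : Cardinal.aleph0 ≤ Module.rank F V) (f : Module.End F V) :
    pr h f = 0 ↔ LinearMap.rank f < Module.rank F V := by
  have h1 : pr h f = 0 ↔ (smallI h).ringCon f 0 := (smallI h).ringCon.eq
  rw [h1, ← TwoSidedIdeal.mem_iff, smallI, TwoSidedIdeal.mem_mk']
  exact Iff.rfl

theorem pr_one_ne (h : Cardinal.aleph0 ≤ Module.rank F V) : pr h 1 ≠ 0 := by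
  rw [Ne, pr_eq_zero, not_lt]
  have : LinearMap.range (1 : Module.End F V) = ⊤ := LinearMap.range_id
  rw [LinearMap.rank, this, rank_top]

theorem pr_P (h : Cardinal.aleph0 ≤ Module.rank F V) (a : Module.End F V) (ha : pr h a ≠ 0) :
    ∃ x y : Module.End F V, x * a * y = 1 := by
  rw [Ne, pr_eq_zero, not_lt] at ha
  have hr : Module.rank F (LinearMap.range a) = Module.rank F V :=
    le_antisymm (Submodule.rank_le _) ha
  obtain ⟨φ⟩ := nonempty_linearEquiv_of_rank_eq hr
  obtain ⟨s, hs⟩ := a.rangeRestrict.exists_rightInverse_of_surjective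
    (LinearMap.range_rangeRestrict a)
  obtain ⟨x, hx⟩ := LinearMap.exists_extend (φ : LinearMap.range a →ₗ[F] V)
  refine ⟨x, s ∘ₗ (φ.symm : V →ₗ[F] LinearMap.range a), ?_⟩
  ext v
  have h1 : a (s (φ.symm v)) = (φ.symm v : V) := by
    have := congrArg (fun f => ((f (φ.symm v) : LinearMap.range a) : V)) hs
    exact this
  have h2 : x ((φ.symm v : LinearMap.range a) : V) = φ (φ.symm v) :=
    congrArg (fun f => f (φ.symm v)) hx
  change x (a (s (φ.symm v))) = v
  rw [h1, h2, LinearEquiv.apply_symm_apply]

/-- isometries onto a submodule of full rank -/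
theorem exists_iso_idem {p : Module.End F V} (hp : p * p = p)
    (hr : Module.rank F (LinearMap.range p) = Module.rank F V) :
    ∃ t t' : Module.End F V, t' * t = 1 ∧ t * t' = p := by
  obtain ⟨φ⟩ := nonempty_linearEquiv_of_rank_eq hr
  refine ⟨(LinearMap.range p).subtype ∘ₗ (φ.symm : V →ₗ[F] LinearMap.range p),
    (φ : LinearMap.range p →ₗ[F] V) ∘ₗ p.rangeRestrict, ?_, ?_⟩
  · ext v
    change φ (p.rangeRestrict (φ.symm v : V)) = v
    have : p.rangeRestrict (φ.symm v : V) = φ.symm v := by
      apply Subtype.ext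
      change p (φ.symm v : V) = (φ.symm v : V)
      obtain ⟨w, hw⟩ := (φ.symm v).2
      rw [← hw]
      exact congrArg (fun f => f w) hp
    rw [this, LinearEquiv.apply_symm_apply]
  · ext v
    change ((φ.symm (φ (p.rangeRestrict v)) : LinearMap.range p) : V) = p v
    rw [LinearEquiv.symm_apply_apply]
    rfl

/-- common complements -/
theorem exists_common_compl {A B : Submodule F V} (hAB : Disjoint A B) (φ : A ≃ₗ[F] B) :
    ∃ C, IsCompl A C ∧ IsCompl B C := by
  obtain ⟨B', hB, hBA⟩ := hAB.symm.exists_isCompl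
  obtain ⟨A', hA, hAB'⟩ := hAB.exists_isCompl
  -- projections
  let eA : V →ₗ[F] A := Submodule.projectionOnto A B' hBA.symm
  let eB : V →ₗ[F] B := Submodule.projectionOnto B A' hAB'.symm
  have hA1 : ∀ x : A, eA x = x := fun x => Submodule.projectionOnto_apply_left hBA.symm x
  have hA2 : ∀ x : B, eA x = 0 := fun x =>
    Submodule.projectionOnto_apply_right hBA.symm ⟨x, hB x.2⟩
  have hB1 : ∀ x : B, eB x = x := fun x => Submodule.projectionOnto_apply_left hAB'.symm x
  have hB2 : ∀ x : A, eB x = 0 := fun x =>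
    Submodule.projectionOnto_apply_right hAB'.symm ⟨x, hA x.2⟩
  let p1 : V →ₗ[F] A := eA - (φ.symm : B →ₗ[F] A) ∘ₗ eB
  let p2 : V →ₗ[F] B := eB - (φ : A →ₗ[F] B) ∘ₗ eA
  have h1 : IsCompl A (LinearMap.ker p1) := by
    apply LinearMap.isCompl_of_proj
    intro x
    change eA x - φ.symm (eB x) = x
    rw [hA1, hB2, map_zero, sub_zero]
  have h2 : IsCompl B (LinearMap.ker p2) := by
    apply LinearMap.isCompl_of_proj
    intro x
    change eB x - φ (eA x) = x
    rw [hB1, hA2, map_zero, sub_zero]
  have h3 : LinearMap.ker p1 = LinearMap.ker p2 := by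
    ext v
    rw [LinearMap.mem_ker, LinearMap.mem_ker]
    change eA v - φ.symm (eB v) = 0 ↔ eB v - φ (eA v) = 0
    rw [sub_eq_zero, sub_eq_zero, LinearEquiv.eq_symm_apply, eq_comm]
  exact ⟨LinearMap.ker p1, h1, h3 ▸ h2⟩

end ideal

section top

variable {F : Type v} [Field F] {V : Type u} [AddCommGroup V] [Module F V]
  {K : Subgroup (Module.End F V)ˣ}

/-- the images of `range e` under elements of `K` -/
def Orb (K : Subgroup (Module.End F V)ˣ) (e : Module.End F V) (X : Submodule F V) : Prop :=
  ∃ h h' : Module.End F V, InK K h ∧ h * h' = 1 ∧ h' * h = 1 ∧ ∀ v, v ∈ X ↔ e (h' v) = h' v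

theorem mul_apply' (a b : Module.End F V) (v : V) : (a * b) v = a (b v) := rfl

theorem Orb.compl {e a a' : Module.End F V} (he : e * e = e) (ha : a * e = a)
    (ha' : e * a' = a') (haa : a' * a = e) (haa' : a * a' = 1 - e)
    (hU : ∀ n, InK K (1 + (1 - e) * n * e)) (hL : ∀ n, InK K (1 + e * n * (1 - e)))
    {X Y : Submodule F V} (hX : Orb K e X) (hXY : IsCompl X Y) : Orb K e Y := by
  obtain ⟨h, h', hh, hhh, hhh', hX⟩ := hX
  -- the swap
  have hea : e * a = 0 := by
    have : (1 - e) * a = a := by
      calc (1 - e) * a = a * a' * a := by rw [haa']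
        _ = a * (a' * a) := by rw [mul_assoc]
        _ = a := by rw [haa, ha]
    rw [sub_mul, one_mul, sub_eq_self] at this
    exact this
  have hae' : a' * e = 0 := by
    have : a' * (1 - e) = a' := by
      calc a' * (1 - e) = a' * a * a' := by rw [← haa', mul_assoc]
        _ = a' := by rw [haa, ha']
    rw [mul_sub, mul_one, sub_eq_self] at this
    exact this
  have hw : InK K (a - a') := by
    have h1 := hU a
    have h2 := hL (-a')
    have e1 : (1 - e) * a * e = a := by rw [mul_assoc, ha, sub_mul, one_mul, hea, sub_zero]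
    have e2 : e * (-a') * (1 - e) = -a' := by
      rw [mul_neg, ha', neg_mul, mul_sub, mul_one, hae', sub_zero]
    rw [e1] at h1
    rw [e2] at h2
    have h3 := (h1.mul h2).mul h1
    have haa0 : a * a = 0 := by
      calc a * a = (a * e) * a := by rw [ha]
        _ = a * (e * a) := by rw [mul_assoc]
        _ = 0 := by rw [hea, mul_zero]
    have e3 : (1 + a) * (1 + -a') * (1 + a) = a - a' := by
      calc (1 + a) * (1 + -a') * (1 + a)
          = 1 + a - a' - a' * a + a + a * a - a * a' - a * (a' * a) := by noncomm_ring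
        _ = a - a' := by rw [haa, haa', haa0, ha]; noncomm_ring
    rwa [e3] at h3
  have hww : (a - a') * (a' - a) = 1 := by
    have haa0 : a * a = 0 := by
      calc a * a = (a * e) * a := by rw [ha]
        _ = a * (e * a) := by rw [mul_assoc]
        _ = 0 := by rw [hea, mul_zero]
    have haa0' : a' * a' = 0 := by
      calc a' * a' = (a' * e) * a' := by rw [mul_assoc, ha']
        _ = 0 := by rw [hae', zero_mul]
    calc (a - a') * (a' - a) = a * a' - a * a - a' * a' + a' * a := by noncomm_ring
      _ = 1 := by rw [haa, haa', haa0, haa0']; abel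
  have hww' : (a' - a) * (a - a') = 1 := by
    have : (a' - a) * (a - a') = (a - a') * (a' - a) := by noncomm_ring
    rw [this, hww]
  -- the complement of `range e`
  let Y1 : Submodule F V := Y.comap h
  have hcompl : IsCompl Y1 (LinearMap.range e) := by
    constructor
    · rw [Submodule.disjoint_def]
      intro v hv hv'
      obtain ⟨u, rfl⟩ := hv'
      have h1 : h (e u) ∈ X := by
        rw [hX, ← mul_apply' h' h, hhh']
        change e (e u) = e u
        rw [← mul_apply', he]
      have h2 : h (e u) = 0 := Submodule.disjoint_def.1 hXY.disjoint _ h1 hv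
      have h3 : h' (h (e u)) = e u := by rw [← mul_apply', hhh']; rfl
      rw [← h3, h2, map_zero]
    · rw [codisjoint_iff, eq_top_iff]
      intro v _
      obtain ⟨x, hx, y, hy, hxy⟩ := Submodule.mem_sup.1
        (show h v ∈ X ⊔ Y by rw [hXY.sup_eq_top]; exact Submodule.mem_top)
      rw [Submodule.mem_sup]
      refine ⟨h' y, ?_, h' x, ?_, ?_⟩
      · change h (h' y) ∈ Y
        rw [← mul_apply', hhh]; exact hy
      · rw [← (hX x).1 hx]; exact ⟨h' x, rfl⟩
      · rw [← map_add, add_comm, hxy, ← mul_apply', hhh']; rfl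
  let P : Module.End F V := Y1.subtype ∘ₗ Submodule.projectionOnto Y1 (LinearMap.range e) hcompl
  have hP1 : ∀ v, v ∈ Y1 ↔ P v = v := by
    intro v
    constructor
    · intro hv
      change ((Submodule.projectionOnto Y1 (LinearMap.range e) hcompl
        ((⟨v, hv⟩ : Y1) : V) : Y1) : V) = v
      rw [Submodule.projectionOnto_apply_left]
    · intro hv
      rw [← hv]
      exact (Submodule.projectionOnto Y1 (LinearMap.range e) hcompl v).2
  have hP2 : ∀ v, P (e v) = 0 := by
    intro v
    change ((Submodule.projectionOnto Y1 (LinearMap.range e) hcompl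
      ((⟨e v, v, rfl⟩ : LinearMap.range e) : V) : Y1) : V) = 0
    rw [Submodule.projectionOnto_apply_right]
    rfl
  have hP3 : ∀ v, e (P v - v) = P v - v := by
    intro v
    have h1 : P (P v - v) = 0 := by
      rw [map_sub, (hP1 (P v)).1 (Submodule.projectionOnto Y1 _ hcompl v).2, sub_self]
    have h2 : P v - v ∈ LinearMap.range e := by
      have h3 : Submodule.projectionOnto Y1 (LinearMap.range e) hcompl (P v - v) = 0 :=
        Subtype.ext h1
      exact (Submodule.projectionOnto_apply_eq_zero_iff hcompl).1 h3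
    obtain ⟨u, hu⟩ := h2
    rw [← hu, ← mul_apply', he]
  have hT := hL (P - 1)
  have hnn : e * (P - 1) * (1 - e) * (e * (P - 1) * (1 - e)) = 0 := by
    calc e * (P - 1) * (1 - e) * (e * (P - 1) * (1 - e))
        = e * (P - 1) * (e - e * e) * (P - 1) * (1 - e) := by noncomm_ring
      _ = 0 := by rw [he]; noncomm_ring
  refine ⟨h * (1 + e * (P - 1) * (1 - e)) * (a - a'), (a' - a) * (1 - e * (P - 1) * (1 - e)) * h',
    (hh.mul hT).mul hw, ?_, ?_, ?_⟩
  · calc h * (1 + e * (P - 1) * (1 - e)) * (a - a') * ((a' - a) * (1 - e * (P - 1) * (1 - e)) * h')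
        = h * (1 + e * (P - 1) * (1 - e)) * ((a - a') * (a' - a)) *
          (1 - e * (P - 1) * (1 - e)) * h' := by
          simp only [mul_assoc]
      _ = h * ((1 + e * (P - 1) * (1 - e)) * (1 - e * (P - 1) * (1 - e))) * h' := by
          rw [hww, mul_one]; simp only [mul_assoc]
      _ = 1 := by rw [one_add_mul_one_sub hnn, mul_one, hhh]
  · calc (a' - a) * (1 - e * (P - 1) * (1 - e)) * h' * (h * (1 + e * (P - 1) * (1 - e)) * (a - a'))
        = (a' - a) * (1 - e * (P - 1) * (1 - e)) * (h' * h) * (1 + e * (P - 1) * (1 - e)) *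
          (a - a') := by simp only [mul_assoc]
      _ = (a' - a) * ((1 - e * (P - 1) * (1 - e)) * (1 + e * (P - 1) * (1 - e))) * (a - a') := by
          rw [hhh', mul_one]; simp only [mul_assoc]
      _ = 1 := by rw [one_sub_mul_one_add hnn, mul_one, hww']
  · intro v
    set v1 := h' v with hv1
    have e1 : v ∈ Y ↔ v1 ∈ Y1 := by
      change v ∈ Y ↔ h (h' v) ∈ Y
      rw [← mul_apply', hhh]; rfl
    set v2 := (1 - e * (P - 1) * (1 - e)) v1 with hv2
    have e2 : e v2 = v1 - P v1 := by
      have h1 : (e * (P - 1) * (1 - e)) v1 = P v1 - (v1 - e v1) := by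
        change e ((P - 1) ((1 - e) v1)) = _
        have h2 : (P - 1) ((1 - e) v1) = P v1 - (v1 - e v1) := by
          change P (v1 - e v1) - (v1 - e v1) = _
          rw [map_sub, hP2, sub_zero]
        rw [h2]
        have h3 : P v1 - (v1 - e v1) = (P v1 - v1) + e v1 := by abel
        rw [h3, map_add, hP3, ← mul_apply' e e, he]
      have h4 : v2 = v1 - (P v1 - (v1 - e v1)) := by
        rw [hv2, ← h1]; rfl
      have h5 : v2 = v1 - ((P v1 - v1) + e v1) := by rw [h4]; abel
      rw [h5, map_sub, map_add, hP3, ← mul_apply' e e, he]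
      abel
    have e3 : v1 ∈ Y1 ↔ e v2 = 0 := by
      rw [hP1, e2, sub_eq_zero, eq_comm]
    have e4 : ((a' - a) * (1 - e * (P - 1) * (1 - e)) * h') v = a' v2 - a v2 := rfl
    rw [e1, e3, e4]
    have e5 : e (a' v2 - a v2) = a' v2 := by
      rw [map_sub, ← mul_apply' e a', ← mul_apply' e a, ha', hea]; simp
    rw [e5]
    constructor
    · intro h0
      have : a v2 = 0 := by rw [← ha, mul_apply', h0, map_zero]
      rw [this, sub_zero]
    · intro h0
      have h1 : a v2 = 0 := by
        have := h0
        rw [eq_comm, sub_eq_self] at this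
        exact this
      rw [← haa, mul_apply', h1, map_zero]

end top

end Pool.Agent.R700.AS
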