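import Mathlib
import Pool.Agent.R700.ASc

/-!
# Overgroups of block monomial groups: generation of the whole group
-/

namespace Pool.Agent.R700.AS

open Module

universe u v

variable {F : Type v} [Field F] {V : Type u} [AddCommGroup V] [Module F V]
  {K : Subgroup (Module.End F V)ˣ}

theorem Orb.move {e a a' : Module.End F V} (he : e * e = e) (ha : a * e = a)
    (ha' : e * a' = a') (haa : a' * a = e) (haa' : a * a' = 1 - e)
    (hU : ∀ n, InK K (1 + (1 - e) * n * e)) (hL : ∀ n, InK K (1 + e * n * (1 - e)))
    {y1 y2 z1 z2 : Module.End F V} (h1 : z1 * y1 = 1) (h2 : z2 * y2 = 1)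
    (hd : Disjoint (LinearMap.range y1) (LinearMap.range y2))
    (ho : Orb K e (LinearMap.range y1)) : Orb K e (LinearMap.range y2) := by
  have i1 : Function.Injective y1 := by
    intro v w hvw
    have : z1 (y1 v) = z1 (y1 w) := by rw [hvw]
    rwa [← mul_apply', ← mul_apply', h1] at this
  have i2 : Function.Injective y2 := by
    intro v w hvw
    have : z2 (y2 v) = z2 (y2 w) := by rw [hvw]
    rwa [← mul_apply', ← mul_apply', h2] at this
  obtain ⟨C, hC1, hC2⟩ := exists_common_compl hd
    ((LinearEquiv.ofInjective y1 i1).symm.trans (LinearEquiv.ofInjective y2 i2))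
  have o1 := Orb.compl he ha ha' haa haa' hU hL ho hC1
  exact Orb.compl he ha ha' haa haa' hU hL o1 hC2.symm

theorem top_of (hr : Cardinal.aleph0 ≤ Module.rank F V) {e t0 s0 t t' : Module.End F V}
    (h00 : s0 * t0 = 1) (he0 : t0 * s0 = e)
    (htt : t' * t = 1) (htt' : t * t' = 1 - e) (hU : ∀ n, InK K (1 + (1 - e) * n * e))
    (hL : ∀ n, InK K (1 + e * n * (1 - e)))
    (hB : ∀ u v, u * v = 1 → v * u = 1 → InK K (1 - e + t0 * u * s0))
    {g g' : Module.End F V} (hgg : g * g' = 1) (hgg' : g' * g = 1) : InK K g := by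
  have he : e * e = e := by
    calc e * e = t0 * (s0 * t0) * s0 := by rw [← he0]; noncomm_ring
      _ = e := by rw [h00, mul_one, he0]
  have het : e * t0 = t0 := by rw [← he0, mul_assoc, h00, mul_one]
  have hse : s0 * e = s0 := by rw [← he0, ← mul_assoc, h00, one_mul]
  have hte : t' * e = 0 := by
    have : t' * (1 - e) = t' := by rw [← htt', ← mul_assoc, htt, one_mul]
    rw [mul_sub, mul_one, sub_eq_self] at this
    exact this
  have het' : e * t = 0 := by
    have : (1 - e) * t = t := by rw [← htt', mul_assoc, htt, mul_one]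
    rw [sub_mul, one_mul, sub_eq_self] at this
    exact this
  have ht't0 : t' * t0 = 0 := by rw [← het, ← mul_assoc, hte, zero_mul]
  have hs0t : s0 * t = 0 := by rw [← hse, mul_assoc, het', mul_zero]
  set a := t * s0 with ha
  set a' := t0 * t' with ha'
  have q1 : a * e = a := by rw [ha, mul_assoc, hse]
  have q2 : e * a' = a' := by rw [ha', ← mul_assoc, het]
  have q3 : a' * a = e := by
    calc a' * a = t0 * (t' * t) * s0 := by rw [ha, ha']; noncomm_ring
      _ = e := by rw [htt, mul_one, he0]
  have q4 : a * a' = 1 - e := by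
    calc a * a' = t * (s0 * t0) * t' := by rw [ha, ha']; noncomm_ring
      _ = 1 - e := by rw [h00, mul_one, htt']
  -- moving the image of `range e`
  have hy0 : (s0 * g') * (g * t0) = 1 := by
    calc (s0 * g') * (g * t0) = s0 * (g' * g) * t0 := by noncomm_ring
      _ = 1 := by rw [hgg', mul_one, h00]
  have hbase : Orb K e (LinearMap.range t0) := by
    refine ⟨1, 1, InK.one, mul_one 1, mul_one 1, fun v => ?_⟩
    constructor
    · rintro ⟨w, rfl⟩
      change e (t0 w) = t0 w
      rw [← mul_apply', het]
    · intro hv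
      change e v = v at hv
      rw [← hv, ← he0]
      exact ⟨s0 v, rfl⟩
  have horb : Orb K e (LinearMap.range (g * t0)) := by
    obtain ⟨y, p', q', hp, hq⟩ := avoid (π := pr hr) (pr_one_ne hr) (pr_P hr)
      (p := 1 - e) (q := g * (1 - e) * g') (by
        intro h0
        apply pr_one_ne hr
        have : (1 : Module.End F V) = t' * (1 - e) * t := by
          rw [mul_sub, mul_one, hte, sub_zero, htt]
        rw [this, map_mul, map_mul, h0, mul_zero, zero_mul]) (by
        intro h0
        apply pr_one_ne hr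
        have : (1 : Module.End F V) = t' * g' * (g * (1 - e) * g') * (g * t) := by
          calc (1 : Module.End F V) = t' * (1 - e) * t := by
                rw [mul_sub, mul_one, hte, sub_zero, htt]
            _ = t' * (g' * g) * (1 - e) * (g' * g) * t := by rw [hgg', mul_one, mul_one]
            _ = _ := by noncomm_ring
        rw [this, map_mul, map_mul, h0, mul_zero, zero_mul])
    have d1 : Disjoint (LinearMap.range t0) (LinearMap.range y) := by
      rw [Submodule.disjoint_def]
      rintro v ⟨w, rfl⟩ ⟨u, hu⟩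
      have : (p' * (1 - e) * y) u = 0 := by
        change p' ((1 - e) (y u)) = 0
        rw [hu]
        have : (1 - e) (t0 w) = 0 := by
          rw [← mul_apply', sub_mul, one_mul, het, sub_self]; rfl
        rw [this, map_zero]
      rw [hp] at this
      change u = 0 at this
      rw [← hu, this, map_zero]
    have d2 : Disjoint (LinearMap.range y) (LinearMap.range (g * t0)) := by
      rw [Submodule.disjoint_def]
      rintro v ⟨u, rfl⟩ ⟨w, hw⟩
      have : (q' * (g * (1 - e) * g') * y) u = 0 := by
        change q' ((g * (1 - e) * g') (y u)) = 0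
        rw [← hw]
        have : (g * (1 - e) * g') ((g * t0) w) = 0 := by
          rw [← mul_apply']
          have : g * (1 - e) * g' * (g * t0) = 0 := by
            calc g * (1 - e) * g' * (g * t0) = g * (1 - e) * (g' * g) * t0 := by noncomm_ring
              _ = g * (t0 - e * t0) := by rw [hgg']; noncomm_ring
              _ = 0 := by rw [het, sub_self, mul_zero]
          rw [this]; rfl
        rw [this, map_zero]
      rw [hq] at this
      change u = 0 at this
      rw [this, map_zero]
    have o1 := Orb.move he q1 q2 q3 q4 hU hL (y1 := t0) (y2 := y) (z1 := s0)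
      (z2 := p' * (1 - e)) h00 hp d1 hbase
    exact Orb.move he q1 q2 q3 q4 hU hL (y1 := y) (y2 := g * t0) (z1 := p' * (1 - e))
      (z2 := s0 * g') hp hy0 d2 o1
  obtain ⟨h, h', hh, hhh, hhh', hX⟩ := horb
  -- the reduced element
  set g1 := h' * g with hg1
  set g1' := g' * h with hg1'
  have hgg1 : g1 * g1' = 1 := by
    calc g1 * g1' = h' * (g * g') * h := by rw [hg1, hg1']; noncomm_ring
      _ = 1 := by rw [hgg, mul_one, hhh']
  have hgg1' : g1' * g1 = 1 := by
    calc g1' * g1 = g' * (h * h') * g := by rw [hg1, hg1']; noncomm_ring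
      _ = 1 := by rw [hhh, mul_one, hgg']
  have r1 : e * (g1 * t0) = g1 * t0 := by
    ext v
    have := (hX ((g * t0) v)).1 ⟨v, rfl⟩
    exact this
  have r1e : e * (g1 * e) = g1 * e := by
    rw [← he0, ← mul_assoc g1, ← mul_assoc (t0 * s0), he0, r1]
  have r2 : e * (g1' * e) = g1' * e := by
    ext v
    have h1 : e (h' (h (e v))) = h' (h (e v)) := by
      rw [← mul_apply' h' h, hhh']
      change e (e v) = e v
      rw [← mul_apply', he]
    obtain ⟨w, hw⟩ := (hX (h (e v))).2 h1
    change e (g' (h (e v))) = g' (h (e v))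
    rw [← hw]
    change e (g' (g (t0 w))) = g' (g (t0 w))
    rw [← mul_apply' g' g, hgg']
    change e (t0 w) = t0 w
    rw [← mul_apply', het]
  have r2t : e * (g1' * t0) = g1' * t0 := by
    calc e * (g1' * t0) = e * (g1' * (e * t0)) := by rw [het]
      _ = (e * (g1' * e)) * t0 := by noncomm_ring
      _ = g1' * (e * t0) := by rw [r2]; noncomm_ring
      _ = g1' * t0 := by rw [het]
  -- the diagonal parts
  have m1 : InK K (1 - e + t0 * (s0 * g1 * t0) * s0) := by
    refine hB _ (s0 * g1' * t0) ?_ ?_
    · calc s0 * g1 * t0 * (s0 * g1' * t0) = s0 * g1 * (t0 * s0 * (g1' * t0)) := by noncomm_ring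
        _ = s0 * (g1 * g1') * t0 := by rw [he0, r2t]; noncomm_ring
        _ = 1 := by rw [hgg1, mul_one, h00]
    · calc s0 * g1' * t0 * (s0 * g1 * t0) = s0 * g1' * (t0 * s0 * (g1 * t0)) := by noncomm_ring
        _ = s0 * (g1' * g1) * t0 := by rw [he0, r1]; noncomm_ring
        _ = 1 := by rw [hgg1', mul_one, h00]
  have z1 : t' * g1 * e = 0 := by
    calc t' * g1 * e = t' * (e * (g1 * e)) := by rw [r1e]; noncomm_ring
      _ = (t' * e) * (g1 * e) := by noncomm_ring
      _ = 0 := by rw [hte, zero_mul]
  have z2 : t' * g1' * e = 0 := by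
    calc t' * g1' * e = t' * (e * (g1' * e)) := by rw [r2]; noncomm_ring
      _ = (t' * e) * (g1' * e) := by noncomm_ring
      _ = 0 := by rw [hte, zero_mul]
  have m2 : InK K (1 - e + t0 * (t' * g1 * t) * s0) := by
    refine hB _ (t' * g1' * t) ?_ ?_
    · calc t' * g1 * t * (t' * g1' * t) = t' * g1 * (t * t') * g1' * t := by noncomm_ring
        _ = t' * (g1 * g1') * t - (t' * g1 * e) * g1' * t := by rw [htt']; noncomm_ring
        _ = 1 := by rw [z1, hgg1, zero_mul, zero_mul, sub_zero, mul_one, htt]
    · calc t' * g1' * t * (t' * g1 * t) = t' * g1' * (t * t') * g1 * t := by noncomm_ring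
        _ = t' * (g1' * g1) * t - (t' * g1' * e) * g1 * t := by rw [htt']; noncomm_ring
        _ = 1 := by rw [z2, hgg1', zero_mul, zero_mul, sub_zero, mul_one, htt]
  have haa0 : a * a = 0 := by
    calc a * a = t * (s0 * t) * s0 := by rw [ha]; noncomm_ring
      _ = 0 := by rw [hs0t]; noncomm_ring
  have haa0' : a' * a' = 0 := by
    calc a' * a' = t0 * (t' * t0) * t' := by rw [ha']; noncomm_ring
      _ = 0 := by rw [ht't0]; noncomm_ring
  have hea : e * a = 0 := by rw [ha, ← mul_assoc, het', zero_mul]
  have hae' : a' * e = 0 := by rw [ha', mul_assoc, hte, mul_zero]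
  have hw : InK K (a - a') := by
    have h1 := hU a
    have h2 := hL (-a')
    have e1 : (1 - e) * a * e = a := by rw [mul_assoc, q1, sub_mul, one_mul, hea, sub_zero]
    have e2 : e * (-a') * (1 - e) = -a' := by
      rw [mul_neg, q2, neg_mul, mul_sub, mul_one, hae', sub_zero]
    rw [e1] at h1
    rw [e2] at h2
    have h3 := (h1.mul h2).mul h1
    have e3 : (1 + a) * (1 + -a') * (1 + a) = a - a' := by
      calc (1 + a) * (1 + -a') * (1 + a)
          = 1 + a - a' - a' * a + a + a * a - a * a' - a * (a' * a) := by noncomm_ring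
        _ = a - a' := by rw [q3, q4, haa0, q1]; noncomm_ring
    rwa [e3] at h3
  have hww : (a - a') * (a' - a) = 1 := by
    calc (a - a') * (a' - a) = a * a' - a * a - a' * a' + a' * a := by noncomm_ring
      _ = 1 := by rw [q3, q4, haa0, haa0']; abel
  have m3 : InK K (e + (1 - e) * g1 * (1 - e)) := by
    have h4 := (hw.mul m2).mul (hw.inv hww)
    have e5 : (a - a') * (1 - e + t0 * (t' * g1 * t) * s0) * (a' - a) =
        e + (1 - e) * g1 * (1 - e) := by
      have e6 : (a - a') * (1 - e + t0 * (t' * g1 * t) * s0) = -a' + t * (t' * g1 * t) * s0 := by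
        calc (a - a') * (1 - e + t0 * (t' * g1 * t) * s0)
            = a - a * e - a' + a' * e + t * (s0 * t0) * (t' * g1 * t) * s0
              - t0 * (t' * t0) * (t' * g1 * t) * s0 := by rw [ha, ha']; noncomm_ring
          _ = _ := by rw [q1, hae', h00, ht't0]; noncomm_ring
      rw [e6]
      calc (-a' + t * (t' * g1 * t) * s0) * (a' - a)
          = -(a' * a') + a' * a + t * (t' * g1 * t) * (s0 * t0) * t'
            - t * (t' * g1 * t) * (s0 * t) * s0 := by rw [ha, ha']; noncomm_ring
        _ = e + (t * t') * g1 * (t * t') := by rw [haa0', q3, h00, hs0t]; noncomm_ring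
        _ = _ := by rw [htt']
    rwa [e5] at h4
  -- the unipotent part
  set a1' := e * g1' * e with ha1'
  set d1' := (1 - e) * g1' * (1 - e) with hd1'
  have m4 := hL (a1' * (e * g1 * (1 - e)) * d1')
  have e7 : e * (a1' * (e * g1 * (1 - e)) * d1') * (1 - e) = a1' * (e * g1 * (1 - e)) * d1' := by
    have i1 : (1 - e) * (1 - e) = 1 - e := by
      calc (1 - e) * (1 - e) = 1 - e - (e - e * e) := by noncomm_ring
        _ = 1 - e := by rw [he, sub_self, sub_zero]
    have l1 : e * a1' = a1' := by rw [ha1', ← mul_assoc, ← mul_assoc, he]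
    have l2 : d1' * (1 - e) = d1' := by rw [hd1', mul_assoc, i1]
    calc e * (a1' * (e * g1 * (1 - e)) * d1') * (1 - e)
        = (e * a1') * (e * g1 * (1 - e)) * (d1' * (1 - e)) := by simp only [mul_assoc]
      _ = _ := by rw [l1, l2]
  rw [e7] at m4
  have m5 := (m1.mul m4).mul m3
  have e8 : t0 * (s0 * g1 * t0) * s0 = e * g1 * e := by rw [← he0]; noncomm_ring
  rw [e8] at m5
  have A1 : (e * g1 * e) * a1' = e := by
    calc (e * g1 * e) * a1' = e * g1 * (e * e) * g1' * e := by rw [ha1']; noncomm_ring
      _ = e * g1 * (e * (g1' * e)) := by rw [he]; noncomm_ring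
      _ = e * (g1 * g1') * e := by rw [r2]; noncomm_ring
      _ = e := by rw [hgg1, mul_one, he]
  have D1 : d1' * ((1 - e) * g1 * (1 - e)) = 1 - e := by
    have i1 : (1 - e) * (1 - e) = 1 - e := by
      calc (1 - e) * (1 - e) = 1 - e - (e - e * e) := by noncomm_ring
        _ = 1 - e := by rw [he, sub_self, sub_zero]
    have i2 : (1 - e) * g1' * e = 0 := by
      calc (1 - e) * g1' * e = g1' * e - e * (g1' * e) := by noncomm_ring
        _ = 0 := by rw [r2, sub_self]
    calc d1' * ((1 - e) * g1 * (1 - e)) = (1 - e) * g1' * ((1 - e) * (1 - e)) * g1 * (1 - e) := by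
          rw [hd1']; noncomm_ring
      _ = (1 - e) * (g1' * g1) * (1 - e) - ((1 - e) * g1' * e) * g1 * (1 - e) := by
          rw [i1]; noncomm_ring
      _ = 1 - e := by rw [hgg1', i2, mul_one, i1]; noncomm_ring
  have fin : (1 - e + e * g1 * e) * (1 + a1' * (e * g1 * (1 - e)) * d1') *
      (e + (1 - e) * g1 * (1 - e)) = g1 := by
    have i3 : (1 - e) * e = 0 := by rw [sub_mul, one_mul, he, sub_self]
    have i3' : e * (1 - e) = 0 := by rw [mul_sub, mul_one, he, sub_self]
    have i1 : (1 - e) * (1 - e) = 1 - e := by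
      calc (1 - e) * (1 - e) = 1 - e - (e - e * e) := by noncomm_ring
        _ = 1 - e := by rw [he, sub_self, sub_zero]
    have i4 : d1' * e = 0 := by rw [hd1', mul_assoc, i3, mul_zero]
    have i5 : (1 - e) * a1' = 0 := by rw [ha1', mul_assoc e, ← mul_assoc, i3, zero_mul]
    have i6 : (1 - e) * g1 * e = 0 := by
      calc (1 - e) * g1 * e = g1 * e - e * (g1 * e) := by noncomm_ring
        _ = 0 := by rw [r1e, sub_self]
    have j1 : (1 - e + e * g1 * e) * (1 + a1' * (e * g1 * (1 - e)) * d1') =
        1 - e + e * g1 * e + e * g1 * (1 - e) * d1' := by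
      calc (1 - e + e * g1 * e) * (1 + a1' * (e * g1 * (1 - e)) * d1')
          = 1 - e + e * g1 * e + ((1 - e) * a1') * (e * g1 * (1 - e)) * d1' +
            ((e * g1 * e) * a1') * (e * g1 * (1 - e)) * d1' := by noncomm_ring
        _ = 1 - e + e * g1 * e + (e * e) * g1 * (1 - e) * d1' := by
            rw [i5, A1]; noncomm_ring
        _ = _ := by rw [he]
    rw [j1]
    calc (1 - e + e * g1 * e + e * g1 * (1 - e) * d1') * (e + (1 - e) * g1 * (1 - e))
        = (1 - e) * e + ((1 - e) * (1 - e)) * g1 * (1 - e) + e * g1 * (e * e)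
          + e * g1 * (e * (1 - e)) * g1 * (1 - e) + e * g1 * (1 - e) * (d1' * e)
          + e * g1 * (1 - e) * (d1' * ((1 - e) * g1 * (1 - e))) := by noncomm_ring
      _ = (1 - e) * g1 * (1 - e) + e * g1 * e + e * g1 * ((1 - e) * (1 - e)) := by
          rw [i3, i1, he, i3', i4, D1, mul_assoc (e * g1) (1 - e) (1 - e), i1, mul_zero, mul_zero,
            zero_mul, zero_mul, zero_add, add_zero, add_zero]
      _ = (1 - e) * g1 * (1 - e) + e * g1 * e + e * g1 * (1 - e) + (1 - e) * g1 * e := by
          rw [i1, i6, add_zero]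
      _ = g1 := by noncomm_ring
  rw [fin] at m5
  have m6 := hh.mul m5
  have e9 : h * g1 = g := by rw [hg1, ← mul_assoc, hhh, one_mul]
  rwa [e9] at m6

end Pool.Agent.R700.AS
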