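import Mathlib
import Pool.Agent.R700.ASd

/-!
# Almost stabilisers of direct decompositions are maximal
-/

namespace Pool.Agent.R700.AS

open Module

universe u v

variable {F : Type v} [Field F] {V : Type u} [AddCommGroup V] [Module F V]

theorem quot_rank {p : Module.End F V} (hp : p * p = p) (q : Module.End F V)
    {S U : Submodule F V} (hU : U = LinearMap.range p)
    (hS : S = LinearMap.range p ⊔ LinearMap.range q) :
    Module.rank F (↥S ⧸ U.submoduleOf S) = LinearMap.rank ((1 - p) * q) := by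
  let f : S →ₗ[F] V := (1 - p) ∘ₗ S.subtype
  have hker : LinearMap.ker f = U.submoduleOf S := by
    ext x
    rw [LinearMap.mem_ker]
    change (x : V) - p x = 0 ↔ (x : V) ∈ U
    rw [hU]
    constructor
    · intro h
      exact ⟨x, (sub_eq_zero.1 h).symm⟩
    · rintro ⟨w, hw⟩
      rw [← hw, ← mul_apply', hp, sub_self]
  have hrange : LinearMap.range f = LinearMap.range ((1 - p) * q) := by
    apply le_antisymm
    · rintro _ ⟨x, rfl⟩
      have hx : (x : V) ∈ LinearMap.range p ⊔ LinearMap.range q := by rw [← hS]; exact x.2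
      obtain ⟨_, ⟨a, rfl⟩, _, ⟨b, rfl⟩, hab⟩ := Submodule.mem_sup.1 hx
      refine ⟨b, ?_⟩
      change q b - p (q b) = (x : V) - p x
      rw [← hab, map_add, ← mul_apply' p p, hp]
      abel
    · rintro _ ⟨b, rfl⟩
      have hb : q b ∈ S := by rw [hS]; exact Submodule.mem_sup_right ⟨b, rfl⟩
      exact ⟨⟨q b, hb⟩, rfl⟩
  rw [← hker, LinearMap.rank, ← hrange]
  exact (LinearMap.quotKerEquivRange f).rank_eq

theorem blocks_exist {n : ℕ} {Vs : Fin n → Submodule F V} (hdec : DirectSum.IsInternal Vs)
    (hdim : ∀ i, Module.rank F (Vs i) = Module.rank F V) :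
    ∃ τ τs : Fin n → Module.End F V, Blocks τ τs ∧
      ∀ i, LinearMap.range (τ i * τs i) = Vs i := by
  let E : (DirectSum (Fin n) fun i => Vs i) ≃ₗ[F] V :=
    LinearEquiv.ofBijective (DirectSum.coeLinearMap Vs) hdec
  let c : ∀ i, V →ₗ[F] Vs i := fun i =>
    (DirectSum.component F (Fin n) (fun i => Vs i) i) ∘ₗ (E.symm : V →ₗ[F] _)
  have hE : ∀ k (x : Vs k), E.symm (x : V) = DirectSum.lof F (Fin n) (fun i => Vs i) k x := by
    intro k x
    rw [LinearEquiv.symm_apply_eq]
    exact (DirectSum.coeLinearMap_lof Vs k x).symm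
  have hc1 : ∀ i (x : Vs i), c i x = x := by
    intro i x
    change DirectSum.component F (Fin n) (fun i => Vs i) i (E.symm (x : V)) = x
    rw [hE, DirectSum.component.lof_self]
  have hc2 : ∀ i k (x : Vs k), k ≠ i → c i x = 0 := by
    intro i k x hki
    change DirectSum.component F (Fin n) (fun i => Vs i) i (E.symm (x : V)) = 0
    rw [hE, DirectSum.component.of, dif_neg hki]
  have hsum : ∀ v : V, ∑ i, ((c i v : Vs i) : V) = v := by
    intro v
    obtain ⟨x, rfl⟩ := E.surjective v
    induction x using DirectSum.induction_on with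
    | zero => simp
    | of k x =>
      have e : E (DirectSum.of (fun i => Vs i) k x) = (x : V) := DirectSum.coeLinearMap_of Vs k x
      rw [e, Finset.sum_eq_single k]
      · rw [hc1]
      · intro i _ hi
        rw [hc2 i k x (Ne.symm hi)]; rfl
      · intro h; exact absurd (Finset.mem_univ _) h
    | add x y hx hy =>
      rw [map_add]
      conv_rhs => rw [← hx, ← hy]
      rw [← Finset.sum_add_distrib]
      refine Finset.sum_congr rfl fun i _ => ?_
      rw [map_add]; rfl
  have hφ : ∀ i, Nonempty (V ≃ₗ[F] Vs i) := fun i =>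
    nonempty_linearEquiv_of_rank_eq (hdim i).symm
  let φ : ∀ i, V ≃ₗ[F] Vs i := fun i => (hφ i).some
  refine ⟨fun i => (Vs i).subtype ∘ₗ (φ i : V →ₗ[F] Vs i),
    fun i => ((φ i).symm : Vs i →ₗ[F] V) ∘ₗ c i, ⟨?_, ?_⟩, ?_⟩
  · intro i k
    by_cases hik : i = k
    · subst hik
      rw [if_pos rfl]
      ext v
      change (φ i).symm (c i (φ i v : Vs i)) = v
      rw [hc1, LinearEquiv.symm_apply_apply]
    · rw [if_neg hik]
      ext v
      change (φ i).symm (c i (φ k v : Vs k)) = 0
      rw [hc2 i k _ (Ne.symm hik), map_zero]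
  · ext v
    rw [LinearMap.sum_apply]
    have : ∀ i, (((Vs i).subtype ∘ₗ (φ i : V →ₗ[F] Vs i)) *
        (((φ i).symm : Vs i →ₗ[F] V) ∘ₗ c i) : Module.End F V) v = ((c i v : Vs i) : V) := by
      intro i
      change ((φ i ((φ i).symm (c i v)) : Vs i) : V) = _
      rw [LinearEquiv.apply_symm_apply]
    rw [Finset.sum_congr rfl fun i _ => this i, hsum]
    rfl
  · intro i
    have h1 : ∀ v, (((Vs i).subtype ∘ₗ (φ i : V →ₗ[F] Vs i)) *
        (((φ i).symm : Vs i →ₗ[F] V) ∘ₗ c i) : Module.End F V) v = ((c i v : Vs i) : V) := by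
      intro v
      change ((φ i ((φ i).symm (c i v)) : Vs i) : V) = _
      rw [LinearEquiv.apply_symm_apply]
    ext v
    constructor
    · rintro ⟨w, hw⟩
      rw [h1] at hw
      rw [← hw]; exact (c i w).2
    · intro hv
      refine ⟨v, ?_⟩
      rw [h1]
      exact congrArg Subtype.val (hc1 i ⟨v, hv⟩)

section group

variable (hr : Cardinal.aleph0 ≤ Module.rank F V) {n : ℕ} (τ τs : Fin n → Module.End F V)

/-- the block monomial group -/
def mono : Subgroup (Module.End F V)ˣ where
  carrier := {g | ∃ σ : Equiv.Perm (Fin n), ∀ i,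
    pr hr (τ (σ i) * τs (σ i)) * pr hr g = pr hr g * pr hr (τ i * τs i)}
  mul_mem' := by
    rintro g h ⟨σ, hσ⟩ ⟨ρ, hρ⟩
    refine ⟨σ * ρ, fun i => ?_⟩
    have hm : pr hr ((g * h : (Module.End F V)ˣ) : Module.End F V) = pr hr g * pr hr h := by
      rw [Units.val_mul, map_mul]
    rw [hm, ← mul_assoc]
    change pr hr (τ (σ (ρ i)) * τs (σ (ρ i))) * pr hr g * pr hr h = _
    rw [hσ, mul_assoc, hρ, mul_assoc]
  one_mem' := ⟨1, fun i => by rw [Units.val_one, map_one, mul_one, one_mul]; rfl⟩
  inv_mem' := by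
    rintro g ⟨σ, hσ⟩
    refine ⟨σ⁻¹, fun i => ?_⟩
    have h1 := hσ (σ⁻¹ i)
    rw [perm_apply_inv] at h1
    have h2 : pr hr ((g⁻¹ : (Module.End F V)ˣ) : Module.End F V) * pr hr g = 1 := by
      rw [← map_mul, Units.inv_mul, map_one]
    have h3 : pr hr g * pr hr ((g⁻¹ : (Module.End F V)ˣ) : Module.End F V) = 1 := by
      rw [← map_mul, Units.mul_inv, map_one]
    calc pr hr (τ (σ⁻¹ i) * τs (σ⁻¹ i)) * pr hr ((g⁻¹ : (Module.End F V)ˣ) : Module.End F V)
        = pr hr ((g⁻¹ : (Module.End F V)ˣ) : Module.End F V) *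
          (pr hr g * pr hr (τ (σ⁻¹ i) * τs (σ⁻¹ i))) *
          pr hr ((g⁻¹ : (Module.End F V)ˣ) : Module.End F V) := by
          rw [← mul_assoc, h2, one_mul]
      _ = pr hr ((g⁻¹ : (Module.End F V)ˣ) : Module.End F V) *
          pr hr (τ i * τs i) := by
          rw [← h1, mul_assoc, mul_assoc, h3, mul_one]

theorem mem_mono {g : (Module.End F V)ˣ} : g ∈ mono hr τ τs ↔
    ∃ σ : Equiv.Perm (Fin n), ∀ i,
      pr hr (τ (σ i) * τs (σ i)) * pr hr g = pr hr g * pr hr (τ i * τs i) := Iff.rfl

variable {τ τs}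

theorem mono_iff (h : Blocks τ τs) (g : (Module.End F V)ˣ) : g ∈ mono hr τ τs ↔
    ∃ σ : Equiv.Perm (Fin n), ∀ i,
      pr hr ((1 - τ (σ i) * τs (σ i)) * (g : Module.End F V) * (τ i * τs i)) = 0 ∧
      pr hr ((1 - τ i * τs i) * ((g⁻¹ : (Module.End F V)ˣ) : Module.End F V) *
        (τ (σ i) * τs (σ i))) = 0 := by
  rw [mem_mono]
  have h2 : pr hr ((g⁻¹ : (Module.End F V)ˣ) : Module.End F V) * pr hr g = 1 := by
    rw [← map_mul, Units.inv_mul, map_one]
  have h3 : pr hr g * pr hr ((g⁻¹ : (Module.End F V)ˣ) : Module.End F V) = 1 := by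
    rw [← map_mul, Units.mul_inv, map_one]
  have hee : ∀ i, pr hr (τ i * τs i) * pr hr (τ i * τs i) = pr hr (τ i * τs i) := by
    intro i; rw [← map_mul, h.ee]
  have hene : ∀ i k, i ≠ k → pr hr (τ i * τs i) * pr hr (τ k * τs k) = 0 := by
    intro i k hik; rw [← map_mul, h.ene hik, map_zero]
  have hsum : ∑ i, pr hr (τ i * τs i) = 1 := by rw [← map_sum, h.sum, map_one]
  set G := pr hr g
  set G' := pr hr ((g⁻¹ : (Module.End F V)ˣ) : Module.End F V)
  set e : Fin n → (smallI hr).ringCon.Quotient := fun i => pr hr (τ i * τs i) with he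
  constructor
  · rintro ⟨σ, hσ⟩
    refine ⟨σ, fun i => ⟨?_, ?_⟩⟩
    · have h1 : e (σ i) * G = G * e i := hσ i
      have : pr hr ((1 - τ (σ i) * τs (σ i)) * (g : Module.End F V) * (τ i * τs i)) =
          (1 - e (σ i)) * G * e i := by rw [map_mul, map_mul, map_sub, map_one]
      rw [this, sub_mul, one_mul, h1, sub_mul, mul_assoc G, hee, sub_self]
    · have h1 : e (σ i) * G = G * e i := hσ i
      have h4 : G' * e (σ i) = e i * G' := by
        calc G' * e (σ i) = G' * (e (σ i) * G) * G' := by
              rw [mul_assoc, mul_assoc, h3, mul_one]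
          _ = e i * G' := by rw [h1, ← mul_assoc, h2, one_mul]
      have : pr hr ((1 - τ i * τs i) * ((g⁻¹ : (Module.End F V)ˣ) : Module.End F V) *
        (τ (σ i) * τs (σ i))) = (1 - e i) * G' * e (σ i) := by
          rw [map_mul, map_mul, map_sub, map_one]
      rw [this, mul_assoc, h4, ← mul_assoc, sub_mul, one_mul, hee, sub_self, zero_mul]
  · rintro ⟨σ, hσ⟩
    refine ⟨σ, fun i => ?_⟩
    change e (σ i) * G = G * e i
    have k1 : ∀ i, e (σ i) * (G * e i) = G * e i := by
      intro i
      have := (hσ i).1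
      rw [map_mul, map_mul, map_sub, map_one] at this
      have h4 : (1 - e (σ i)) * G * e i = 0 := this
      rw [sub_mul, one_mul, sub_mul, sub_eq_zero] at h4
      rw [← mul_assoc]; exact h4.symm
    have k2 : ∀ i, e i * (G' * e (σ i)) = G' * e (σ i) := by
      intro i
      have := (hσ i).2
      rw [map_mul, map_mul, map_sub, map_one] at this
      have h4 : (1 - e i) * G' * e (σ i) = 0 := this
      rw [sub_mul, one_mul, sub_mul, sub_eq_zero] at h4
      rw [← mul_assoc]; exact h4.symm
    have k3 : ∀ j, j ≠ i → e (σ i) * (G * e j) = 0 := by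
      intro j hj
      rw [← k1 j, ← mul_assoc, hene _ _ (fun h' => hj (σ.injective h').symm), zero_mul]
    calc e (σ i) * G = ∑ j, e (σ i) * (G * e j) := by
          rw [← Finset.mul_sum, ← Finset.mul_sum, hsum, mul_one]
      _ = e (σ i) * (G * e i) := by
          rw [Finset.sum_eq_single i (fun j _ hj => k3 j hj)
            (fun h' => absurd (Finset.mem_univ _) h')]
      _ = G * e i := k1 i

theorem mono_over (h : Blocks τ τs) {K : Subgroup (Module.End F V)ˣ}
    (hK : mono hr τ τs ≤ K) : Over (pr hr) τ τs K := by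
  refine ⟨fun u hu => hK ⟨1, fun i => ?_⟩, fun u hu => hK ⟨1, fun i => ?_⟩,
    fun σ u hu => hK ⟨σ, fun i => ?_⟩⟩
  · rw [hu, one_mul, mul_one]; rfl
  · rw [← map_mul, ← map_mul, hu i]; rfl
  · rw [← map_mul, ← map_mul, hu]
    congr 1
    rw [Finset.mul_sum, Finset.sum_mul, Finset.sum_eq_single i, Finset.sum_eq_single i]
    · calc τ (σ i) * τs (σ i) * (τ (σ i) * τs i) = τ (σ i) * (τs (σ i) * τ (σ i)) * τs i := by
            noncomm_ring
        _ = τ (σ i) * (τs i * τ i) * τs i := by rw [h.same, h.same]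
        _ = _ := by noncomm_ring
    · intro j _ hj
      calc τ (σ j) * τs j * (τ i * τs i) = τ (σ j) * (τs j * τ i) * τs i := by noncomm_ring
        _ = 0 := by rw [h.ne hj]; noncomm_ring
    · intro h'; exact absurd (Finset.mem_univ _) h'
    · intro j _ hj
      calc τ (σ i) * τs (σ i) * (τ (σ j) * τs j) = τ (σ i) * (τs (σ i) * τ (σ j)) * τs j := by
            noncomm_ring
        _ = 0 := by rw [h.ne (fun h' => hj (σ.injective h').symm)]; noncomm_ring
    · intro h'; exact absurd (Finset.mem_univ _) h'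

theorem notMono_of (h : Blocks τ τs) {g : (Module.End F V)ˣ} (hg : g ∉ mono hr τ τs) :
    NotMono (pr hr) τ τs (g : Module.End F V) := by
  rintro ⟨σ, hσ⟩
  apply hg
  refine ⟨σ, fun i => ?_⟩
  have h1 : pr hr (τ (σ i) * τs (σ i)) * pr hr g =
      pr hr (τ (σ i) * τs (σ i) * (g : Module.End F V) * (τ i * τs i)) := by
    calc pr hr (τ (σ i) * τs (σ i)) * pr hr g
        = pr hr (∑ j, τ (σ i) * τs (σ i) * (g : Module.End F V) * (τ j * τs j)) := by
          rw [← Finset.mul_sum, h.sum, mul_one, map_mul (pr hr) (τ (σ i) * τs (σ i))]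
      _ = _ := by
          rw [map_sum, Finset.sum_eq_single i]
          · intro j _ hj
            exact hσ j (σ i) (fun h' => hj (σ.injective h').symm)
          · intro h'; exact absurd (Finset.mem_univ _) h'
  have h2 : pr hr g * pr hr (τ i * τs i) =
      pr hr (τ (σ i) * τs (σ i) * (g : Module.End F V) * (τ i * τs i)) := by
    calc pr hr g * pr hr (τ i * τs i)
        = pr hr (∑ k, τ k * τs k * (g : Module.End F V) * (τ i * τs i)) := by
          rw [← Finset.sum_mul, ← Finset.sum_mul, h.sum, one_mul,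
            map_mul (pr hr) (g : Module.End F V)]
      _ = _ := by
          rw [map_sum, Finset.sum_eq_single (σ i)]
          · intro k _ hk
            exact hσ i k hk
          · intro h'; exact absurd (Finset.mem_univ _) h'
  rw [h1, h2]

theorem mono_coatom (h : Blocks τ τs) (hn : 2 ≤ n) : IsCoatom (mono hr τ τs) := by
  have : NeZero n := ⟨by omega⟩
  have : Nontrivial (Fin n) := Fin.nontrivial_iff_two_le.2 hn
  have hone : pr hr 1 ≠ 0 := pr_one_ne hr
  have hei : ∀ i, pr hr (τ i * τs i) ≠ 0 := by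
    intro i h0
    apply hone
    have e : (1 : Module.End F V) = τs i * (τ i * τs i) * τ i := by
      calc (1 : Module.End F V) = (τs i * τ i) * (τs i * τ i) := by rw [h.same, one_mul]
        _ = _ := by noncomm_ring
    rw [e, map_mul, map_mul, h0, mul_zero, zero_mul]
  obtain ⟨o, m, hom⟩ := exists_pair_ne (Fin n)
  constructor
  · -- the group is proper
    intro htop
    have hsq : (τ m * τs o) * (τ m * τs o) = 0 := by
      calc (τ m * τs o) * (τ m * τs o) = τ m * (τs o * τ m) * τs o := by noncomm_ring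
        _ = 0 := by rw [h.ne hom]; noncomm_ring
    let w : (Module.End F V)ˣ := ⟨1 + τ m * τs o, 1 - τ m * τs o, one_add_mul_one_sub hsq,
      one_sub_mul_one_add hsq⟩
    have hw : w ∈ mono hr τ τs := by rw [htop]; trivial
    obtain ⟨σ, hσ⟩ := hw
    have h1 := hσ o
    rw [← map_mul, ← map_mul] at h1
    change pr hr (τ (σ o) * τs (σ o) * (1 + τ m * τs o)) =
      pr hr ((1 + τ m * τs o) * (τ o * τs o)) at h1
    have e0 : (1 + τ m * τs o) * (τ o * τs o) = τ o * τs o + τ m * τs o := by
      calc (1 + τ m * τs o) * (τ o * τs o) = τ o * τs o + τ m * (τs o * τ o) * τs o := by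
            noncomm_ring
        _ = _ := by rw [h.same, mul_one]
    by_cases hs : σ o = o
    · rw [hs, e0] at h1
      have e1 : τ o * τs o * (1 + τ m * τs o) = τ o * τs o := by
        calc τ o * τs o * (1 + τ m * τs o) = τ o * τs o + τ o * (τs o * τ m) * τs o := by
              noncomm_ring
          _ = _ := by rw [h.ne hom]; noncomm_ring
      rw [e1, map_add, left_eq_add] at h1
      apply hone
      have e2 : (1 : Module.End F V) = τs m * (τ m * τs o) * τ o := by
        calc (1 : Module.End F V) = (τs m * τ m) * (τs o * τ o) := by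
              rw [h.same, h.same, one_mul]
          _ = _ := by noncomm_ring
      rw [e2, map_mul, map_mul, h1, mul_zero, zero_mul]
    · apply hei o
      have e1 : τ o * τs o * (τ (σ o) * τs (σ o) * (1 + τ m * τs o)) = 0 := by
        rw [← mul_assoc, h.ene (Ne.symm hs), zero_mul]
      have e2 : τ o * τs o * ((1 + τ m * τs o) * (τ o * τs o)) = τ o * τs o := by
        rw [e0, mul_add, h.ee]
        have : τ o * τs o * (τ m * τs o) = 0 := by
          calc τ o * τs o * (τ m * τs o) = τ o * (τs o * τ m) * τs o := by noncomm_ring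
            _ = 0 := by rw [h.ne hom]; noncomm_ring
        rw [this, add_zero]
      rw [← e2, map_mul, ← h1, ← map_mul, e1, map_zero]
  · intro K hK
    obtain ⟨g, hgK, hg⟩ := SetLike.exists_of_lt hK
    have hO := mono_over hr h hK.le
    have hN := notMono_of hr h hg
    have hall : ∀ {i j : Fin n}, i ≠ j → ∀ r, InK K (1 + τ j * r * τs i) := by
      intro i j hij r
      exact hO.main h hone (pr_P hr) (g := (g : Module.End F V))
        (g' := ((g⁻¹ : (Module.End F V)ˣ) : Module.End F V)) ⟨g, hgK, rfl⟩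
        (Units.mul_inv g) (Units.inv_mul g) hN hij r
    have hU := Over.lower (K := K) h o hall
    have hL := Over.upper (K := K) h o hall
    have hid : (1 - τ o * τs o) * (1 - τ o * τs o) = 1 - τ o * τs o := by
      calc (1 - τ o * τs o) * (1 - τ o * τs o)
          = 1 - τ o * τs o - (τ o * τs o - τ o * τs o * (τ o * τs o)) := by noncomm_ring
        _ = _ := by rw [h.ee, sub_self, sub_zero]
    have hrk : Module.rank F (LinearMap.range (1 - τ o * τs o)) = Module.rank F V := by
      refine le_antisymm (Submodule.rank_le _) ?_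
      have h0 : pr hr (1 - τ o * τs o) ≠ 0 := by
        intro h0
        apply hone
        have e2 : (1 : Module.End F V) = τs m * (1 - τ o * τs o) * τ m := by
          calc (1 : Module.End F V) = τs m * τ m - (τs m * τ o) * τs o * τ m := by
                rw [h.same, h.ne (Ne.symm hom)]; noncomm_ring
            _ = _ := by noncomm_ring
        rw [e2, map_mul, map_mul, h0, mul_zero, zero_mul]
      rw [Ne, pr_eq_zero, not_lt] at h0
      exact h0
    obtain ⟨t, t', ht, ht'⟩ := exists_iso_idem hid hrk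
    rw [eq_top_iff]
    intro x _
    obtain ⟨y, hy, hyx⟩ := top_of (K := K) hr (e := τ o * τs o) (t0 := τ o) (s0 := τs o)
      (h.same o) rfl ht ht' hU hL (fun u v huv hvu => hO.bu_mem h o huv hvu)
      (Units.mul_inv x) (Units.inv_mul x)
    rwa [Units.ext hyx] at hy

end group

end Pool.Agent.R700.AS
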