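import Pool.Agent.R700.Zas

set_option autoImplicit false

/-!
# The endomorphism ring
-/

namespace Pool.Agent.R700.Zas

universe u

variable {E : Type u} [Ring E] [Algebra ℚ E] (R : Subring E)

/-- The element attached to a task and a prime. -/
noncomputable def task (t : E × Bool) (p : ℕ) : E :=
  open Classical in
  if t.1 * t.1 = 0 then (p : E) - t.1
  else if t.2 = true then 1 + ((p : E) - 1) * t.1 else 1 + ((p : E) - 1) * (1 - t.1)

theorem exists_h {G : Set E} (hGc : G.Countable) (hGR : G ⊆ R)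
    (hGs : ∀ g ∈ G, g * g = 0 ∨ g * g = g) :
    ∃ h : ℕ → E, (∀ p, h p ∈ R) ∧
      (∀ p, p.Prime → (∃ g ∈ R, g * g = 0 ∧ h p = (p : E) - g) ∨
        ∃ e ∈ R, e * e = e ∧ h p = 1 + ((p : E) - 1) * e) ∧
      (∀ g ∈ G, (g * g = 0 ∧ {p : ℕ | p.Prime ∧ h p = (p : E) - g}.Infinite) ∨
        (g * g = g ∧ {p : ℕ | p.Prime ∧ h p = 1 + ((p : E) - 1) * g}.Infinite ∧
          {p : ℕ | p.Prime ∧ h p = 1 + ((p : E) - 1) * (1 - g)}.Infinite)) := by
  classical
  let T := Option (G × Bool)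
  have hcG : Countable G := hGc.to_subtype
  obtain ⟨f, hf⟩ := exists_surjective_nat T
  let ν : ℕ → T := fun n => f (Nat.unpair n).1
  have hν : ∀ t : T, {k : ℕ | ν k = t}.Infinite := by
    intro t
    obtain ⟨a, ha⟩ := hf t
    refine (Set.infinite_range_of_injective (f := fun b : ℕ => Nat.pair a b) ?_).mono ?_
    · intro b c hbc
      exact (Nat.pair_eq_pair.1 hbc).2
    · rintro _ ⟨b, rfl⟩
      rw [Set.mem_ofPred_eq]
      simp only [ν, Nat.unpair_pair]
      exact ha
  let ev : T → E × Bool := fun t => match t with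
    | none => (0, true)
    | some (g, b) => (g.1, b)
  let h : ℕ → E := fun p => task (ev (ν (Nat.count Nat.Prime p))) p
  have hev : ∀ t : T, (ev t).1 ∈ R ∧ ((ev t).1 * (ev t).1 = 0 ∨ (ev t).1 * (ev t).1 = (ev t).1) := by
    intro t
    rcases t with _ | ⟨g, b⟩
    · exact ⟨R.zero_mem, Or.inl (mul_zero _)⟩
    · exact ⟨hGR g.2, hGs g.1 g.2⟩
  have hinf : ∀ t : T, {p : ℕ | p.Prime ∧ h p = task (ev t) p}.Infinite := by
    intro t
    have h1 := (hν t).image (f := Nat.nth Nat.Prime)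
      ((Nat.nth_injective Nat.infinite_setOf_prime).injOn)
    refine h1.mono ?_
    rintro _ ⟨k, hk, rfl⟩
    rw [Set.mem_ofPred_eq] at *
    refine ⟨Nat.prime_nth_prime k, ?_⟩
    simp only [h]
    rw [Nat.count_nth_of_infinite Nat.infinite_setOf_prime, hk]
  refine ⟨h, ?_, ?_, ?_⟩
  · intro p
    obtain ⟨h1, -⟩ := hev (ν (Nat.count Nat.Prime p))
    simp only [h, task]
    split_ifs
    · exact R.sub_mem (natCast_mem R p) h1
    · exact R.add_mem R.one_mem (R.mul_mem (R.sub_mem (natCast_mem R p) R.one_mem) h1)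
    · exact R.add_mem R.one_mem (R.mul_mem (R.sub_mem (natCast_mem R p) R.one_mem)
        (R.sub_mem R.one_mem h1))
  · intro p hp
    obtain ⟨h1, h2⟩ := hev (ν (Nat.count Nat.Prime p))
    simp only [h, task]
    split_ifs with h3 h4
    · exact Or.inl ⟨_, h1, h3, rfl⟩
    · exact Or.inr ⟨_, h1, h2.resolve_left h3, rfl⟩
    · refine Or.inr ⟨_, R.sub_mem R.one_mem h1, ?_, rfl⟩
      have h5 := h2.resolve_left h3
      rw [mul_sub, sub_mul, sub_mul, h5]
      simp
  · intro g hg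
    by_cases hgg : g * g = 0
    · left
      refine ⟨hgg, ?_⟩
      refine (hinf (some (⟨g, hg⟩, true))).mono ?_
      rintro p hp
      rw [Set.mem_ofPred_eq] at *
      refine ⟨hp.1, ?_⟩
      rw [hp.2]
      simp [ev, task, hgg]
    · right
      refine ⟨(hGs g hg).resolve_left hgg, ?_, ?_⟩
      · refine (hinf (some (⟨g, hg⟩, true))).mono ?_
        rintro p hp
        rw [Set.mem_ofPred_eq] at *
        refine ⟨hp.1, ?_⟩
        rw [hp.2]
        simp [ev, task, hgg]
      · refine (hinf (some (⟨g, hg⟩, false))).mono ?_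
        rintro p hp
        rw [Set.mem_ofPred_eq] at *
        refine ⟨hp.1, ?_⟩
        rw [hp.2]
        simp [ev, task, hgg]

/-- left multiplication -/
def lmul {h : ℕ → E} : R →+* AddMonoid.End (Grp R h) where
  toFun r := AddMonoidHom.mk' (fun v => ⟨r.1 * v.1, mul_mem_Grp r.2 v.2⟩)
    (fun a b => Subtype.ext (mul_add r.1 a.1 b.1))
  map_one' := by
    apply AddMonoidHom.ext
    intro v
    exact Subtype.ext (one_mul v.1)
  map_mul' a b := by
    apply AddMonoidHom.ext
    intro v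
    exact Subtype.ext (mul_assoc a.1 b.1 v.1)
  map_zero' := by
    apply AddMonoidHom.ext
    intro v
    exact Subtype.ext (zero_mul v.1)
  map_add' a b := by
    apply AddMonoidHom.ext
    intro v
    exact Subtype.ext (add_mul a.1 b.1 v.1)

/-- **Realisation theorem**: the endomorphism ring. -/
theorem exists_end (h1 : ∀ e : E, ∃ n : ℕ, 0 < n ∧ n • e ∈ R)
    (h2 : ∀ e : E, {p : ℕ | ∃ hp : p.Prime, ∃ f ∈ Loc R p hp, e = p • f}.Infinite → e = 0)
    (G : Set E) (hG : Subring.closure G = R) (hGc : G.Countable)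
    (hGs : ∀ g ∈ G, g * g = 0 ∨ g * g = g) :
    ∃ h : ℕ → E, (∀ p, h p ∈ R) ∧ Nonempty (R ≃+* AddMonoid.End (Grp R h)) := by
  have hGR : G ⊆ R := by rw [← hG]; exact Subring.subset_closure
  obtain ⟨h, hh, hp, hinf⟩ := exists_h R hGc hGR hGs
  refine ⟨h, hh, ⟨RingEquiv.ofBijective (lmul R) ⟨?_, ?_⟩⟩⟩
  · intro a b hab
    have h3 := congrArg (fun f : AddMonoid.End (Grp R h) =>
      ((f ⟨1, le_Grp hh R.one_mem⟩ : Grp R h) : E)) hab
    have h4 : a.1 * 1 = b.1 * 1 := h3
    rw [mul_one, mul_one] at h4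
    exact Subtype.ext h4
  · intro φ
    obtain ⟨r, hr, hφ⟩ := main h1 h2 hh hp G hG hinf φ
    refine ⟨⟨r, hr⟩, ?_⟩
    apply AddMonoidHom.ext
    intro v
    exact Subtype.ext (hφ v).symm

end Pool.Agent.R700.Zas
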