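import Pool.Agent.R700.A7
import Pool.Agent.R700.ZasEnd

set_option autoImplicit false

/-!
# Central essentiality and strong indecomposability
-/

namespace Pool.Agent.R700

universe u v

/-- `R` is centrally essential: for every nonzero `a` there are nonzero central `x`, `y` with
`a x = y`. -/
def CentrallyEssential (R : Type u) [Ring R] : Prop :=
  ∀ a : R, a ≠ 0 → ∃ x ∈ Subring.center R, ∃ y ∈ Subring.center R, x ≠ 0 ∧ y ≠ 0 ∧ a * x = y

theorem CentrallyEssential.of_equiv {R : Type u} {S : Type v} [Ring R] [Ring S] (e : R ≃+* S)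
    (h : CentrallyEssential R) : CentrallyEssential S := by
  intro a ha
  obtain ⟨x, hx, y, hy, hx0, hy0, hxy⟩ := h (e.symm a) (by
    intro h0
    exact ha ((map_eq_zero_iff e.symm e.symm.injective).1 h0))
  have hc : ∀ z ∈ Subring.center R, e z ∈ Subring.center S := by
    intro z hz
    rw [Subring.mem_center_iff] at *
    intro g
    have := congrArg e (hz (e.symm g))
    simpa using this
  refine ⟨e x, hc x hx, e y, hc y hy, ?_, ?_, ?_⟩
  · exact fun h0 => hx0 ((map_eq_zero_iff e e.injective).1 h0)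
  · exact fun h0 => hy0 ((map_eq_zero_iff e e.injective).1 h0)
  · rw [← hxy, map_mul, RingEquiv.apply_symm_apply]

/-- The abelian group `A` is strongly indecomposable: it is not zero and if `n A ⊆ B ⊕ C` for
subgroups `B`, `C` with `B ∩ C = 0` and some `n > 0`, then `B = 0` or `C = 0`. -/
def StronglyIndecomposable (A : Type u) [AddCommGroup A] : Prop :=
  Nontrivial A ∧ ∀ B C : AddSubgroup A, B ⊓ C = ⊥ →
    (∃ n : ℕ, 0 < n ∧ ∀ a : A, n • a ∈ B ⊔ C) → B = ⊥ ∨ C = ⊥

theorem stronglyIndecomposable_of {A : Type u} [AddCommGroup A] [Nontrivial A]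
    (htf : ∀ (n : ℕ) (a : A), 0 < n → n • a = 0 → a = 0)
    (h : ∀ (n : ℕ) (f : AddMonoid.End A), 0 < n → f * f = n • f → f = 0 ∨ f = n • 1) :
    StronglyIndecomposable A := by
  refine ⟨inferInstance, ?_⟩
  rintro B C hBC ⟨n, hn, hA⟩
  have huniq : ∀ b b' c c' : A, b ∈ B → b' ∈ B → c ∈ C → c' ∈ C → b + c = b' + c' → b = b' := by
    intro b b' c c' hb hb' hc hc' heq
    have h1 : b - b' ∈ B ⊓ C := by
      refine ⟨B.sub_mem hb hb', ?_⟩
      have : b - b' = c' - c := by
        rw [sub_eq_sub_iff_add_eq_add, heq, add_comm]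
      rw [this]
      exact C.sub_mem hc' hc
    rw [hBC, AddSubgroup.mem_bot] at h1
    exact sub_eq_zero.1 h1
  have hex : ∀ a : A, ∃ b ∈ B, ∃ c ∈ C, b + c = n • a := fun a => AddSubgroup.mem_sup.1 (hA a)
  choose β hβ γ hγ hβγ using hex
  let f : AddMonoid.End A := AddMonoidHom.mk' β (by
    intro a a'
    refine huniq _ _ _ (γ a + γ a') (hβ _) (B.add_mem (hβ a) (hβ a')) (hγ (a + a'))
      (C.add_mem (hγ a) (hγ a')) ?_
    rw [hβγ, smul_add, ← hβγ a, ← hβγ a']
    abel)
  have hfβ : ∀ a, f a = β a := fun a => rfl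
  have hB : ∀ b ∈ B, β b = n • b := by
    intro b hb
    exact huniq _ _ _ 0 (hβ b) (B.nsmul_mem hb n) (hγ b) C.zero_mem (by rw [hβγ, add_zero])
  have hC : ∀ c ∈ C, β c = 0 := by
    intro c hc
    exact huniq _ _ _ (n • c) (hβ c) B.zero_mem (hγ c) (C.nsmul_mem hc n)
      (by rw [hβγ, zero_add])
  have hff : f * f = n • f := by
    apply AddMonoidHom.ext
    intro a
    change f (f a) = n • f a
    rw [hfβ (f a), hfβ a, hB _ (hβ a)]
  rcases h n f hn hff with h0 | h0
  · left
    rw [eq_bot_iff]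
    intro b hb
    rw [AddSubgroup.mem_bot]
    apply htf n b hn
    rw [← hB b hb, ← hfβ, h0]
    rfl
  · right
    rw [eq_bot_iff]
    intro c hc
    rw [AddSubgroup.mem_bot]
    apply htf n c hn
    have h1 := hC c hc
    rw [← hfβ, h0] at h1
    exact h1

/-- A rational number divisible by infinitely many primes is zero. -/
theorem rat_zero {c : ℚ}
    (hinf : {p : ℕ | p.Prime ∧ ∃ b m : ℤ, ¬ (p : ℤ) ∣ b ∧ b * c = p * m}.Infinite) : c = 0 := by
  by_contra hc
  apply hinf
  have hfin : (Set.Iic c.num.natAbs).Finite := Set.finite_Iic _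
  refine hfin.subset ?_
  rintro p ⟨hp, b, m, hb, hbm⟩
  have h1 : b * c.num = p * m * c.den := by
    have h2 : (b : ℚ) * c.num = p * m * c.den := by
      have h3 : c * c.den = c.num := Rat.mul_den_eq_num c
      rw [← h3, ← mul_assoc, hbm]
    exact_mod_cast h2
  have h2 : (p : ℤ) ∣ b * c.num := by
    rw [h1, mul_assoc]
    exact dvd_mul_right _ _
  have h3 : (p : ℤ) ∣ c.num := ((Nat.prime_iff_prime_int.1 hp).dvd_or_dvd h2).resolve_left hb
  have h4 : c.num ≠ 0 := Rat.num_ne_zero.2 hc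
  rw [Set.mem_Iic]
  exact Nat.le_of_dvd (Int.natAbs_pos.2 h4) (Int.natCast_dvd.1 h3)

/-- clearing denominators -/
theorem rat_clear (c : ℚ) : ∃ m : ℤ, (c.den : ℚ) * c = m := ⟨c.num, Rat.den_mul_eq_num c⟩

namespace A7

theorem mem_center_iff (a : A7 ℤ) : a ∈ Subring.center (A7 ℤ) ↔ a.x = 0 ∧ a.y = 0 := by
  rw [Subring.mem_center_iff]
  constructor
  · intro h
    have h1 := congrArg A7.c (h ⟨0, 1, 0, 0, 0, 0, 0⟩)
    have h2 := congrArg A7.c (h ⟨0, 0, 1, 0, 0, 0, 0⟩)
    simp at h1 h2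
    exact ⟨h2.symm, h1⟩
  · rintro ⟨h1, h2⟩ b
    ext <;> simp [h1, h2] <;> ring

theorem cE : CentrallyEssential (A7 ℤ) := by
  intro a ha
  by_cases ho : a.o = 0
  · by_cases hxy : a.x = 0 ∧ a.y = 0
    · exact ⟨1, one_mem _, a, (mem_center_iff a).2 hxy, by
        intro h; have := congrArg A7.o h; simp at this, ha, mul_one a⟩
    · refine ⟨⟨0, 0, 0, 1, 0, 0, 0⟩, (mem_center_iff _).2 ⟨rfl, rfl⟩, _,
        (mem_center_iff _).2 ?_, ?_, ?_, rfl⟩
      · simp
      · intro h; have := congrArg A7.z h; simp at this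
      · intro h
        apply hxy
        have h1 := congrArg A7.p h
        have h2 := congrArg A7.q h
        simpa [ho] using And.intro h1 h2
  · refine ⟨⟨0, 0, 0, 0, 1, 0, 0⟩, (mem_center_iff _).2 ⟨rfl, rfl⟩, _,
        (mem_center_iff _).2 ?_, ?_, ?_, rfl⟩
    · simp
    · intro h; have := congrArg A7.c h; simp at this
    · intro h
      have h1 := congrArg A7.c h
      simp at h1
      exact ho h1

noncomputable instance : Algebra ℚ (A7 ℚ) := Algebra.ofModule
  (fun k s t => by ext <;> simp <;> ring) (fun k s t => by ext <;> simp <;> ring)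

/-- the inclusion of the integral elements -/
def incl : A7 ℤ →+* A7 ℚ where
  toFun s := ⟨s.o, s.x, s.y, s.z, s.c, s.p, s.q⟩
  map_one' := by ext <;> simp
  map_mul' s t := by ext <;> simp
  map_zero' := by ext <;> simp
  map_add' s t := by ext <;> simp

theorem incl_injective : Function.Injective incl := by
  intro s t h
  have h1 := congrArg A7.o h
  have h2 := congrArg A7.x h
  have h3 := congrArg A7.y h
  have h4 := congrArg A7.z h
  have h5 := congrArg A7.c h
  have h6 := congrArg A7.p h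
  have h7 := congrArg A7.q h
  simp [incl] at h1 h2 h3 h4 h5 h6 h7
  ext <;> assumption

end A7

end Pool.Agent.R700
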