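import Mathlib

/-!
# Nonzero solutions of `x_k = ∑ x_i² A_ik` for an invertible complex matrix
-/

namespace Pool.Agent.R700.Evo

open Finset

section ops

variable {κ : Type*} [Fintype κ] [DecidableEq κ] (B : κ → κ → ℂ)

/-- the image of the squarefree monomial `S` under multiplication by `x_i`, where
`x_i² = ∑_k B k i x_k`. -/
noncomputable def X (i : κ) (S : Finset κ) : Finset κ →₀ ℂ :=
  if i ∈ S then ∑ k : κ, B k i • X k (S.erase i) else Finsupp.single (insert i S) 1
termination_by S.card
decreasing_by exact Finset.card_erase_lt_of_mem ‹_›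

theorem X_mem {i : κ} {S : Finset κ} (h : i ∈ S) :
    X B i S = ∑ k : κ, B k i • X B k (S.erase i) := by
  rw [X]; simp [h]

theorem X_not_mem {i : κ} {S : Finset κ} (h : i ∉ S) :
    X B i S = Finsupp.single (insert i S) 1 := by
  rw [X]; simp [h]

/-- the operator of multiplication by `x_i`. -/
noncomputable def Xop (i : κ) : (Finset κ →₀ ℂ) →ₗ[ℂ] (Finset κ →₀ ℂ) :=
  Finsupp.linearCombination ℂ (X B i)

theorem Xop_single (i : κ) (S : Finset κ) : Xop B i (Finsupp.single S 1) = X B i S := by
  simp [Xop]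

theorem Xop_comm_aux (n : ℕ) : ∀ S : Finset κ, S.card ≤ n → ∀ i j,
    Xop B i (X B j S) = Xop B j (X B i S) := by
  induction n with
  | zero =>
    intro S hS i j
    have hS' : S = ∅ := Finset.card_eq_zero.1 (Nat.le_zero.1 hS)
    subst hS'
    by_cases hij : i = j
    · rw [hij]
    · rw [X_not_mem B (Finset.notMem_empty i), X_not_mem B (Finset.notMem_empty j), Xop_single,
        Xop_single, X_not_mem B (by simp [hij]), X_not_mem B (by simp [Ne.symm hij])]
      rw [Finset.insert_comm]
  | succ n ih =>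
    intro S hS i j
    have key : ∀ i j : κ, i ≠ j → i ∈ S → j ∉ S → Xop B i (X B j S) = Xop B j (X B i S) := by
      intro i j hij hi hj
      have hcard : (S.erase i).card ≤ n := by
        rw [Finset.card_erase_of_mem hi]; omega
      rw [X_not_mem B hj, Xop_single, X_mem B (Finset.mem_insert_of_mem hi), X_mem B hi, map_sum]
      refine Finset.sum_congr rfl fun k _ => ?_
      rw [map_smul]
      congr 1
      rw [Finset.erase_insert_of_ne (Ne.symm hij), ih _ hcard j k,
        X_not_mem B (show j ∉ S.erase i from fun h => hj (Finset.mem_of_mem_erase h)), Xop_single]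
    by_cases hij : i = j
    · rw [hij]
    · by_cases hi : i ∈ S
      · by_cases hj : j ∈ S
        · have hci : (S.erase i).card ≤ n := by
            rw [Finset.card_erase_of_mem hi]; omega
          have hcj : (S.erase j).card ≤ n := by
            rw [Finset.card_erase_of_mem hj]; omega
          have hc2 : ((S.erase i).erase j).card ≤ n :=
            (Finset.card_le_card (Finset.erase_subset _ _)).trans hci
          have e1 : Xop B i (X B j S) = ∑ k, ∑ l, (B k j * B l i) •
              Xop B k (X B l ((S.erase i).erase j)) := by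
            rw [X_mem B hj, map_sum]
            refine Finset.sum_congr rfl fun k _ => ?_
            rw [map_smul, ih _ hcj i k, X_mem B (Finset.mem_erase.2 ⟨hij, hi⟩), map_sum,
              Finset.smul_sum]
            refine Finset.sum_congr rfl fun l _ => ?_
            rw [map_smul, smul_smul, Finset.erase_right_comm]
          have e2 : Xop B j (X B i S) = ∑ l, ∑ k, (B l i * B k j) •
              Xop B l (X B k ((S.erase i).erase j)) := by
            rw [X_mem B hi, map_sum]
            refine Finset.sum_congr rfl fun k _ => ?_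
            rw [map_smul, ih _ hci j k, X_mem B (Finset.mem_erase.2 ⟨Ne.symm hij, hj⟩), map_sum,
              Finset.smul_sum]
            refine Finset.sum_congr rfl fun l _ => ?_
            rw [map_smul, smul_smul]
          rw [e1, e2, Finset.sum_comm]
          refine Finset.sum_congr rfl fun l _ => Finset.sum_congr rfl fun k _ => ?_
          rw [ih _ hc2 k l, mul_comm]
        · exact key i j hij hi hj
      · by_cases hj : j ∈ S
        · exact (key j i (Ne.symm hij) hj hi).symm
        · rw [X_not_mem B hi, X_not_mem B hj, Xop_single, Xop_single,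
            X_not_mem B (by simp [hij, hi]), X_not_mem B (by simp [Ne.symm hij, hj]),
            Finset.insert_comm]

theorem Xop_comm (i j : κ) : Xop B i * Xop B j = Xop B j * Xop B i := by
  apply Finsupp.lhom_ext'
  intro S
  apply LinearMap.ext_ring
  change Xop B i (Xop B j (Finsupp.single S 1)) = Xop B j (Xop B i (Finsupp.single S 1))
  rw [Xop_single, Xop_single]
  exact Xop_comm_aux B S.card S le_rfl i j

theorem Xop_sq (i : κ) : Xop B i * Xop B i = ∑ k, B k i • Xop B k := by
  apply Finsupp.lhom_ext'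
  intro S
  apply LinearMap.ext_ring
  change Xop B i (Xop B i (Finsupp.single S 1)) = (∑ k, B k i • Xop B k) (Finsupp.single S 1)
  rw [Xop_single, LinearMap.sum_apply]
  simp only [LinearMap.smul_apply, Xop_single]
  by_cases hi : i ∈ S
  · rw [X_mem B hi, map_sum]
    refine Finset.sum_congr rfl fun k _ => ?_
    rw [map_smul, Xop_comm_aux B _ (S.erase i) le_rfl i k, X_not_mem B (Finset.notMem_erase i S),
      Finset.insert_erase hi, Xop_single]
  · rw [X_not_mem B hi, Xop_single, X_mem B (Finset.mem_insert_self i S),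
      Finset.erase_insert hi]

theorem Xop_ne_zero (i : κ) : Xop B i ≠ 0 := by
  intro h
  have h1 := congrArg (fun f => f (Finsupp.single ∅ 1)) h
  simp only [Xop_single, LinearMap.zero_apply, X_not_mem B (Finset.notMem_empty i)] at h1
  exact one_ne_zero (Finsupp.single_eq_zero.1 h1)

end ops

section main

variable {κ : Type*} [Fintype κ] [DecidableEq κ]

open MvPolynomial

/-- the ideal generated by `x_i² - ∑ B k i x_k` -/
noncomputable def Iq (B : κ → κ → ℂ) : Ideal (MvPolynomial κ ℂ) :=
  Ideal.span (Set.range fun i => (MvPolynomial.X i : MvPolynomial κ ℂ) * MvPolynomial.X i -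
    ∑ k, MvPolynomial.C (B k i) * MvPolynomial.X k)

omit [DecidableEq κ] in
theorem eq_zero_of_mem_Iq {A : Type*} [CommRing A] [Algebra ℂ A] (B : κ → κ → ℂ) (ξ : κ → A)
    (hξ : ∀ i, ξ i * ξ i = ∑ k, B k i • ξ k) (i : κ)
    (h : (MvPolynomial.X i : MvPolynomial κ ℂ) ∈ Iq B) : ξ i = 0 := by
  have hf : Iq B ≤ RingHom.ker (MvPolynomial.aeval (R := ℂ) ξ) := by
    rw [Iq, Ideal.span_le]
    rintro _ ⟨i, rfl⟩
    rw [SetLike.mem_coe, RingHom.mem_ker]
    simp only [map_sub, map_mul, map_sum, aeval_X, aeval_C, hξ, Algebra.smul_def, sub_self]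
  have h1 := hf h
  rw [RingHom.mem_ker] at h1
  simpa using h1

omit [DecidableEq κ] in
open scoped IsMulCommutative in
theorem op_eq_zero {V : Type*} [AddCommGroup V] [Module ℂ V] (B : κ → κ → ℂ)
    (T : κ → Module.End ℂ V) (hT : ∀ i j, T i * T j = T j * T i)
    (hT2 : ∀ i, T i * T i = ∑ k, B k i • T k) (i : κ)
    (h : (MvPolynomial.X i : MvPolynomial κ ℂ) ∈ Iq B) : T i = 0 := by
  have hcomm : ∀ a ∈ Set.range T, ∀ b ∈ Set.range T, a * b = b * a := by
    rintro _ ⟨i, rfl⟩ _ ⟨j, rfl⟩
    exact hT i j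
  have hc : IsMulCommutative (Algebra.adjoin ℂ (Set.range T)) :=
    Algebra.isMulCommutative_adjoin ℂ hcomm
  let ξ : κ → Algebra.adjoin ℂ (Set.range T) :=
    fun i => ⟨T i, Algebra.subset_adjoin ⟨i, rfl⟩⟩
  have hξ : ∀ i, ξ i * ξ i = ∑ k, B k i • ξ k := by
    intro i
    apply Subtype.ext
    calc ((ξ i * ξ i : Algebra.adjoin ℂ (Set.range T)) : Module.End ℂ V) = T i * T i := rfl
      _ = ∑ k, B k i • T k := hT2 i
      _ = _ := by
        rw [AddSubmonoidClass.coe_finsetSum]
        rfl
  have h1 := eq_zero_of_mem_Iq B ξ hξ i h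
  exact congrArg Subtype.val h1

theorem X_notMem_Iq (B : κ → κ → ℂ) (i : κ) : (MvPolynomial.X i : MvPolynomial κ ℂ) ∉ Iq B :=
  fun h => Xop_ne_zero B i (op_eq_zero B (Xop B) (Xop_comm B) (Xop_sq B) i h)

/-- Existence of a nonzero solution of `x_i² = ∑ B k i x_k`. -/
theorem exists_sol [Nonempty κ] (B : κ → κ → ℂ)
    (hB : ∀ k, ∃ c : κ → ℂ, ∀ l, ∑ i, c i * B l i = if l = k then 1 else 0) :
    ∃ x : κ → ℂ, x ≠ 0 ∧ ∀ i, x i * x i = ∑ k, B k i * x k := by
  by_contra hcon
  push Not at hcon
  -- the only zero is `0`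
  have hz : ∀ x ∈ zeroLocus ℂ (Iq B), x = 0 := by
    intro x hx
    by_contra hne
    obtain ⟨i, hi⟩ := hcon x hne
    apply hi
    have := hx _ (Ideal.subset_span ⟨i, rfl⟩)
    simp only [map_sub, map_mul, map_sum, aeval_X, aeval_C] at this
    rw [sub_eq_zero] at this
    simpa using this
  let 𝔪 : Ideal (MvPolynomial κ ℂ) := Ideal.span (Set.range MvPolynomial.X)
  have hrad : 𝔪 ≤ (Iq B).radical := by
    rw [← MvPolynomial.vanishingIdeal_zeroLocus_eq_radical (K := ℂ), Ideal.span_le]
    rintro _ ⟨i, rfl⟩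
    intro x hx
    rw [hz x hx]
    simp
  have hfg : 𝔪.FG := ⟨(Finset.univ.image MvPolynomial.X), by simp [𝔪]⟩
  obtain ⟨n, hn⟩ := Ideal.exists_pow_le_of_le_radical_of_fg hrad hfg
  have h2 : 𝔪 ≤ Iq B ⊔ 𝔪 ^ 2 := by
    rw [Ideal.span_le]
    rintro _ ⟨k, rfl⟩
    obtain ⟨c, hc⟩ := hB k
    have e : (MvPolynomial.X k : MvPolynomial κ ℂ) =
        - (∑ i, MvPolynomial.C (c i) * (MvPolynomial.X i * MvPolynomial.X i -
          ∑ l, MvPolynomial.C (B l i) * MvPolynomial.X l)) +
        ∑ i, MvPolynomial.C (c i) * (MvPolynomial.X i * MvPolynomial.X i) := by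
      simp only [mul_sub, Finset.sum_sub_distrib, neg_sub, sub_add_cancel]
      simp only [Finset.mul_sum]
      rw [Finset.sum_comm]
      have : ∀ l, ∑ i, (MvPolynomial.C (c i) : MvPolynomial κ ℂ) *
          (MvPolynomial.C (B l i) * MvPolynomial.X l) =
          MvPolynomial.C (if l = k then 1 else 0) * MvPolynomial.X l := by
        intro l
        rw [← hc l, map_sum, Finset.sum_mul]
        refine Finset.sum_congr rfl fun i _ => ?_
        rw [map_mul, mul_assoc]
      simp only [this]
      rw [Finset.sum_eq_single k]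
      · simp
      · intro l _ hl; simp [hl]
      · intro h; exact absurd (Finset.mem_univ k) h
    rw [e]
    refine Ideal.add_mem _ ?_ ?_
    · refine Ideal.mem_sup_left (neg_mem (Ideal.sum_mem _ fun i _ => ?_))
      exact Ideal.mul_mem_left _ _ (Ideal.subset_span ⟨i, rfl⟩)
    · refine Ideal.mem_sup_right (Ideal.sum_mem _ fun i _ => ?_)
      refine Ideal.mul_mem_left _ _ ?_
      rw [pow_two]
      exact Ideal.mul_mem_mul (Ideal.subset_span ⟨i, rfl⟩) (Ideal.subset_span ⟨i, rfl⟩)
  have h3 : ∀ m : ℕ, 𝔪 ≤ Iq B ⊔ 𝔪 ^ (m + 1) := by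
    intro m
    induction m with
    | zero => rw [zero_add, pow_one]; exact le_sup_right
    | succ m ih =>
      refine h2.trans (sup_le le_sup_left ?_)
      rw [pow_two]
      calc 𝔪 * 𝔪 ≤ 𝔪 * (Iq B ⊔ 𝔪 ^ (m + 1)) := Ideal.mul_mono_right ih
        _ = 𝔪 * Iq B ⊔ 𝔪 * 𝔪 ^ (m + 1) := Ideal.mul_sup _ _ _
        _ ≤ Iq B ⊔ 𝔪 ^ (m + 1 + 1) := by
          refine sup_le_sup Ideal.mul_le_right ?_
          rw [pow_succ' 𝔪 (m + 1)]
  have h4 : 𝔪 ≤ Iq B := by
    refine (h3 n).trans (sup_le le_rfl ?_)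
    rw [pow_succ]
    exact Ideal.mul_le_left.trans hn
  obtain ⟨i⟩ := ‹Nonempty κ›
  exact X_notMem_Iq B i (h4 (Ideal.subset_span ⟨i, rfl⟩))

end main

end Pool.Agent.R700.Evo
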