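import Mathlib
import Pool.Agent.R700.EvoM

/-!
# Complex evolution algebras: definitions and the structure of algebras with condition `P`
-/

namespace Pool.Agent.R700.Evo

open Module Submodule

section defs

/-- A product on the complex vector space `E` (a not necessarily associative algebra). -/
abbrev Alg (E : Type) [AddCommGroup E] [Module ℂ E] := E →ₗ[ℂ] E →ₗ[ℂ] E

variable {E : Type} [AddCommGroup E] [Module ℂ E] {F : Type} [AddCommGroup F] [Module ℂ F]

/-- A natural basis: products of distinct basis elements vanish. -/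
def IsNatural {ι : Type} (μ : Alg E) (b : Basis ι ℂ E) : Prop :=
  ∀ i j, i ≠ j → μ (b i) (b j) = 0

/-- An evolution algebra: it has a (finite) natural basis. -/
def IsEvolution (μ : Alg E) : Prop :=
  ∃ (n : ℕ) (b : Basis (Fin n) ℂ E), IsNatural μ b

/-- A subalgebra. -/
def IsSub (μ : Alg E) (S : Submodule ℂ E) : Prop :=
  ∀ x ∈ S, ∀ y ∈ S, μ x y ∈ S

/-- An evolution subalgebra: it has a natural basis that extends to a natural basis of `E`. -/
def IsEvSub (μ : Alg E) (S : Submodule ℂ E) : Prop :=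
  ∃ (n : ℕ) (b : Basis (Fin n) ℂ E) (J : Set (Fin n)),
    IsNatural μ b ∧ Submodule.span ℂ (b '' J) = S

/-- Condition `P`: every subalgebra is an evolution subalgebra. -/
def CondP (μ : Alg E) : Prop := ∀ S : Submodule ℂ E, IsSub μ S → IsEvSub μ S

/-- The powers `E¹ = E`, `E^k = ∑_{i=1}^{k-1} E^i E^(k-i)`. -/
noncomputable def Pw (μ : Alg E) : ℕ → Submodule ℂ E
  | 0 => ⊤
  | 1 => ⊤
  | (k + 2) => ⨆ i : Fin (k + 1), Submodule.map₂ μ (Pw μ (i + 1)) (Pw μ (k + 1 - i))

/-- Nilpotency: some power vanishes. -/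
def IsNilp (μ : Alg E) : Prop := ∃ m, 1 ≤ m ∧ Pw μ m = ⊥

/-- `m` is the index of nilpotency: the least `m` with `E^m = 0`. -/
def IsIndex (μ : Alg E) (m : ℕ) : Prop :=
  1 ≤ m ∧ Pw μ m = ⊥ ∧ ∀ k, 1 ≤ k → k < m → Pw μ k ≠ ⊥

/-- The class `ZN^s` of the `s`-dimensional nilpotent evolution algebras whose index of nilpotency
is the largest possible among `s`-dimensional nilpotent evolution algebras. -/
def ZN (s : ℕ) (μ : Alg E) : Prop :=
  finrank ℂ E = s ∧ IsEvolution μ ∧ ∃ m, IsIndex μ m ∧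
    ∀ (E' : Type) (_ : AddCommGroup E') (_ : Module ℂ E') (μ' : Alg E') (m' : ℕ),
      finrank ℂ E' = s → IsEvolution μ' → IsIndex μ' m' → m' ≤ m

/-- The direct sum of two algebras. -/
noncomputable def prodMul (μ : Alg E) (ν : Alg F) : Alg (E × F) :=
  LinearMap.mk₂ ℂ (fun x y => (μ x.1 y.1, ν x.2 y.2))
    (by intro x x' y; simp [map_add])
    (by intro c x y; simp [map_smul])
    (by intro x y y'; simp [map_add])
    (by intro c x y; simp [map_smul])

@[simp] theorem prodMul_apply (μ : Alg E) (ν : Alg F) (x y : E × F) :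
    prodMul μ ν x y = (μ x.1 y.1, ν x.2 y.2) := rfl

/-- Isomorphism of algebras. -/
def Iso (μ : Alg E) (ν : Alg F) : Prop :=
  ∃ φ : E ≃ₗ[ℂ] F, ∀ x y, φ (μ x y) = ν (φ x) (φ y)

/-- The one-dimensional algebra with basis `e`, `e * e = e`. -/
noncomputable def ES1 : Alg ℂ := LinearMap.mul ℂ ℂ

/-- The `m`-dimensional algebra `ℂ^m` with zero product. -/
noncomputable def Zero (m : ℕ) : Alg (Fin m → ℂ) := 0

end defs

section basic

variable {E : Type} [AddCommGroup E] [Module ℂ E] {ι κ : Type} {μ : Alg E}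

theorem mul_basis {b : Basis ι ℂ E} (hb : IsNatural μ b) (x : E) (l : ι) :
    μ x (b l) = b.repr x l • μ (b l) (b l) := by
  classical
  have h : (μ.flip (b l)) = (b.coord l).smulRight (μ (b l) (b l)) := by
    apply b.ext
    intro i
    simp only [LinearMap.flip_apply, LinearMap.smulRight_apply, Basis.coord_apply, Basis.repr_self]
    by_cases hil : i = l
    · subst hil; simp
    · rw [hb i l hil, Finsupp.single_eq_of_ne (Ne.symm hil), zero_smul]
  have := congrArg (fun f => f x) h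
  simpa using this

theorem basis_mul {b : Basis ι ℂ E} (hb : IsNatural μ b) (x : E) (l : ι) :
    μ (b l) x = b.repr x l • μ (b l) (b l) := by
  classical
  have h : (μ (b l)) = (b.coord l).smulRight (μ (b l) (b l)) := by
    apply b.ext
    intro i
    simp only [LinearMap.smulRight_apply, Basis.coord_apply, Basis.repr_self]
    by_cases hil : i = l
    · subst hil; simp
    · rw [hb l i (Ne.symm hil), Finsupp.single_eq_of_ne (Ne.symm hil), zero_smul]
  have := congrArg (fun f => f x) h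
  simpa using this

theorem mul_expand [Fintype ι] {b : Basis ι ℂ E} (hb : IsNatural μ b) (x y : E) :
    μ x y = ∑ i, (b.repr x i * b.repr y i) • μ (b i) (b i) := by
  classical
  conv_lhs => rw [← b.sum_repr y]
  rw [map_sum]
  refine Finset.sum_congr rfl fun i _ => ?_
  rw [map_smul, mul_basis hb, smul_smul, mul_comm]

theorem repr_mul [Fintype ι] {b : Basis ι ℂ E} (hb : IsNatural μ b) (x y : E) (j : ι) :
    b.repr (μ x y) j = ∑ i, (b.repr x i * b.repr y i) * b.repr (μ (b i) (b i)) j := by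
  rw [mul_expand hb, map_sum, Finsupp.finsetSum_apply]
  refine Finset.sum_congr rfl fun i _ => ?_
  rw [map_smul, Finsupp.smul_apply, smul_eq_mul]

theorem mul_comm' [Fintype ι] {b : Basis ι ℂ E} (hb : IsNatural μ b) (x y : E) :
    μ x y = μ y x := by
  rw [mul_expand hb x y, mul_expand hb y x]
  refine Finset.sum_congr rfl fun i _ => ?_
  rw [mul_comm]

theorem exists_of_repr_mul_ne [Fintype ι] {b : Basis ι ℂ E} (hb : IsNatural μ b) {x y : E} {j : ι}
    (h : b.repr (μ x y) j ≠ 0) : ∃ i, b.repr x i ≠ 0 ∧ b.repr y i ≠ 0 ∧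
      b.repr (μ (b i) (b i)) j ≠ 0 := by
  rw [repr_mul hb] at h
  obtain ⟨i, _, hi⟩ := Finset.exists_ne_zero_of_sum_ne_zero h
  exact ⟨i, fun h0 => hi (by rw [h0]; ring), fun h0 => hi (by rw [h0]; ring),
    fun h0 => hi (by rw [h0]; ring)⟩

/-- An element of a natural basis: the squares of the basis elements in its support are
proportional to its square. -/
theorem natural_sq {b : Basis ι ℂ E} (hb : IsNatural μ b) {c : Basis κ ℂ E} (hc : IsNatural μ c)
    {k : κ} {l : ι} (h : b.repr (c k) l ≠ 0) : ∃ t : ℂ, μ (b l) (b l) = t • μ (c k) (c k) := by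
  have h1 := mul_basis hb (c k) l
  have h2 := basis_mul hc (b l) k
  refine ⟨(b.repr (c k) l)⁻¹ * c.repr (b l) k, ?_⟩
  rw [mul_smul, ← h2, h1, smul_smul, inv_mul_cancel₀ h, one_smul]

/-- The elements supported on basis elements with zero square. -/
def IsAnn (μ : Alg E) (b : Basis ι ℂ E) (a : E) : Prop :=
  ∀ l, μ (b l) (b l) ≠ 0 → b.repr a l = 0

theorem IsAnn.mul [Fintype ι] {b : Basis ι ℂ E} (hb : IsNatural μ b) {a : E} (ha : IsAnn μ b a)
    (y : E) : μ a y = 0 := by
  rw [mul_expand hb]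
  refine Finset.sum_eq_zero fun i _ => ?_
  by_cases h : μ (b i) (b i) = 0
  · rw [h, smul_zero]
  · rw [ha i h, zero_mul, zero_smul]

theorem IsAnn.mul' [Fintype ι] {b : Basis ι ℂ E} (hb : IsNatural μ b) {a : E} (ha : IsAnn μ b a)
    (y : E) : μ y a = 0 := by
  rw [mul_comm' hb, ha.mul hb]

theorem sq_add_ann [Fintype ι] {b : Basis ι ℂ E} (hb : IsNatural μ b) {a : E} (ha : IsAnn μ b a)
    (x : E) : μ (x + a) (x + a) = μ x x := by
  simp only [map_add, LinearMap.add_apply, ha.mul hb, ha.mul' hb, add_zero]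

end basic

section condP

variable {E : Type} [AddCommGroup E] [Module ℂ E] {ι : Type} {μ : Alg E}

theorem line_natural (hP : CondP μ) {x : E} (hx : x ≠ 0) {r : ℂ} (hxx : μ x x = r • x) :
    ∃ (n : ℕ) (c : Basis (Fin n) ℂ E) (k : Fin n) (ν : ℂ), IsNatural μ c ∧ ν ≠ 0 ∧
      c k = ν • x := by
  obtain ⟨n, c, J, hc, hJ⟩ := hP (Submodule.span ℂ {x}) (by
    intro y hy z hz
    obtain ⟨s, rfl⟩ := Submodule.mem_span_singleton.1 hy
    obtain ⟨t, rfl⟩ := Submodule.mem_span_singleton.1 hz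
    rw [map_smul, map_smul, LinearMap.smul_apply, hxx, smul_smul, smul_smul]
    exact Submodule.mem_span_singleton.2 ⟨_, rfl⟩)
  have hne : J.Nonempty := by
    rw [Set.nonempty_iff_ne_empty]
    rintro rfl
    rw [Set.image_empty, Submodule.span_empty] at hJ
    have : x ∈ (⊥ : Submodule ℂ E) := by rw [hJ]; exact Submodule.mem_span_singleton_self x
    exact hx ((Submodule.mem_bot ℂ).1 this)
  obtain ⟨k, hk⟩ := hne
  have h1 : c k ∈ Submodule.span ℂ {x} := by
    rw [← hJ]; exact Submodule.subset_span ⟨k, hk, rfl⟩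
  obtain ⟨ν, hν⟩ := Submodule.mem_span_singleton.1 h1
  refine ⟨n, c, k, ν, hc, ?_, hν.symm⟩
  rintro rfl
  rw [zero_smul] at hν
  exact c.ne_zero k hν.symm

theorem line_sq (hP : CondP μ) {b : Basis ι ℂ E} (hb : IsNatural μ b) {x : E} {r : ℂ}
    (hxx : μ x x = r • x) {l : ι} (hl : b.repr x l ≠ 0) :
    ∃ t : ℂ, μ (b l) (b l) = t • μ x x := by
  have hx : x ≠ 0 := by rintro rfl; simp at hl
  obtain ⟨n, c, k, ν, hc, hν, hck⟩ := line_natural hP hx hxx
  obtain ⟨t, ht⟩ := natural_sq hb hc (k := k) (l := l) (by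
    rw [hck, map_smul, Finsupp.smul_apply, smul_eq_mul]
    exact mul_ne_zero hν hl)
  refine ⟨t * (ν * ν), ?_⟩
  rw [ht, hck, map_smul, map_smul, LinearMap.smul_apply, smul_smul, smul_smul, mul_assoc]

theorem sq_indep (hP : CondP μ) {b : Basis ι ℂ E} (hb : IsNatural μ b) {i j : ι} (hij : i ≠ j)
    (hi : μ (b i) (b i) ≠ 0) {lam : ℂ} (hj : μ (b j) (b j) = lam • μ (b i) (b i)) :
    μ (b j) (b j) = 0 := by
  classical
  by_contra hj0
  have hlam : lam ≠ 0 := by rintro rfl; rw [zero_smul] at hj; exact hj0 hj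
  obtain ⟨t, ht⟩ := IsAlgClosed.exists_pow_nat_eq (-lam) (n := 2) two_pos
  have ht0 : t ≠ 0 := by
    rintro rfl
    rw [zero_pow two_ne_zero] at ht
    exact hlam (neg_eq_zero.1 ht.symm)
  have hxx : μ (b j + t • b i) (b j + t • b i) = 0 := by
    simp only [map_add, map_smul, LinearMap.add_apply, LinearMap.smul_apply]
    rw [hb j i (Ne.symm hij), hb i j hij, hj]
    simp only [smul_zero, zero_add, add_zero]
    rw [smul_smul, ← pow_two, ht, ← add_smul, add_neg_cancel, zero_smul]
  obtain ⟨s, hs⟩ := line_sq hP hb (x := b j + t • b i) (r := 0) (l := i)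
    (by rw [hxx, zero_smul]) (by
      simp only [map_add, map_smul, Basis.repr_self, Finsupp.add_apply, Finsupp.smul_apply,
        Finsupp.single_eq_same, Finsupp.single_eq_of_ne hij, smul_eq_mul, mul_one, zero_add]
      exact ht0)
  rw [hxx, smul_zero] at hs
  exact hi hs

/-- If `μ u u` is proportional to... : two elements of the support with nonzero squares, both
proportional to the same vector, coincide. -/
theorem eq_of_prop (hP : CondP μ) {b : Basis ι ℂ E} (hb : IsNatural μ b) {w : E} {i l : ι}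
    (hi : μ (b i) (b i) ≠ 0) (hl : μ (b l) (b l) ≠ 0) {s t : ℂ} (hs : μ (b i) (b i) = s • w)
    (ht : μ (b l) (b l) = t • w) : i = l := by
  by_contra hne
  have hs0 : s ≠ 0 := by rintro rfl; rw [zero_smul] at hs; exact hi hs
  apply hl
  refine sq_indep hP hb hne hi (lam := t / s) ?_
  rw [hs, smul_smul, div_mul_cancel₀ t hs0, ht]

theorem line_unique (hP : CondP μ) {b : Basis ι ℂ E} (hb : IsNatural μ b) {x : E} {r : ℂ}
    (hxx : μ x x = r • x) {i l : ι} (hxi : b.repr x i ≠ 0) (hxl : b.repr x l ≠ 0)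
    (hi : μ (b i) (b i) ≠ 0) (hl : μ (b l) (b l) ≠ 0) : i = l := by
  obtain ⟨s, hs⟩ := line_sq hP hb hxx hxi
  obtain ⟨t, ht⟩ := line_sq hP hb hxx hxl
  exact eq_of_prop hP hb hi hl hs ht

/-- The key lemma: if an element of a subalgebra involves `b i` with `(b i)² ≠ 0`, then the
subalgebra contains `b i + a` for some annihilating `a`. -/
theorem key (hP : CondP μ) {b : Basis ι ℂ E} (hb : IsNatural μ b) {S : Submodule ℂ E}
    (hS : IsSub μ S) {x : E} (hx : x ∈ S) {i : ι} (hxi : b.repr x i ≠ 0)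
    (hi : μ (b i) (b i) ≠ 0) : ∃ a, IsAnn μ b a ∧ b i + a ∈ S := by
  classical
  obtain ⟨n, c, J, hc, hJ⟩ := hP S hS
  obtain ⟨k, hkJ, hk⟩ : ∃ k ∈ J, b.repr (c k) i ≠ 0 := by
    by_contra hcon
    push Not at hcon
    have : Submodule.span ℂ (c '' J) ≤ LinearMap.ker (b.coord i) := by
      rw [Submodule.span_le]
      rintro _ ⟨k, hk, rfl⟩
      exact hcon k hk
    rw [hJ] at this
    exact hxi (this hx)
  have hcS : c k ∈ S := by rw [← hJ]; exact Submodule.subset_span ⟨k, hkJ, rfl⟩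
  obtain ⟨s, hs⟩ := natural_sq hb hc hk
  refine ⟨(b.repr (c k) i)⁻¹ • c k - b i, ?_, ?_⟩
  · intro l hl
    rw [map_sub, map_smul, Finsupp.sub_apply, Finsupp.smul_apply, Basis.repr_self, smul_eq_mul]
    by_cases hil : i = l
    · subst hil
      rw [Finsupp.single_eq_same, inv_mul_cancel₀ hk, sub_self]
    · rw [Finsupp.single_eq_of_ne (Ne.symm hil), sub_zero]
      have : b.repr (c k) l = 0 := by
        by_contra hne
        obtain ⟨t, ht⟩ := natural_sq hb hc hne
        exact hil (eq_of_prop hP hb hi hl hs ht)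
      rw [this, mul_zero]
  · rw [add_sub_cancel]
    exact S.smul_mem _ hcS

/-- The elements whose coordinates vanish outside `J`. -/
def coordSub (b : Basis ι ℂ E) (J : Set ι) : Submodule ℂ E where
  carrier := {y | ∀ l, l ∉ J → b.repr y l = 0}
  zero_mem' := by intro l _; simp
  add_mem' := by intro x y hx hy l hl; simp [hx l hl, hy l hl]
  smul_mem' := by intro c x hx l hl; simp [hx l hl]

theorem mem_coordSub {b : Basis ι ℂ E} {J : Set ι} {y : E} :
    y ∈ coordSub b J ↔ ∀ l, l ∉ J → b.repr y l = 0 := Iff.rfl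

/-- The test subalgebras `ℂ x + T`. -/
theorem test [Fintype ι] (hP : CondP μ) {b : Basis ι ℂ E} (hb : IsNatural μ b) {x : E} {J : Set ι}
    (h1 : μ x x ∈ coordSub b J) (h2 : ∀ l ∈ J, μ (b l) (b l) ≠ 0 → b.repr x l = 0)
    (h3 : ∀ l ∈ J, μ (b l) (b l) ≠ 0 → μ (b l) (b l) ∈ coordSub b J) {i j : ι} (hij : i ≠ j)
    (hiJ : i ∉ J) (hjJ : j ∉ J) (hi : μ (b i) (b i) ≠ 0) (hj : μ (b j) (b j) ≠ 0)
    (hxi : b.repr x i ≠ 0) (hxj : b.repr x j ≠ 0) : False := by
  classical
  -- products inside `T`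
  have hTT : ∀ t ∈ coordSub b J, ∀ t' : E, μ t t' ∈ coordSub b J := by
    intro t ht t'
    rw [mul_expand hb]
    refine Submodule.sum_mem _ fun l _ => ?_
    by_cases hl : l ∈ J
    · by_cases hsq : μ (b l) (b l) = 0
      · rw [hsq, smul_zero]; exact Submodule.zero_mem _
      · exact Submodule.smul_mem _ _ (h3 l hl hsq)
    · rw [ht l hl, zero_mul, zero_smul]; exact Submodule.zero_mem _
  have hxT : ∀ t ∈ coordSub b J, μ x t = 0 := by
    intro t ht
    rw [mul_expand hb]
    refine Finset.sum_eq_zero fun l _ => ?_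
    by_cases hl : l ∈ J
    · by_cases hsq : μ (b l) (b l) = 0
      · rw [hsq, smul_zero]
      · rw [h2 l hl hsq, zero_mul, zero_smul]
    · rw [ht l hl, mul_zero, zero_smul]
  have hS : IsSub μ (Submodule.span ℂ {x} ⊔ coordSub b J) := by
    intro y hy z hz
    obtain ⟨u, hu, t, ht, rfl⟩ := Submodule.mem_sup.1 hy
    obtain ⟨u', hu', t', ht', rfl⟩ := Submodule.mem_sup.1 hz
    obtain ⟨r, rfl⟩ := Submodule.mem_span_singleton.1 hu
    obtain ⟨r', rfl⟩ := Submodule.mem_span_singleton.1 hu'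
    refine Submodule.mem_sup_right ?_
    simp only [map_add, map_smul, LinearMap.add_apply, LinearMap.smul_apply]
    rw [hxT t' ht', mul_comm' hb t x, hxT t ht]
    simp only [smul_zero, add_zero, zero_add]
    exact Submodule.add_mem _ (Submodule.smul_mem _ _ (Submodule.smul_mem _ _ h1)) (hTT t ht t')
  obtain ⟨a, ha, hmem⟩ := key hP hb hS (x := x)
    (Submodule.mem_sup_left (Submodule.mem_span_singleton_self x)) hxi hi
  obtain ⟨u, hu, t, ht, heq⟩ := Submodule.mem_sup.1 hmem
  obtain ⟨r, rfl⟩ := Submodule.mem_span_singleton.1 hu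
  have e1 := congrArg (fun v => b.repr v j) heq
  have e2 := congrArg (fun v => b.repr v i) heq
  simp only [map_add, map_smul, Finsupp.add_apply, Finsupp.smul_apply, Basis.repr_self,
    smul_eq_mul] at e1 e2
  rw [ht j hjJ, ha j hj, Finsupp.single_eq_of_ne (Ne.symm hij), add_zero, add_zero] at e1
  rw [ht i hiJ, ha i hi, Finsupp.single_eq_same, add_zero, add_zero] at e2
  have hr : r = 0 := by
    rcases mul_eq_zero.1 e1 with h | h
    · exact h
    · exact absurd h hxj
  rw [hr, zero_mul] at e2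
  exact zero_ne_one e2

end condP

end Pool.Agent.R700.Evo
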