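import Mathlib
import Pool.Agent.R700.Evo

/-!
# Powers of evolution algebras and the classes `ZN^s`
-/

namespace Pool.Agent.R700.Evo

open Module Submodule

section powers

variable {E : Type} [AddCommGroup E] [Module ℂ E] {μ : Alg E}

theorem Pw_succ_succ (k : ℕ) : Pw μ (k + 2) =
    ⨆ i : Fin (k + 1), Submodule.map₂ μ (Pw μ (i + 1)) (Pw μ (k + 1 - i)) := by
  rw [Pw]

theorem Pw_one : Pw μ 1 = ⊤ := by rw [Pw]

theorem mul_Pw {i j : ℕ} (hi : 1 ≤ i) (hj : 1 ≤ j) {x y : E} (hx : x ∈ Pw μ i)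
    (hy : y ∈ Pw μ j) : μ x y ∈ Pw μ (i + j) := by
  obtain ⟨i, rfl⟩ := Nat.exists_eq_add_of_le' hi
  obtain ⟨j, rfl⟩ := Nat.exists_eq_add_of_le' hj
  have h1 : i + 1 + (j + 1) = (i + j) + 2 := by omega
  rw [h1, Pw_succ_succ]
  refine Submodule.mem_iSup_of_mem (⟨i, by omega⟩ : Fin (i + j + 1)) ?_
  refine Submodule.apply_mem_map₂ μ hx ?_
  have h2 : i + j + 1 - i = j + 1 := by omega
  simpa [h2] using hy

theorem Pw_le {S : Submodule ℂ E} {k : ℕ} (hk : 2 ≤ k)
    (h : ∀ i j, 1 ≤ i → 1 ≤ j → i + j = k → ∀ x ∈ Pw μ i, ∀ y ∈ Pw μ j, μ x y ∈ S) :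
    Pw μ k ≤ S := by
  obtain ⟨k, rfl⟩ := Nat.exists_eq_add_of_le' hk
  rw [Pw_succ_succ]
  refine iSup_le fun i => ?_
  rw [Submodule.map₂_le]
  intro x hx y hy
  exact h _ _ (by omega) (by omega) (by omega) x hx y hy

theorem Pw_succ_le : ∀ k : ℕ, 1 ≤ k → Pw μ (k + 1) ≤ Pw μ k := by
  intro k
  induction k using Nat.strong_induction_on with
  | _ k ih =>
    intro hk
    rcases Nat.eq_or_lt_of_le hk with h1 | h1
    · rw [← h1, Pw_one]; exact le_top
    · refine Pw_le (by omega) fun i j hi hj hij x hx y hy => ?_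
      rcases Nat.lt_or_ge 1 i with h2 | h2
      · have hx' : x ∈ Pw μ (i - 1) := by
          refine ih (i - 1) (by omega) (by omega) ?_
          rwa [Nat.sub_add_cancel hi]
        have := mul_Pw (by omega) hj hx' hy
        have e : i - 1 + j = k := by omega
        rwa [e] at this
      · have hy' : y ∈ Pw μ (j - 1) := by
          refine ih (j - 1) (by omega) (by omega) ?_
          rwa [Nat.sub_add_cancel hj]
        have := mul_Pw hi (by omega) hx hy'
        have e : i + (j - 1) = k := by omega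
        rwa [e] at this

theorem Pw_antitone {k l : ℕ} (hk : 1 ≤ k) (hkl : k ≤ l) : Pw μ l ≤ Pw μ k := by
  induction l, hkl using Nat.le_induction with
  | base => exact le_rfl
  | succ l hl ih => exact (Pw_succ_le l (by omega)).trans ih

/-- nilpotent algebras have no nonzero idempotents -/
theorem IsNilp.eq_zero (h : IsNilp μ) {x : E} (hx : μ x x = x) : x = 0 := by
  obtain ⟨m, hm, hm0⟩ := h
  have : ∀ k, 1 ≤ k → x ∈ Pw μ k := by
    intro k hk
    induction k, hk using Nat.le_induction with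
    | base => rw [Pw_one]; exact Submodule.mem_top
    | succ l hl ih =>
      have := mul_Pw hl le_rfl ih (show x ∈ Pw μ 1 by rw [Pw_one]; exact Submodule.mem_top)
      rwa [hx] at this
  have := this m hm
  rw [hm0] at this
  exact (Submodule.mem_bot ℂ).1 this

variable {ι : Type}

/-- The height lemma. -/
theorem Pw_height [Fintype ι] {b : Basis ι ℂ E} (hb : IsNatural μ b) (h : ι → ℕ)
    (hh : ∀ i j, b.repr (μ (b i) (b i)) j ≠ 0 → h i < h j) (k : ℕ) :
    ∀ x ∈ Pw μ k, ∀ i, b.repr x i ≠ 0 → k ≤ 2 ^ h i := by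
  induction k using Nat.strong_induction_on with
  | _ k ih =>
    intro x hx i hi
    rcases Nat.lt_or_ge k 2 with h2 | h2
    · exact (Nat.lt_succ_iff.1 h2).trans Nat.one_le_two_pow
    · by_contra hcon
      have hle : Pw μ k ≤ coordSub b {i | k ≤ 2 ^ h i} := by
        refine Pw_le h2 fun p q hp hq hpq y hy z hz => ?_
        intro j hj
        by_contra hne
        obtain ⟨l, h1, h2, h3⟩ := exists_of_repr_mul_ne hb hne
        have e1 := ih p (by omega) y hy l h1
        have e2 := ih q (by omega) z hz l h2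
        have e3 := hh l j h3
        apply hj
        have e4 : 2 ^ (h l + 1) ≤ 2 ^ h j := Nat.pow_le_pow_right (by norm_num) e3
        rw [pow_succ] at e4
        show k ≤ 2 ^ h j
        omega
      exact hi (hle hx i hcon)

theorem isNilp_of_height [Fintype ι] {b : Basis ι ℂ E} (hb : IsNatural μ b) (h : ι → ℕ)
    (hh : ∀ i j, b.repr (μ (b i) (b i)) j ≠ 0 → h i < h j) (M : ℕ) (hM : ∀ i, h i ≤ M) :
    Pw μ (2 ^ M + 1) = ⊥ := by
  rw [eq_bot_iff]
  intro x hx
  rw [Submodule.mem_bot]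
  apply b.ext_elem
  intro i
  by_contra hne
  rw [map_zero, Finsupp.zero_apply] at hne
  have h1 := Pw_height hb h hh _ x hx i hne
  have h2 : 2 ^ h i ≤ 2 ^ M := Nat.pow_le_pow_right (by norm_num) (hM i)
  omega

end powers

section ub

variable {E : Type} [AddCommGroup E] [Module ℂ E] {μ : Alg E} {ι : Type} [Fintype ι]
  [DecidableEq ι]

open Classical in
/-- `U (k+1)` is the set of the indices with a predecessor in `U k`. -/
noncomputable def U (μ : Alg E) (b : Basis ι ℂ E) : ℕ → Finset ι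
  | 0 => Finset.univ
  | (k + 1) => Finset.univ.filter fun j => ∃ i ∈ U μ b k, b.repr (μ (b i) (b i)) j ≠ 0

omit [DecidableEq ι] in
theorem mem_U_succ {b : Basis ι ℂ E} {k : ℕ} {j : ι} :
    j ∈ U μ b (k + 1) ↔ ∃ i ∈ U μ b k, b.repr (μ (b i) (b i)) j ≠ 0 := by
  rw [U]; simp

omit [DecidableEq ι] in
theorem U_succ_subset (b : Basis ι ℂ E) (k : ℕ) : U μ b (k + 1) ⊆ U μ b k := by
  induction k with
  | zero => intro i _; rw [U]; exact Finset.mem_univ _
  | succ k ih =>
    intro j hj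
    obtain ⟨i, hi, hij⟩ := mem_U_succ.1 hj
    exact mem_U_succ.2 ⟨i, ih hi, hij⟩

omit [DecidableEq ι] in
theorem U_antitone (b : Basis ι ℂ E) {k l : ℕ} (h : k ≤ l) : U μ b l ⊆ U μ b k := by
  induction l, h using Nat.le_induction with
  | base => exact Finset.Subset.refl _
  | succ l _ ih => exact (U_succ_subset b l).trans ih

omit [Fintype ι] [DecidableEq ι] in
/-- In a nilpotent evolution algebra no nonempty set of indices has all predecessors inside. -/
theorem no_pred {b : Basis ι ℂ E} (hb : IsNatural μ b) (hn : IsNilp μ) {X : Finset ι}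
    (hX : ∀ j ∈ X, ∃ i ∈ X, b.repr (μ (b i) (b i)) j ≠ 0) : X = ∅ := by
  by_contra hne
  obtain ⟨j0, hj0⟩ := Finset.nonempty_iff_ne_empty.2 hne
  obtain ⟨m, hm, hm0⟩ := hn
  have key : ∀ k, 1 ≤ k → ∀ j ∈ X, ∃ x ∈ Pw μ k, b.repr x j ≠ 0 := by
    intro k hk
    induction k, hk using Nat.le_induction with
    | base =>
      intro j _
      exact ⟨b j, by rw [Pw_one]; exact Submodule.mem_top, by simp⟩
    | succ k hk ih =>
      intro j hj
      obtain ⟨i, hi, hij⟩ := hX j hj
      obtain ⟨x, hx, hxi⟩ := ih i hi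
      refine ⟨μ x (b i), mul_Pw hk le_rfl hx (by rw [Pw_one]; exact Submodule.mem_top), ?_⟩
      rw [mul_basis hb, map_smul, Finsupp.smul_apply, smul_eq_mul]
      exact mul_ne_zero hxi hij
  obtain ⟨x, hx, hxj⟩ := key m hm j0 hj0
  rw [hm0, Submodule.mem_bot] at hx
  rw [hx] at hxj
  simp at hxj

omit [DecidableEq ι] in
theorem card_U_lt {b : Basis ι ℂ E} (hb : IsNatural μ b) (hn : IsNilp μ) {k : ℕ}
    (h : (U μ b k).Nonempty) : (U μ b (k + 1)).card < (U μ b k).card := by
  refine Finset.card_lt_card ⟨U_succ_subset b k, fun hsub => ?_⟩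
  have : U μ b k = ∅ := no_pred hb hn fun j hj => mem_U_succ.1 (hsub hj)
  rw [this] at h
  exact Finset.not_nonempty_empty h

omit [DecidableEq ι] in
theorem card_U_le {b : Basis ι ℂ E} (hb : IsNatural μ b) (hn : IsNilp μ) (k : ℕ) :
    (U μ b k).card ≤ Fintype.card ι - k := by
  induction k with
  | zero => exact Finset.card_le_univ _
  | succ k ih =>
    rcases (U μ b k).eq_empty_or_nonempty with h | h
    · have h1 := Finset.card_le_card (U_succ_subset (μ := μ) b k)
      rw [h, Finset.card_empty] at h1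
      omega
    · have := card_U_lt hb hn h
      omega

omit [DecidableEq ι] in
/-- the supports of `Pw (2^k + 1)` -/
theorem supp_Pw_succ {b : Basis ι ℂ E} (hb : IsNatural μ b) (k : ℕ) :
    ∀ x ∈ Pw μ (2 ^ k + 1), ∀ j, b.repr x j ≠ 0 → j ∈ U μ b (k + 1) := by
  induction k with
  | zero =>
    intro x hx j hj
    have hle : Pw μ (2 ^ 0 + 1) ≤ coordSub b {j | j ∈ U μ b 1} := by
      refine Pw_le (by norm_num) fun p q hp hq hpq y hy z hz => ?_
      intro j hj
      by_contra hne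
      obtain ⟨l, h1, h2, h3⟩ := exists_of_repr_mul_ne hb hne
      exact hj (mem_U_succ.2 ⟨l, by rw [U]; exact Finset.mem_univ _, h3⟩)
    by_contra hcon
    exact hj (hle hx j hcon)
  | succ k ih =>
    intro x hx j hj
    have hle : Pw μ (2 ^ (k + 1) + 1) ≤ coordSub b {j | j ∈ U μ b (k + 1 + 1)} := by
      refine Pw_le ?_ fun p q hp hq hpq y hy z hz => ?_
      · have : 1 ≤ 2 ^ (k + 1) := Nat.one_le_two_pow
        omega
      intro j hj
      by_contra hne
      obtain ⟨l, h1, h2, h3⟩ := exists_of_repr_mul_ne hb hne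
      refine hj (mem_U_succ.2 ⟨l, ?_, h3⟩)
      rw [pow_succ] at hpq
      rcases Nat.lt_or_ge (2 ^ k) p with h4 | h4
      · exact ih y (Pw_antitone (by omega) (by omega : 2 ^ k + 1 ≤ p) hy) l h1
      · exact ih z (Pw_antitone (by omega) (by omega : 2 ^ k + 1 ≤ q) hz) l h2
    by_contra hcon
    exact hj (hle hx j hcon)

omit [DecidableEq ι] in
/-- the supports of `Pw (2^k)` -/
theorem supp_Pw {b : Basis ι ℂ E} (hb : IsNatural μ b) (k : ℕ) :
    ∀ x ∈ Pw μ (2 ^ k), ∀ j, b.repr x j ≠ 0 → j ∈ U μ b k := by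
  induction k with
  | zero =>
    intro x hx j hj
    rw [U]; exact Finset.mem_univ _
  | succ k ih =>
    intro x hx j hj
    have hle : Pw μ (2 ^ (k + 1)) ≤ coordSub b {j | j ∈ U μ b (k + 1)} := by
      refine Pw_le ?_ fun p q hp hq hpq y hy z hz => ?_
      · have : 1 ≤ 2 ^ k := Nat.one_le_two_pow
        rw [pow_succ]
        omega
      intro j hj
      by_contra hne
      obtain ⟨l, h1, h2, h3⟩ := exists_of_repr_mul_ne hb hne
      refine hj (mem_U_succ.2 ⟨l, ?_, h3⟩)
      rw [pow_succ] at hpq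
      have : 1 ≤ 2 ^ k := Nat.one_le_two_pow
      rcases Nat.lt_or_ge p (2 ^ k) with h4 | h4
      · exact ih z (Pw_antitone (by omega) (by omega : 2 ^ k ≤ q) hz) l h2
      · exact ih y (Pw_antitone (by omega) (by omega : 2 ^ k ≤ p) hy) l h1
    by_contra hcon
    exact hj (hle hx j hcon)

omit [DecidableEq ι] in
theorem Pw_eq_bot {b : Basis ι ℂ E} (hb : IsNatural μ b) (hn : IsNilp μ) {s : ℕ} (hs : 1 ≤ s)
    (hcard : Fintype.card ι = s) : Pw μ (2 ^ (s - 1) + 1) = ⊥ := by
  rw [eq_bot_iff]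
  intro x hx
  rw [Submodule.mem_bot]
  apply b.ext_elem
  intro i
  by_contra hne
  rw [map_zero, Finsupp.zero_apply] at hne
  have h1 := supp_Pw_succ hb (s - 1) x hx i hne
  have h2 := card_U_le hb hn (s - 1 + 1)
  have h3 : 0 < (U μ b (s - 1 + 1)).card := Finset.card_pos.2 ⟨i, h1⟩
  omega

/-- (Z): if `Pw (2^(s-1)) ≠ 0`, the basis elements of square zero lie in `Pw 2`. -/
theorem mem_Pw_two {b : Basis ι ℂ E} (hb : IsNatural μ b) (hn : IsNilp μ) {s : ℕ} (hs : 2 ≤ s)
    (hcard : Fintype.card ι = s) (hne : Pw μ (2 ^ (s - 1)) ≠ ⊥) {l : ι}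
    (hl : μ (b l) (b l) = 0) : b l ∈ Pw μ 2 := by
  have hU : (U μ b (s - 1)).Nonempty := by
    obtain ⟨x, hx, hx0⟩ := Submodule.exists_mem_ne_zero_of_ne_bot hne
    obtain ⟨i, hi⟩ : ∃ i, b.repr x i ≠ 0 := by
      by_contra hcon
      push Not at hcon
      exact hx0 (b.ext_elem fun i => by rw [hcon i, map_zero, Finsupp.zero_apply])
    exact ⟨i, supp_Pw hb (s - 1) x hx i hi⟩
  have hge : ∀ d, d ≤ s - 1 → d + 1 ≤ (U μ b (s - 1 - d)).card := by
    intro d
    induction d with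
    | zero => intro _; exact Finset.card_pos.2 hU
    | succ d ih =>
      intro hd
      have h1 := ih (by omega)
      have e : s - 1 - d = (s - 1 - (d + 1)) + 1 := by omega
      rw [e] at h1
      have h2 : (U μ b (s - 1 - (d + 1))).Nonempty :=
        hU.mono (U_antitone b (by omega))
      have := card_U_lt hb hn h2
      omega
  have hcardU : ∀ k, k ≤ s - 1 → (U μ b k).card = s - k := by
    intro k hk
    have h1 := hge (s - 1 - k) (by omega)
    have e : s - 1 - (s - 1 - k) = k := by omega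
    rw [e] at h1
    have h2 := card_U_le hb hn k
    omega
  have hUs : U μ b s = ∅ := by
    have h2 := card_U_le hb hn s
    rw [hcard, Nat.sub_self] at h2
    exact Finset.card_eq_zero.1 (Nat.le_zero.1 h2)
  -- the last index `k` with `l ∈ U k`
  have hlast : l ∈ U μ b (s - 1) := by
    by_contra hnot
    -- find k with l ∈ U k, l ∉ U (k+1), k + 1 ≤ s - 1
    obtain ⟨k, hk1, hk2, hk3⟩ : ∃ k, k + 1 ≤ s - 1 ∧ l ∈ U μ b k ∧ l ∉ U μ b (k + 1) := by
      by_contra hcon
      push Not at hcon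
      have : ∀ k, k ≤ s - 1 → l ∈ U μ b k := by
        intro k
        induction k with
        | zero => intro _; rw [U]; exact Finset.mem_univ _
        | succ k ih => intro hk; exact hcon k hk (ih (by omega))
      exact hnot (this _ le_rfl)
    have hlt : (U μ b (k + 1 + 1)).card < (U μ b (k + 1)).card :=
      card_U_lt hb hn (hU.mono (U_antitone b hk1))
    obtain ⟨j, hj1, hj2⟩ := Finset.exists_mem_notMem_of_card_lt_card hlt
    obtain ⟨i, hi, hij⟩ := mem_U_succ.1 hj1
    have hi' : i ∉ U μ b (k + 1) := fun h => hj2 (mem_U_succ.2 ⟨i, h, hij⟩)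
    have hil : i = l := by
      by_contra hil
      have hsub : insert i (insert l (U μ b (k + 1))) ⊆ U μ b k := by
        intro m hm
        rcases Finset.mem_insert.1 hm with rfl | hm
        · exact hi
        rcases Finset.mem_insert.1 hm with rfl | hm
        · exact hk2
        exact U_succ_subset b k hm
      have h1 := Finset.card_le_card hsub
      rw [Finset.card_insert_of_notMem, Finset.card_insert_of_notMem hk3, hcardU k (by omega),
        hcardU (k + 1) hk1] at h1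
      · omega
      · intro hm
        rcases Finset.mem_insert.1 hm with h | h
        · exact hil h
        · exact hi' h
    rw [hil, hl] at hij
    simp at hij
  have hsingle : ∀ j ∈ U μ b (s - 1), j = l := by
    have h1 := hcardU (s - 1) le_rfl
    have h2 : s - (s - 1) = 1 := by omega
    rw [h2, Finset.card_eq_one] at h1
    obtain ⟨a, ha⟩ := h1
    intro j hj
    rw [ha, Finset.mem_singleton] at hj hlast
    rw [hj, hlast]
  have e : s - 1 = (s - 2) + 1 := by omega
  rw [e] at hlast hsingle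
  obtain ⟨i, hi, hil⟩ := mem_U_succ.1 hlast
  have hsq : μ (b i) (b i) = b.repr (μ (b i) (b i)) l • b l := by
    apply b.ext_elem
    intro j
    rw [map_smul, Finsupp.smul_apply, Basis.repr_self, smul_eq_mul]
    by_cases hjl : j = l
    · rw [hjl, Finsupp.single_eq_same, mul_one]
    · rw [Finsupp.single_eq_of_ne hjl, mul_zero]
      by_contra hcon
      exact hjl (hsingle j (mem_U_succ.2 ⟨i, hi, hcon⟩))
  have hmem : μ (b i) (b i) ∈ Pw μ (1 + 1) :=
    mul_Pw le_rfl le_rfl (by rw [Pw_one]; exact Submodule.mem_top)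
      (by rw [Pw_one]; exact Submodule.mem_top)
  rw [hsq] at hmem
  have := Submodule.smul_mem _ (b.repr (μ (b i) (b i)) l)⁻¹ hmem
  rwa [smul_smul, inv_mul_cancel₀ hil, one_smul] at this

end ub

section chain

variable {E : Type} [AddCommGroup E] [Module ℂ E] {μ : Alg E} {s : ℕ}

/-- upper triangular with a nonzero superdiagonal -/
def IsChain (μ : Alg E) (g : Basis (Fin s) ℂ E) : Prop :=
  (∀ i j : Fin s, g.repr (μ (g i) (g i)) j ≠ 0 → i < j) ∧
  ∀ i j : Fin s, (i : ℕ) + 1 = j → g.repr (μ (g i) (g i)) j ≠ 0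

theorem chain_ne (g : Basis (Fin s) ℂ E) (hg : IsNatural μ g) (hc : IsChain μ g) (hs : 1 ≤ s) :
    Pw μ (2 ^ (s - 1)) ≠ ⊥ := by
  have key : ∀ k, k ≤ s - 1 → ∃ y ∈ Pw μ (2 ^ k), (∀ j : Fin s, (j : ℕ) < k → g.repr y j = 0) ∧
      ∀ j : Fin s, (j : ℕ) = k → g.repr y j ≠ 0 := by
    intro k
    induction k with
    | zero =>
      intro _
      refine ⟨g ⟨0, by omega⟩, by rw [pow_zero, Pw_one]; exact Submodule.mem_top, ?_, ?_⟩
      · intro j hj; omega
      · intro j hj
        have : j = ⟨0, by omega⟩ := Fin.ext hj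
        rw [this, Basis.repr_self, Finsupp.single_eq_same]
        exact one_ne_zero
    | succ k ih =>
      intro hk
      obtain ⟨y, hy, hy1, hy2⟩ := ih (by omega)
      refine ⟨μ y y, ?_, ?_, ?_⟩
      · have := mul_Pw Nat.one_le_two_pow Nat.one_le_two_pow hy hy
        rwa [pow_succ, mul_two]
      · intro j hj
        by_contra hne
        obtain ⟨l, h1, h2, h3⟩ := exists_of_repr_mul_ne hg hne
        have h4 : (l : ℕ) < j := hc.1 l j h3
        exact h1 (hy1 l (by omega))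
      · intro j hj
        rw [repr_mul hg, Finset.sum_eq_single (⟨k, by omega⟩ : Fin s)]
        · exact mul_ne_zero (mul_ne_zero (hy2 _ rfl) (hy2 _ rfl)) (hc.2 _ _ hj.symm)
        · intro l _ hl
          by_contra hne
          have h1 : g.repr y l ≠ 0 := fun h => hne (by rw [h]; ring)
          have h3 : g.repr (μ (g l) (g l)) j ≠ 0 := fun h => hne (by rw [h]; ring)
          have h4 : (l : ℕ) < j := hc.1 l j h3
          have h5 : ¬ (l : ℕ) < k := fun h => h1 (hy1 l h)
          exact hl (Fin.ext (by simp only; omega))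
        · intro h; exact absurd (Finset.mem_univ _) h
  obtain ⟨y, hy, _, hy2⟩ := key (s - 1) le_rfl
  intro hbot
  rw [hbot, Submodule.mem_bot] at hy
  exact hy2 ⟨s - 1, by omega⟩ rfl (by rw [hy]; simp)

theorem chain_bot (g : Basis (Fin s) ℂ E) (hg : IsNatural μ g) (hc : IsChain μ g) :
    Pw μ (2 ^ (s - 1) + 1) = ⊥ := by
  refine isNilp_of_height hg (fun i => (i : ℕ)) (fun i j h => hc.1 i j h) _ fun i => ?_
  have := i.2
  show (i : ℕ) ≤ s - 1
  omega

/-- The index of nilpotency of a nilpotent evolution algebra of dimension `s`. -/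
theorem IsIndex.le {E : Type} [AddCommGroup E] [Module ℂ E] {μ : Alg E} (hs : 1 ≤ s)
    (hdim : finrank ℂ E = s) (hE : IsEvolution μ) {m : ℕ} (hm : IsIndex μ m) :
    m ≤ 2 ^ (s - 1) + 1 := by
  obtain ⟨n, b, hb⟩ := hE
  have hn : n = s := by rw [← hdim, Module.finrank_eq_card_basis b, Fintype.card_fin]
  have h1 : Pw μ (2 ^ (s - 1) + 1) = ⊥ :=
    Pw_eq_bot hb ⟨m, hm.1, hm.2.1⟩ hs (by rw [Fintype.card_fin, hn])
  by_contra hcon
  exact hm.2.2 _ (Nat.le_add_left 1 _) (not_le.1 hcon) h1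

theorem isIndex_of {E : Type} [AddCommGroup E] [Module ℂ E] {μ : Alg E} {m : ℕ} (hm : 1 ≤ m)
    (h1 : Pw μ (m + 1) = ⊥) (h2 : Pw μ m ≠ ⊥) : IsIndex μ (m + 1) := by
  refine ⟨by omega, h1, fun k hk hkm h => h2 ?_⟩
  rw [eq_bot_iff, ← h]
  exact Pw_antitone hk (by omega)

theorem ZN_of_chain (hs : 1 ≤ s) (g : Basis (Fin s) ℂ E) (hg : IsNatural μ g)
    (hc : IsChain μ g) : ZN s μ := by
  refine ⟨by rw [Module.finrank_eq_card_basis g, Fintype.card_fin], ⟨s, g, hg⟩,
    2 ^ (s - 1) + 1, isIndex_of Nat.one_le_two_pow (chain_bot g hg hc) (chain_ne g hg hc hs), ?_⟩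
  intro E' _ _ μ' m' hdim hev hidx
  exact IsIndex.le hs hdim hev hidx

/-- The chain algebra `e_i e_i = e_{i+1}`. -/
noncomputable def shiftMul (s : ℕ) : Alg (Fin s → ℂ) :=
  LinearMap.mk₂ ℂ (fun x y j => if h : (j : ℕ) = 0 then 0 else
      x ⟨j - 1, by omega⟩ * y ⟨j - 1, by omega⟩)
    (by
      intro x x' y; funext j
      by_cases h : (j : ℕ) = 0
      · simp [h]
      · simp only [h, dif_neg, not_false_eq_true, Pi.add_apply]; ring)
    (by
      intro c x y; funext j
      by_cases h : (j : ℕ) = 0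
      · simp [h]
      · simp only [h, dif_neg, not_false_eq_true, Pi.smul_apply, smul_eq_mul]; ring)
    (by
      intro x y y'; funext j
      by_cases h : (j : ℕ) = 0
      · simp [h]
      · simp only [h, dif_neg, not_false_eq_true, Pi.add_apply]; ring)
    (by
      intro c x y; funext j
      by_cases h : (j : ℕ) = 0
      · simp [h]
      · simp only [h, dif_neg, not_false_eq_true, Pi.smul_apply, smul_eq_mul]; ring)

theorem shiftMul_apply (x y : Fin s → ℂ) (j : Fin s) : shiftMul s x y j =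
    if h : (j : ℕ) = 0 then 0 else x ⟨j - 1, by omega⟩ * y ⟨j - 1, by omega⟩ := rfl

theorem shift_natural : IsNatural (shiftMul s) (Pi.basisFun ℂ (Fin s)) := by
  intro i j hij
  funext k
  rw [shiftMul_apply]
  by_cases h : (k : ℕ) = 0
  · simp [h]
  · simp only [h, dif_neg, not_false_eq_true, Pi.basisFun_apply, Pi.zero_apply]
    by_cases h1 : (⟨k - 1, by omega⟩ : Fin s) = i
    · have h2 : (⟨k - 1, by omega⟩ : Fin s) ≠ j := fun h => hij (h1.symm.trans h)
      rw [Pi.single_eq_of_ne h2, mul_zero]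
    · rw [Pi.single_eq_of_ne h1, zero_mul]

theorem shift_chain : IsChain (shiftMul s) (Pi.basisFun ℂ (Fin s)) := by
  constructor
  · intro i j h
    rw [Pi.basisFun_repr, shiftMul_apply] at h
    by_cases h0 : (j : ℕ) = 0
    · simp [h0] at h
    · simp only [h0, dif_neg, not_false_eq_true, Pi.basisFun_apply] at h
      by_cases h1 : (⟨j - 1, by omega⟩ : Fin s) = i
      · rw [← h1]
        show (j : ℕ) - 1 < j
        omega
      · rw [Pi.single_eq_of_ne h1, zero_mul] at h
        exact absurd rfl h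
  · intro i j hij
    rw [Pi.basisFun_repr, shiftMul_apply]
    have h0 : (j : ℕ) ≠ 0 := by omega
    have h1 : (⟨j - 1, by omega⟩ : Fin s) = i := Fin.ext (by simp only; omega)
    simp only [h0, dif_neg, not_false_eq_true, Pi.basisFun_apply]
    rw [h1, Pi.single_eq_same]
    simp

theorem ZN.bot_ne {E : Type} [AddCommGroup E] [Module ℂ E] {μ : Alg E} (hs : 1 ≤ s)
    (h : ZN s μ) : IsNilp μ ∧ Pw μ (2 ^ (s - 1)) ≠ ⊥ := by
  obtain ⟨hdim, hev, m, hm, hmax⟩ := h
  refine ⟨⟨m, hm.1, hm.2.1⟩, ?_⟩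
  have h1 : 2 ^ (s - 1) + 1 ≤ m := hmax (Fin s → ℂ) _ _ (shiftMul s) _ (by simp)
    ⟨s, _, shift_natural⟩
    (isIndex_of Nat.one_le_two_pow (chain_bot _ shift_natural shift_chain)
      (chain_ne _ shift_natural shift_chain hs))
  exact hm.2.2 _ Nat.one_le_two_pow (by omega)

/-- In an algebra of `ZN^s`, `s ≥ 2`, the annihilator lies in the square. -/
theorem ZN.ann_mem {E : Type} [AddCommGroup E] [Module ℂ E] {μ : Alg E} (hs : 2 ≤ s)
    (h : ZN s μ) {w : E} (hw : ∀ y, μ w y = 0) : w ∈ Pw μ 2 := by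
  obtain ⟨hn, hne⟩ := h.bot_ne (by omega)
  obtain ⟨hdim, ⟨n, b, hb⟩, -⟩ := h
  have hns : n = s := by rw [← hdim, Module.finrank_eq_card_basis b, Fintype.card_fin]
  rw [← b.sum_repr w]
  refine Submodule.sum_mem _ fun l _ => ?_
  by_cases h0 : b.repr w l = 0
  · rw [h0, zero_smul]; exact Submodule.zero_mem _
  · refine Submodule.smul_mem _ _ (mem_Pw_two hb hn hs (by rw [Fintype.card_fin, hns]) hne ?_)
    have := hw (b l)
    rw [mul_basis hb] at this
    exact (smul_eq_zero.1 this).resolve_left h0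

theorem ZN.exists_mul_ne {E : Type} [AddCommGroup E] [Module ℂ E] {μ : Alg E} (hs : 2 ≤ s)
    (h : ZN s μ) : ∃ x y, μ x y ≠ 0 := by
  obtain ⟨hn, hne⟩ := h.bot_ne (by omega)
  by_contra hcon
  push Not at hcon
  apply hne
  rw [eq_bot_iff]
  refine (Pw_antitone (by norm_num) (?_ : 2 ≤ 2 ^ (s - 1))).trans
    (Pw_le le_rfl fun i j hi hj hij x hx y hy => ?_)
  · calc 2 = 2 ^ 1 := by norm_num
      _ ≤ 2 ^ (s - 1) := Nat.pow_le_pow_right (by norm_num) (by omega)
  · rw [hcon x y]; exact Submodule.zero_mem _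

end chain

section noniso

variable {W : Type} [AddCommGroup W] [Module ℂ W] {ν : Alg W}
  {W' : Type} [AddCommGroup W'] [Module ℂ W'] {ν' : Alg W'} {s s' m m' : ℕ}

theorem ES1_apply (x y : ℂ) : ES1 x y = x * y := rfl

theorem Zero_apply (x y : Fin m → ℂ) : Zero m x y = 0 := rfl

theorem Iso.symm {E : Type} [AddCommGroup E] [Module ℂ E] {F : Type} [AddCommGroup F]
    [Module ℂ F] {μ : Alg E} {ν : Alg F} (h : Iso μ ν) : Iso ν μ := by
  obtain ⟨φ, hφ⟩ := h
  refine ⟨φ.symm, fun x y => ?_⟩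
  rw [φ.symm_apply_eq, hφ]
  simp

/-- the nonzero idempotents of `ES_1 ⊕ W ⊕ ℂ^m` -/
theorem idem_eq (hn : IsNilp ν) {x : ℂ × W × (Fin m → ℂ)} (hx0 : x ≠ 0)
    (hx : prodMul ES1 (prodMul ν (Zero m)) x x = x) : x = (1, 0, 0) := by
  obtain ⟨t, w, z⟩ := x
  simp only [prodMul_apply, ES1_apply, Zero_apply, Prod.mk.injEq] at hx
  obtain ⟨h1, h2, h3⟩ := hx
  have hw := hn.eq_zero h2
  have ht : t * (t - 1) = 0 := by rw [mul_sub, h1]; ring
  rcases mul_eq_zero.1 ht with h | h
  · exact absurd (by rw [h, hw, ← h3]; rfl) hx0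
  · rw [sub_eq_zero.1 h, hw, ← h3]

theorem not_iso_one (hs : 2 ≤ s) (hZ : ZN s ν) (m m' : ℕ) :
    ¬ Iso (prodMul ES1 (Zero m)) (prodMul ES1 (prodMul ν (Zero m'))) := by
  rintro ⟨φ, hφ⟩
  obtain ⟨x, y, hxy⟩ := hZ.exists_mul_ne hs
  have hn := (hZ.bot_ne (by omega)).1
  obtain ⟨p, hp⟩ := φ.surjective (0, x, 0)
  obtain ⟨q, hq⟩ := φ.surjective (0, y, 0)
  have h1 : φ (prodMul ES1 (Zero m) p q) = (0, ν x y, 0) := by
    rw [hφ, hp, hq]
    simp only [prodMul_apply, ES1_apply, Zero_apply, mul_zero]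
  have h2 : φ (1, 0) = (1, 0, 0) := by
    refine idem_eq hn ?_ ?_
    · intro h
      have := φ.injective (h.trans (map_zero φ).symm)
      exact one_ne_zero (congrArg Prod.fst this)
    · rw [← hφ]
      simp only [prodMul_apply, ES1_apply, Zero_apply, mul_one]
  have h3 : prodMul ES1 (Zero m) p q = (p.1 * q.1) • ((1, 0) : ℂ × (Fin m → ℂ)) := by
    simp only [prodMul_apply, ES1_apply, Zero_apply, Prod.smul_mk, smul_eq_mul, mul_one, smul_zero]
  rw [h3, map_smul, h2] at h1
  simp only [Prod.smul_mk, smul_zero, Prod.mk.injEq] at h1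
  exact hxy h1.2.1.symm

theorem exists_hom (hs : 2 ≤ s) (hZ : ZN s ν) (hs' : 2 ≤ s') (hZ' : ZN s' ν')
    (h : Iso (prodMul ES1 (prodMul ν (Zero m))) (prodMul ES1 (prodMul ν' (Zero m')))) :
    ∃ ψ : W →ₗ[ℂ] W', Function.Injective ψ ∧ ∀ x y, ψ (ν x y) = ν' (ψ x) (ψ y) := by
  obtain ⟨φ, hφ⟩ := h
  have hn := (hZ.bot_ne (by omega)).1
  have hn' := (hZ'.bot_ne (by omega)).1
  let I : W →ₗ[ℂ] ℂ × W × (Fin m → ℂ) := LinearMap.inr ℂ ℂ (W × (Fin m → ℂ)) ∘ₗ
    LinearMap.inl ℂ W (Fin m → ℂ)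
  have hI : ∀ w, I w = (0, w, 0) := fun w => rfl
  have hImul : ∀ x y, prodMul ES1 (prodMul ν (Zero m)) (I x) (I y) = I (ν x y) := by
    intro x y
    rw [hI, hI, hI]
    simp only [prodMul_apply, ES1_apply, Zero_apply, mul_zero]
  let ψ : W →ₗ[ℂ] W' := (LinearMap.fst ℂ W' (Fin m' → ℂ) ∘ₗ
    LinearMap.snd ℂ ℂ (W' × (Fin m' → ℂ))) ∘ₗ (φ : _ →ₗ[ℂ] _) ∘ₗ I
  have hψ : ∀ w, ψ w = (φ (I w)).2.1 := fun w => rfl
  have he : φ (1, 0, 0) = (1, 0, 0) := by
    refine idem_eq hn' ?_ ?_
    · intro h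
      have := φ.injective (h.trans (map_zero φ).symm)
      exact one_ne_zero (congrArg Prod.fst this)
    · rw [← hφ]
      simp only [prodMul_apply, ES1_apply, Zero_apply, mul_one, map_zero, LinearMap.zero_apply]
  have hfst : ∀ w, (φ (I w)).1 = 0 := by
    intro w
    have h1 : prodMul ES1 (prodMul ν (Zero m)) (1, 0, 0) (I w) = 0 := by
      rw [hI]
      simp only [prodMul_apply, ES1_apply, Zero_apply, mul_zero, map_zero, LinearMap.zero_apply]
      rfl
    have h2 := hφ (1, 0, 0) (I w)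
    rw [h1, map_zero, he] at h2
    have h3 := congrArg Prod.fst h2
    simp only [prodMul_apply, ES1_apply, one_mul] at h3
    exact h3.symm
  refine ⟨ψ, ?_, ?_⟩
  · rw [injective_iff_map_eq_zero]
    intro w hw
    have hw' : φ (I w) = (0, 0, (φ (I w)).2.2) := by
      refine Prod.ext (hfst w) (Prod.ext ?_ rfl)
      exact hw
    have hann : ∀ y, ν w y = 0 := by
      intro y
      have h1 : φ (I (ν w y)) = 0 := by
        rw [← hImul, hφ, hw']
        simp only [prodMul_apply, ES1_apply, Zero_apply, zero_mul, map_zero, LinearMap.zero_apply]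
        rfl
      have h2 := φ.injective (h1.trans (map_zero φ).symm)
      have h3 := congrArg (fun v => v.2.1) h2
      exact h3
    have hmem := hZ.ann_mem hs hann
    have hle : Pw ν 2 ≤ LinearMap.ker ((LinearMap.snd ℂ W' (Fin m' → ℂ) ∘ₗ
        LinearMap.snd ℂ ℂ (W' × (Fin m' → ℂ))) ∘ₗ (φ : _ →ₗ[ℂ] _) ∘ₗ I) := by
      refine Pw_le le_rfl fun i j hi hj hij x hx y hy => ?_
      rw [LinearMap.mem_ker]
      show (φ (I (ν x y))).2.2 = 0
      rw [← hImul, hφ]
      rfl
    have h22 : (φ (I w)).2.2 = 0 := LinearMap.mem_ker.1 (hle hmem)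
    rw [h22] at hw'
    have h2 := φ.injective (hw'.trans (map_zero φ).symm)
    exact congrArg (fun v => v.2.1) h2
  · intro x y
    rw [hψ, hψ, hψ, ← hImul, hφ]
    rfl

theorem iso_two (hs : 2 ≤ s) (hZ : ZN s ν) (hs' : 2 ≤ s') (hZ' : ZN s' ν')
    (h : Iso (prodMul ES1 (prodMul ν (Zero m))) (prodMul ES1 (prodMul ν' (Zero m')))) :
    s = s' ∧ m = m' ∧ Iso ν ν' := by
  obtain ⟨ψ, hψ, hψm⟩ := exists_hom hs hZ hs' hZ' h
  obtain ⟨ψ', hψ', -⟩ := exists_hom hs' hZ' hs hZ h.symm
  have d1 := hZ.1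
  have d2 := hZ'.1
  have : Module.Finite ℂ W := Module.finite_of_finrank_pos (by omega)
  have : Module.Finite ℂ W' := Module.finite_of_finrank_pos (by omega)
  have e1 := LinearMap.finrank_le_finrank_of_injective hψ
  have e2 := LinearMap.finrank_le_finrank_of_injective hψ'
  have e3 : s = s' := by omega
  refine ⟨e3, ?_, ?_⟩
  · obtain ⟨φ, -⟩ := h
    have := LinearEquiv.finrank_eq φ
    simp only [Module.finrank_prod, Module.finrank_self, Module.finrank_fin_fun] at this
    omega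
  · have hd : finrank ℂ W = finrank ℂ W' := by omega
    have hc : ∀ x, LinearEquiv.ofInjectiveOfFinrankEq ψ hψ hd x = ψ x := fun x =>
      congrArg (fun f => f x) (LinearEquiv.coe_ofInjectiveOfFinrankEq ψ hψ hd)
    refine ⟨LinearEquiv.ofInjectiveOfFinrankEq ψ hψ hd, fun x y => ?_⟩
    rw [hc, hc, hc]
    exact hψm x y

end noniso

end Pool.Agent.R700.Evo
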