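import Mathlib
import Pool.Agent.R700.Evo
import Pool.Agent.R700.EvoZ

/-!
# Structure of non-nilpotent evolution algebras with condition `P`
-/

namespace Pool.Agent.R700.Evo

open Module Submodule

section sol

variable {κ : Type*} [Fintype κ] [DecidableEq κ]

/-- A solution of `x_i² = ∑ B k i x_k` with at least two nonzero entries. -/
theorem exists_sol_two [Nontrivial κ] (B : κ → κ → ℂ)
    (hB : ∀ k, ∃ c : κ → ℂ, ∀ l, ∑ i, c i * B l i = if l = k then 1 else 0) :
    ∃ x : κ → ℂ, (∃ i j, i ≠ j ∧ x i ≠ 0 ∧ x j ≠ 0) ∧ ∀ i, x i * x i = ∑ k, B k i * x k := by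
  obtain ⟨x, hx0, hx⟩ := exists_sol B hB
  by_cases h2 : ∃ i j, i ≠ j ∧ x i ≠ 0 ∧ x j ≠ 0
  · exact ⟨x, h2, hx⟩
  push Not at h2
  obtain ⟨i0, hi0⟩ := Function.ne_iff.1 hx0
  rw [Pi.zero_apply] at hi0
  have hz : ∀ j, j ≠ i0 → x j = 0 := fun j hj => h2 i0 j hj.symm hi0
  have hBi : ∀ i, x i * x i = B i0 i * x i0 := by
    intro i
    rw [hx i, Finset.sum_eq_single i0]
    · intro k _ hk; rw [hz k hk, mul_zero]
    · intro h; exact absurd (Finset.mem_univ _) h
  have hB0 : ∀ i, i ≠ i0 → B i0 i = 0 := by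
    intro i hi
    have h := hBi i
    rw [hz i hi, mul_zero] at h
    exact (mul_eq_zero.1 h.symm).resolve_right hi0
  have hβ : B i0 i0 ≠ 0 := by
    have h := hBi i0
    have h' : B i0 i0 = x i0 := mul_right_cancel₀ hi0 h.symm
    rw [h']; exact hi0
  have : Nonempty {i : κ // i ≠ i0} := by
    obtain ⟨j, hj⟩ := exists_ne i0
    exact ⟨⟨j, hj⟩⟩
  obtain ⟨y, hy0, hy⟩ := exists_sol (κ := {i : κ // i ≠ i0}) (fun k i => B k i) (by
    intro k
    obtain ⟨c, hc⟩ := hB k
    have hc0 : c i0 = 0 := by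
      have h := hc i0
      rw [if_neg (Ne.symm k.2), Finset.sum_eq_single i0] at h
      · exact (mul_eq_zero.1 h).resolve_right hβ
      · intro i _ hi; rw [hB0 i hi, mul_zero]
      · intro h'; exact absurd (Finset.mem_univ _) h'
    refine ⟨fun i => c i, fun l => ?_⟩
    have h := hc l
    rw [Fintype.sum_eq_add_sum_subtype_ne _ i0, hc0, zero_mul, zero_add] at h
    rw [h]
    simp [Subtype.ext_iff])
  set γ : ℂ := ∑ k : {i : κ // i ≠ i0}, B k i0 * y k with hγ
  obtain ⟨t, ht0, ht⟩ : ∃ t : ℂ, t ≠ 0 ∧ t * t = B i0 i0 * t + γ := by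
    by_cases hγ0 : γ = 0
    · exact ⟨B i0 i0, hβ, by rw [hγ0, add_zero]⟩
    · obtain ⟨r, hr⟩ := IsAlgClosed.exists_pow_nat_eq (B i0 i0 ^ 2 + 4 * γ) (n := 2) two_pos
      have h1 : (B i0 i0 + r) / 2 * ((B i0 i0 + r) / 2) =
          B i0 i0 * ((B i0 i0 + r) / 2) + γ := by
        have : r * r = B i0 i0 ^ 2 + 4 * γ := by rw [← hr]; ring
        field_simp
        linear_combination this
      refine ⟨(B i0 i0 + r) / 2, ?_, h1⟩
      intro h0
      rw [h0] at h1
      apply hγ0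
      linear_combination -h1
  refine ⟨fun i => if h : i = i0 then t else y ⟨i, h⟩, ?_, ?_⟩
  · obtain ⟨j, hj⟩ := Function.ne_iff.1 hy0
    refine ⟨i0, j, Ne.symm j.2, ?_, ?_⟩
    · simpa using ht0
    · show (if h : (j : κ) = i0 then t else y ⟨j, h⟩) ≠ 0
      rw [dif_neg j.2]
      exact hj
  · intro i
    rw [Fintype.sum_eq_add_sum_subtype_ne _ i0]
    have e1 : ∀ k : {i : κ // i ≠ i0}, (B k i * if h : (k : κ) = i0 then t else y ⟨k, h⟩) =
        B k i * y k := by
      intro k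
      rw [dif_neg k.2]
    simp only [e1, dif_pos]
    by_cases hi : i = i0
    · subst hi
      simp only [dif_pos]
      rw [ht]
    · rw [dif_neg hi, hB0 i hi, zero_mul, zero_add]
      exact hy ⟨i, hi⟩

end sol

section core

variable {E : Type} [AddCommGroup E] [Module ℂ E] {ι : Type} {μ : Alg E}

theorem mul_sum_orth {κ : Type} [Fintype κ] (μ : Alg E) (e : κ → E)
    (h : ∀ k l, k ≠ l → μ (e k) (e l) = 0) (x y : κ → ℂ) :
    μ (∑ k, x k • e k) (∑ k, y k • e k) = ∑ k, (x k * y k) • μ (e k) (e k) := by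
  rw [map_sum]
  refine Finset.sum_congr rfl fun k _ => ?_
  rw [map_sum, LinearMap.sum_apply, Finset.sum_eq_single k]
  · rw [map_smul, map_smul, LinearMap.smul_apply, smul_smul, mul_comm]
  · intro l _ hl
    rw [map_smul, map_smul, LinearMap.smul_apply, h l k hl, smul_zero, smul_zero]
  · intro h; exact absurd (Finset.mem_univ _) h

theorem core_mem [Fintype ι] (hP : CondP μ) {b : Basis ι ℂ E} (hb : IsNatural μ b) (K : Finset ι)
    (K1 : ∀ i ∈ K, μ (b i) (b i) ≠ 0)
    (K2 : ∀ j ∈ K, ∃ i ∈ K, b.repr (μ (b i) (b i)) j ≠ 0)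
    (K3 : ∀ i ∈ K, ∀ j, b.repr (μ (b i) (b i)) j ≠ 0 → μ (b j) (b j) ≠ 0 → j ∈ K) (i : ι)
    (hi : i ∈ K) : ∃ a, IsAnn μ b a ∧ ∃ c : K → ℂ, ∑ j, c j • μ (b j) (b j) = b i + a := by
  let F : Submodule ℂ E := Submodule.span ℂ (Set.range fun j : K => μ (b j) (b j))
  have hF : F ≤ coordSub b {l | μ (b l) (b l) ≠ 0 → l ∈ K} := by
    rw [Submodule.span_le]
    rintro _ ⟨j, rfl⟩
    intro l hl
    by_contra hne
    exact hl fun h => K3 j j.2 l hne h
  have hS : IsSub μ F := by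
    intro x hx y hy
    rw [mul_expand hb]
    refine Submodule.sum_mem _ fun l _ => ?_
    by_cases h0 : b.repr x l = 0
    · rw [h0, zero_mul, zero_smul]; exact Submodule.zero_mem _
    · by_cases h1 : μ (b l) (b l) = 0
      · rw [h1, smul_zero]; exact Submodule.zero_mem _
      · have hl : l ∈ K := by
          by_contra hl
          exact h0 (hF hx l fun h => hl (h h1))
        exact Submodule.smul_mem _ _ (Submodule.subset_span ⟨⟨l, hl⟩, rfl⟩)
  obtain ⟨j, hj, hji⟩ := K2 i hi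
  obtain ⟨a, ha, hmem⟩ := key hP hb hS (x := μ (b j) (b j))
    (Submodule.subset_span ⟨⟨j, hj⟩, rfl⟩) hji (K1 i hi)
  exact ⟨a, ha, (Submodule.mem_span_range_iff_exists_fun ℂ).1 hmem⟩

theorem repr_add_ann {b : Basis ι ℂ E} {a : E} (ha : IsAnn μ b a) (i l : ι) [DecidableEq ι]
    (hl : μ (b l) (b l) ≠ 0) : b.repr (b i + a) l = if i = l then 1 else 0 := by
  rw [map_add, Finsupp.add_apply, ha l hl, add_zero, Basis.repr_self, Finsupp.single_apply]

theorem mul_add_ann [Fintype ι] {b : Basis ι ℂ E} (hb : IsNatural μ b) {a a' : E}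
    (ha : IsAnn μ b a) (ha' : IsAnn μ b a') {i j : ι} (hij : i ≠ j) :
    μ (b i + a) (b j + a') = 0 := by
  simp only [map_add, LinearMap.add_apply, ha.mul hb, ha'.mul' hb, add_zero, hb i j hij]

theorem core_unique [Fintype ι] (hP : CondP μ) {b : Basis ι ℂ E} (hb : IsNatural μ b)
    (K : Finset ι) (K1 : ∀ i ∈ K, μ (b i) (b i) ≠ 0)
    (K2 : ∀ j ∈ K, ∃ i ∈ K, b.repr (μ (b i) (b i)) j ≠ 0)
    (K3 : ∀ i ∈ K, ∀ j, b.repr (μ (b i) (b i)) j ≠ 0 → μ (b j) (b j) ≠ 0 → j ∈ K) :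
    ∀ i ∈ K, ∀ j ∈ K, i = j := by
  classical
  intro i hi j hj
  by_contra hij
  have : Nontrivial K := ⟨⟨i, hi⟩, ⟨j, hj⟩, fun h => hij (congrArg Subtype.val h)⟩
  have hmem := core_mem hP hb K K1 K2 K3
  choose! a ha c hc using hmem
  have hrep : ∀ k l : K, b.repr (b k + a k) l = if l = k then 1 else 0 := by
    intro k l
    rw [repr_add_ann (ha k k.2) k l (K1 l l.2)]
    by_cases h : k = l
    · subst h; simp
    · rw [if_neg (fun h' => h (Subtype.ext h')), if_neg (Ne.symm h)]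
  obtain ⟨x, ⟨p, q, hpq, hp, hq⟩, hx⟩ := exists_sol_two (κ := K) (fun k i => c k i) (by
    intro k
    refine ⟨fun i => b.repr (μ (b i) (b i)) k, fun l => ?_⟩
    have h1 := congrArg (fun v => b.repr v k) (hc l l.2)
    simp only [map_sum, Finsupp.finsetSum_apply, map_smul, Finsupp.smul_apply, smul_eq_mul] at h1
    rw [hrep l k] at h1
    rw [← Finset.sum_congr rfl (fun i _ => mul_comm _ _), h1]
    by_cases h : l = k
    · subst h; simp
    · rw [if_neg h, if_neg (Ne.symm h)])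
  set X : E := ∑ k : K, x k • (b k + a k) with hX
  have horth : ∀ k l : K, k ≠ l → μ (b k + a k) (b l + a l) = 0 := fun k l hkl =>
    mul_add_ann hb (ha k k.2) (ha l l.2) fun h => hkl (Subtype.ext h)
  have hXX : μ X X = (1 : ℂ) • X := by
    rw [one_smul, hX, mul_sum_orth μ _ horth]
    have e1 : ∀ k : K, (x k * x k) • μ (b k + a k) (b k + a k) =
        ∑ l : K, x l • (c l k • μ (b k) (b k)) := by
      intro k
      rw [sq_add_ann hb (ha k k.2), hx k, Finset.sum_smul]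
      refine Finset.sum_congr rfl fun l _ => ?_
      rw [smul_smul, mul_comm]
    rw [Finset.sum_congr rfl fun k _ => e1 k, Finset.sum_comm]
    refine Finset.sum_congr rfl fun l _ => ?_
    rw [← Finset.smul_sum, hc l l.2]
  have hXr : ∀ l : K, b.repr X l = x l := by
    intro l
    rw [hX]
    simp only [map_sum, Finsupp.finsetSum_apply, map_smul, Finsupp.smul_apply, smul_eq_mul,
      hrep]
    simp
  have := line_unique hP hb hXX (i := p) (l := q) (by rw [hXr]; exact hp) (by rw [hXr]; exact hq)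
    (K1 p p.2) (K1 q q.2)
  exact hpq (Subtype.ext this)

theorem exists_stable [Fintype ι] (μ : Alg E) (b : Basis ι ℂ E) :
    ∃ N, U μ b (N + 1) = U μ b N := by
  by_contra hcon
  push Not at hcon
  have h : ∀ k, (U μ b k).card + k ≤ Fintype.card ι := by
    intro k
    induction k with
    | zero => exact Finset.card_le_univ _
    | succ k ih =>
      have := Finset.card_lt_card ((U_succ_subset (μ := μ) b k).ssubset_of_ne (hcon k))
      omega
  have := h (Fintype.card ι + 1)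
  omega

/-- The first structure result. -/
theorem structure1 [Fintype ι] (hP : CondP μ) {b : Basis ι ℂ E} (hb : IsNatural μ b)
    (hn : ¬ IsNilp μ) : ∃ (d : ι → ℕ) (i0 : ι) (e : E), μ (b i0) (b i0) ≠ 0 ∧ μ e e = e ∧
      b.repr e i0 ≠ 0 ∧ (∀ l, l ≠ i0 → μ (b l) (b l) ≠ 0 → b.repr e l = 0) ∧
      ∀ i j, i ≠ i0 → b.repr (μ (b i) (b i)) j ≠ 0 → d i < d j := by
  classical
  obtain ⟨N, hN⟩ := exists_stable μ b
  let K : Finset ι := (U μ b N).filter fun i => μ (b i) (b i) ≠ 0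
  have hK : ∀ i, i ∈ K ↔ i ∈ U μ b N ∧ μ (b i) (b i) ≠ 0 := fun i => by simp [K]
  have hne : ∀ i j, b.repr (μ (b i) (b i)) j ≠ 0 → μ (b i) (b i) ≠ 0 := by
    intro i j h h0
    rw [h0] at h
    simp at h
  have K1 : ∀ i ∈ K, μ (b i) (b i) ≠ 0 := fun i hi => ((hK i).1 hi).2
  have K2 : ∀ j ∈ K, ∃ i ∈ K, b.repr (μ (b i) (b i)) j ≠ 0 := by
    intro j hj
    have h1 := ((hK j).1 hj).1
    rw [← hN] at h1
    obtain ⟨i, hi, hij⟩ := mem_U_succ.1 h1
    exact ⟨i, (hK i).2 ⟨hi, hne i j hij⟩, hij⟩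
  have K3 : ∀ i ∈ K, ∀ j, b.repr (μ (b i) (b i)) j ≠ 0 → μ (b j) (b j) ≠ 0 → j ∈ K := by
    intro i hi j hij hj
    refine (hK j).2 ⟨?_, hj⟩
    rw [← hN]
    exact mem_U_succ.2 ⟨i, ((hK i).1 hi).1, hij⟩
  let d : ι → ℕ := fun i => Nat.findGreatest (fun k => i ∈ U μ b k) N
  have hd : ∀ i j, i ∉ K → b.repr (μ (b i) (b i)) j ≠ 0 → d i < d j := by
    intro i j hi hij
    have hi' : i ∉ U μ b N := fun h => hi ((hK i).2 ⟨h, hne i j hij⟩)
    have h0 : i ∈ U μ b 0 := by rw [U]; exact Finset.mem_univ _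
    have h1 : i ∈ U μ b (d i) :=
      Nat.findGreatest_spec (P := fun k => i ∈ U μ b k) (Nat.zero_le N) h0
    have h2 : d i ≤ N := Nat.findGreatest_le N
    have h3 : d i ≠ N := fun h => hi' (h ▸ h1)
    have h4 : j ∈ U μ b (d i + 1) := mem_U_succ.2 ⟨i, h1, hij⟩
    exact Nat.le_findGreatest (P := fun k => j ∈ U μ b k) (by omega : d i + 1 ≤ N) h4
  rcases K.eq_empty_or_nonempty with hKe | ⟨i0, hi0⟩
  · exfalso
    apply hn
    refine ⟨2 ^ N + 1, Nat.le_add_left 1 _, isNilp_of_height hb d (fun i j h => hd i j ?_ h) N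
      fun i => Nat.findGreatest_le N⟩
    rw [hKe]; exact Finset.notMem_empty i
  · have huniq := core_unique hP hb K K1 K2 K3
    obtain ⟨a, ha, c, hc⟩ := core_mem hP hb K K1 K2 K3 i0 hi0
    have hc' : c ⟨i0, hi0⟩ • μ (b i0) (b i0) = b i0 + a := by
      rw [← hc, Finset.sum_eq_single (⟨i0, hi0⟩ : K)]
      · intro k _ hk
        exact absurd (Subtype.ext (huniq k k.2 i0 hi0)) hk
      · intro h; exact absurd (Finset.mem_univ _) h
    set z := c ⟨i0, hi0⟩ with hz
    have hr0 : b.repr (b i0 + a) i0 = 1 := by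
      rw [repr_add_ann ha i0 i0 (K1 i0 hi0), if_pos rfl]
    have hz0 : z ≠ 0 := by
      intro h
      rw [h, zero_smul] at hc'
      rw [← hc'] at hr0
      simp at hr0
    refine ⟨d, i0, z • (b i0 + a), K1 i0 hi0, ?_, ?_, ?_, ?_⟩
    · rw [map_smul, map_smul, LinearMap.smul_apply, sq_add_ann hb ha, hc']
    · rw [map_smul, Finsupp.smul_apply, hr0, smul_eq_mul, mul_one]; exact hz0
    · intro l hl hl'
      rw [map_smul, Finsupp.smul_apply, repr_add_ann ha i0 l hl', if_neg (Ne.symm hl), smul_zero]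
    · intro i j hi hij
      exact hd i j (fun h => hi (huniq i h i0 hi0)) hij

end core

section steps

variable {E : Type} [AddCommGroup E] [Module ℂ E] {ι : Type} {μ : Alg E}

/-- Step B: the squares of the other basis elements do not involve `b i0`. -/
theorem stepB [Fintype ι] (hP : CondP μ) {b : Basis ι ℂ E} (hb : IsNatural μ b) (d : ι → ℕ)
    (i0 : ι) (e : E) (h0 : μ (b i0) (b i0) ≠ 0) (he : μ e e = e) (hei : b.repr e i0 ≠ 0)
    (hel : ∀ l, l ≠ i0 → μ (b l) (b l) ≠ 0 → b.repr e l = 0)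
    (hd : ∀ i j, i ≠ i0 → b.repr (μ (b i) (b i)) j ≠ 0 → d i < d j) :
    ∀ i, i ≠ i0 → b.repr (μ (b i) (b i)) i0 = 0 := by
  classical
  obtain ⟨M, hM⟩ : ∃ M, ∀ i, d i ≤ M := ⟨Finset.univ.sup d, fun i => Finset.le_sup (Finset.mem_univ i)⟩
  suffices ∀ m i, M - d i = m → i ≠ i0 → b.repr (μ (b i) (b i)) i0 = 0 from
    fun i hi => this _ i rfl hi
  intro m
  induction m using Nat.strong_induction_on with
  | _ m ih =>
    intro i hm hi
    by_contra hc
    have hsqi : μ (b i) (b i) ≠ 0 := by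
      intro h
      rw [h] at hc
      simp at hc
    obtain ⟨α, hα⟩ := IsAlgClosed.exists_pow_nat_eq
      (- b.repr (μ (b i) (b i)) i0 / b.repr e i0) (n := 2) two_pos
    have hα0 : α ≠ 0 := by
      rintro rfl
      rw [zero_pow two_ne_zero, eq_comm, div_eq_zero_iff, neg_eq_zero] at hα
      rcases hα with h | h
      · exact hc h
      · exact hei h
    have hei' : b.repr e i = 0 := hel i hi hsqi
    have hxx : μ (α • e + b i) (α • e + b i) = (α * α) • e + μ (b i) (b i) := by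
      simp only [map_add, map_smul, LinearMap.add_apply, LinearMap.smul_apply, he]
      rw [mul_basis hb e i, basis_mul hb e i, hei', zero_smul, smul_zero, add_zero, zero_add,
        smul_smul]
    have ha : (α * α) * b.repr e i0 + b.repr (μ (b i) (b i)) i0 = 0 := by
      rw [← pow_two, hα, div_mul_cancel₀ _ hei, neg_add_cancel]
    refine test hP hb (x := α • e + b i)
      (J := {l | l ≠ i0 ∧ l ≠ i ∧ (μ (b l) (b l) ≠ 0 → d i < d l)}) ?_ ?_ ?_ (i := i) (j := i0) hi
      ?_ ?_ hsqi h0 ?_ ?_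
    · intro l hl
      rw [hxx, map_add, map_smul, Finsupp.add_apply, Finsupp.smul_apply, smul_eq_mul]
      by_cases hl0 : l = i0
      · rw [hl0]; exact ha
      · by_cases hli : l = i
        · rw [hli, hei', mul_zero, zero_add]
          by_contra hcon
          exact absurd (hd i i hi hcon) (lt_irrefl _)
        · have hl' : ¬ (μ (b l) (b l) ≠ 0 → d i < d l) := fun h => hl ⟨hl0, hli, h⟩
          push Not at hl'
          rw [hel l hl0 hl'.1, mul_zero, zero_add]
          by_contra hcon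
          exact absurd (hd i l hi hcon) (not_lt.2 hl'.2)
    · rintro l ⟨hl0, hli, -⟩ hl
      rw [map_add, map_smul, Finsupp.add_apply, Finsupp.smul_apply, hel l hl0 hl, smul_zero,
        zero_add, Basis.repr_self, Finsupp.single_eq_of_ne hli]
    · rintro l ⟨hl0, hli, hl1⟩ hl
      have hdl := hl1 hl
      intro k hk
      by_contra hcon
      have hlk := hd l k hl0 hcon
      apply hk
      refine ⟨?_, ?_, fun _ => by omega⟩
      · rintro rfl
        exact hcon (ih (M - d l) (by have := hM l; omega) l rfl hl0)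
      · rintro rfl
        omega
    · rintro ⟨_, h, _⟩; exact h rfl
    · rintro ⟨h, _⟩; exact h rfl
    · rw [map_add, map_smul, Finsupp.add_apply, Finsupp.smul_apply, hei', smul_zero, zero_add,
        Basis.repr_self, Finsupp.single_eq_same]
      exact one_ne_zero
    · rw [map_add, map_smul, Finsupp.add_apply, Finsupp.smul_apply, Basis.repr_self,
        Finsupp.single_eq_of_ne (Ne.symm hi), add_zero]
      exact mul_ne_zero hα0 hei

/-- Two basis elements whose squares stay above a common threshold. -/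
theorem two [Fintype ι] (hP : CondP μ) {b : Basis ι ℂ E} (hb : IsNatural μ b) (d : ι → ℕ)
    (i0 : ι) (hd : ∀ i j, i ≠ i0 → b.repr (μ (b i) (b i)) j ≠ 0 → d i < d j)
    (hB : ∀ i, i ≠ i0 → b.repr (μ (b i) (b i)) i0 = 0) {i j : ι} (hij : i ≠ j) (hi : i ≠ i0)
    (hj : j ≠ i0) (hsi : μ (b i) (b i) ≠ 0) (hsj : μ (b j) (b j) ≠ 0) (T : ℕ) (hiT : d i ≤ T)
    (hjT : d j ≤ T) (hT : ∀ l, l ≠ i0 → μ (b l) (b l) ≠ 0 → d l ≤ T →
      b.repr (μ (b i) (b i)) l = 0 ∧ b.repr (μ (b j) (b j)) l = 0) : False := by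
  classical
  have hxx : μ (b i + b j) (b i + b j) = μ (b i) (b i) + μ (b j) (b j) := by
    simp only [map_add, LinearMap.add_apply]
    rw [hb i j hij, hb j i (Ne.symm hij), add_zero, zero_add]
  refine test hP hb (x := b i + b j) (J := {l | l ≠ i0 ∧ (μ (b l) (b l) ≠ 0 → T < d l)}) ?_ ?_ ?_
    (i := i) (j := j) hij ?_ ?_ hsi hsj ?_ ?_
  · intro l hl
    rw [hxx, map_add, Finsupp.add_apply]
    by_cases hl0 : l = i0
    · rw [hl0, hB i hi, hB j hj, add_zero]
    · have hl' : ¬ (μ (b l) (b l) ≠ 0 → T < d l) := fun h => hl ⟨hl0, h⟩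
      push Not at hl'
      obtain ⟨h1, h2⟩ := hT l hl0 hl'.1 hl'.2
      rw [h1, h2, add_zero]
  · rintro l ⟨hl0, hl1⟩ hl
    have h1 := hl1 hl
    have h2 : l ≠ i := by rintro rfl; omega
    have h3 : l ≠ j := by rintro rfl; omega
    rw [map_add, Finsupp.add_apply, Basis.repr_self, Basis.repr_self,
      Finsupp.single_eq_of_ne h2, Finsupp.single_eq_of_ne h3, add_zero]
  · rintro l ⟨hl0, hl1⟩ hl k hk
    have h1 := hl1 hl
    by_contra hcon
    have hlk := hd l k hl0 hcon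
    apply hk
    refine ⟨?_, fun _ => by omega⟩
    rintro rfl
    exact hcon (hB l hl0)
  · rintro ⟨_, h⟩
    have := h hsi
    omega
  · rintro ⟨_, h⟩
    have := h hsj
    omega
  · rw [map_add, Finsupp.add_apply, Basis.repr_self, Basis.repr_self, Finsupp.single_eq_same,
      Finsupp.single_eq_of_ne hij, add_zero]
    exact one_ne_zero
  · rw [map_add, Finsupp.add_apply, Basis.repr_self, Basis.repr_self, Finsupp.single_eq_same,
      Finsupp.single_eq_of_ne (Ne.symm hij), zero_add]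
    exact one_ne_zero

/-- The remaining basis elements with nonzero squares form a chain. -/
theorem structure2 [Fintype ι] (hP : CondP μ) {b : Basis ι ℂ E} (hb : IsNatural μ b)
    (hn : ¬ IsNilp μ) : ∃ (i0 : ι) (e : E) (p : ℕ) (σ : Fin p → ι), μ (b i0) (b i0) ≠ 0 ∧
      μ e e = e ∧ b.repr e i0 ≠ 0 ∧ (∀ l, l ≠ i0 → μ (b l) (b l) ≠ 0 → b.repr e l = 0) ∧
      (∀ i, i ≠ i0 → b.repr (μ (b i) (b i)) i0 = 0) ∧ Function.Injective σ ∧
      (∀ k, σ k ≠ i0 ∧ μ (b (σ k)) (b (σ k)) ≠ 0) ∧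
      (∀ l, l ≠ i0 → μ (b l) (b l) ≠ 0 → ∃ k, l = σ k) ∧
      (∀ k m, b.repr (μ (b (σ k)) (b (σ k))) (σ m) ≠ 0 → k < m) ∧
      (∀ k m : Fin p, (k : ℕ) + 1 = m → b.repr (μ (b (σ k)) (b (σ k))) (σ m) ≠ 0) := by
  classical
  obtain ⟨d, i0, e, h0, he, hei, hel, hd⟩ := structure1 hP hb hn
  have hB := stepB hP hb d i0 e h0 he hei hel hd
  have hT := fun {i j} hij hi hj hsi hsj T hiT hjT hT =>
    two hP hb d i0 hd hB (i := i) (j := j) hij hi hj hsi hsj T hiT hjT hT
  -- `d` is injective on the set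
  have hinj : ∀ i j, i ≠ i0 → j ≠ i0 → μ (b i) (b i) ≠ 0 → μ (b j) (b j) ≠ 0 → d i = d j →
      i = j := by
    intro i j hi hj hsi hsj hij
    by_contra hne
    refine hT hne hi hj hsi hsj (d i) le_rfl (by omega) fun l hl0 hl hlT => ⟨?_, ?_⟩
    · by_contra hcon
      have := hd i l hi hcon
      omega
    · by_contra hcon
      have := hd j l hj hcon
      omega
  let NA : Finset ι := Finset.univ.filter fun i => i ≠ i0 ∧ μ (b i) (b i) ≠ 0
  have hNA : ∀ i, i ∈ NA ↔ i ≠ i0 ∧ μ (b i) (b i) ≠ 0 := fun i => by simp [NA]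
  let S : Finset ℕ := NA.image d
  let o := S.orderEmbOfFin rfl
  have ho : ∀ k, ∃ i ∈ NA, d i = o k := by
    intro k
    have := Finset.orderEmbOfFin_mem S rfl k
    exact Finset.mem_image.1 this
  choose σ hσ hσd using ho
  have hσ' : ∀ k, σ k ≠ i0 ∧ μ (b (σ k)) (b (σ k)) ≠ 0 := fun k => (hNA _).1 (hσ k)
  have hlt : ∀ k m, d (σ k) < d (σ m) ↔ k < m := by
    intro k m
    rw [hσd, hσd]
    exact o.lt_iff_lt
  have hsurj : ∀ l, l ≠ i0 → μ (b l) (b l) ≠ 0 → ∃ k, l = σ k := by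
    intro l hl0 hl
    have h1 : d l ∈ S := Finset.mem_image.2 ⟨l, (hNA l).2 ⟨hl0, hl⟩, rfl⟩
    have h2 : d l ∈ Set.range o := by
      rw [Finset.range_orderEmbOfFin]; exact h1
    obtain ⟨k, hk⟩ := h2
    exact ⟨k, hinj l (σ k) hl0 (hσ' k).1 hl (hσ' k).2 (by rw [hσd, hk])⟩
  refine ⟨i0, e, S.card, σ, h0, he, hei, hel, hB, ?_, hσ', hsurj, ?_, ?_⟩
  · intro k m hkm
    have := congrArg d hkm
    rw [hσd, hσd] at this
    exact o.injective this
  · intro k m hkm
    exact (hlt k m).1 (hd _ _ (hσ' k).1 hkm)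
  · intro k m hkm hcon
    have hkm' : k < m := by rw [Fin.lt_def]; omega
    have hdkm := (hlt k m).2 hkm'
    refine hT (i := σ k) (j := σ m) (fun h => ?_) (hσ' k).1 (hσ' m).1 (hσ' k).2 (hσ' m).2
      (d (σ m)) hdkm.le le_rfl fun l hl0 hl hlT => ⟨?_, ?_⟩
    · rw [h] at hdkm; exact lt_irrefl _ hdkm
    · obtain ⟨q, rfl⟩ := hsurj l hl0 hl
      by_contra hcon'
      have h1 := hd _ _ (hσ' k).1 hcon'
      have h2 : k < q := (hlt k q).1 h1
      have h3 : ¬ m < q := fun h => by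
        have := (hlt m q).2 h
        omega
      have h4 : q = m := by
        apply Fin.ext
        rw [Fin.lt_def] at h2 h3
        omega
      rw [h4] at hcon'
      exact hcon' hcon
    · by_contra hcon'
      have := hd _ _ (hσ' m).1 hcon'
      omega

end steps

end Pool.Agent.R700.Evo
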