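import Mathlib
import Pool.Agent.R700.EvoS

/-!
# The classification of non-nilpotent evolution algebras with condition `P`
-/

namespace Pool.Agent.R700.Evo

open Module Submodule

section assemble

/-- The algebra on `ℂ^s` with natural basis and structure constants `r`. -/
noncomputable def mulOf {s : ℕ} (r : Fin s → Fin s → ℂ) : Alg (Fin s → ℂ) :=
  LinearMap.mk₂ ℂ (fun v w j => ∑ k, (v k * w k) * r k j)
    (by
      intro x x' y; funext j
      simp only [Pi.add_apply, ← Finset.sum_add_distrib]
      exact Finset.sum_congr rfl fun k _ => by ring)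
    (by
      intro c x y; funext j
      simp only [Pi.smul_apply, smul_eq_mul, Finset.mul_sum]
      exact Finset.sum_congr rfl fun k _ => by ring)
    (by
      intro x y y'; funext j
      simp only [Pi.add_apply, ← Finset.sum_add_distrib]
      exact Finset.sum_congr rfl fun k _ => by ring)
    (by
      intro c x y; funext j
      simp only [Pi.smul_apply, smul_eq_mul, Finset.mul_sum]
      exact Finset.sum_congr rfl fun k _ => by ring)

theorem mulOf_apply {s : ℕ} (r : Fin s → Fin s → ℂ) (v w : Fin s → ℂ) (j : Fin s) :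
    mulOf r v w j = ∑ k, (v k * w k) * r k j := rfl

theorem mulOf_natural {s : ℕ} (r : Fin s → Fin s → ℂ) :
    IsNatural (mulOf r) (Pi.basisFun ℂ (Fin s)) := by
  intro i j hij
  funext l
  rw [mulOf_apply, Pi.zero_apply]
  refine Finset.sum_eq_zero fun k _ => ?_
  rw [Pi.basisFun_apply, Pi.basisFun_apply]
  by_cases h : k = i
  · rw [Pi.single_eq_of_ne (fun h' => hij (h.symm.trans h')) , mul_zero, zero_mul]
  · rw [Pi.single_eq_of_ne h, zero_mul, zero_mul]

theorem mulOf_repr {s : ℕ} (r : Fin s → Fin s → ℂ) (i j : Fin s) :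
    (Pi.basisFun ℂ (Fin s)).repr (mulOf r (Pi.basisFun ℂ (Fin s) i) (Pi.basisFun ℂ (Fin s) i)) j =
      r i j := by
  rw [Pi.basisFun_repr, mulOf_apply, Pi.basisFun_apply, Finset.sum_eq_single i]
  · rw [Pi.single_eq_same]; ring
  · intro k _ hk; rw [Pi.single_eq_of_ne hk]; ring
  · intro h; exact absurd (Finset.mem_univ _) h

variable {E : Type} [AddCommGroup E] [Module ℂ E] {μ : Alg E}

theorem assemble [Module.Finite ℂ E] {s : ℕ} (e0 : E) (g : Fin s → E) (r : Fin s → Fin s → ℂ)
    (q : Submodule ℂ E) (h00 : μ e0 e0 = e0) (h0g : ∀ k, μ e0 (g k) = 0)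
    (hg0 : ∀ k, μ (g k) e0 = 0) (hgg : ∀ k l, k ≠ l → μ (g k) (g l) = 0)
    (hr : ∀ k, μ (g k) (g k) = ∑ j, r k j • g j) (hq : ∀ z ∈ q, ∀ y, μ z y = 0)
    (hq' : ∀ z ∈ q, ∀ y, μ y z = 0)
    (hinj : ∀ (t : ℂ) (v : Fin s → ℂ), ∀ z ∈ q, t • e0 + ∑ k, v k • g k + z = 0 →
      t = 0 ∧ v = 0 ∧ z = 0)
    (hsurj : ∀ x, ∃ (t : ℂ) (v : Fin s → ℂ), ∃ z ∈ q, x = t • e0 + ∑ k, v k • g k + z) :
    Iso μ (prodMul ES1 (prodMul (mulOf r) (Zero (finrank ℂ q)))) := by
  let ζ := Module.finBasis ℂ q
  let Θ : ℂ × (Fin s → ℂ) × (Fin (finrank ℂ q) → ℂ) →ₗ[ℂ] E :=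
    { toFun := fun x => x.1 • e0 + ∑ k, x.2.1 k • g k + (ζ.equivFun.symm x.2.2 : q)
      map_add' := by
        intro x y
        simp only [Prod.fst_add, Prod.snd_add, Pi.add_apply, add_smul, Finset.sum_add_distrib,
          map_add, Submodule.coe_add]
        abel
      map_smul' := by
        intro c x
        simp only [Prod.smul_fst, Prod.smul_snd, Pi.smul_apply, smul_eq_mul, mul_smul, map_smul,
          Submodule.coe_smul, RingHom.id_apply, smul_add, Finset.smul_sum] }
  have hΘ : ∀ x, Θ x = x.1 • e0 + ∑ k, x.2.1 k • g k + (ζ.equivFun.symm x.2.2 : q) := fun x => rfl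
  have hbij : Function.Bijective Θ := by
    constructor
    · rw [injective_iff_map_eq_zero]
      intro x hx
      obtain ⟨h1, h2, h3⟩ := hinj x.1 x.2.1 _ (ζ.equivFun.symm x.2.2).2 hx
      refine Prod.ext h1 (Prod.ext h2 ?_)
      have h4 : ζ.equivFun.symm x.2.2 = 0 := Subtype.ext h3
      have := (LinearEquiv.map_eq_zero_iff ζ.equivFun.symm).1 h4
      exact this
    · intro x
      obtain ⟨t, v, z, hz, rfl⟩ := hsurj x
      refine ⟨(t, v, ζ.equivFun ⟨z, hz⟩), ?_⟩
      rw [hΘ]
      simp
  apply Iso.symm
  refine ⟨LinearEquiv.ofBijective Θ hbij, fun x y => ?_⟩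
  change Θ _ = μ (Θ x) (Θ y)
  rw [hΘ, hΘ, hΘ]
  have e1 : ∀ y, μ (ζ.equivFun.symm x.2.2 : q) y = 0 := hq _ (ζ.equivFun.symm x.2.2).2
  have e2 : ∀ x, μ x (ζ.equivFun.symm y.2.2 : q) = 0 := hq' _ (ζ.equivFun.symm y.2.2).2
  have e3 : μ e0 (∑ k, y.2.1 k • g k) = 0 := by
    rw [map_sum]
    exact Finset.sum_eq_zero fun k _ => by rw [map_smul, h0g, smul_zero]
  have e4 : μ (∑ k, x.2.1 k • g k) e0 = 0 := by
    rw [map_sum, LinearMap.sum_apply]
    exact Finset.sum_eq_zero fun k _ => by rw [map_smul, LinearMap.smul_apply, hg0, smul_zero]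
  have e5 := mul_sum_orth μ g hgg x.2.1 y.2.1
  simp only [map_add, LinearMap.add_apply, map_smul, LinearMap.smul_apply, e1, e2, e3, e4, e5,
    h00, smul_zero, add_zero, zero_add]
  simp only [prodMul_apply, ES1_apply, Zero_apply, map_zero, Submodule.coe_zero, add_zero,
    smul_smul]
  congr 1
  · rw [mul_comm]
  · simp only [mulOf_apply, hr, Finset.sum_smul, Finset.smul_sum, smul_smul]
    rw [Finset.sum_comm]

theorem assemble_one [Module.Finite ℂ E] (e0 : E)
    (q : Submodule ℂ E) (h00 : μ e0 e0 = e0) (hq : ∀ z ∈ q, ∀ y, μ z y = 0)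
    (hq' : ∀ z ∈ q, ∀ y, μ y z = 0)
    (hinj : ∀ (t : ℂ), ∀ z ∈ q, t • e0 + z = 0 → t = 0 ∧ z = 0)
    (hsurj : ∀ x, ∃ (t : ℂ), ∃ z ∈ q, x = t • e0 + z) :
    Iso μ (prodMul ES1 (Zero (finrank ℂ q))) := by
  let ζ := Module.finBasis ℂ q
  let Θ : ℂ × (Fin (finrank ℂ q) → ℂ) →ₗ[ℂ] E :=
    { toFun := fun x => x.1 • e0 + (ζ.equivFun.symm x.2 : q)
      map_add' := by
        intro x y
        simp only [Prod.fst_add, Prod.snd_add, add_smul, map_add, Submodule.coe_add]
        abel
      map_smul' := by
        intro c x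
        simp only [Prod.smul_fst, Prod.smul_snd, smul_eq_mul, mul_smul, map_smul,
          Submodule.coe_smul, RingHom.id_apply, smul_add] }
  have hΘ : ∀ x, Θ x = x.1 • e0 + (ζ.equivFun.symm x.2 : q) := fun x => rfl
  have hbij : Function.Bijective Θ := by
    constructor
    · rw [injective_iff_map_eq_zero]
      intro x hx
      obtain ⟨h1, h3⟩ := hinj x.1 _ (ζ.equivFun.symm x.2).2 hx
      refine Prod.ext h1 ?_
      have h4 : ζ.equivFun.symm x.2 = 0 := Subtype.ext h3
      have := (LinearEquiv.map_eq_zero_iff ζ.equivFun.symm).1 h4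
      exact this
    · intro x
      obtain ⟨t, z, hz, rfl⟩ := hsurj x
      refine ⟨(t, ζ.equivFun ⟨z, hz⟩), ?_⟩
      rw [hΘ]
      simp
  apply Iso.symm
  refine ⟨LinearEquiv.ofBijective Θ hbij, fun x y => ?_⟩
  change Θ _ = μ (Θ x) (Θ y)
  rw [hΘ, hΘ, hΘ]
  have e1 : ∀ y, μ (ζ.equivFun.symm x.2 : q) y = 0 := hq _ (ζ.equivFun.symm x.2).2
  have e2 : ∀ x, μ x (ζ.equivFun.symm y.2 : q) = 0 := hq' _ (ζ.equivFun.symm y.2).2
  simp only [map_add, LinearMap.add_apply, map_smul, LinearMap.smul_apply, e1, e2,
    h00, smul_zero, add_zero]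
  simp only [prodMul_apply, ES1_apply, Zero_apply, map_zero, Submodule.coe_zero, add_zero,
    smul_smul]
  rw [mul_comm]

end assemble

section final

variable {E : Type} [AddCommGroup E] [Module ℂ E] {ι : Type} {μ : Alg E}

/-- the annihilator, spanned by the basis elements of square zero -/
def annSub (μ : Alg E) (b : Basis ι ℂ E) : Submodule ℂ E :=
  coordSub b {l | μ (b l) (b l) = 0}

theorem mem_annSub {b : Basis ι ℂ E} {a : E} : a ∈ annSub μ b ↔ IsAnn μ b a := Iff.rfl

theorem classification [Fintype ι] (hP : CondP μ) {b : Basis ι ℂ E} (hb : IsNatural μ b)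
    (hn : ¬ IsNilp μ) :
    Iso μ (prodMul ES1 (Zero (finrank ℂ E - 1))) ∨
    ∃ s, 2 ≤ s ∧ s ≤ finrank ℂ E - 1 ∧ ∃ (W : Type) (_ : AddCommGroup W) (_ : Module ℂ W)
      (ν : Alg W), ZN s ν ∧ Iso μ (prodMul ES1 (prodMul ν (Zero (finrank ℂ E - s - 1)))) := by
  classical
  have hfin : Module.Finite ℂ E := Module.Finite.of_basis b
  obtain ⟨i0, e0, p, σ, h0, he, hei, hel, hB, hσi, hσ, hσs, hσ1, hσ2⟩ := structure2 hP hb hn
  have hA : ∀ z ∈ annSub μ b, ∀ y, μ z y = 0 := fun z hz y => IsAnn.mul hb hz y
  have hA' : ∀ z ∈ annSub μ b, ∀ y, μ y z = 0 := fun z hz y => IsAnn.mul' hb hz y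
  rcases Nat.eq_zero_or_pos p with hp | hp
  · -- first form
    left
    subst hp
    have hall : ∀ l, l ≠ i0 → μ (b l) (b l) = 0 := by
      intro l hl
      by_contra hne
      obtain ⟨k, -⟩ := hσs l hl hne
      exact k.elim0
    have hiso := assemble_one (μ := μ) e0 (annSub μ b) he hA hA' (by
      intro t z hz htz
      have h1 := congrArg (fun v => b.repr v i0) htz
      simp only [map_add, map_smul, Finsupp.add_apply, Finsupp.smul_apply, smul_eq_mul,
        map_zero, Finsupp.zero_apply] at h1
      rw [(mem_annSub.1 hz) i0 h0, add_zero] at h1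
      have ht := (mul_eq_zero.1 h1).resolve_right hei
      rw [ht, zero_smul, zero_add] at htz
      exact ⟨ht, htz⟩) (by
      intro x
      refine ⟨b.repr x i0 / b.repr e0 i0, x - (b.repr x i0 / b.repr e0 i0) • e0, ?_, by abel⟩
      rw [mem_annSub]
      intro l hl
      have hl0 : l = i0 := by
        by_contra hne
        exact hl (hall l hne)
      rw [hl0, map_sub, map_smul, Finsupp.sub_apply, Finsupp.smul_apply, smul_eq_mul,
        div_mul_cancel₀ _ hei, sub_self])
    have hdim : finrank ℂ E = 1 + finrank ℂ (annSub μ b) := by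
      obtain ⟨φ, -⟩ := hiso
      have := LinearEquiv.finrank_eq φ
      simpa only [Module.finrank_prod, Module.finrank_self, Module.finrank_fin_fun] using this
    have e : finrank ℂ E - 1 = finrank ℂ (annSub μ b) := by omega
    rw [e]
    exact hiso
  · right
    -- notation for the squares
    let sq : Fin p → E := fun k => μ (b (σ k)) (b (σ k))
    let k0 : Fin p := ⟨0, hp⟩
    let kl : Fin p := ⟨p - 1, by omega⟩
    let W : Submodule ℂ E := Submodule.span ℂ {b (σ k0)} ⊔ Submodule.span ℂ (Set.range sq)
    have hbW : b (σ k0) ∈ W := Submodule.mem_sup_left (Submodule.mem_span_singleton_self _)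
    have hsqW : ∀ k, sq k ∈ W := fun k => Submodule.mem_sup_right (Submodule.subset_span ⟨k, rfl⟩)
    have hW0 : W ≤ coordSub b {l | l ≠ i0} := by
      refine sup_le ?_ ?_
      · rw [Submodule.span_le, Set.singleton_subset_iff]
        intro l hl
        have hl' : l = i0 := by by_contra h; exact hl h
        rw [hl', Basis.repr_self, Finsupp.single_eq_of_ne (Ne.symm (hσ k0).1)]
      · rw [Submodule.span_le]
        rintro _ ⟨k, rfl⟩
        intro l hl
        have hl' : l = i0 := by by_contra h; exact hl h
        rw [hl']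
        exact hB _ (hσ k).1
    have hWi0 : ∀ x ∈ W, b.repr x i0 = 0 := fun x hx => hW0 hx i0 (fun h => h rfl)
    have hSub : IsSub μ W := by
      intro x hx y hy
      rw [mul_expand hb]
      refine Submodule.sum_mem _ fun l _ => ?_
      by_cases hl0 : l = i0
      · rw [hl0, hWi0 x hx, zero_mul, zero_smul]; exact Submodule.zero_mem _
      · by_cases hl : μ (b l) (b l) = 0
        · rw [hl, smul_zero]; exact Submodule.zero_mem _
        · obtain ⟨k, rfl⟩ := hσs l hl0 hl
          exact Submodule.smul_mem _ _ (hsqW k)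
    -- the elements `e' k`
    have hex : ∀ k : Fin p, ∃ a, IsAnn μ b a ∧ b (σ k) + a ∈ W := by
      intro k
      rcases Nat.eq_zero_or_pos (k : ℕ) with hk | hk
      · refine key hP hb hSub hbW ?_ (hσ k).2
        have : k = k0 := Fin.ext hk
        rw [this, Basis.repr_self, Finsupp.single_eq_same]
        exact one_ne_zero
      · refine key hP hb hSub (hsqW ⟨k - 1, by omega⟩) ?_ (hσ k).2
        exact hσ2 _ _ (by simp only; omega)
    choose a ha haW using hex
    have hrepσ : ∀ k m, b.repr (b (σ k) + a k) (σ m) = if k = m then 1 else 0 := by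
      intro k m
      rw [repr_add_ann (ha k) _ _ (hσ m).2]
      by_cases h : k = m
      · rw [if_pos h, if_pos (congrArg σ h)]
      · rw [if_neg h, if_neg (fun h' => h (hσi h'))]
    have hrep0 : ∀ k, b.repr (b (σ k) + a k) i0 = 0 := fun k => hWi0 _ (haW k)
    -- the last square
    have hfann : IsAnn μ b (sq kl) := by
      intro l hl
      by_contra hne
      have hl0 : l ≠ i0 := by
        rintro rfl
        exact hne (hB _ (hσ kl).1)
      obtain ⟨k, rfl⟩ := hσs l hl0 hl
      have h1 : kl < k := hσ1 kl k hne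
      have h2 := k.2
      rw [Fin.lt_def] at h1
      simp only [kl] at h1
      omega
    have hf0 : sq kl ≠ 0 := (hσ kl).2
    -- `W ∩ Ann` is spanned by the last square
    have hWA : ∀ x ∈ W, IsAnn μ b x → ∃ c : ℂ, x = c • sq kl := by
      intro x hx hxa
      obtain ⟨u, hu, w, hw, rfl⟩ := Submodule.mem_sup.1 hx
      obtain ⟨t, rfl⟩ := Submodule.mem_span_singleton.1 hu
      obtain ⟨c, rfl⟩ := (Submodule.mem_span_range_iff_exists_fun ℂ).1 hw
      have hcoord : ∀ m : Fin p, t * (b.repr (b (σ k0)) (σ m)) +
          ∑ k, c k * b.repr (sq k) (σ m) = 0 := by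
        intro m
        have h1 := hxa (σ m) (hσ m).2
        simpa only [map_add, map_smul, map_sum, Finsupp.add_apply, Finsupp.smul_apply,
          Finsupp.finsetSum_apply, smul_eq_mul] using h1
      have ht : t = 0 := by
        have h1 := hcoord k0
        rw [Basis.repr_self, Finsupp.single_eq_same, mul_one, Finset.sum_eq_zero, add_zero] at h1
        · exact h1
        · intro k _
          by_contra hne
          have h2 : k < k0 := hσ1 k k0 fun h => hne (by
            change c k * b.repr (μ (b (σ k)) (b (σ k))) (σ k0) = 0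
            rw [h, mul_zero])
          rw [Fin.lt_def] at h2
          simp only [k0] at h2
          omega
      have hc : ∀ m : ℕ, ∀ k : Fin p, (k : ℕ) = m → (k : ℕ) + 1 < p → c k = 0 := by
        intro m
        induction m using Nat.strong_induction_on with
        | _ m ih =>
          intro k hk hkp
          have h1 := hcoord ⟨k + 1, hkp⟩
          rw [ht, zero_mul, zero_add, Finset.sum_eq_single k] at h1
          · exact (mul_eq_zero.1 h1).resolve_right (hσ2 k ⟨k + 1, hkp⟩ rfl)
          · intro l _ hlk
            by_contra hne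
            have h2 : l < ⟨k + 1, hkp⟩ := hσ1 l _ fun h => hne (by
              change c l * b.repr (μ (b (σ l)) (b (σ l))) (σ ⟨k + 1, hkp⟩) = 0
              rw [h, mul_zero])
            have h3 : (l : ℕ) < k + 1 := h2
            have h4 : (l : ℕ) ≠ k := fun h => hlk (Fin.ext h)
            exact hne (by rw [ih l (by omega) l rfl (by omega), zero_mul])
          · intro h; exact absurd (Finset.mem_univ _) h
      refine ⟨c kl, ?_⟩
      rw [ht, zero_smul, zero_add, Finset.sum_eq_single kl]
      · intro k _ hk
        have h1 : (k : ℕ) ≠ p - 1 := fun h => hk (Fin.ext h)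
        have h2 := k.2
        rw [hc k k rfl (by omega), zero_smul]
      · intro h; exact absurd (Finset.mem_univ _) h
    -- expansion of elements of `W`
    have hexp : ∀ x ∈ W, ∃ c : ℂ, x = ∑ m, b.repr x (σ m) • (b (σ m) + a m) + c • sq kl := by
      intro x hx
      obtain ⟨c, hc⟩ := hWA (x - ∑ m, b.repr x (σ m) • (b (σ m) + a m))
        (Submodule.sub_mem _ hx (Submodule.sum_mem _ fun m _ => Submodule.smul_mem _ _ (haW m)))
        (by
          intro l hl
          rw [map_sub, map_sum, Finsupp.sub_apply, Finsupp.finsetSum_apply]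
          simp only [map_smul, Finsupp.smul_apply, smul_eq_mul]
          by_cases hl0 : l = i0
          · rw [hl0, hWi0 x hx]
            simp only [hrep0, mul_zero, Finset.sum_const_zero, sub_zero]
          · obtain ⟨k, rfl⟩ := hσs l hl0 hl
            simp only [hrepσ, mul_ite, mul_one, mul_zero]
            simp)
      exact ⟨c, by rw [← hc]; abel⟩
    choose! cf hcf using hexp
    -- the natural basis of `W`
    let g : Fin (p + 1) → E := Fin.snoc (α := fun _ => E) (fun k => b (σ k) + a k) (sq kl)
    have hgc : ∀ k : Fin p, g k.castSucc = b (σ k) + a k := fun k => by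
      simp only [g, Fin.snoc_castSucc]
    have hgl : g (Fin.last p) = sq kl := by simp only [g, Fin.snoc_last]
    let r : Fin (p + 1) → Fin (p + 1) → ℂ := Fin.snoc (α := fun _ => Fin (p + 1) → ℂ)
      (fun k => Fin.snoc (α := fun _ => ℂ) (fun m => b.repr (sq k) (σ m)) (cf (sq k))) 0
    have hrcc : ∀ k m : Fin p, r k.castSucc m.castSucc = b.repr (sq k) (σ m) := fun k m => by
      simp only [r, Fin.snoc_castSucc]
    have hrcl : ∀ k : Fin p, r k.castSucc (Fin.last p) = cf (sq k) := fun k => by
      simp only [r, Fin.snoc_castSucc, Fin.snoc_last]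
    have hrl : ∀ j, r (Fin.last p) j = 0 := fun j => by
      simp only [r, Fin.snoc_last, Pi.zero_apply]
    have hcl : cf (sq kl) ≠ 0 := by
      intro h
      have h1 := hcf (sq kl) (hsqW kl)
      rw [h, zero_smul, add_zero, Finset.sum_eq_zero] at h1
      · exact hf0 h1
      · intro m _
        rw [hfann (σ m) (hσ m).2, zero_smul]
    have hchain : IsChain (mulOf r) (Pi.basisFun ℂ (Fin (p + 1))) := by
      constructor
      · intro i j hij
        rw [mulOf_repr] at hij
        induction i using Fin.lastCases with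
        | last => exact absurd (hrl j) hij
        | cast k =>
          induction j using Fin.lastCases with
          | last => exact Fin.castSucc_lt_last k
          | cast m =>
            rw [hrcc] at hij
            exact Fin.castSucc_lt_castSucc_iff.2 (hσ1 k m hij)
      · intro i j hij
        rw [mulOf_repr]
        induction i using Fin.lastCases with
        | last =>
          exfalso
          have := j.2
          rw [Fin.val_last] at hij
          omega
        | cast k =>
          induction j using Fin.lastCases with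
          | last =>
            rw [Fin.val_last, Fin.val_castSucc] at hij
            have : k = kl := Fin.ext (by simp only [kl]; omega)
            rw [hrcl, this]
            exact hcl
          | cast m =>
            rw [Fin.val_castSucc, Fin.val_castSucc] at hij
            rw [hrcc]
            exact hσ2 k m hij
    have hZN : ZN (p + 1) (mulOf r) := ZN_of_chain (by omega) _ (mulOf_natural r) hchain
    -- a complement of `f` in the annihilator
    obtain ⟨q0, hq0⟩ := Submodule.exists_isCompl (Submodule.span ℂ {sq kl})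
    have hiso := assemble (μ := μ) e0 g r (q0 ⊓ annSub μ b) he (by
      intro k
      induction k using Fin.lastCases with
      | last => rw [hgl]; exact IsAnn.mul' hb hfann _
      | cast k =>
        rw [hgc, map_add, (ha k).mul' hb, add_zero, mul_basis hb, hel _ (hσ k).1 (hσ k).2,
          zero_smul]) (by
      intro k
      induction k using Fin.lastCases with
      | last => rw [hgl]; exact IsAnn.mul hb hfann _
      | cast k =>
        rw [hgc, map_add, LinearMap.add_apply, (ha k).mul hb, add_zero, basis_mul hb,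
          hel _ (hσ k).1 (hσ k).2, zero_smul]) (by
      intro k l hkl
      induction k using Fin.lastCases with
      | last => rw [hgl]; exact IsAnn.mul hb hfann _
      | cast k =>
        induction l using Fin.lastCases with
        | last => rw [hgl]; exact IsAnn.mul' hb hfann _
        | cast l =>
          rw [hgc, hgc]
          refine mul_add_ann hb (ha k) (ha l) fun h => hkl ?_
          rw [hσi h]) (by
      intro k
      induction k using Fin.lastCases with
      | last =>
        rw [hgl, IsAnn.mul hb hfann]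
        simp only [hrl, zero_smul, Finset.sum_const_zero]
      | cast k =>
        rw [hgc, sq_add_ann hb (ha k), Fin.sum_univ_castSucc]
        simp only [hrcc, hrcl, hgc, hgl]
        exact hcf (sq k) (hsqW k)) (fun z hz => hA z hz.2) (fun z hz => hA' z hz.2) (by
      intro t v z hz htz
      rw [Fin.sum_univ_castSucc] at htz
      simp only [hgc, hgl] at htz
      have hza := mem_annSub.1 hz.2
      have hc := fun l => congrArg (fun x => b.repr x l) htz
      simp only [map_add, map_smul, map_sum, Finsupp.add_apply, Finsupp.smul_apply,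
        Finsupp.finsetSum_apply, smul_eq_mul, map_zero, Finsupp.zero_apply] at hc
      have ht : t = 0 := by
        have h1 := hc i0
        rw [hza i0 h0, hfann i0 h0] at h1
        simp only [← Finsupp.add_apply, ← map_add, hrep0, mul_zero, Finset.sum_const_zero,
          add_zero] at h1
        exact (mul_eq_zero.1 h1).resolve_right hei
      have hv : ∀ k : Fin p, v k.castSucc = 0 := by
        intro k
        have h1 := hc (σ k)
        rw [hza _ (hσ k).2, hfann _ (hσ k).2, ht] at h1
        simp only [← Finsupp.add_apply, ← map_add, hrepσ, mul_ite, mul_one, mul_zero, add_zero,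
          zero_mul, zero_add] at h1
        simpa using h1
      rw [ht, zero_smul, zero_add, Finset.sum_eq_zero (fun k _ => by rw [hv k, zero_smul]),
        zero_add] at htz
      have hzz : z = 0 := by
        have h1 : z ∈ Submodule.span ℂ {sq kl} := by
          rw [eq_neg_of_add_eq_zero_right htz]
          exact Submodule.neg_mem _ (Submodule.smul_mem _ _ (Submodule.mem_span_singleton_self _))
        exact Submodule.disjoint_def.1 hq0.disjoint z h1 hz.1
      rw [hzz, add_zero] at htz
      have hvl := (smul_eq_zero.1 htz).resolve_right hf0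
      refine ⟨ht, ?_, hzz⟩
      funext k
      induction k using Fin.lastCases with
      | last => exact hvl
      | cast k => exact hv k) (by
      intro x
      -- the annihilator part
      set y : E := x - (b.repr x i0 / b.repr e0 i0) • e0 - ∑ m, b.repr x (σ m) • (b (σ m) + a m)
        with hy
      have hya : IsAnn μ b y := by
        intro l hl
        rw [hy, map_sub, map_sub, map_sum, map_smul]
        simp only [map_smul, Finsupp.sub_apply, Finsupp.finsetSum_apply, Finsupp.smul_apply,
          smul_eq_mul]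
        by_cases hl0 : l = i0
        · rw [hl0]
          simp only [hrep0, mul_zero, Finset.sum_const_zero, sub_zero]
          rw [div_mul_cancel₀ _ hei, sub_self]
        · obtain ⟨k, rfl⟩ := hσs l hl0 hl
          rw [hel _ (hσ k).1 (hσ k).2]
          simp only [hrepσ, mul_ite, mul_one, mul_zero, sub_zero]
          simp
      obtain ⟨u, hu, z, hz, huz⟩ := Submodule.mem_sup.1
        (show y ∈ Submodule.span ℂ {sq kl} ⊔ q0 by rw [hq0.sup_eq_top]; exact Submodule.mem_top)
      obtain ⟨c, rfl⟩ := Submodule.mem_span_singleton.1 hu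
      refine ⟨b.repr x i0 / b.repr e0 i0, Fin.snoc (α := fun _ => ℂ) (fun m => b.repr x (σ m)) c,
        z, ⟨hz, ?_⟩, ?_⟩
      · have : z = y - c • sq kl := by rw [← huz]; abel
        rw [this]
        exact Submodule.sub_mem _ (mem_annSub.2 hya) (Submodule.smul_mem _ _ (mem_annSub.2 hfann))
      · rw [Fin.sum_univ_castSucc]
        simp only [Fin.snoc_castSucc, Fin.snoc_last, hgc, hgl]
        rw [add_assoc, add_assoc, huz, hy]
        abel)
    have hdim : finrank ℂ E = 1 + (p + 1 + finrank ℂ (q0 ⊓ annSub μ b : Submodule ℂ E)) := by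
      obtain ⟨φ, -⟩ := hiso
      have := LinearEquiv.finrank_eq φ
      simpa only [Module.finrank_prod, Module.finrank_self, Module.finrank_fin_fun] using this
    refine ⟨p + 1, by omega, by omega, Fin (p + 1) → ℂ, inferInstance, inferInstance, mulOf r,
      hZN, ?_⟩
    have e : finrank ℂ E - (p + 1) - 1 = finrank ℂ (q0 ⊓ annSub μ b : Submodule ℂ E) := by omega
    rw [e]
    exact hiso

end final

end Pool.Agent.R700.Evo
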