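import Mathlib

set_option autoImplicit false

/-!
Fox derivatives relative to a homomorphism onto a finite cyclic group, and a basis of the kernel of
`K[G] → K[C]` for a free group `G`.
-/

namespace Pool.Agent.R700.Fox

open MonoidAlgebra

universe u

noncomputable section

/-- pairs with the product `(g, u) (h, v) = (g h, u h + π(g)-shift of v)` -/
@[ext] structure FX (K : Type u) {G C : Type} [Field K] [Group G] [Group C] (π : G →* C)
    (E : Type) where
  g : G
  u : C → E → MonoidAlgebra K G

namespace FX

variable {K : Type u} {G C : Type} [Field K] [Group G] [Group C] {π : G →* C} {E : Type}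

instance : Mul (FX K π E) :=
  ⟨fun a b => ⟨a.g * b.g, fun j e => a.u j e * single b.g 1 + b.u (j * π a.g) e⟩⟩
instance : One (FX K π E) := ⟨⟨1, fun _ _ => 0⟩⟩
instance : Inv (FX K π E) :=
  ⟨fun a => ⟨a.g⁻¹, fun j e => -(a.u (j * (π a.g)⁻¹) e * single a.g⁻¹ 1)⟩⟩

lemma mul_g (a b : FX K π E) : (a * b).g = a.g * b.g := rfl
lemma mul_u (a b : FX K π E) (j : C) (e : E) :
    (a * b).u j e = a.u j e * single b.g 1 + b.u (j * π a.g) e := rfl
lemma one_g : (1 : FX K π E).g = 1 := rfl
lemma one_u (j : C) (e : E) : (1 : FX K π E).u j e = 0 := rfl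
lemma inv_g (a : FX K π E) : (a⁻¹).g = a.g⁻¹ := rfl
lemma inv_u (a : FX K π E) (j : C) (e : E) :
    (a⁻¹).u j e = -(a.u (j * (π a.g)⁻¹) e * single a.g⁻¹ 1) := rfl

instance : Group (FX K π E) := Group.ofLeftAxioms
  (by
    intro a b c
    apply FX.ext
    · simp only [mul_g, mul_assoc]
    · funext j e
      simp only [mul_u, mul_g, add_mul, mul_assoc, add_assoc, single_mul_single, mul_one, map_mul])
  (by
    intro a
    apply FX.ext
    · simp only [mul_g, one_g, one_mul]
    · funext j e
      simp only [mul_u, one_u, one_g, zero_mul, zero_add, map_one, mul_one])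
  (by
    intro a
    apply FX.ext
    · simp only [mul_g, inv_g, one_g, inv_mul_cancel]
    · funext j e
      simp only [mul_u, inv_u, inv_g, neg_mul, mul_assoc, single_mul_single, inv_mul_cancel, mul_one,
        ← one_def, map_inv, neg_add_cancel, one_u])

end FX

section deriv

variable (K : Type u) {G C I : Type} [Field K] [Group G] [Group C] [DecidableEq C] [DecidableEq I]
  (π : G →* C) (b : FreeGroupBasis I G)

/-- the universal crossed homomorphism -/
def Phi : G →* FX K π (C × I) :=
  b.lift fun k => ⟨b k, fun j e => if e = (j, k) then 1 else 0⟩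

theorem Phi_b (k : I) : Phi K π b (b k) = ⟨b k, fun j e => if e = (j, k) then 1 else 0⟩ := by
  unfold Phi
  exact congr_fun (b.lift.symm_apply_apply _) k

theorem Phi_g (g : G) : (Phi K π b g).g = g := by
  let fst : FX K π (C × I) →* G :=
    { toFun := fun a => a.g
      map_one' := rfl
      map_mul' := fun _ _ => rfl }
  have : fst.comp (Phi K π b) = MonoidHom.id G := by
    apply b.ext_hom
    intro k
    change (Phi K π b (b k)).g = b k
    rw [Phi_b]
  exact DFunLike.congr_fun this g

/-- the derivative of a group element along the edge `e`, starting at the state `j` -/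
def D (j : C) (e : C × I) (g : G) : MonoidAlgebra K G := (Phi K π b g).u j e

theorem D_mul (j : C) (e : C × I) (g h : G) :
    D K π b j e (g * h) = D K π b j e g * single h 1 + D K π b (j * π g) e h := by
  unfold D
  rw [map_mul, FX.mul_u, Phi_g, Phi_g]

theorem D_one (j : C) (e : C × I) : D K π b j e 1 = 0 := by
  unfold D
  rw [map_one, FX.one_u]

theorem D_b (j : C) (e : C × I) (k : I) :
    D K π b j e (b k) = if e = (j, k) then 1 else 0 := by
  unfold D
  rw [Phi_b]

theorem D_inv (j : C) (e : C × I) (g : G) :
    D K π b j e g⁻¹ = -(D K π b (j * (π g)⁻¹) e g * single g⁻¹ 1) := by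
  unfold D
  rw [map_inv, FX.inv_u, Phi_g]

/-- linear extension of a function on the group -/
def ext {N : Type u} [AddCommGroup N] [Module K N] (f : G → N) : MonoidAlgebra K G →ₗ[K] N :=
  (Finsupp.linearCombination K f).comp (MonoidAlgebra.coeffLinearEquiv (S := K) (M := G) K).toLinearMap

theorem ext_single {N : Type u} [AddCommGroup N] [Module K N] (f : G → N) (g : G) (c : K) :
    ext K f (single g c) = c • f g := by
  unfold ext
  change Finsupp.linearCombination K f (Finsupp.single g c) = _
  rw [Finsupp.linearCombination_single]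

/-- the derivative -/
def DD (j : C) (e : C × I) : MonoidAlgebra K G →ₗ[K] MonoidAlgebra K G := ext K (D K π b j e)

theorem DD_single (j : C) (e : C × I) (g : G) (c : K) :
    DD K π b j e (single g c) = c • D K π b j e g := ext_single K _ g c

/-- the map of group algebras -/
abbrev pb : MonoidAlgebra K G →+* MonoidAlgebra K C := mapDomainRingHom K π

theorem pb_single (g : G) (c : K) : pb K π (single g c) = single (π g) c := mapDomain_single

theorem DD_mul_aux (j : C) (e : C × I) (a x : MonoidAlgebra K G) :
    DD K π b j e (a * x) = DD K π b j e a * x +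
      ext K (fun z => DD K π b (j * z) e x) (pb K π a) := by
  induction a using MonoidAlgebra.induction_linear with
  | zero => simp
  | add a a' ha ha' =>
    rw [add_mul, map_add, ha, ha', map_add, map_add, map_add, add_mul]
    abel
  | single g c =>
    rw [pb_single, ext_single, DD_single]
    induction x using MonoidAlgebra.induction_linear with
    | zero => simp
    | add x x' hx hx' => rw [mul_add, map_add, hx, hx', mul_add, map_add, smul_add]; abel
    | single h d =>
      rw [single_mul_single, DD_single, DD_single, D_mul, smul_add]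
      congr 1
      · have : (single h d : MonoidAlgebra K G) = d • single h 1 := by
          rw [smul_single, smul_eq_mul, mul_one]
        rw [this, mul_smul_comm, smul_mul_assoc, smul_smul, mul_comm d c]
      · rw [smul_smul]

theorem DD_mul (j : C) (e : C × I) (a x : MonoidAlgebra K G) (ha : pb K π a = 0) :
    DD K π b j e (a * x) = DD K π b j e a * x := by
  rw [DD_mul_aux, ha, map_zero, add_zero]

end deriv

section cyclic

variable (K : Type u) {G : Type} [Field K] [Group G] {c s : ℕ} [NeZero c]
  (π : G →* Multiplicative (ZMod c)) (b : FreeGroupBasis (Fin (s + 1)) G)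

/-- the representative of a state -/
def rep (z : Multiplicative (ZMod c)) : G := b 0 ^ (Multiplicative.toAdd z).val

/-- the relation of an edge -/
def rel (e : Multiplicative (ZMod c) × Fin (s + 1)) : MonoidAlgebra K G :=
  single (rep b e.1 * b e.2) 1 - single (rep b (e.1 * Multiplicative.ofAdd 1)) 1

variable (hπ : ∀ k, π (b k) = Multiplicative.ofAdd 1)

include hπ in
theorem pi_rep (z : Multiplicative (ZMod c)) : π (rep b z) = z := by
  unfold rep
  rw [map_pow, hπ, ← ofAdd_nsmul]
  simp

theorem rep_one : rep b (1 : Multiplicative (ZMod c)) = 1 := by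
  unfold rep
  simp

include hπ in
/-- telescoping -/
theorem tele (g : G) : ∀ j : Multiplicative (ZMod c),
    (single (rep b j * g) 1 - single (rep b (j * π g)) 1 : MonoidAlgebra K G) =
      ∑ e : Multiplicative (ZMod c) × Fin (s + 1), rel K b e * D K π b j e g := by
  have hone : ∀ j : Multiplicative (ZMod c),
      (single (rep b j * 1) 1 - single (rep b (j * π 1)) 1 : MonoidAlgebra K G) =
      ∑ e : Multiplicative (ZMod c) × Fin (s + 1), rel K b e * D K π b j e 1 := by
    intro j
    rw [Finset.sum_eq_zero fun e _ => by rw [D_one, mul_zero], map_one, mul_one, mul_one, sub_self]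
  have hmul : ∀ g h : G, (∀ j : Multiplicative (ZMod c),
      (single (rep b j * g) 1 - single (rep b (j * π g)) 1 : MonoidAlgebra K G) =
      ∑ e : Multiplicative (ZMod c) × Fin (s + 1), rel K b e * D K π b j e g) →
      (∀ j : Multiplicative (ZMod c),
      (single (rep b j * h) 1 - single (rep b (j * π h)) 1 : MonoidAlgebra K G) =
      ∑ e : Multiplicative (ZMod c) × Fin (s + 1), rel K b e * D K π b j e h) →
      (∀ j : Multiplicative (ZMod c),
      (single (rep b j * (g * h)) 1 - single (rep b (j * π (g * h))) 1 : MonoidAlgebra K G) =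
      ∑ e : Multiplicative (ZMod c) × Fin (s + 1), rel K b e * D K π b j e (g * h)) := by
    intro g h hg hh j
    have h1 : ∑ e : Multiplicative (ZMod c) × Fin (s + 1), rel K b e * D K π b j e (g * h) =
        (∑ e : Multiplicative (ZMod c) × Fin (s + 1), rel K b e * D K π b j e g) * single h 1 +
        ∑ e : Multiplicative (ZMod c) × Fin (s + 1), rel K b e * D K π b (j * π g) e h := by
      rw [Finset.sum_mul, ← Finset.sum_add_distrib]
      refine Finset.sum_congr rfl fun e _ => ?_
      rw [D_mul, mul_add, mul_assoc]
    rw [h1, ← hg, ← hh, sub_mul, single_mul_single, single_mul_single, mul_one, map_mul, mul_assoc,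
      mul_assoc]
    abel
  have hinv : ∀ g : G, (∀ j : Multiplicative (ZMod c),
      (single (rep b j * g) 1 - single (rep b (j * π g)) 1 : MonoidAlgebra K G) =
      ∑ e : Multiplicative (ZMod c) × Fin (s + 1), rel K b e * D K π b j e g) →
      (∀ j : Multiplicative (ZMod c),
      (single (rep b j * g⁻¹) 1 - single (rep b (j * π g⁻¹)) 1 : MonoidAlgebra K G) =
      ∑ e : Multiplicative (ZMod c) × Fin (s + 1), rel K b e * D K π b j e g⁻¹) := by
    intro g hg j
    have h1 : ∑ e : Multiplicative (ZMod c) × Fin (s + 1), rel K b e * D K π b j e g⁻¹ =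
        -((∑ e : Multiplicative (ZMod c) × Fin (s + 1),
          rel K b e * D K π b (j * (π g)⁻¹) e g) * single g⁻¹ 1) := by
      rw [Finset.sum_mul, ← Finset.sum_neg_distrib]
      refine Finset.sum_congr rfl fun e _ => ?_
      rw [D_inv, mul_neg, mul_assoc]
    rw [h1, ← hg, sub_mul, single_mul_single, single_mul_single, mul_one, map_inv,
      inv_mul_cancel_right, mul_inv_cancel_right, neg_sub]
  have hgen : ∀ k, ∀ j : Multiplicative (ZMod c),
      (single (rep b j * b k) 1 - single (rep b (j * π (b k))) 1 : MonoidAlgebra K G) =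
      ∑ e : Multiplicative (ZMod c) × Fin (s + 1), rel K b e * D K π b j e (b k) := by
    intro k j
    rw [Finset.sum_eq_single (j, k)]
    · rw [D_b, if_pos rfl, mul_one, hπ]
      rfl
    · intro e _ he
      rw [D_b, if_neg he, mul_zero]
    · intro h
      exact absurd (Finset.mem_univ _) h
  have hall : ∀ w : FreeGroup (Fin (s + 1)), ∀ j : Multiplicative (ZMod c),
      (single (rep b j * b.repr.symm w) 1 - single (rep b (j * π (b.repr.symm w))) 1 :
        MonoidAlgebra K G) =
      ∑ e : Multiplicative (ZMod c) × Fin (s + 1), rel K b e * D K π b j e (b.repr.symm w) := by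
    intro w
    induction w using FreeGroup.induction_on with
    | C1 => rw [map_one]; exact hone
    | of x => exact hgen x
    | inv_of x hx => rw [map_inv]; exact hinv _ hx
    | mul x y hx hy => rw [map_mul]; exact hmul _ _ hx hy
  have := hall (b.repr g)
  rwa [b.repr.symm_apply_apply] at this

include hπ in
/-- telescoping in the algebra -/
theorem tele' (a : MonoidAlgebra K G) :
    a - ext K (fun z => (single (rep b z) 1 : MonoidAlgebra K G)) (pb K π a) =
      ∑ e : Multiplicative (ZMod c) × Fin (s + 1), rel K b e * DD K π b 1 e a := by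
  induction a using MonoidAlgebra.induction_linear with
  | zero => simp
  | add x y hx hy =>
    have : ∑ e : Multiplicative (ZMod c) × Fin (s + 1), rel K b e * DD K π b 1 e (x + y) =
      ∑ e : Multiplicative (ZMod c) × Fin (s + 1), rel K b e * DD K π b 1 e x +
      ∑ e : Multiplicative (ZMod c) × Fin (s + 1), rel K b e * DD K π b 1 e y := by
      rw [← Finset.sum_add_distrib]
      refine Finset.sum_congr rfl fun e _ => ?_
      rw [map_add, mul_add]
    rw [this, ← hx, ← hy, map_add, map_add]
    abel
  | single g d =>
    have h1 := tele K π b hπ g 1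
    rw [rep_one, one_mul, one_mul] at h1
    have h2 : ∑ e : Multiplicative (ZMod c) × Fin (s + 1),
        rel K b e * DD K π b 1 e (single g d) =
        d • ∑ e : Multiplicative (ZMod c) × Fin (s + 1), rel K b e * D K π b 1 e g := by
      rw [Finset.smul_sum]
      refine Finset.sum_congr rfl fun e _ => ?_
      rw [DD_single, mul_smul_comm]
    rw [h2, ← h1, pb_single, ext_single, smul_sub]
    congr 1
    rw [smul_single, smul_eq_mul, mul_one]

/-- the edges outside the tree -/
def edge : Option (Multiplicative (ZMod c) × Fin s) → Multiplicative (ZMod c) × Fin (s + 1)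
  | none => (Multiplicative.ofAdd (-1), 0)
  | some e => (e.1, e.2.succ)

theorem edge_injective : Function.Injective (edge (c := c) (s := s)) := by
  intro e e' h
  rcases e with _ | ⟨z, k⟩ <;> rcases e' with _ | ⟨z', k'⟩
  · rfl
  · have := congrArg Prod.snd h
    exact absurd this (Fin.succ_ne_zero k').symm
  · have := congrArg Prod.snd h
    exact absurd this (Fin.succ_ne_zero k)
  · have h1 := congrArg Prod.fst h
    have h2 := congrArg Prod.snd h
    change z = z' at h1
    change k.succ = k'.succ at h2
    rw [h1, Fin.succ_injective _ h2]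

theorem val_succ (z : ZMod c) (hz : z ≠ -1) : (z + 1).val = z.val + 1 := by
  have h1 : z.val + 1 < c := by
    have h2 := ZMod.val_lt z
    by_contra hcon
    apply hz
    have h3 : z.val + 1 = c := by omega
    have h4 : ((z.val + 1 : ℕ) : ZMod c) = 0 := by rw [h3]; simp
    push_cast at h4
    rw [ZMod.natCast_zmod_val] at h4
    exact eq_neg_of_add_eq_zero_left h4
  have h5 : (z + 1) = ((z.val + 1 : ℕ) : ZMod c) := by
    push_cast
    rw [ZMod.natCast_zmod_val]
  rw [h5, ZMod.val_natCast, Nat.mod_eq_of_lt h1]

/-- tree edges carry the trivial relation -/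
theorem rel_tree (z : Multiplicative (ZMod c)) (hz : z ≠ Multiplicative.ofAdd (-1)) :
    rel K b (z, 0) = 0 := by
  unfold rel
  have h1 : rep b (z * Multiplicative.ofAdd 1) = rep b z * b 0 := by
    unfold rep
    rw [← pow_succ]
    congr 1
    exact val_succ (Multiplicative.toAdd z) (fun h => hz (congrArg Multiplicative.ofAdd h))
  change single (rep b z * b 0) 1 - single (rep b (z * Multiplicative.ofAdd 1)) 1 = _
  rw [h1, sub_self]

/-- the sum over all edges is the sum over the edges outside the tree -/
theorem sum_edge (f : Multiplicative (ZMod c) × Fin (s + 1) → MonoidAlgebra K G)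
    (hf : ∀ z, z ≠ Multiplicative.ofAdd (-1) → f (z, 0) = 0) :
    ∑ e, f e = ∑ e, f (edge (c := c) (s := s) e) := by
  rw [Fintype.sum_option, Fintype.sum_prod_type, Fintype.sum_prod_type]
  have h1 : ∀ z, ∑ k : Fin (s + 1), f (z, k) = f (z, 0) + ∑ k : Fin s, f (z, k.succ) :=
    fun z => Fin.sum_univ_succ _
  rw [Finset.sum_congr rfl fun z _ => h1 z, Finset.sum_add_distrib]
  congr 1
  rw [Finset.sum_eq_single (Multiplicative.ofAdd (-1))]
  · rfl
  · intro z _ hz
    exact hf z hz
  · intro h
    exact absurd (Finset.mem_univ _) h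

include hπ in
/-- derivatives of the powers -/
theorem D_pow (e : Option (Multiplicative (ZMod c) × Fin s)) (n : ℕ) (hn : n < c) :
    D K π b 1 (edge e) (b 0 ^ n) = 0 := by
  induction n with
  | zero => rw [pow_zero, D_one]
  | succ n ih =>
    rw [pow_succ, D_mul, ih (by omega), zero_mul, zero_add, D_b, if_neg]
    rw [one_mul, map_pow, hπ]
    rcases e with _ | ⟨z, k⟩
    · intro h
      have h1 := congrArg Prod.fst h
      change Multiplicative.ofAdd (-1) = _ at h1
      rw [← ofAdd_nsmul, nsmul_eq_mul, mul_one] at h1
      have h2 : (-1 : ZMod c) = (n : ZMod c) := Multiplicative.ofAdd.injective h1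
      have h3 : ((n + 1 : ℕ) : ZMod c) = 0 := by
        push_cast
        rw [← h2]
        ring
      rw [ZMod.natCast_eq_zero_iff] at h3
      have := Nat.le_of_dvd (by omega) h3
      omega
    · intro h
      have h1 := congrArg Prod.snd h
      exact absurd h1 (Fin.succ_ne_zero k)

include hπ in
theorem D_rep (e : Option (Multiplicative (ZMod c) × Fin s)) (z : Multiplicative (ZMod c)) :
    D K π b 1 (edge e) (rep b z) = 0 :=
  D_pow K π b hπ e _ (ZMod.val_lt _)

include hπ in
theorem DD_rel (e e' : Option (Multiplicative (ZMod c) × Fin s)) :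
    DD K π b 1 (edge e) (rel K b (edge e')) = if e = e' then 1 else 0 := by
  unfold rel
  rw [map_sub, DD_single, DD_single, D_rep K π b hπ, smul_zero, sub_zero, one_smul, D_mul,
    D_rep K π b hπ, zero_mul, zero_add, one_mul, pi_rep π b hπ, D_b]
  by_cases h : e = e'
  · rw [if_pos h, if_pos (by rw [h])]
  · rw [if_neg h, if_neg (fun h2 => h (edge_injective h2))]

include hπ in
theorem pb_rel (e : Multiplicative (ZMod c) × Fin (s + 1)) : pb K π (rel K b e) = 0 := by
  unfold rel
  rw [map_sub, pb_single, pb_single, map_mul, pi_rep π b hπ, pi_rep π b hπ, hπ, sub_self]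

/-- the kernel, as a right ideal -/
def kerN {C : Type} [Group C] (π : G →* C) : Submodule (MonoidAlgebra K G)ᵐᵒᵖ (MonoidAlgebra K G) where
  carrier := {a | pb K π a = 0}
  zero_mem' := by
    change pb K π 0 = 0
    rw [map_zero]
  add_mem' := by
    intro a b ha hb
    change pb K π (a + b) = 0
    change pb K π a = 0 at ha
    change pb K π b = 0 at hb
    rw [map_add, ha, hb, add_zero]
  smul_mem' := by
    intro x a ha
    change pb K π (a * MulOpposite.unop x) = 0
    change pb K π a = 0 at ha
    rw [map_mul, ha, zero_mul]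

theorem mem_kerN {C : Type} [Group C] (π : G →* C) (a : MonoidAlgebra K G) :
    a ∈ kerN K π ↔ pb K π a = 0 := Iff.rfl

/-- the kernel is free of rank `1 + c s` -/
def kerEquiv : kerN K π ≃ₗ[(MonoidAlgebra K G)ᵐᵒᵖ]
    (Option (Multiplicative (ZMod c) × Fin s) → (MonoidAlgebra K G)ᵐᵒᵖ) where
  toFun a := fun e => MulOpposite.op (DD K π b 1 (edge e) a.1)
  map_add' := by
    intro a a'
    funext e
    change MulOpposite.op (DD K π b 1 (edge e) (a.1 + a'.1)) = _
    rw [map_add]
    rfl
  map_smul' := by
    intro x a
    funext e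
    change MulOpposite.op (DD K π b 1 (edge e) (a.1 * MulOpposite.unop x)) = _
    rw [DD_mul _ _ _ _ _ _ _ a.2]
    rfl
  invFun α := ⟨∑ e, rel K b (edge e) * MulOpposite.unop (α e), by
    rw [mem_kerN, map_sum]
    refine Finset.sum_eq_zero fun e _ => ?_
    rw [map_mul, pb_rel K π b hπ, zero_mul]⟩
  left_inv := by
    intro a
    apply Subtype.ext
    change ∑ e, rel K b (edge e) * DD K π b 1 (edge e) a.1 = a.1
    have h1 := tele' K π b hπ a.1
    rw [a.2, map_zero, sub_zero] at h1
    rw [sum_edge K (fun e => rel K b e * DD K π b 1 e a.1)] at h1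
    · exact h1.symm
    · intro z hz
      change rel K b (z, 0) * _ = 0
      rw [rel_tree K b z hz, zero_mul]
  right_inv := by
    intro α
    funext e
    change MulOpposite.op (DD K π b 1 (edge e)
      (∑ e', rel K b (edge e') * MulOpposite.unop (α e'))) = α e
    rw [map_sum, Finset.sum_congr rfl fun e' _ => DD_mul K π b 1 (edge e) (rel K b (edge e'))
      (MulOpposite.unop (α e')) (pb_rel K π b hπ _)]
    rw [Finset.sum_eq_single e]
    · rw [DD_rel K π b hπ, if_pos rfl, one_mul]
      rfl
    · intro e' _ he
      rw [DD_rel K π b hπ, if_neg (Ne.symm he), zero_mul]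
    · intro h
      exact absurd (Finset.mem_univ _) h

include hπ in
theorem ker_basis :
    Nonempty (Module.Basis (Fin (1 + c * s)) (MonoidAlgebra K G)ᵐᵒᵖ (kerN K π)) := by
  have hcard : Fintype.card (Option (Multiplicative (ZMod c) × Fin s)) = 1 + c * s := by
    rw [Fintype.card_option, Fintype.card_prod, Fintype.card_multiplicative, ZMod.card,
      Fintype.card_fin, add_comm]
  exact ⟨(Module.Basis.ofEquivFun (kerEquiv K π b hπ)).reindex (Fintype.equivFinOfCardEq hcard)⟩

end cyclic

end

end Pool.Agent.R700.Fox
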