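import Pool.Agent.R700.Fox

set_option autoImplicit false

/-!
The subgroup generated by the conjugates `x^k y x^{-k}` and the elements `(y-1)(z-1)^i`.
-/

namespace Pool.Agent.R700.HN2

open MonoidAlgebra

universe u

noncomputable section

section order

variable {K : Type u} [Field K] {G : Type} [Group G]

theorem finite_aux (a : MonoidAlgebra K G) (f : ℕ → G) (hf : Function.Injective f)
    (h : ∀ n, a.coeff (f n) = a.coeff (f 0)) : a.coeff (f 0) = 0 := by
  by_contra h0
  have h1 : ∀ n, f n ∈ a.coeff.support := by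
    intro n
    rw [Finsupp.mem_support_iff, h]
    exact h0
  exact Set.infinite_of_injective_forall_mem hf h1 a.coeff.support.finite_toSet

/-- right multiplication by an element of infinite order has no fixed points -/
theorem eq_zero_of_mul (a : MonoidAlgebra K G) (z : G) (hz : Function.Injective fun n : ℕ => z ^ n)
    (h : a * single z 1 = a) : a = 0 := by
  have h1 : ∀ g, a.coeff (g * z) = a.coeff g := by
    intro g
    conv_lhs => rw [← h]
    rw [coeff_mul_single_apply, mul_one, mul_inv_cancel_right]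
  have h2 : ∀ g, ∀ n : ℕ, a.coeff (g * z ^ n) = a.coeff g := by
    intro g n
    induction n with
    | zero => simp
    | succ n ih => rw [pow_succ, ← mul_assoc, h1, ih]
  rw [← coeff_eq_zero]
  ext g
  have h3 := finite_aux a (fun n => g * z ^ n) (fun m n hmn => hz (mul_left_cancel hmn))
    (fun n => by rw [h2, h2])
  rw [h2] at h3
  exact h3

theorem eq_zero_of_mul_sub (a : MonoidAlgebra K G) (z : G)
    (hz : Function.Injective fun n : ℕ => z ^ n) (h : a * (single z 1 - 1) = 0) : a = 0 := by
  apply eq_zero_of_mul a z hz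
  rw [mul_sub, mul_one, sub_eq_zero] at h
  exact h

/-- left multiplication -/
theorem mem_of_mul (a : MonoidAlgebra K G) (z : G) (hz : Function.Injective fun n : ℕ => z ^ n)
    (H : Subgroup G) (hzH : z ∈ H)
    (h : ∀ g, g ∉ H → ((single z 1 - 1) * a).coeff g = 0) : ∀ g, g ∉ H → a.coeff g = 0 := by
  intro g hg
  have h1 : ∀ g, g ∉ H → a.coeff (z⁻¹ * g) = a.coeff g := by
    intro g hg
    have := h g hg
    rw [sub_mul, one_mul, coeff_sub, Finsupp.sub_apply, coeff_single_mul_apply, one_mul,
      sub_eq_zero] at this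
    exact this
  have h2 : ∀ n : ℕ, (z⁻¹) ^ n * g ∉ H ∧ a.coeff ((z⁻¹) ^ n * g) = a.coeff g := by
    intro n
    induction n with
    | zero => simpa using hg
    | succ n ih =>
      rw [pow_succ', mul_assoc]
      refine ⟨fun hcon => ih.1 ?_, by rw [h1 _ ih.1, ih.2]⟩
      have := H.mul_mem hzH hcon
      rwa [mul_inv_cancel_left] at this
  have h3 := finite_aux a (fun n => (z⁻¹) ^ n * g) (fun m n hmn => by
    have h4 : (z⁻¹) ^ m = (z⁻¹) ^ n := mul_right_cancel hmn
    rw [inv_pow, inv_pow, inv_inj] at h4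
    exact hz h4) (fun n => by rw [(h2 n).2, (h2 0).2])
  rw [(h2 0).2] at h3
  exact h3

end order

section left

variable (K : Type u) [Field K]

abbrev F : Type := FreeGroup (Fin 2)

/-- the first generator -/
def x : F := FreeGroup.of 0
/-- the second generator -/
def y : F := FreeGroup.of 1
/-- the conjugates -/
def z (k : ℕ) : F := x ^ k * y * (x ^ k)⁻¹

/-- pairs with the product `(g,u)(h,v) = (gh, u + gv)` -/
@[ext] structure FL where
  g : F
  u : MonoidAlgebra K F

namespace FL

variable {K}

instance : Mul (FL K) := ⟨fun a b => ⟨a.g * b.g, a.u + single a.g 1 * b.u⟩⟩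
instance : One (FL K) := ⟨⟨1, 0⟩⟩
instance : Inv (FL K) := ⟨fun a => ⟨a.g⁻¹, -(single a.g⁻¹ 1 * a.u)⟩⟩

lemma mul_g (a b : FL K) : (a * b).g = a.g * b.g := rfl
lemma mul_u (a b : FL K) : (a * b).u = a.u + single a.g 1 * b.u := rfl
lemma one_g : (1 : FL K).g = 1 := rfl
lemma one_u : (1 : FL K).u = 0 := rfl
lemma inv_g (a : FL K) : (a⁻¹).g = a.g⁻¹ := rfl
lemma inv_u (a : FL K) : (a⁻¹).u = -(single a.g⁻¹ 1 * a.u) := rfl

instance : Group (FL K) := Group.ofLeftAxioms
  (by
    intro a b c
    apply FL.ext
    · simp only [mul_g, mul_assoc]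
    · simp only [mul_u, mul_g, mul_add, ← mul_assoc, add_assoc, single_mul_single, mul_one])
  (by
    intro a
    apply FL.ext
    · simp only [mul_g, one_g, one_mul]
    · simp only [mul_u, one_u, one_g, ← one_def, one_mul, zero_add])
  (by
    intro a
    apply FL.ext
    · simp only [mul_g, inv_g, one_g, inv_mul_cancel]
    · simp only [mul_u, inv_u, inv_g, one_u, neg_add_cancel])

end FL

/-- the left Fox derivative with respect to the first generator -/
def PhiL : F →* FL K := FreeGroup.lift fun i => ⟨FreeGroup.of i, if i = 0 then 1 else 0⟩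

theorem PhiL_g (g : F) : (PhiL K g).g = g := by
  let fst : FL K →* F :=
    { toFun := fun a => a.g
      map_one' := rfl
      map_mul' := fun _ _ => rfl }
  have : fst.comp (PhiL K) = MonoidHom.id F := by
    apply FreeGroup.ext_hom
    intro k
    change (PhiL K (FreeGroup.of k)).g = FreeGroup.of k
    unfold PhiL
    rw [FreeGroup.lift_apply_of]
  exact DFunLike.congr_fun this g

/-- the left Fox derivative of a group element -/
def dl (g : F) : MonoidAlgebra K F := (PhiL K g).u

theorem dl_mul (g h : F) : dl K (g * h) = dl K g + single g 1 * dl K h := by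
  unfold dl
  rw [map_mul, FL.mul_u, PhiL_g]

theorem dl_inv (g : F) : dl K g⁻¹ = -(single g⁻¹ 1 * dl K g) := by
  unfold dl
  rw [map_inv, FL.inv_u, PhiL_g]

theorem dl_x : dl K x = 1 := by
  unfold dl PhiL x
  rw [FreeGroup.lift_apply_of]
  rfl

theorem dl_y : dl K y = 0 := by
  unfold dl PhiL y
  rw [FreeGroup.lift_apply_of]
  rfl

theorem dl_z : dl K (z 1) = 1 - single (z 1) 1 := by
  unfold z
  rw [pow_one, dl_mul, dl_mul, dl_inv, dl_x, dl_y, mul_one, mul_zero, add_zero, mul_neg,
    single_mul_single, mul_one, ← sub_eq_add_neg]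

/-- linear extension -/
def DL : MonoidAlgebra K F →ₗ[K] MonoidAlgebra K F := Fox.ext K (dl K)

theorem DL_mul (a : MonoidAlgebra K F) (h : F) :
    DL K (a * (single h 1 - 1)) = a * dl K h := by
  induction a using MonoidAlgebra.induction_linear with
  | zero => simp
  | add a b ha hb => rw [add_mul, map_add, ha, hb, add_mul]
  | single g c =>
    rw [mul_sub, single_mul_single, mul_one, mul_one, map_sub]
    unfold DL
    rw [Fox.ext_single, Fox.ext_single, dl_mul, smul_add, add_sub_cancel_left]
    have : (single g c : MonoidAlgebra K F) = c • single g 1 := by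
      rw [smul_single, smul_eq_mul, mul_one]
    rw [this, smul_mul_assoc]

/-- the homomorphism to the integers -/
def deg : F →* Multiplicative ℤ := FreeGroup.lift fun _ => Multiplicative.ofAdd 1

theorem inj_of_deg (g : F) (hg : deg g = Multiplicative.ofAdd 1) :
    Function.Injective fun n : ℕ => g ^ n := by
  intro m n h
  have h1 := congrArg deg h
  simp only [map_pow, hg, ← ofAdd_nsmul] at h1
  have h2 := Multiplicative.ofAdd.injective h1
  simpa using h2

theorem deg_y : deg y = Multiplicative.ofAdd 1 := by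
  unfold deg y
  rw [FreeGroup.lift_apply_of]

theorem deg_z (k : ℕ) : deg (z k) = Multiplicative.ofAdd 1 := by
  unfold z
  rw [map_mul, map_mul, map_inv, mul_comm (deg (x ^ k)), mul_inv_cancel_right, deg_y]

/-- two elements independent on the left -/
theorem indep (a b : MonoidAlgebra K F)
    (h : a * (single y 1 - 1) + b * (single (z 1) 1 - 1) = 0) : a = 0 ∧ b = 0 := by
  have h1 := congrArg (DL K) h
  rw [map_add, DL_mul, DL_mul, dl_y, dl_z, mul_zero, zero_add, map_zero] at h1
  have hb : b = 0 := by
    apply eq_zero_of_mul_sub b (z 1) (inj_of_deg _ (deg_z 1))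
    rw [← neg_sub, mul_neg, neg_eq_zero]
    rw [← neg_sub, mul_neg, neg_eq_zero] at h1
    rw [← neg_sub, mul_neg, neg_eq_zero]
    exact h1
  refine ⟨?_, hb⟩
  rw [hb, zero_mul, add_zero] at h
  exact eq_zero_of_mul_sub a y (inj_of_deg _ deg_y) h

/-- a family of elements independent on the left -/
theorem indep' (d : ℕ) (a : Fin d → MonoidAlgebra K F)
    (h : ∑ i, a i * ((single y 1 - 1) * (single (z 1) 1 - 1) ^ (i : ℕ)) = 0) : ∀ i, a i = 0 := by
  induction d with
  | zero => intro i; exact i.elim0
  | succ d ih =>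
    rw [Fin.sum_univ_succ] at h
    have h1 : ∑ i : Fin d, a i.succ * ((single y 1 - 1) * (single (z 1) 1 - 1) ^ ((i.succ : Fin (d + 1)) : ℕ)) =
        (∑ i : Fin d, a i.succ * ((single y 1 - 1) * (single (z 1) 1 - 1) ^ (i : ℕ))) *
          (single (z 1) 1 - 1) := by
      rw [Finset.sum_mul]
      refine Finset.sum_congr rfl fun i _ => ?_
      rw [Fin.val_succ, pow_succ]
      simp only [mul_assoc]
    rw [h1, Fin.val_zero, pow_zero, mul_one] at h
    obtain ⟨h2, h3⟩ := indep K _ _ h
    intro i
    refine Fin.cases h2 (fun j => ih (fun i => a i.succ) h3 j) i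

end left

section subgroup

/-- the embedding of a free group of rank `r` -/
def emb (r : ℕ) : FreeGroup (Fin r) →* F := FreeGroup.lift fun k => z k

/-- the action of the first generator -/
def ax (r : ℕ) : Equiv.Perm (ℤ × FreeGroup (Fin r)) where
  toFun p := (p.1 - 1, p.2)
  invFun p := (p.1 + 1, p.2)
  left_inv p := by simp
  right_inv p := by simp

/-- the label of a vertex -/
def lab (r : ℕ) (i : ℤ) : FreeGroup (Fin r) :=
  if h : 0 ≤ i ∧ i.toNat < r then FreeGroup.of ⟨i.toNat, h.2⟩ else 1

/-- the action of the second generator -/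
def ay (r : ℕ) : Equiv.Perm (ℤ × FreeGroup (Fin r)) where
  toFun p := (p.1, lab r p.1 * p.2)
  invFun p := (p.1, (lab r p.1)⁻¹ * p.2)
  left_inv p := by simp
  right_inv p := by simp

/-- the action -/
def act (r : ℕ) : F →* Equiv.Perm (ℤ × FreeGroup (Fin r)) :=
  FreeGroup.lift fun i => if i = 0 then ax r else ay r

theorem act_x (r : ℕ) : act r x = ax r := by
  unfold act x
  rw [FreeGroup.lift_apply_of, if_pos rfl]

theorem act_y (r : ℕ) : act r y = ay r := by
  unfold act y
  rw [FreeGroup.lift_apply_of, if_neg (by decide)]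

theorem act_xpow (r k : ℕ) (p : ℤ × FreeGroup (Fin r)) : act r (x ^ k) p = (p.1 - k, p.2) := by
  induction k generalizing p with
  | zero => simp
  | succ k ih =>
    rw [pow_succ, map_mul, Equiv.Perm.mul_apply, ih, act_x]
    change (p.1 - 1 - (k : ℤ), p.2) = _
    congr 1
    push_cast
    ring

theorem act_z (r : ℕ) (k : Fin r) (g : FreeGroup (Fin r)) :
    act r (z k) (0, g) = (0, FreeGroup.of k * g) := by
  unfold z
  rw [map_mul, map_mul, map_inv, Equiv.Perm.mul_apply, Equiv.Perm.mul_apply]
  have h1 : (act r (x ^ (k : ℕ)))⁻¹ (0, g) = ((k : ℤ), g) := by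
    rw [Equiv.Perm.inv_eq_iff_eq, act_xpow]
    simp
  rw [h1, act_y]
  change act r (x ^ (k : ℕ)) ((k : ℤ), lab r (k : ℤ) * g) = _
  rw [act_xpow]
  have h2 : lab r (k : ℤ) = FreeGroup.of k := by
    unfold lab
    rw [dif_pos ⟨by positivity, by simp⟩]
    simp
  rw [h2]
  simp

theorem act_emb (r : ℕ) (w g : FreeGroup (Fin r)) : act r (emb r w) (0, g) = (0, w * g) := by
  induction w using FreeGroup.induction_on generalizing g with
  | C1 => simp
  | of k =>
    unfold emb
    rw [FreeGroup.lift_apply_of, act_z]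
  | inv_of k hk =>
    rw [map_inv, map_inv, Equiv.Perm.inv_eq_iff_eq, hk, mul_inv_cancel_left]
  | mul v w hv hw => rw [map_mul, map_mul, Equiv.Perm.mul_apply, hw, hv, mul_assoc]

theorem emb_injective (r : ℕ) : Function.Injective (emb r) := by
  intro v w h
  have h1 := act_emb r v 1
  rw [h, act_emb r w 1] at h1
  simpa using (congrArg Prod.snd h1).symm

/-- the subgroup -/
def H (r : ℕ) : Subgroup F := (emb r).range

/-- its basis -/
def bH (r : ℕ) : FreeGroupBasis (Fin r) (H r) :=
  (FreeGroupBasis.ofFreeGroup (Fin r)).map (MonoidHom.ofInjective (emb_injective r))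

theorem bH_apply (r : ℕ) (k : Fin r) : ((bH r k : H r) : F) = z k := by
  change emb r (FreeGroup.of k) = z k
  unfold emb
  rw [FreeGroup.lift_apply_of]

theorem z_mem (r : ℕ) (k : Fin r) : z k ∈ H r := by
  rw [← bH_apply]
  exact (bH r k).2

theorem z_zero : z 0 = y := by
  unfold z
  simp

end subgroup

end

end Pool.Agent.R700.HN2
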