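import Pool.Agent.R700.CE

set_option autoImplicit false

/-!
# A centrally essential ring which satisfies no polynomial identity
-/

namespace Pool.Agent.R700.NonPI

open Zas

/-- the space on which the ring acts -/
abbrev V : Type := ℕ → Finset ℕ → ℚ

/-- the commuting square-zero operators -/
def T (k : ℕ) : V →ₗ[ℚ] V where
  toFun f := fun i α => if k ∈ α then f i (α.erase k) else 0
  map_add' f g := by
    funext i α
    simp only [Pi.add_apply]
    split_ifs <;> simp
  map_smul' c f := by
    funext i α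
    simp only [Pi.smul_apply, RingHom.id_apply]
    split_ifs <;> simp

/-- matrix units -/
def S (k : ℕ) : V →ₗ[ℚ] V where
  toFun f := fun i α => if i = k then f (k + 1) α else 0
  map_add' f g := by
    funext i α
    simp only [Pi.add_apply]
    split_ifs <;> simp
  map_smul' c f := by
    funext i α
    simp only [Pi.smul_apply, RingHom.id_apply]
    split_ifs <;> simp

/-- the noncommuting operators -/
def Y (k : ℕ) : V →ₗ[ℚ] V := T k * S k

theorem T_apply (k : ℕ) (f : V) (i : ℕ) (α : Finset ℕ) :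
    T k f i α = if k ∈ α then f i (α.erase k) else 0 := rfl

theorem S_apply (k : ℕ) (f : V) (i : ℕ) (α : Finset ℕ) :
    S k f i α = if i = k then f (k + 1) α else 0 := rfl

theorem Y_apply (k : ℕ) (f : V) (i : ℕ) (α : Finset ℕ) :
    Y k f i α = if k ∈ α then (if i = k then f (k + 1) (α.erase k) else 0) else 0 := rfl

theorem TT (k : ℕ) : T k * T k = 0 := by
  refine LinearMap.ext fun f => ?_
  funext i α
  rw [Module.End.mul_apply, T_apply, T_apply]
  simp

theorem T_comm (k l : ℕ) : T k * T l = T l * T k := by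
  refine LinearMap.ext fun f => ?_
  funext i α
  rw [Module.End.mul_apply, Module.End.mul_apply, T_apply, T_apply, T_apply, T_apply]
  by_cases hkl : k = l
  · subst hkl; rfl
  · by_cases h1 : k ∈ α <;> by_cases h2 : l ∈ α <;>
      simp [h1, h2, hkl, Ne.symm hkl, Finset.erase_right_comm, Finset.mem_erase]

theorem T_S (k l : ℕ) : T k * S l = S l * T k := by
  refine LinearMap.ext fun f => ?_
  funext i α
  rw [Module.End.mul_apply, Module.End.mul_apply]
  simp only [T_apply, S_apply]
  by_cases h1 : k ∈ α <;> by_cases h2 : i = l <;> simp [h1, h2]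

theorem T_Y (k l : ℕ) : T k * Y l = Y l * T k := by
  unfold Y
  rw [← mul_assoc, T_comm, mul_assoc, T_S, mul_assoc]

theorem Y_T_self (k : ℕ) : Y k * T k = 0 := by
  rw [← T_Y]
  unfold Y
  rw [← mul_assoc, TT, zero_mul]

theorem S_S {k l : ℕ} (h : l ≠ k + 1) : S k * S l = 0 := by
  refine LinearMap.ext fun f => ?_
  funext i α
  rw [Module.End.mul_apply, S_apply, S_apply]
  split_ifs with h1 h2
  · exact absurd h2.symm h
  · rfl
  · rfl

theorem Y_Y {k l : ℕ} (h : l ≠ k + 1) : Y k * Y l = 0 := by
  unfold Y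
  rw [mul_assoc, ← mul_assoc (S k), ← T_S, mul_assoc, S_S h, mul_zero, mul_zero]

/-- the generators -/
def gen : Set (V →ₗ[ℚ] V) := Set.range T ∪ Set.range Y

/-- the rational algebra -/
abbrev EE : Type := Algebra.adjoin ℚ gen

theorem T_mem (k : ℕ) : T k ∈ Algebra.adjoin ℚ gen :=
  Algebra.subset_adjoin (Or.inl ⟨k, rfl⟩)

theorem Y_mem (k : ℕ) : Y k ∈ Algebra.adjoin ℚ gen :=
  Algebra.subset_adjoin (Or.inr ⟨k, rfl⟩)

/-- the generators as elements of the algebra -/
def tt (k : ℕ) : EE := ⟨T k, T_mem k⟩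

/-- the generators as elements of the algebra -/
def yy (k : ℕ) : EE := ⟨Y k, Y_mem k⟩

/-- the set of generators -/
def G : Set EE := Set.range tt ∪ Set.range yy

/-- the order -/
def R : Subring EE := Subring.closure G

theorem tt_mem (k : ℕ) : tt k ∈ R := Subring.subset_closure (Or.inl ⟨k, rfl⟩)

theorem yy_mem (k : ℕ) : yy k ∈ R := Subring.subset_closure (Or.inr ⟨k, rfl⟩)

theorem h1 : ∀ e : EE, ∃ n : ℕ, 0 < n ∧ n • e ∈ R := by
  rintro ⟨x, hx⟩
  induction hx using Algebra.adjoin_induction with
  | mem x hx =>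
    refine ⟨1, one_pos, ?_⟩
    rw [one_smul]
    rcases hx with ⟨k, rfl⟩ | ⟨k, rfl⟩
    · exact tt_mem k
    · exact yy_mem k
  | algebraMap q =>
    refine ⟨q.den, q.den_pos, ?_⟩
    have : q.den • (⟨algebraMap ℚ (V →ₗ[ℚ] V) q, Subalgebra.algebraMap_mem _ q⟩ : EE) =
        ((q.num : ℤ) : EE) := by
      have h3 : (⟨algebraMap ℚ (V →ₗ[ℚ] V) q, Subalgebra.algebraMap_mem _ q⟩ : EE) =
        algebraMap ℚ EE q := rfl
      rw [h3, nsmul_eq_mul, ← map_natCast (algebraMap ℚ EE), ← map_mul, Rat.den_mul_eq_num,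
        map_intCast]
    rw [this]
    exact intCast_mem _ _
  | add x y hx hy ihx ihy =>
    obtain ⟨n, hn, hx'⟩ := ihx
    obtain ⟨m, hm, hy'⟩ := ihy
    refine ⟨n * m, Nat.mul_pos hn hm, ?_⟩
    have : (n * m) • (⟨x + y, add_mem hx hy⟩ : EE) = m • (n • ⟨x, hx⟩) + n • (m • ⟨y, hy⟩) := by
      rw [smul_smul, smul_smul, mul_comm m n, ← smul_add]
      rfl
    rw [this]
    exact add_mem (nsmul_mem hx' _) (nsmul_mem hy' _)
  | mul x y hx hy ihx ihy =>
    obtain ⟨n, hn, hx'⟩ := ihx
    obtain ⟨m, hm, hy'⟩ := ihy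
    refine ⟨n * m, Nat.mul_pos hn hm, ?_⟩
    have : (n * m) • (⟨x * y, mul_mem hx hy⟩ : EE) = (n • ⟨x, hx⟩) * (m • ⟨y, hy⟩) := by
      rw [smul_mul_smul_comm]
      rfl
    rw [this]
    exact mul_mem hx' hy'

/-- integral vectors -/
def Intl (f : V) : Prop := ∀ i α, ∃ m : ℤ, f i α = m

theorem int_of_mem (r : EE) (hr : r ∈ R) : ∀ f : V, Intl f → Intl (r.1 f) := by
  unfold R at hr
  induction hr using Subring.closure_induction with
  | mem x hx =>
    intro f hf i α
    rcases hx with ⟨k, rfl⟩ | ⟨k, rfl⟩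
    · change ∃ m : ℤ, T k f i α = m
      rw [T_apply]
      split_ifs
      · exact hf _ _
      · exact ⟨0, by simp⟩
    · change ∃ m : ℤ, Y k f i α = m
      rw [Y_apply]
      split_ifs
      · exact hf _ _
      · exact ⟨0, by simp⟩
      · exact ⟨0, by simp⟩
  | zero => intro f hf i α; exact ⟨0, by simp⟩
  | one => intro f hf i α; exact hf i α
  | add x y _ _ hx hy =>
    intro f hf i α
    obtain ⟨a, ha⟩ := hx f hf i α
    obtain ⟨b, hb⟩ := hy f hf i α
    refine ⟨a + b, ?_⟩
    change x.1 f i α + y.1 f i α = _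
    rw [ha, hb]
    push_cast
    rfl
  | neg x _ hx =>
    intro f hf i α
    obtain ⟨a, ha⟩ := hx f hf i α
    refine ⟨-a, ?_⟩
    change -(x.1 f i α) = _
    rw [ha]
    push_cast
    rfl
  | mul x y _ _ hx hy =>
    intro f hf
    exact hx _ (hy f hf)

theorem local_of (e : EE) : ∀ i α, ∃ F : Finset (ℕ × Finset ℕ), ∀ f g : V,
    (∀ b ∈ F, f b.1 b.2 = g b.1 b.2) → e.1 f i α = e.1 g i α := by
  classical
  obtain ⟨x, hx⟩ := e
  induction hx using Algebra.adjoin_induction with
  | mem x hx =>
    intro i α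
    rcases hx with ⟨k, rfl⟩ | ⟨k, rfl⟩
    · refine ⟨{(i, α.erase k)}, fun f g h => ?_⟩
      change T k f i α = T k g i α
      rw [T_apply, T_apply, h _ (Finset.mem_singleton_self _)]
    · refine ⟨{(k + 1, α.erase k)}, fun f g h => ?_⟩
      change Y k f i α = Y k g i α
      rw [Y_apply, Y_apply, h _ (Finset.mem_singleton_self _)]
  | algebraMap q =>
    intro i α
    refine ⟨{(i, α)}, fun f g h => ?_⟩
    change q * f i α = q * g i α
    rw [h _ (Finset.mem_singleton_self _)]
  | add x y hx hy ihx ihy =>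
    intro i α
    obtain ⟨F, hF⟩ := ihx i α
    obtain ⟨F', hF'⟩ := ihy i α
    refine ⟨F ∪ F', fun f g h => ?_⟩
    change x f i α + y f i α = x g i α + y g i α
    rw [hF f g fun b hb => h b (Finset.mem_union_left _ hb),
      hF' f g fun b hb => h b (Finset.mem_union_right _ hb)]
  | mul x y hx hy ihx ihy =>
    intro i α
    obtain ⟨F, hF⟩ := ihx i α
    choose F' hF' using ihy
    refine ⟨F.biUnion fun b => F' b.1 b.2, fun f g h => ?_⟩
    change x (y f) i α = x (y g) i α
    apply hF
    intro b hb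
    apply hF'
    intro c hc
    exact h c (Finset.mem_biUnion.2 ⟨b, hb, hc⟩)

theorem h2 : ∀ e : EE,
    {p : ℕ | ∃ hp : p.Prime, ∃ f ∈ Loc R p hp, e = p • f}.Infinite → e = 0 := by
  classical
  intro e hinf
  have key : ∀ g : V, Intl g → ∀ i α, e.1 g i α = 0 := by
    intro g hg i α
    apply rat_zero
    refine hinf.mono ?_
    rintro p ⟨hp, f, hf, hef⟩
    obtain ⟨b, hb, hbf⟩ := (mem_Loc R p hp f).1 hf
    obtain ⟨m, hm⟩ := int_of_mem _ hbf g hg i α
    refine ⟨hp, b, m, hb, ?_⟩
    have h3 : (b • f).1 g i α = b * f.1 g i α := by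
      have : (b • f).1 g i α = (b • f.1) g i α := rfl
      rw [this, LinearMap.smul_apply, Pi.smul_apply, Pi.smul_apply, zsmul_eq_mul]
    have h4 : e.1 g i α = p * f.1 g i α := by
      rw [hef]
      have : (p • f).1 g i α = (p • f.1) g i α := rfl
      rw [this, LinearMap.smul_apply, Pi.smul_apply, Pi.smul_apply, nsmul_eq_mul]
    rw [h4, ← hm, h3]
    ring
  apply Subtype.ext
  refine LinearMap.ext fun f => ?_
  funext i α
  obtain ⟨F, hF⟩ := local_of e i α
  let f' : V := fun j β => if (j, β) ∈ F then f j β else 0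
  have e1 : e.1 f i α = e.1 f' i α := hF f f' fun b hb => by simp [f', hb]
  let N : ℕ := ∏ b ∈ F, (f b.1 b.2).den
  have hN : (N : ℚ) ≠ 0 := by
    have : N ≠ 0 := Finset.prod_ne_zero_iff.2 fun b _ => Rat.den_nz _
    exact_mod_cast this
  have e2 : Intl ((N : ℚ) • f') := by
    intro j β
    by_cases hb : (j, β) ∈ F
    · obtain ⟨c, hc⟩ := Finset.dvd_prod_of_mem (fun b : ℕ × Finset ℕ => (f b.1 b.2).den) hb
      refine ⟨c * (f j β).num, ?_⟩
      have h5 : ((N : ℚ) • f') j β = (N : ℚ) * f j β := by
        rw [Pi.smul_apply, Pi.smul_apply, smul_eq_mul]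
        simp [f', hb]
      have h6 : (N : ℚ) = ((f j β).den : ℚ) * c := by exact_mod_cast hc
      rw [h5, h6]
      push_cast
      rw [mul_assoc, mul_comm (c : ℚ), ← mul_assoc, Rat.den_mul_eq_num, mul_comm]
    · refine ⟨0, ?_⟩
      simp [f', hb]
  have e3 := key _ e2 i α
  rw [map_smul, Pi.smul_apply, Pi.smul_apply, smul_eq_mul] at e3
  have e4 := (mul_eq_zero.1 e3).resolve_left hN
  rw [e1, e4]
  rfl

theorem hGs : ∀ g ∈ G, g * g = 0 ∨ g * g = g := by
  rintro g (⟨k, rfl⟩ | ⟨k, rfl⟩)
  · left
    exact Subtype.ext (TT k)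
  · left
    exact Subtype.ext (Y_Y (by omega))

theorem hGc : G.Countable := by
  unfold G
  exact (Set.countable_range _).union (Set.countable_range _)

theorem neg_comm' (x y : EE) (h : x * y = y * x) : -x * y = y * -x := by
  apply Subtype.ext
  have h' := congrArg Subtype.val h
  change x.1 * y.1 = y.1 * x.1 at h'
  refine LinearMap.ext fun f => ?_
  have h2 : x.1 (y.1 f) = y.1 (x.1 f) := LinearMap.congr_fun h' f
  change -(x.1 (y.1 f)) = y.1 (-(x.1 f))
  rw [map_neg, h2]

/-- elements of the order commute with the commuting operators -/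
theorem comm_T (r : EE) (hr : r ∈ R) (k : ℕ) : r * tt k = tt k * r := by
  unfold R at hr
  induction hr using Subring.closure_induction with
  | mem x hx =>
    rcases hx with ⟨l, rfl⟩ | ⟨l, rfl⟩
    · exact Subtype.ext (T_comm l k)
    · exact Subtype.ext (T_Y k l).symm
  | zero => simp
  | one => simp
  | add x y _ _ hx hy => rw [add_mul, mul_add, hx, hy]
  | neg x _ hx => exact neg_comm' _ _ hx
  | mul x y _ _ hx hy => rw [mul_assoc, hy, ← mul_assoc, hx, mul_assoc]

/-- elements of the order commute with almost all `Y k` -/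
theorem comm_Y (r : EE) (hr : r ∈ R) : ∃ N : Finset ℕ, ∀ k, k ∉ N → r * yy k = yy k * r := by
  classical
  unfold R at hr
  induction hr using Subring.closure_induction with
  | mem x hx =>
    rcases hx with ⟨l, rfl⟩ | ⟨l, rfl⟩
    · exact ⟨∅, fun k _ => Subtype.ext (T_Y l k)⟩
    · refine ⟨{l - 1, l + 1}, fun k hk => ?_⟩
      rw [Finset.mem_insert, Finset.mem_singleton, not_or] at hk
      apply Subtype.ext
      change Y l * Y k = Y k * Y l
      rw [Y_Y hk.2, Y_Y (by omega)]
  | zero => exact ⟨∅, fun k _ => by simp⟩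
  | one => exact ⟨∅, fun k _ => by simp⟩
  | add x y _ _ hx hy =>
    obtain ⟨N, hN⟩ := hx
    obtain ⟨M, hM⟩ := hy
    refine ⟨N ∪ M, fun k hk => ?_⟩
    rw [Finset.mem_union, not_or] at hk
    rw [add_mul, mul_add, hN k hk.1, hM k hk.2]
  | neg x _ hx =>
    obtain ⟨N, hN⟩ := hx
    exact ⟨N, fun k hk => neg_comm' _ _ (hN k hk)⟩
  | mul x y _ _ hx hy =>
    obtain ⟨N, hN⟩ := hx
    obtain ⟨M, hM⟩ := hy
    refine ⟨N ∪ M, fun k hk => ?_⟩
    rw [Finset.mem_union, not_or] at hk
    rw [mul_assoc, hM k hk.2, ← mul_assoc, hN k hk.1, mul_assoc]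

/-- an element of the order commuting with the generators is central -/
theorem central_of (r : R) (hr : ∀ k, r.1 * yy k = yy k * r.1) : r ∈ Subring.center R := by
  rw [Subring.mem_center_iff]
  rintro ⟨g, hg⟩
  apply Subtype.ext
  change g * r.1 = r.1 * g
  unfold R at hg
  induction hg using Subring.closure_induction with
  | mem x hx =>
    rcases hx with ⟨l, rfl⟩ | ⟨l, rfl⟩
    · exact (comm_T r.1 r.2 l).symm
    · exact (hr l).symm
  | zero => simp
  | one => simp
  | add x y _ _ hx hy => rw [add_mul, mul_add, hx, hy]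
  | neg x _ hx => exact neg_comm' _ _ hx
  | mul x y _ _ hx hy => rw [mul_assoc, hy, ← mul_assoc, hx, mul_assoc]

/-- products of commuting operators -/
theorem exists_TS (r : EE) (hr0 : r ≠ 0) (N : Finset ℕ) :
    ∃ z : EE, z ∈ R ∧ z * r ≠ 0 ∧ (∀ k, z * yy k = yy k * z) ∧
      ∀ k ∈ N, tt k * (z * r) = 0 ∨ z * yy k = 0 := by
  classical
  induction N using Finset.induction_on with
  | empty => exact ⟨1, one_mem _, by rwa [one_mul], fun k => by simp, fun k hk => by simp at hk⟩
  | insert a N ha ih =>
    obtain ⟨z, hz, hz0, hzc, hzN⟩ := ih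
    by_cases h : tt a * (z * r) = 0
    · refine ⟨z, hz, hz0, hzc, ?_⟩
      intro k hk
      rw [Finset.mem_insert] at hk
      rcases hk with rfl | hk
      · exact Or.inl h
      · exact hzN k hk
    · refine ⟨tt a * z, mul_mem (tt_mem a) hz, by rwa [mul_assoc], ?_, ?_⟩
      · intro k
        have h3 : tt a * yy k = yy k * tt a := Subtype.ext (T_Y a k)
        rw [mul_assoc, hzc, ← mul_assoc, h3, mul_assoc]
      · intro k hk
        rw [Finset.mem_insert] at hk
        rcases hk with rfl | hk
        · right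
          have h3 : yy k * tt k = 0 := Subtype.ext (Y_T_self k)
          have h4 : tt k * yy k = yy k * tt k := Subtype.ext (T_Y k k)
          rw [mul_assoc, hzc, ← mul_assoc, h4, h3, zero_mul]
        · rcases hzN k hk with h5 | h5
          · left
            have h6 : tt k * tt a = tt a * tt k := Subtype.ext (T_comm k a)
            rw [mul_assoc, ← mul_assoc (tt k), h6, mul_assoc, h5, mul_zero]
          · right
            rw [mul_assoc, h5, mul_zero]

theorem cE : CentrallyEssential R := by
  rintro ⟨r, hr⟩ hr0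
  have hr0' : r ≠ 0 := fun h => hr0 (Subtype.ext h)
  obtain ⟨N, hN⟩ := comm_Y r hr
  obtain ⟨z, hz, hz0, hzc, hzN⟩ := exists_TS r hr0' N
  have hzr : z * r = r * z := by
    have h3 : (⟨z, hz⟩ : R) ∈ Subring.center R := central_of ⟨z, hz⟩ hzc
    rw [Subring.mem_center_iff] at h3
    exact (congrArg Subtype.val (h3 ⟨r, hr⟩)).symm
  refine ⟨⟨z, hz⟩, central_of ⟨z, hz⟩ hzc, ⟨z * r, mul_mem hz hr⟩, central_of _ ?_, ?_, ?_, ?_⟩
  · intro k
    change z * r * yy k = yy k * (z * r)
    by_cases hk : k ∈ N
    · rcases hzN k hk with h3 | h3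
      · have h4 : T k * (z * r).1 = 0 := congrArg Subtype.val h3
        have h5 : (z * r).1 * T k = 0 := by
          have := congrArg Subtype.val (comm_T (z * r) (mul_mem hz hr) k)
          change (z * r).1 * T k = T k * (z * r).1 at this
          rw [this, h4]
        have h6 : z * r * yy k = 0 := by
          apply Subtype.ext
          change (z * r).1 * (T k * S k) = 0
          rw [← mul_assoc, h5, zero_mul]
        have h7 : yy k * (z * r) = 0 := by
          apply Subtype.ext
          change (T k * S k) * (z * r).1 = 0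
          rw [T_S, mul_assoc, h4, mul_zero]
        rw [h6, h7]
      · have h4 : yy k * z = 0 := by rw [← hzc, h3]
        rw [← mul_assoc, h4, zero_mul, hzr, mul_assoc, h3, mul_zero]
    · rw [mul_assoc, hN k hk, ← mul_assoc, hzc, mul_assoc]
  · intro h
    apply hz0
    have h3 : z = 0 := congrArg Subtype.val h
    rw [h3, zero_mul]
  · intro h
    exact hz0 (congrArg Subtype.val h)
  · apply Subtype.ext
    exact hzr.symm

/-- the test vector -/
def gd (d : ℕ) : V := fun i _ => if i = d then 1 else 0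

/-- the substituted element -/
def rho {n : ℕ} (u : List (Fin n)) (j : Fin n) : EE :=
  ∑ k ∈ Finset.range u.length, if u[k]? = some j then yy k else 0

theorem rho_mem {n : ℕ} (u : List (Fin n)) (j : Fin n) : rho u j ∈ R := by
  unfold rho
  refine Subring.sum_mem _ fun k _ => ?_
  split_ifs
  · exact yy_mem k
  · exact R.zero_mem

theorem rho_apply {n : ℕ} (u : List (Fin n)) (j : Fin n) (f : V) (i : ℕ) :
    (rho u j).1 f i (Finset.Ico i u.length) =
      if u[i]? = some j then f (i + 1) (Finset.Ico (i + 1) u.length) else 0 := by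
  have h1 : (rho u j).1 = ∑ k ∈ Finset.range u.length, if u[k]? = some j then Y k else 0 := by
    unfold rho
    have : ∀ s : Finset ℕ, (∑ k ∈ s, if u[k]? = some j then yy k else 0 : EE).1 =
        ∑ k ∈ s, if u[k]? = some j then Y k else 0 := by
      intro s
      induction s using Finset.induction_on with
      | empty => simp
      | insert a s ha ih =>
        rw [Finset.sum_insert ha, Finset.sum_insert ha, ← ih]
        split_ifs
        · rfl
        · rfl
    exact this _
  rw [h1, LinearMap.sum_apply, Finset.sum_apply, Finset.sum_apply]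
  have h2 : ∀ k, (if u[k]? = some j then Y k else 0 : V →ₗ[ℚ] V) f i (Finset.Ico i u.length) =
      if u[k]? = some j ∧ k ∈ Finset.Ico i u.length ∧ i = k then
        f (k + 1) ((Finset.Ico i u.length).erase k) else 0 := by
    intro k
    by_cases h3 : u[k]? = some j
    · rw [if_pos h3, Y_apply]
      by_cases h4 : k ∈ Finset.Ico i u.length <;> by_cases h5 : i = k <;> simp [h3, h4, h5]
    · rw [if_neg h3, if_neg (fun h => h3 h.1)]
      rfl
  rw [Finset.sum_congr rfl fun k _ => h2 k]
  by_cases h3 : u[i]? = some j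
  · rw [if_pos h3]
    have hi : i < u.length := by
      by_contra hcon
      rw [List.getElem?_eq_none (by omega)] at h3
      simp at h3
    rw [Finset.sum_eq_single i]
    · rw [if_pos ⟨h3, Finset.mem_Ico.2 ⟨le_rfl, hi⟩, rfl⟩]
      congr 1
      ext a
      simp only [Finset.mem_erase, Finset.mem_Ico]
      omega
    · intro k _ hk
      rw [if_neg]
      exact fun h => hk h.2.2.symm
    · intro h
      exact absurd (Finset.mem_range.2 hi) h
  · rw [if_neg h3]
    apply Finset.sum_eq_zero
    intro k _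
    rw [if_neg]
    rintro ⟨h4, -, h5⟩
    subst h5
    exact h3 h4

theorem word_apply {n : ℕ} (u : List (Fin n)) (w : List (Fin n)) :
    ∀ i, i ≤ u.length → ((w.map (rho u)).prod).1 (gd u.length) i (Finset.Ico i u.length) =
      if w = u.drop i then 1 else 0 := by
  induction w with
  | nil =>
    intro i hi
    change gd u.length i (Finset.Ico i u.length) = _
    unfold gd
    by_cases h : i = u.length
    · rw [if_pos h, if_pos]
      rw [h, List.drop_length]
    · rw [if_neg h, if_neg]
      intro h2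
      have h3 := congrArg List.length h2
      rw [List.length_drop] at h3
      simp at h3
      omega
  | cons j w ih =>
    intro i hi
    rw [List.map_cons, List.prod_cons]
    change (rho u j).1 (((w.map (rho u)).prod).1 (gd u.length)) i _ = _
    rw [rho_apply]
    by_cases h : u[i]? = some j
    · have hi' : i < u.length := by
        by_contra hcon
        rw [List.getElem?_eq_none (by omega)] at h
        simp at h
      rw [if_pos h, ih (i + 1) (by omega)]
      have h3 : u.drop i = j :: u.drop (i + 1) := by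
        rw [List.drop_eq_getElem_cons hi']
        congr 1
        rw [List.getElem?_eq_getElem hi'] at h
        exact Option.some.inj h
      rw [h3]
      simp
    · rw [if_neg h, if_neg]
      intro h2
      apply h
      by_cases hi' : i < u.length
      · rw [List.drop_eq_getElem_cons hi'] at h2
        rw [List.getElem?_eq_getElem hi']
        injection h2 with h3 h4
        rw [h3]
      · rw [List.drop_eq_nil_of_le (by omega)] at h2
        simp at h2

/-- evaluation of a polynomial along the substitution -/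
theorem eval_apply {n : ℕ} (u : List (Fin n)) (ψ : FreeAlgebra ℤ (Fin n) →+* (V →ₗ[ℚ] V))
    (hψ : ∀ j, ψ (FreeAlgebra.ι ℤ j) = (rho u j).1)
    (F : MonoidAlgebra ℤ (FreeMonoid (Fin n))) :
    ψ (FreeAlgebra.equivMonoidAlgebraFreeMonoid.symm F) (gd u.length) 0
      (Finset.Ico 0 u.length) = (F.coeff (FreeMonoid.ofList u) : ℚ) := by
  classical
  induction F using MonoidAlgebra.induction_linear with
  | zero => rw [map_zero, map_zero]; simp
  | add a b ha hb =>
    rw [map_add, map_add, LinearMap.add_apply, Pi.add_apply, Pi.add_apply, ha, hb]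
    simp
  | single w c =>
    have h1 : FreeAlgebra.equivMonoidAlgebraFreeMonoid.symm (MonoidAlgebra.single w c) =
        c • (w.toList.map (FreeAlgebra.ι ℤ)).prod := by
      change MonoidAlgebra.lift ℤ (FreeAlgebra ℤ (Fin n)) (FreeMonoid (Fin n))
        (FreeMonoid.lift (FreeAlgebra.ι ℤ)) (MonoidAlgebra.single w c) = _
      rw [MonoidAlgebra.lift_single, FreeMonoid.lift_apply]
      exact zsmul_eq_smul _ _
    rw [h1, map_zsmul, map_list_prod, List.map_map]
    have h2 : (w.toList.map (ψ ∘ FreeAlgebra.ι ℤ)).prod = ((w.toList.map (rho u)).prod).1 := by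
      generalize w.toList = l
      induction l with
      | nil => rfl
      | cons j l ih =>
        rw [List.map_cons, List.prod_cons, List.map_cons, List.prod_cons, ih]
        change ψ (FreeAlgebra.ι ℤ j) * _ = (rho u j).1 * _
        rw [hψ]
    rw [h2, LinearMap.smul_apply, Pi.smul_apply, Pi.smul_apply, word_apply u _ 0 (Nat.zero_le _)]
    rw [List.drop_zero]
    by_cases h : w.toList = u
    · subst h
      simp
    · rw [if_neg h]
      have h3 : w ≠ FreeMonoid.ofList u := by
        intro h4
        apply h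
        rw [h4]
        rfl
      simp [h3]

/-- no nonzero polynomial in noncommuting variables vanishes on the ring -/
theorem exists_ne {n : ℕ} (f : FreeAlgebra ℤ (Fin n)) (hf : f ≠ 0) :
    ∃ u : List (Fin n), ∀ ψ : FreeAlgebra ℤ (Fin n) →+* (V →ₗ[ℚ] V),
      (∀ j, ψ (FreeAlgebra.ι ℤ j) = (rho u j).1) → ψ f ≠ 0 := by
  classical
  set F : MonoidAlgebra ℤ (FreeMonoid (Fin n)) :=
    FreeAlgebra.equivMonoidAlgebraFreeMonoid f with hF
  have hF0 : F ≠ 0 := by
    rw [hF]
    intro h
    exact hf ((map_eq_zero_iff _ (FreeAlgebra.equivMonoidAlgebraFreeMonoid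
      (R := ℤ) (X := Fin n)).injective).1 h)
  have hex : ∃ u : FreeMonoid (Fin n), F.coeff u ≠ 0 := by
    by_contra hcon
    push Not at hcon
    apply hF0
    rw [← MonoidAlgebra.coeff_eq_zero]
    exact Finsupp.ext hcon
  obtain ⟨u, hu⟩ := hex
  refine ⟨u.toList, fun ψ hψ h => ?_⟩
  have h1 := eval_apply u.toList ψ hψ F
  rw [hF, AlgEquiv.symm_apply_apply, h] at h1
  apply hu
  have h2 : ((F.coeff u : ℤ) : ℚ) = 0 := h1.symm
  exact_mod_cast h2

end Pool.Agent.R700.NonPI
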