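import Mathlib

/-!
# Lead elimination for a space with a right action

`V` is a `K`-space with a right action `ρ` of a group `G`, `U` a subspace, `C` a set of letters.
`Φ : V → (X →₀ K)` is an equivariant coordinate map into a space with a well ordered basis `X`.
-/

namespace Pool.Agent.R700.Prim

open Finsupp

section Order

theorem exists_order_aux {X : Type*} [LinearOrder X] [WellFoundedLT X] (n : X → ℕ) :
    ∃ r : LinearOrder X, (@WellFoundedLT X r.toLT) ∧ ∀ x y, n x < n y → r.lt x y := by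
  let e : X → ℕ ×ₗ X := fun x => toLex (n x, x)
  have he : Function.Injective e := by
    intro x y h
    have := congrArg (fun z => (ofLex z).2) h
    simpa [e] using this
  refine ⟨LinearOrder.lift' e he, ?_, ?_⟩
  · refine ⟨?_⟩
    have : WellFounded (fun a b : ℕ ×ₗ X => a < b) := wellFounded_lt
    exact InvImage.wf e this
  · intro x y h
    change e x < e y
    exact Prod.Lex.toLex_lt_toLex.2 (Or.inl h)

theorem exists_order (X : Type*) (n : X → ℕ) :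
    ∃ r : LinearOrder X, (@WellFoundedLT X r.toLT) ∧ ∀ x y, n x < n y → r.lt x y := by
  classical
  let _ : LinearOrder X := IsWellOrder.linearOrder (WellOrderingRel (α := X))
  have _ : WellFoundedLT X := ⟨(inferInstance : IsWellFounded X WellOrderingRel).wf⟩
  exact exists_order_aux n

end Order

section Core

variable {K V G X : Type*} [Field K] [AddCommGroup V] [Module K V] [Group G]

/-- The edge relation `(cg) ⊗ u - g ⊗ (u c)`. -/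
noncomputable def edge (ρ : G → V →ₗ[K] V) (c g : G) (u : V) : G →₀ V :=
  single (c * g) u - single g (ρ c u)

/-- The span of the edges with both ends in `U`. -/
noncomputable def E (ρ : G → V →ₗ[K] V) (C : Set G) (U : Submodule K V) : Submodule K (G →₀ V) :=
  Submodule.span K {w | ∃ c ∈ C, ∃ g, ∃ u ∈ U, ρ c u ∈ U ∧ w = edge ρ c g u}

theorem E_mono (ρ : G → V →ₗ[K] V) (C : Set G) {U U' : Submodule K V} (h : U ≤ U') :
    E ρ C U ≤ E ρ C U' := by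
  refine Submodule.span_mono ?_
  rintro w ⟨c, hc, g, u, hu, hcu, rfl⟩
  exact ⟨c, hc, g, u, h hu, h hcu, rfl⟩

theorem edge_mem (ρ : G → V →ₗ[K] V) (C : Set G) {U : Submodule K V} {c g : G} {u : V}
    (hc : c ∈ C) (hu : u ∈ U) (hcu : ρ c u ∈ U) : edge ρ c g u ∈ E ρ C U :=
  Submodule.subset_span ⟨c, hc, g, u, hu, hcu, rfl⟩

theorem edge_add (ρ : G → V →ₗ[K] V) (c g : G) (u v : V) :
    edge ρ c g (u + v) = edge ρ c g u + edge ρ c g v := by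
  simp only [edge, map_add, single_add]
  abel

theorem edge_smul (ρ : G → V →ₗ[K] V) (c g : G) (t : K) (u : V) :
    edge ρ c g (t • u) = t • edge ρ c g u := by
  simp only [edge, map_smul, smul_sub, smul_single]

/-- Elements whose coordinates vanish outside `D`. -/
def lev (Φ : V →ₗ[K] (X →₀ K)) (D : Set X) : Submodule K V where
  carrier := {u | ∀ x, x ∉ D → Φ u x = 0}
  zero_mem' := by intro x _; simp
  add_mem' := by
    intro a b ha hb x hx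
    simp [ha x hx, hb x hx]
  smul_mem' := by
    intro t a ha x hx
    simp [ha x hx]

theorem mem_lev {Φ : V →ₗ[K] (X →₀ K)} {D : Set X} {u : V} :
    u ∈ lev Φ D ↔ ∀ x, x ∉ D → Φ u x = 0 := Iff.rfl

theorem lev_mono (Φ : V →ₗ[K] (X →₀ K)) {D D' : Set X} (h : D ⊆ D') : lev Φ D ≤ lev Φ D' := by
  intro u hu x hx
  exact hu x (fun hx' => hx (h hx'))

theorem E_directed (ρ : G → V →ₗ[K] V) (C : Set G) (U : Submodule K V) (Φ : V →ₗ[K] (X →₀ K))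
    (P : Set X → Prop) (D₀ : Set X)
    (hdir : ∀ D D', P D → P D' → ∃ D'', P D'' ∧ D ⊆ D'' ∧ D' ⊆ D'')
    (hfin : ∀ F : Set X, F.Finite → F ⊆ D₀ → ∃ D, P D ∧ F ⊆ D)
    {w : G →₀ V} (hw : w ∈ E ρ C (U ⊓ lev Φ D₀)) : ∃ D, P D ∧ w ∈ E ρ C (U ⊓ lev Φ D) := by
  classical
  refine Submodule.span_induction (p := fun w _ => ∃ D, P D ∧ w ∈ E ρ C (U ⊓ lev Φ D))
    ?_ ?_ ?_ ?_ hw
  · rintro w ⟨c, hc, g, u, hu, hcu, rfl⟩
    obtain ⟨D, hD, hsub⟩ := hfin (((Φ u).support ∪ (Φ (ρ c u)).support : Finset X) : Set X)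
      (Finset.finite_toSet _) (by
        intro x hx
        simp only [Finset.coe_union, Set.mem_union, Finset.mem_coe, mem_support_iff] at hx
        by_contra hxD
        rcases hx with hx | hx
        · exact hx (hu.2 x hxD)
        · exact hx (hcu.2 x hxD))
    refine ⟨D, hD, edge_mem ρ C hc ⟨hu.1, ?_⟩ ⟨hcu.1, ?_⟩⟩
    · intro x hx
      by_contra h
      exact hx (hsub (by simp [h]))
    · intro x hx
      by_contra h
      exact hx (hsub (by simp [h]))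
  · obtain ⟨D, hD, _⟩ := hfin ∅ Set.finite_empty (Set.empty_subset _)
    exact ⟨D, hD, Submodule.zero_mem _⟩
  · rintro a b _ _ ⟨D, hD, ha⟩ ⟨D', hD', hb⟩
    obtain ⟨D'', h, h1, h2⟩ := hdir D D' hD hD'
    exact ⟨D'', h, Submodule.add_mem _
      (E_mono ρ C (inf_le_inf_left U (lev_mono Φ h1)) ha)
      (E_mono ρ C (inf_le_inf_left U (lev_mono Φ h2)) hb)⟩
  · rintro t a _ ⟨D, hD, ha⟩
    exact ⟨D, hD, Submodule.smul_mem _ _ ha⟩

/-- The standing assumptions. -/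
structure Data (K V G X : Type*) [Field K] [AddCommGroup V] [Module K V] [Group G]
    [LinearOrder X] where
  ρ : G → V →ₗ[K] V
  ρ_mul : ∀ g h v, ρ (g * h) v = ρ h (ρ g v)
  ρ_one : ∀ v, ρ 1 v = v
  C : Set G
  C_inv : ∀ c ∈ C, c⁻¹ ∈ C
  α : X → G → X
  α_mul : ∀ x g h, α x (g * h) = α (α x g) h
  α_one : ∀ x, α x 1 = x
  Φ : V →ₗ[K] (X →₀ K)
  equiv : ∀ g v x, Φ (ρ g v) (α x g) = Φ v x
  ne : ∀ x, ∀ c ∈ C, α x c ≠ x
  uniq : ∀ x, ∀ c ∈ C, ∀ d ∈ C, α x c < x → α x d < x → c = d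
  ne_inv : ∀ c ∈ C, c⁻¹ ≠ c

variable [LinearOrder X]

namespace Data

variable (𝒟 : Data K V G X)

theorem out {x : X} {c : G} (hc : c ∈ 𝒟.C) (h : 𝒟.α x c < x) : x < 𝒟.α x c⁻¹ := by
  rcases lt_trichotomy x (𝒟.α x c⁻¹) with h' | h' | h'
  · exact h'
  · exact absurd h'.symm (𝒟.ne x _ (𝒟.C_inv c hc))
  · exact absurd (𝒟.uniq x _ (𝒟.C_inv c hc) c hc h' h) (𝒟.ne_inv c hc)

theorem equiv' (g : G) (v : V) (x : X) : 𝒟.Φ (𝒟.ρ g v) x = 𝒟.Φ v (𝒟.α x g⁻¹) := by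
  have := 𝒟.equiv g v (𝒟.α x g⁻¹)
  rwa [← 𝒟.α_mul, inv_mul_cancel, 𝒟.α_one] at this

theorem ρ_inv (g : G) (v : V) : 𝒟.ρ g⁻¹ (𝒟.ρ g v) = v := by
  rw [← 𝒟.ρ_mul, mul_inv_cancel, 𝒟.ρ_one]

theorem dich {ℓ : X} {c : G} (hc : c ∈ 𝒟.C) {u : V} (hu : u ∈ lev 𝒟.Φ (Set.Iic ℓ))
    (hcu : 𝒟.ρ c u ∈ lev 𝒟.Φ (Set.Iic ℓ)) (h : 𝒟.Φ u ℓ ≠ 0) :
    𝒟.α ℓ c < ℓ ∧ 𝒟.Φ (𝒟.ρ c u) ℓ = 0 := by
  have h1 : 𝒟.α ℓ c < ℓ := by
    refine lt_of_le_of_ne ?_ (𝒟.ne ℓ c hc)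
    by_contra h'
    apply h
    rw [← 𝒟.equiv c u ℓ]
    exact hcu _ (by simpa using h')
  refine ⟨h1, ?_⟩
  rw [𝒟.equiv']
  have := 𝒟.out hc h1
  exact hu _ (by simpa using this)

theorem dich' {ℓ : X} {c : G} (hc : c ∈ 𝒟.C) {u : V} (hu : u ∈ lev 𝒟.Φ (Set.Iic ℓ))
    (hcu : 𝒟.ρ c u ∈ lev 𝒟.Φ (Set.Iic ℓ)) (h : 𝒟.Φ (𝒟.ρ c u) ℓ ≠ 0) :
    𝒟.α ℓ c⁻¹ < ℓ ∧ 𝒟.Φ u ℓ = 0 := by
  have := 𝒟.dich (𝒟.C_inv c hc) hcu (by rw [𝒟.ρ_inv]; exact hu) h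
  rwa [𝒟.ρ_inv] at this

/-- `p` is redundant. -/
def Red (U : Submodule K V) (p : X) : Prop :=
  ∃ u ∈ U, ∃ c ∈ 𝒟.C, 𝒟.ρ c u ∈ U ∧ 𝒟.Φ u p ≠ 0 ∧ u ∈ lev 𝒟.Φ (Set.Iic p) ∧
    𝒟.ρ c u ∈ lev 𝒟.Φ (Set.Iio p)

theorem lev_Iio {Φ : V →ₗ[K] (X →₀ K)} {ℓ : X} {u : V} (hu : u ∈ lev Φ (Set.Iic ℓ))
    (h : Φ u ℓ = 0) : u ∈ lev Φ (Set.Iio ℓ) := by
  intro x hx
  rcases eq_or_lt_of_le (not_lt.1 (by simpa using hx)) with h' | h'
  · rw [← h']; exact h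
  · exact hu x (by simpa using h')

/-- Coefficient of `x` in every component. -/
noncomputable def coef (x : X) : (G →₀ V) →ₗ[K] (G →₀ K) :=
  Finsupp.mapRange.linearMap ((Finsupp.lapply x).comp 𝒟.Φ)

theorem coef_apply (x : X) (w : G →₀ V) (g : G) : 𝒟.coef x w g = 𝒟.Φ (w g) x := by
  simp [coef]

theorem coef_single (x : X) (g : G) (u : V) :
    𝒟.coef x (single g u) = single g (𝒟.Φ u x) := by
  simp [coef]

theorem coef_edge (x : X) (c g : G) (u : V) : 𝒟.coef x (edge 𝒟.ρ c g u) =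
    single (c * g) (𝒟.Φ u x) - single g (𝒟.Φ (𝒟.ρ c u) x) := by
  simp only [edge, map_sub, coef_single]

theorem coef_E {U : Submodule K V} {x : X} (h : ∀ u ∈ U, ∀ c ∈ 𝒟.C, 𝒟.ρ c u ∈ U →
    𝒟.Φ u x = 0 ∧ 𝒟.Φ (𝒟.ρ c u) x = 0) {w : G →₀ V} (hw : w ∈ E 𝒟.ρ 𝒟.C U) :
    𝒟.coef x w = 0 := by
  have : E 𝒟.ρ 𝒟.C U ≤ LinearMap.ker (𝒟.coef x) := by
    refine Submodule.span_le.2 ?_
    rintro w ⟨c, hc, g, u, hu, hcu, rfl⟩
    obtain ⟨h1, h2⟩ := h u hu c hc hcu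
    simp [LinearMap.mem_ker, coef_edge, h1, h2]
  exact this hw

theorem edge_inv (c g : G) (u : V) :
    edge 𝒟.ρ c⁻¹ (c * g) (𝒟.ρ c u) = - edge 𝒟.ρ c g u := by
  simp only [edge, 𝒟.ρ_inv, inv_mul_cancel_left, neg_sub]

/-- Elimination of the `ℓ`-coefficient. -/
theorem step {U : Submodule K V} {ℓ : X} {w : G →₀ V}
    (hw : w ∈ E 𝒟.ρ 𝒟.C (U ⊓ lev 𝒟.Φ (Set.Iic ℓ))) (h0 : 𝒟.coef ℓ w = 0) :
    w ∈ E 𝒟.ρ 𝒟.C (U ⊓ lev 𝒟.Φ (Set.Iio ℓ)) := by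
  classical
  by_cases hred : 𝒟.Red U ℓ
  · obtain ⟨u₀, hu₀, c, hc, hcu₀, hne, hl, hlc⟩ := hred
    have hin : 𝒟.α ℓ c < ℓ :=
      (𝒟.dich hc hl (lev_mono _ (fun x hx => le_of_lt hx) hlc) hne).1
    have hcu₀ℓ : 𝒟.Φ (𝒟.ρ c u₀) ℓ = 0 := hlc ℓ (by simp)
    -- the map `θ`
    let θ : (G →₀ K) →ₗ[K] (G →₀ V) :=
      Finsupp.linearCombination K (fun g => edge 𝒟.ρ c g u₀)
    have key : ∀ (u : V) (g : G), u ∈ U → 𝒟.ρ c u ∈ U → u ∈ lev 𝒟.Φ (Set.Iic ℓ) →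
        𝒟.ρ c u ∈ lev 𝒟.Φ (Set.Iic ℓ) → 𝒟.Φ u ℓ ≠ 0 →
        edge 𝒟.ρ c g u ∈ E 𝒟.ρ 𝒟.C (U ⊓ lev 𝒟.Φ (Set.Iio ℓ)) ⊔ LinearMap.range θ := by
      intro u g hu hcu hlu hlcu hn
      obtain ⟨_, hz⟩ := 𝒟.dich hc hlu hlcu hn
      set t : K := 𝒟.Φ u ℓ / 𝒟.Φ u₀ ℓ with ht
      have e1 : edge 𝒟.ρ c g u = edge 𝒟.ρ c g (u - t • u₀) + t • edge 𝒟.ρ c g u₀ := by
        rw [← edge_smul, ← edge_add]; congr 1; abel
      rw [e1]
      refine Submodule.add_mem_sup ?_ ?_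
      · refine edge_mem _ _ hc ⟨U.sub_mem hu (U.smul_mem _ hu₀), ?_⟩ ⟨?_, ?_⟩
        · refine lev_Iio (Submodule.sub_mem _ hlu (Submodule.smul_mem _ _ hl)) ?_
          simp only [map_sub, map_smul, Finsupp.sub_apply, Finsupp.smul_apply, smul_eq_mul, ht]
          field_simp
          ring
        · rw [map_sub, map_smul]
          exact U.sub_mem hcu (U.smul_mem _ hcu₀)
        · rw [map_sub, map_smul]
          exact Submodule.sub_mem _ (lev_Iio hlcu hz) (Submodule.smul_mem _ _ hlc)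
      · refine Submodule.smul_mem _ _ ⟨single g 1, ?_⟩
        simp [θ]
    have hle : E 𝒟.ρ 𝒟.C (U ⊓ lev 𝒟.Φ (Set.Iic ℓ)) ≤
        E 𝒟.ρ 𝒟.C (U ⊓ lev 𝒟.Φ (Set.Iio ℓ)) ⊔ LinearMap.range θ := by
      refine Submodule.span_le.2 ?_
      rintro w ⟨d, hd, g, u, ⟨hu, hlu⟩, ⟨hdu, hldu⟩, rfl⟩
      by_cases h1 : 𝒟.Φ u ℓ = 0
      · by_cases h2 : 𝒟.Φ (𝒟.ρ d u) ℓ = 0
        · exact Submodule.mem_sup_left (edge_mem _ _ hd ⟨hu, lev_Iio hlu h1⟩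
            ⟨hdu, lev_Iio hldu h2⟩)
        · obtain ⟨h3, _⟩ := 𝒟.dich' hd hlu hldu h2
          have hdc : d⁻¹ = c := 𝒟.uniq ℓ _ (𝒟.C_inv d hd) _ hc h3 hin
          have := key (𝒟.ρ d u) (d * g) hdu (by rw [← hdc, 𝒟.ρ_inv]; exact hu) hldu
            (by rw [← hdc, 𝒟.ρ_inv]; exact hlu) h2
          rw [← hdc, 𝒟.edge_inv] at this
          exact (Submodule.neg_mem_iff _).1 this
      · obtain ⟨h3, _⟩ := 𝒟.dich hd hlu hldu h1
        have hdc : d = c := 𝒟.uniq ℓ _ hd _ hc h3 hin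
        subst hdc
        exact key u g hu hdu hlu hldu h1
    obtain ⟨w', hw', z, ⟨lam, rfl⟩, hsum⟩ := Submodule.mem_sup.1 (hle hw)
    have hw'0 : 𝒟.coef ℓ w' = 0 :=
      𝒟.coef_E (U := U ⊓ lev 𝒟.Φ (Set.Iio ℓ)) (x := ℓ)
        (fun u hu d hd hdu => ⟨hu.2 ℓ (by simp), hdu.2 ℓ (by simp)⟩) hw'
    have hθ0 : 𝒟.coef ℓ (θ lam) = 0 := by
      rw [← hsum, map_add, hw'0, zero_add] at h0
      exact h0
    have hθ : ∀ μ : G →₀ K, 𝒟.coef ℓ (θ μ) =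
        (𝒟.Φ u₀ ℓ) • Finsupp.mapDomain (fun g => c * g) μ := by
      intro μ
      induction μ using Finsupp.induction_linear with
      | zero => simp
      | add a b ha hb => simp only [map_add, ha, hb, mapDomain_add, smul_add]
      | single g t =>
        simp only [θ, linearCombination_single, map_smul, 𝒟.coef_edge, hcu₀ℓ, single_zero,
          sub_zero, mapDomain_single, smul_single, smul_eq_mul]
        rw [mul_comm]
    rw [hθ] at hθ0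
    have hlam : lam = 0 := by
      have h1 : Finsupp.mapDomain (fun g => c * g) lam = 0 := by
        rcases smul_eq_zero.1 hθ0 with h | h
        · exact absurd h hne
        · exact h
      exact (mapDomain_injective (mul_right_injective c)) (by rw [h1, mapDomain_zero])
    rw [hlam, map_zero, add_zero] at hsum
    rw [← hsum]
    exact hw'
  · -- no redundant element at `ℓ`: every edge avoids `ℓ`
    have : E 𝒟.ρ 𝒟.C (U ⊓ lev 𝒟.Φ (Set.Iic ℓ)) ≤ E 𝒟.ρ 𝒟.C (U ⊓ lev 𝒟.Φ (Set.Iio ℓ)) := by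
      refine Submodule.span_le.2 ?_
      rintro w ⟨d, hd, g, u, ⟨hu, hlu⟩, ⟨hdu, hldu⟩, rfl⟩
      have h1 : 𝒟.Φ u ℓ = 0 := by
        by_contra h1
        obtain ⟨h3, h4⟩ := 𝒟.dich hd hlu hldu h1
        exact hred ⟨u, hu, d, hd, hdu, h1, hlu, lev_Iio hldu h4⟩
      have h2 : 𝒟.Φ (𝒟.ρ d u) ℓ = 0 := by
        by_contra h2
        exact hred ⟨𝒟.ρ d u, hdu, d⁻¹, 𝒟.C_inv d hd, by rw [𝒟.ρ_inv]; exact hu, h2, hldu,
          by rw [𝒟.ρ_inv]; exact lev_Iio hlu h1⟩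
      exact edge_mem _ _ hd ⟨hu, lev_Iio hlu h1⟩ ⟨hdu, lev_Iio hldu h2⟩
    exact this hw

variable [WellFoundedLT X]

theorem main_aux {U : Submodule K V} {p : X} (hp : ¬ 𝒟.Red U p) (ℓ : X) :
    ∀ w ∈ E 𝒟.ρ 𝒟.C (U ⊓ lev 𝒟.Φ (Set.Iic ℓ)), (∀ x, p < x → 𝒟.coef x w = 0) →
      𝒟.coef p w = 0 := by
  classical
  induction ℓ using WellFoundedLT.induction with
  | ind ℓ ih =>
  intro w hw h
  rcases lt_trichotomy ℓ p with hlt | heq | hgt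
  · refine 𝒟.coef_E ?_ hw
    intro u hu c hc hcu
    exact ⟨hu.2 p (by simpa using hlt), hcu.2 p (by simpa using hlt)⟩
  · subst heq
    refine 𝒟.coef_E ?_ hw
    rintro u ⟨hu, hlu⟩ d hd ⟨hdu, hldu⟩
    have h1 : 𝒟.Φ u ℓ = 0 := by
      by_contra h1
      obtain ⟨h3, h4⟩ := 𝒟.dich hd hlu hldu h1
      exact hp ⟨u, hu, d, hd, hdu, h1, hlu, lev_Iio hldu h4⟩
    refine ⟨h1, ?_⟩
    by_contra h2
    exact hp ⟨𝒟.ρ d u, hdu, d⁻¹, 𝒟.C_inv d hd, by rw [𝒟.ρ_inv]; exact hu, h2, hldu,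
      by rw [𝒟.ρ_inv]; exact lev_Iio hlu h1⟩
  · have hw' := 𝒟.step hw (h ℓ hgt)
    obtain ⟨D, hD, hwD⟩ := E_directed 𝒟.ρ 𝒟.C U 𝒟.Φ
      (fun D => D = ∅ ∨ ∃ ℓ' < ℓ, D = Set.Iic ℓ') (Set.Iio ℓ) (by
        rintro D D' hD hD'
        rcases hD with rfl | ⟨a, ha, rfl⟩
        · exact ⟨D', hD', Set.empty_subset _, subset_rfl⟩
        · rcases hD' with rfl | ⟨b, hb, rfl⟩
          · exact ⟨Set.Iic a, Or.inr ⟨a, ha, rfl⟩, subset_rfl, Set.empty_subset _⟩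
          · exact ⟨Set.Iic (max a b), Or.inr ⟨max a b, max_lt ha hb, rfl⟩,
              Set.Iic_subset_Iic.2 (le_max_left _ _), Set.Iic_subset_Iic.2 (le_max_right _ _)⟩)
      (by
        intro F hF hFsub
        rcases Set.eq_empty_or_nonempty F with rfl | hne
        · exact ⟨∅, Or.inl rfl, subset_rfl⟩
        · obtain ⟨m, hm, hmax⟩ := Set.exists_max_image F id hF hne
          exact ⟨Set.Iic m, Or.inr ⟨m, hFsub hm, rfl⟩, fun x hx => hmax x hx⟩) hw'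
    rcases hD with rfl | ⟨ℓ', hℓ', rfl⟩
    · refine 𝒟.coef_E ?_ hwD
      intro u hu c hc hcu
      exact ⟨hu.2 p (by simp), hcu.2 p (by simp)⟩
    · exact ih ℓ' hℓ' w hwD h

theorem main {U : Submodule K V} {p : X} (hp : ¬ 𝒟.Red U p) {w : G →₀ V}
    (hw : w ∈ E 𝒟.ρ 𝒟.C U) (h : ∀ x, p < x → 𝒟.coef x w = 0) : 𝒟.coef p w = 0 := by
  classical
  have hw' : w ∈ E 𝒟.ρ 𝒟.C (U ⊓ lev 𝒟.Φ Set.univ) := by
    refine E_mono _ _ (le_inf le_rfl ?_) hw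
    intro u _ x hx
    exact absurd (Set.mem_univ x) hx
  obtain ⟨D, hD, hwD⟩ := E_directed 𝒟.ρ 𝒟.C U 𝒟.Φ
      (fun D => D = ∅ ∨ ∃ ℓ', D = Set.Iic ℓ') Set.univ (by
        rintro D D' hD hD'
        rcases hD with rfl | ⟨a, rfl⟩
        · exact ⟨D', hD', Set.empty_subset _, subset_rfl⟩
        · rcases hD' with rfl | ⟨b, rfl⟩
          · exact ⟨Set.Iic a, Or.inr ⟨a, rfl⟩, subset_rfl, Set.empty_subset _⟩
          · exact ⟨Set.Iic (max a b), Or.inr ⟨max a b, rfl⟩,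
              Set.Iic_subset_Iic.2 (le_max_left _ _), Set.Iic_subset_Iic.2 (le_max_right _ _)⟩)
      (by
        intro F hF hFsub
        rcases Set.eq_empty_or_nonempty F with rfl | hne
        · exact ⟨∅, Or.inl rfl, subset_rfl⟩
        · obtain ⟨m, hm, hmax⟩ := Set.exists_max_image F id hF hne
          exact ⟨Set.Iic m, Or.inr ⟨m, rfl⟩, fun x hx => hmax x hx⟩) hw'
  rcases hD with rfl | ⟨ℓ', rfl⟩
  · refine 𝒟.coef_E ?_ hwD
    intro u hu c hc hcu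
    exact ⟨hu.2 p (by simp), hcu.2 p (by simp)⟩
  · exact 𝒟.main_aux hp ℓ' w hwD h

/-- The nonredundant leads. -/
def Lead (U : Submodule K V) (p : X) : Prop :=
  (∃ u ∈ U, 𝒟.Φ u p = 1 ∧ u ∈ lev 𝒟.Φ (Set.Iic p)) ∧ ¬ 𝒟.Red U p

/-- Generation. -/
theorem gen_aux {U M : Submodule K V} (v : X → V)
    (hv : ∀ p, 𝒟.Lead U p → v p ∈ U ∧ 𝒟.Φ (v p) p = 1 ∧ v p ∈ lev 𝒟.Φ (Set.Iic p))
    (hker : ∀ u ∈ U, 𝒟.Φ u = 0 → u ∈ M) (hM : ∀ p, 𝒟.Lead U p → v p ∈ M)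
    (hMG : ∀ c ∈ 𝒟.C, ∀ u ∈ M, 𝒟.ρ c u ∈ M) (ℓ : X) :
    ∀ u ∈ U, u ∈ lev 𝒟.Φ (Set.Iic ℓ) → u ∈ M := by
  classical
  induction ℓ using WellFoundedLT.induction with
  | ind ℓ ih =>
  -- elements supported below `ℓ`
  have below : ∀ u ∈ U, u ∈ lev 𝒟.Φ (Set.Iio ℓ) → u ∈ M := by
    intro u hu hlu
    by_cases h0 : 𝒟.Φ u = 0
    · exact hker u hu h0
    · obtain ⟨m, hm, hmax⟩ := Finset.exists_max_image (𝒟.Φ u).support id
        (Finsupp.support_nonempty_iff.2 h0)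
      have hmℓ : m < ℓ := by
        by_contra h
        exact (Finsupp.mem_support_iff.1 hm) (hlu m (by simpa using h))
      refine ih m hmℓ u hu ?_
      intro x hx
      by_contra hne
      exact hx (hmax x (Finsupp.mem_support_iff.2 hne))
  intro u hu hlu
  by_cases h0 : 𝒟.Φ u ℓ = 0
  · exact below u hu (lev_Iio hlu h0)
  · by_cases hred : 𝒟.Red U ℓ
    · obtain ⟨u₀, hu₀, c, hc, hcu₀, hne, hl, hlc⟩ := hred
      have h1 : 𝒟.ρ c u₀ ∈ M := below _ hcu₀ hlc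
      have h2 : u₀ ∈ M := by
        have := hMG _ (𝒟.C_inv c hc) _ h1
        rwa [𝒟.ρ_inv] at this
      have h3 : u - (𝒟.Φ u ℓ / 𝒟.Φ u₀ ℓ) • u₀ ∈ M := by
        refine below _ (U.sub_mem hu (U.smul_mem _ hu₀)) (lev_Iio
          (Submodule.sub_mem _ hlu (Submodule.smul_mem _ _ hl)) ?_)
        simp only [map_sub, map_smul, Finsupp.sub_apply, Finsupp.smul_apply, smul_eq_mul]
        field_simp
        ring
      have := M.add_mem h3 (M.smul_mem (𝒟.Φ u ℓ / 𝒟.Φ u₀ ℓ) h2)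
      rwa [sub_add_cancel] at this
    · have hlead : 𝒟.Lead U ℓ := by
        refine ⟨⟨(𝒟.Φ u ℓ)⁻¹ • u, U.smul_mem _ hu, ?_, Submodule.smul_mem _ _ hlu⟩, hred⟩
        simp [h0]
      obtain ⟨hvU, hv1, hvl⟩ := hv ℓ hlead
      have h3 : u - (𝒟.Φ u ℓ) • v ℓ ∈ M := by
        refine below _ (U.sub_mem hu (U.smul_mem _ hvU)) (lev_Iio
          (Submodule.sub_mem _ hlu (Submodule.smul_mem _ _ hvl)) ?_)
        simp [hv1]
      have := M.add_mem h3 (M.smul_mem (𝒟.Φ u ℓ) (hM ℓ hlead))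
      rwa [sub_add_cancel] at this

theorem gen {U M : Submodule K V} (v : X → V)
    (hv : ∀ p, 𝒟.Lead U p → v p ∈ U ∧ 𝒟.Φ (v p) p = 1 ∧ v p ∈ lev 𝒟.Φ (Set.Iic p))
    (hker : ∀ u ∈ U, 𝒟.Φ u = 0 → u ∈ M) (hM : ∀ p, 𝒟.Lead U p → v p ∈ M)
    (hMG : ∀ c ∈ 𝒟.C, ∀ u ∈ M, 𝒟.ρ c u ∈ M) : U ≤ M := by
  classical
  intro u hu
  by_cases h0 : 𝒟.Φ u = 0
  · exact hker u hu h0
  · obtain ⟨m, hm, hmax⟩ := Finset.exists_max_image (𝒟.Φ u).support id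
      (Finsupp.support_nonempty_iff.2 h0)
    refine 𝒟.gen_aux v hv hker hM hMG m u hu ?_
    intro x hx
    by_contra hne
    exact hx (hmax x (Finsupp.mem_support_iff.2 hne))

/-- Independence. -/
theorem indep {U : Submodule K V}
    (hP : ∀ w : G →₀ V, (∀ g, w g ∈ U) → w.sum (fun g u => 𝒟.ρ g u) = 0 →
      w ∈ E 𝒟.ρ 𝒟.C U)
    {ι : Type*} (p : ι → X) (hp : Function.Injective p) (v : ι → V)
    (hv : ∀ i, v i ∈ U ∧ 𝒟.Φ (v i) (p i) = 1 ∧ v i ∈ lev 𝒟.Φ (Set.Iic (p i)) ∧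
      ¬ 𝒟.Red U (p i))
    (a : ι →₀ (G →₀ K)) (k : G →₀ V) (hk : ∀ g, k g ∈ U ∧ 𝒟.Φ (k g) = 0)
    (h : a.sum (fun i b => b.sum (fun g t => t • 𝒟.ρ g (v i))) +
      k.sum (fun g u => 𝒟.ρ g u) = 0) : a = 0 := by
  classical
  by_contra ha
  -- the formal sum
  let τ : ι → (G →₀ K) →ₗ[K] (G →₀ V) := fun i =>
    Finsupp.mapRange.linearMap (LinearMap.toSpanSingleton K V (v i))
  have hτ : ∀ i (b : G →₀ K) g, τ i b g = b g • v i := by
    intro i b g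
    simp [τ]
  set w : G →₀ V := a.sum (fun i b => τ i b) + k with hw
  have hwU : ∀ g, w g ∈ U := by
    intro g
    rw [hw, Finsupp.add_apply, Finsupp.sum, Finsupp.finsetSum_apply]
    refine U.add_mem (U.sum_mem fun i _ => ?_) (hk g).1
    rw [hτ]
    exact U.smul_mem _ (hv i).1
  have hev : w.sum (fun g u => 𝒟.ρ g u) = 0 := by
    let ev : (G →₀ V) →ₗ[K] V := Finsupp.lsum K (fun g => 𝒟.ρ g)
    have e1 : ∀ z : G →₀ V, ev z = z.sum (fun g u => 𝒟.ρ g u) := fun z => by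
      simp [ev, Finsupp.lsum_apply]
    have e2 : ∀ i (b : G →₀ K), ev (τ i b) = b.sum (fun g t => t • 𝒟.ρ g (v i)) := by
      intro i b
      induction b using Finsupp.induction_linear with
      | zero => simp
      | add x y hx hy =>
        rw [map_add, map_add, hx, hy, Finsupp.sum_add_index']
        · intro g; simp
        · intro g s t; rw [add_smul]
      | single g t =>
        rw [Finsupp.sum_single_index (by simp)]
        simp [τ, ev]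
    rw [← e1, hw, map_add, e1 k, Finsupp.sum, map_sum]
    rw [← h]
    congr 1
    exact Finset.sum_congr rfl (fun i _ => e2 i _)
  have hcoef : ∀ x, 𝒟.coef x w = a.sum (fun i b => 𝒟.Φ (v i) x • b) := by
    intro x
    ext g
    rw [coef_apply, hw, Finsupp.add_apply, Finsupp.sum, Finsupp.finsetSum_apply, map_add,
      (hk g).2, add_zero, map_sum, Finsupp.sum, Finsupp.finsetSum_apply, Finsupp.finsetSum_apply]
    refine Finset.sum_congr rfl fun i _ => ?_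
    rw [hτ, map_smul, Finsupp.smul_apply, Finsupp.smul_apply, smul_eq_mul, smul_eq_mul, mul_comm]
  obtain ⟨i₀, hi₀, hmax⟩ := Finset.exists_max_image a.support p (Finsupp.support_nonempty_iff.2 ha)
  have h1 : 𝒟.coef (p i₀) w = 0 := by
    refine 𝒟.main (hv i₀).2.2.2 (hP w hwU hev) ?_
    intro x hx
    rw [hcoef, Finsupp.sum]
    refine Finset.sum_eq_zero fun i hi => ?_
    rw [(hv i).2.2.1 x (by simpa using lt_of_le_of_lt (hmax i hi) hx), zero_smul]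
  rw [hcoef, Finsupp.sum, Finset.sum_eq_single i₀] at h1
  · rw [(hv i₀).2.1, one_smul] at h1
    exact (Finsupp.mem_support_iff.1 hi₀) h1
  · intro i hi hne
    have hlt : p i < p i₀ := lt_of_le_of_ne (hmax i hi) (fun h => hne (hp h))
    rw [(hv i).2.2.1 (p i₀) (by simpa using hlt), zero_smul]
  · intro h; exact absurd hi₀ h

end Data

end Core

end Pool.Agent.R700.Prim
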