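import Mathlib
import Pool.Agent.R700.PrimCore

/-!
# Words in free groups and the presentation of `span (U)` by edges
-/

namespace Pool.Agent.R700.Prim

open Finsupp FreeGroup

section Words

set_option linter.unusedSectionVars false
set_option linter.unusedSimpArgs false

variable {B : Type*} [DecidableEq B]

/-- `T` is connected in the right Cayley graph. -/
def Conn (T : Set (FreeGroup B)) : Prop :=
  ∀ s ∈ T, ∀ t ∈ T, Relation.ReflTransGen
    (fun g h => g ∈ T ∧ h ∈ T ∧ ∃ b : B, h = g * FreeGroup.of b ∨ g = h * FreeGroup.of b) s t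

/-- inverse letter -/
def flip (d : B × Bool) : B × Bool := (d.1, !d.2)

@[simp] theorem flip_flip (d : B × Bool) : flip (flip d) = d := by simp [flip]

theorem flip_ne (d : B × Bool) : flip d ≠ d := by
  intro h
  have := congrArg Prod.snd h
  simp [flip] at this

theorem mk_flip (d : B × Bool) : (mk [flip d] : FreeGroup B) = (mk [d])⁻¹ := by
  simp [flip, FreeGroup.inv_mk, FreeGroup.invRev]

theorem toWord_letter (d : B × Bool) : (mk [d] : FreeGroup B).toWord = [d] := by
  simp [toWord_mk]

theorem toWord_letter_mul (d : B × Bool) (x : FreeGroup B) :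
    (∃ M, x.toWord = flip d :: M ∧ (mk [d] * x).toWord = M) ∨
      ((mk [d] * x).toWord = d :: x.toWord) := by
  have h : (mk [d] * x).toWord = reduce (d :: x.toWord) := by
    rw [toWord_mul, toWord_letter]; rfl
  rw [h, reduce.cons, reduce_toWord]
  cases hx : x.toWord with
  | nil => right; rfl
  | cons e M =>
    simp only
    by_cases he : d.1 = e.1 ∧ d.2 = !e.2
    · left
      refine ⟨M, ?_, by simp [he]⟩
      congr 1
      ext
      · simp [flip, he.1]
      · simp [flip, he.2]
    · right
      simp [he]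

theorem toWord_flip_mul {d : B × Bool} {x : FreeGroup B} {M : List (B × Bool)}
    (h : x.toWord = d :: M) : (mk [flip d] * x).toWord = M := by
  have h' : (mk [flip d] * x).toWord = reduce (flip d :: x.toWord) := by
    rw [toWord_mul, toWord_letter]; rfl
  rw [h', reduce.cons, reduce_toWord, h]
  simp [flip]

/-- The set of letters. -/
def letters (B : Type*) : Set (FreeGroup B) := {c | ∃ d : B × Bool, c = mk [d]}

theorem letters_inv {c : FreeGroup B} (hc : c ∈ letters B) : c⁻¹ ∈ letters B := by
  obtain ⟨d, rfl⟩ := hc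
  exact ⟨flip d, (mk_flip d).symm⟩

theorem letters_ne_one {c : FreeGroup B} (hc : c ∈ letters B) : c ≠ 1 := by
  obtain ⟨d, rfl⟩ := hc
  intro h
  have := congrArg toWord h
  rw [toWord_letter, toWord_one] at this
  exact List.cons_ne_nil _ _ this

theorem letters_inv_ne {c : FreeGroup B} (hc : c ∈ letters B) : c⁻¹ ≠ c := by
  obtain ⟨d, rfl⟩ := hc
  intro h
  have := congrArg toWord h
  rw [← mk_flip, toWord_letter, toWord_letter] at this
  exact flip_ne d (List.cons.inj this).1

/-- length of `g * c` -/
theorem norm_mul_letter (g : FreeGroup B) (d : B × Bool) :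
    ((g * mk [d]).norm + 1 = g.norm ∧ ∃ M, (g⁻¹).toWord = d :: M) ∨
      (g * mk [d]).norm = g.norm + 1 := by
  have h1 : (g * mk [d]).norm = (mk [flip d] * g⁻¹).norm := by
    rw [← norm_inv_eq, mul_inv_rev, mk_flip]
  have h2 : g.norm = (g⁻¹).norm := norm_inv_eq.symm
  rw [h1, h2]
  rcases toWord_letter_mul (flip d) g⁻¹ with ⟨M, hM, hM'⟩ | h
  · left
    rw [flip_flip] at hM
    refine ⟨?_, M, hM⟩
    simp only [FreeGroup.norm, hM', hM, List.length_cons]
  · right
    simp only [FreeGroup.norm, h, List.length_cons]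

theorem path_lemma {T : Set (FreeGroup B)} {h g₀ : FreeGroup B} {d : B × Bool}
    {L : List (B × Bool)} (hg₀ : g₀.toWord = d :: L) {s : FreeGroup B}
    (hs : ¬ g₀.toWord <:+ (s⁻¹ * h).toWord) {t : FreeGroup B}
    (hst : Relation.ReflTransGen
      (fun g h => g ∈ T ∧ h ∈ T ∧ ∃ b : B, h = g * FreeGroup.of b ∨ g = h * FreeGroup.of b) s t)
    (ht : g₀.toWord <:+ (t⁻¹ * h).toWord) :
    h * (mk [flip d] * g₀)⁻¹ ∈ T := by
  induction hst with
  | refl => exact absurd ht hs
  | @tail t1 t2 _ h12 ih =>
    obtain ⟨hT1, hT2, b, hb⟩ := h12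
    -- the letter
    obtain ⟨e, he⟩ : ∃ e : B × Bool, t2⁻¹ * h = mk [e] * (t1⁻¹ * h) := by
      rcases hb with hb | hb
      · refine ⟨(b, false), ?_⟩
        have : (mk [(b, false)] : FreeGroup B) = (FreeGroup.of b)⁻¹ := by
          simp [FreeGroup.of, FreeGroup.inv_mk, FreeGroup.invRev]
        rw [this, hb]
        group
      · refine ⟨(b, true), ?_⟩
        have : (mk [(b, true)] : FreeGroup B) = FreeGroup.of b := rfl
        rw [this, hb]
        group
    rw [he] at ht
    by_cases hsuf : g₀.toWord <:+ (t1⁻¹ * h).toWord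
    · exact ih hsuf
    · rcases toWord_letter_mul e (t1⁻¹ * h) with ⟨M, hM, hM'⟩ | hcons
      · rw [hM'] at ht
        exact absurd (ht.trans (by rw [hM]; exact List.suffix_cons _ _)) hsuf
      · rw [hcons, List.suffix_cons_iff] at ht
        rcases ht with ht | ht
        · rw [hg₀] at ht
          have hL : L = (t1⁻¹ * h).toWord := (List.cons.inj ht).2
          have : mk [flip d] * g₀ = t1⁻¹ * h := by
            apply toWord_injective
            rw [toWord_flip_mul hg₀, hL]
          rw [this]
          have : h * (t1⁻¹ * h)⁻¹ = t1 := by group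
          rw [this]
          exact hT1
        · exact absurd ht hsuf

end Words

section LemP

set_option linter.unusedSimpArgs false

variable {B K V : Type*} [DecidableEq B] [Field K] [AddCommGroup V] [Module K V]

theorem lemP {T : Set (FreeGroup B)} (hT : Conn T) (ρ : FreeGroup B → V →ₗ[K] V)
    (ρ_mul : ∀ g h v, ρ (g * h) v = ρ h (ρ g v)) (ρ_one : ∀ v, ρ 1 v = v)
    (σ : V →ₗ[K] (FreeGroup B →₀ K)) (hσ : ∀ g v x, σ (ρ g v) (x * g) = σ v x)
    {U : Submodule K V} (hU : ∀ u, u ∈ U ↔ ∀ x, x ∉ T → σ u x = 0) (n : ℕ) :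
    ∀ w : FreeGroup B →₀ V, (∀ g, w g ∈ U) → w.sum (fun g u => ρ g u) = 0 →
      (∑ g ∈ w.support, 2 ^ g.norm) ≤ n → w ∈ E ρ (letters B) U := by
  classical
  have hσ' : ∀ g v x, σ (ρ g v) x = σ v (x * g⁻¹) := by
    intro g v x
    rw [← hσ g v (x * g⁻¹), inv_mul_cancel_right]
  induction n using Nat.strong_induction_on with
  | _ n ih =>
  intro w hwU hev hn
  by_cases hw0 : w = 0
  · rw [hw0]; exact Submodule.zero_mem _
  obtain ⟨g₀, hg₀, hmax⟩ := Finset.exists_max_image w.support (fun g => g.norm)
    (Finsupp.support_nonempty_iff.2 hw0)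
  have hev' : ∑ g ∈ w.support, ρ g (w g) = 0 := hev
  cases hword : g₀.toWord with
  | nil =>
    exfalso
    have h1 : g₀ = 1 := toWord_eq_nil_iff.1 hword
    have hall : ∀ g ∈ w.support, g = 1 := by
      intro g hg
      have := hmax g hg
      rw [h1, FreeGroup.norm_one] at this
      exact norm_eq_zero.1 (Nat.le_zero.1 this)
    have : ∑ g ∈ w.support, ρ g (w g) = ρ g₀ (w g₀) := by
      refine Finset.sum_eq_single g₀ ?_ ?_
      · intro g hg hne
        exact absurd ((hall g hg).trans h1.symm) hne
      · intro h; exact absurd hg₀ h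
    rw [this, h1, ρ_one] at hev'
    rw [h1] at hg₀
    exact (Finsupp.mem_support_iff.1 hg₀) hev'
  | cons d L =>
    set c : FreeGroup B := mk [d] with hc
    set g₁ : FreeGroup B := mk [flip d] * g₀ with hg₁
    have hcg : c * g₁ = g₀ := by rw [hg₁, mk_flip, hc]; group
    have hnorm : g₁.norm + 1 = g₀.norm := by
      rw [hg₁]
      simp only [FreeGroup.norm, toWord_flip_mul hword, hword, List.length_cons]
    have hcU : ρ c (w g₀) ∈ U := by
      rw [hU]
      intro x hx
      by_contra hne
      rw [hσ'] at hne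
      have ht₀ : x * c⁻¹ ∈ T := by
        by_contra h
        exact hne ((hU _).1 (hwU g₀) _ h)
      -- h := x * g₁
      have hx1 : x * g₁ * g₀⁻¹ = x * c⁻¹ := by
        rw [← hcg]; group
      have hsum0 : ∑ g ∈ w.support, σ (ρ g (w g)) (x * g₁) = 0 := by
        have := congrArg (fun v => σ v (x * g₁)) hev'
        simpa [map_sum, Finsupp.finsetSum_apply] using this
      have hterm : σ (ρ g₀ (w g₀)) (x * g₁) ≠ 0 := by
        rw [hσ', hx1]; exact hne
      obtain ⟨g, hg, hgne, hgt⟩ : ∃ g ∈ w.support, g ≠ g₀ ∧ σ (ρ g (w g)) (x * g₁) ≠ 0 := by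
        by_contra hcon
        push Not at hcon
        have : ∑ g ∈ w.support, σ (ρ g (w g)) (x * g₁) = σ (ρ g₀ (w g₀)) (x * g₁) :=
          Finset.sum_eq_single g₀ (fun g hg hne' => hcon g hg hne') (fun h => absurd hg₀ h)
        exact hterm (this ▸ hsum0)
      have ht' : x * g₁ * g⁻¹ ∈ T := by
        by_contra h
        rw [hσ'] at hgt
        exact hgt ((hU _).1 (hwU g) _ h)
      have hpath := hT _ ht' _ ht₀
      have hres := path_lemma (T := T) (h := x * g₁) hword (s := x * g₁ * g⁻¹) (by
        have : (x * g₁ * g⁻¹)⁻¹ * (x * g₁) = g := by group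
        rw [this]
        intro hsuf
        have hle : g.toWord.length ≤ g₀.toWord.length := hmax g hg
        have := hsuf.eq_of_length_le hle
        exact hgne (toWord_injective this).symm) hpath (by
        have : (x * c⁻¹)⁻¹ * (x * g₁) = g₀ := by rw [← hcg]; group
        rw [this])
      rw [← hg₁] at hres
      have : x * g₁ * g₁⁻¹ = x := by group
      rw [this] at hres
      exact hx hres
    have hedge : edge ρ c g₁ (w g₀) ∈ E ρ (letters B) U :=
      edge_mem ρ _ ⟨d, rfl⟩ (hwU g₀) hcU
    set w' := w - edge ρ c g₁ (w g₀) with hw'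
    have hne01 : g₀ ≠ g₁ := by
      intro h; rw [← h] at hnorm; omega
    have hw'g₀ : w' g₀ = 0 := by
      rw [hw', edge, hcg]
      simp [hne01, Finsupp.single_apply, Ne.symm hne01]
    have hsupp : w'.support ⊆ insert g₁ (w.support.erase g₀) := by
      intro g hg
      rw [Finsupp.mem_support_iff] at hg
      by_cases h1 : g = g₁
      · simp [h1]
      · by_cases h0 : g = g₀
        · exact absurd (by rw [h0]; exact hw'g₀) hg
        · refine Finset.mem_insert_of_mem (Finset.mem_erase.2 ⟨h0, ?_⟩)
          rw [Finsupp.mem_support_iff]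
          intro h
          apply hg
          rw [hw', edge, hcg]
          simp [h, Finsupp.single_apply, Ne.symm h1, Ne.symm h0]
    have hmem : w' ∈ E ρ (letters B) U := by
      refine ih (∑ g ∈ w'.support, 2 ^ g.norm) ?_ w' ?_ ?_ le_rfl
      · calc ∑ g ∈ w'.support, 2 ^ g.norm
            ≤ ∑ g ∈ insert g₁ (w.support.erase g₀), 2 ^ g.norm :=
              Finset.sum_le_sum_of_subset hsupp
          _ ≤ 2 ^ g₁.norm + ∑ g ∈ w.support.erase g₀, 2 ^ g.norm := by
              by_cases h : g₁ ∈ w.support.erase g₀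
              · rw [Finset.insert_eq_of_mem h]; exact Nat.le_add_left _ _
              · rw [Finset.sum_insert h]
          _ < 2 ^ g₀.norm + ∑ g ∈ w.support.erase g₀, 2 ^ g.norm := by
              have : (2 : ℕ) ^ g₁.norm < 2 ^ g₀.norm := by
                apply Nat.pow_lt_pow_right (by norm_num); omega
              omega
          _ = ∑ g ∈ w.support, 2 ^ g.norm := by
              exact Finset.add_sum_erase _ (fun g => 2 ^ g.norm) hg₀
          _ ≤ n := hn
      · intro g
        rw [hw', edge]
        simp only [Finsupp.sub_apply]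
        refine U.sub_mem (hwU g) (U.sub_mem ?_ ?_)
        · rw [Finsupp.single_apply]
          split_ifs
          · exact hwU g₀
          · exact U.zero_mem
        · rw [Finsupp.single_apply]
          split_ifs
          · exact hcU
          · exact U.zero_mem
      · let ev : (FreeGroup B →₀ V) →ₗ[K] V := Finsupp.lsum K (fun g => ρ g)
        have e1 : ∀ z : FreeGroup B →₀ V, ev z = z.sum (fun g u => ρ g u) := fun z => by
          simp [ev, Finsupp.lsum_apply]
        rw [← e1, hw', map_sub, e1, hev, edge, map_sub]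
        simp only [ev, Finsupp.lsum_single, ρ_mul, sub_self]
    have := Submodule.add_mem _ hmem hedge
    rwa [hw', sub_add_cancel] at this

end LemP

end Pool.Agent.R700.Prim
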