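import Pool.Agent.R700.CE

set_option autoImplicit false

/-!
# Right distributive centrally essential endomorphism rings
-/

namespace Pool.Agent.R700.RDC

open Pool.Agent.R700

universe u

section ring

variable {R : Type u} [Ring R]

theorem mul_zero_of_idem (h : CentrallyEssential R) (e r : R) (he : e * e = e) :
    e * r * (1 - e) = 0 := by
  by_contra hcon
  obtain ⟨x, hx, y, hy, -, hy0, hxy⟩ := h _ hcon
  rw [Subring.mem_center_iff] at hx hy
  apply hy0
  have h1 : e * y = y := by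
    rw [← hxy, ← mul_assoc, ← mul_assoc, ← mul_assoc, he]
  have h2 : y * e = 0 := by
    rw [← hxy, mul_assoc, ← hx, ← mul_assoc, mul_assoc (e * r), sub_mul, one_mul, he, sub_self,
      mul_zero, zero_mul]
  rw [← h1, hy, h2]

/-- idempotents of a centrally essential ring are central -/
theorem idem_central (h : CentrallyEssential R) (e r : R) (he : e * e = e) : e * r = r * e := by
  have h1 := mul_zero_of_idem h e r he
  have h2 := mul_zero_of_idem h (1 - e) r (by
    rw [mul_sub, sub_mul, sub_mul, mul_one, one_mul, mul_one, he, sub_self, sub_zero])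
  rw [mul_sub, mul_one, sub_eq_zero] at h1
  rw [sub_sub_cancel, sub_mul, sub_mul, one_mul, sub_eq_zero] at h2
  rw [h1, h2]

/-- a noncommutative centrally essential ring has a nonzero central commutator of square zero -/
theorem exists_sq_zero (h : CentrallyEssential R) (r s : R) (hrs : r * s ≠ s * r) :
    ∃ r' e : R, e ≠ 0 ∧ e * e = 0 ∧ (∀ t, e * t = t * e) ∧ e = r' * s - s * r' := by
  obtain ⟨z, hz, d, hd, -, hd0, hzd⟩ := h (r * s - s * r) (sub_ne_zero.2 hrs)
  rw [Subring.mem_center_iff] at hz hd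
  have hd1 : d = (r * z) * s - s * (r * z) := by
    rw [← hzd, sub_mul, mul_assoc, mul_assoc, mul_assoc, hz s]
  by_cases h0 : r * z * d = 0
  · refine ⟨r * z, d, hd0, ?_, fun t => (hd t).symm, hd1⟩
    have h1 : d * d = (r * z) * s * d - s * (r * z) * d := by
      rw [← sub_mul, ← hd1]
    rw [h1, mul_assoc _ s d, hd, ← mul_assoc, h0, zero_mul, mul_assoc s, h0, mul_zero, sub_zero]
  · obtain ⟨x, hx, y, hy, -, hy0, hxy⟩ := h _ h0
    rw [Subring.mem_center_iff] at hx hy
    have h2 : d * x = (r * z * x) * s - s * (r * z * x) := by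
      rw [hd1, sub_mul, mul_assoc _ s x, hx, ← mul_assoc, mul_assoc s]
    have h3 : d * d * x = 0 := by
      have h4 : y * s - s * y = 0 := by rw [hy, sub_self]
      rw [← hxy] at h4
      have h5 : r * z * d * x * s - s * (r * z * d * x) = (r * z * s - s * (r * z)) * d * x := by
        have h6 : d * x * s = s * (d * x) := by
          rw [mul_assoc, ← hx, ← mul_assoc, ← hd, mul_assoc]
        rw [mul_assoc (r * z), mul_assoc, h6, sub_mul, sub_mul]
        simp only [mul_assoc]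
      rw [h5, ← hd1] at h4
      exact h4
    refine ⟨r * z * x, d * x, ?_, ?_, ?_, h2⟩
    · intro h4
      apply hy0
      rw [← hxy, mul_assoc, h4, mul_zero]
    · rw [mul_assoc d x, ← mul_assoc x d x, ← hx d, ← mul_assoc d, ← mul_assoc d, h3, zero_mul]
    · intro t
      rw [mul_assoc, ← hx, ← mul_assoc, ← hd, mul_assoc]

end ring

/-- The lattice of right ideals of `R` is distributive. -/
def RightDistributive (R : Type u) [Ring R] : Prop :=
  ∀ I J L : Submodule Rᵐᵒᵖ R, I ⊓ (J ⊔ L) = (I ⊓ J) ⊔ (I ⊓ L)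

/-- The right ideals of `R` are totally ordered by inclusion. -/
def RightUniserial (R : Type u) [Ring R] : Prop :=
  ∀ I J : Submodule Rᵐᵒᵖ R, I ≤ J ∨ J ≤ I

theorem RightUniserial.distributive {R : Type u} [Ring R] (h : RightUniserial R) :
    RightDistributive R := by
  intro I J L
  apply le_antisymm
  · rcases h J L with h1 | h1
    · rw [sup_eq_right.2 h1]
      exact le_sup_right
    · rw [sup_eq_left.2 h1]
      exact le_sup_left
  · exact sup_le (inf_le_inf_left _ le_sup_left) (inf_le_inf_left _ le_sup_right)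

theorem exists_t {R : Type u} [Ring R] (h : RightDistributive R) (a b : R) :
    ∃ t u v : R, a * (1 - t) = b * u ∧ b * t = a * v := by
  have hmem : ∀ c d : R, c ∈ Submodule.span Rᵐᵒᵖ ({d} : Set R) ↔ ∃ u, d * u = c := by
    intro c d
    rw [Submodule.mem_span_singleton]
    constructor
    · rintro ⟨u, rfl⟩
      exact ⟨MulOpposite.unop u, rfl⟩
    · rintro ⟨u, rfl⟩
      exact ⟨MulOpposite.op u, rfl⟩
  have h1 := h (Submodule.span _ {a}) (Submodule.span _ {b}) (Submodule.span _ {a - b})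
  have h2 : a ∈ Submodule.span Rᵐᵒᵖ ({a} : Set R) ⊓
      (Submodule.span Rᵐᵒᵖ ({b} : Set R) ⊔ Submodule.span Rᵐᵒᵖ ({a - b} : Set R)) := by
    refine ⟨Submodule.mem_span_singleton_self a, Submodule.mem_sup.2 ?_⟩
    exact ⟨b, Submodule.mem_span_singleton_self b, a - b, Submodule.mem_span_singleton_self _,
      by abel⟩
  rw [h1, Submodule.mem_sup] at h2
  obtain ⟨c, ⟨-, hc⟩, d, ⟨hd, hd'⟩, hcd⟩ := h2
  obtain ⟨u, hu⟩ := (hmem c b).1 hc
  obtain ⟨v, hv⟩ := (hmem d a).1 hd
  obtain ⟨t, ht⟩ := (hmem d (a - b)).1 hd'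
  refine ⟨t, u - t, t - v, ?_, ?_⟩
  · rw [mul_sub, mul_sub, hu, mul_one]
    have h3 : a * t = d + b * t := by rw [← ht, sub_mul]; abel
    rw [h3]
    nth_rewrite 1 [← hcd]
    abel
  · rw [mul_sub, hv]
    have h3 : a * t = d + b * t := by rw [← ht, sub_mul]; abel
    rw [h3]
    abel

section group

variable {A : Type u} [AddCommGroup A]

/-- a divisible subgroup is a direct summand -/
theorem exists_proj (D : AddSubgroup A)
    (hD : ∀ n : ℕ, 0 < n → ∀ d ∈ D, ∃ d' ∈ D, n • d' = d) :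
    ∃ π : AddMonoid.End A, (∀ x, π x ∈ D) ∧ ∀ d ∈ D, π d = d := by
  let h1 : DivisibleBy D ℕ := divisibleByOfSMulRightSurj D ℕ (fun {n} hn d => by
    obtain ⟨d', hd', h2⟩ := hD n (Nat.pos_of_ne_zero hn) d.1 d.2
    exact ⟨⟨d', hd'⟩, Subtype.ext h2⟩)
  let h2 : DivisibleBy D ℤ := AddGroup.divisibleByIntOfDivisibleByNat D
  have h3 : Module.Baer ℤ D := Module.Baer.of_divisible D
  obtain ⟨f, hf⟩ := h3.extension_property_addMonoidHom D.subtype Subtype.val_injective
    (AddMonoidHom.id D)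
  refine ⟨D.subtype.comp f, fun x => (f x).2, fun d hd => ?_⟩
  exact congrArg Subtype.val (DFunLike.congr_fun hf ⟨d, hd⟩)

variable (hC : CentrallyEssential (AddMonoid.End A)) (e : AddMonoid.End A) (he2 : e * e = 0)
  (hec : ∀ t, e * t = t * e)

include hC he2 hec in
/-- `e` kills all divisible subgroups -/
theorem kill_divisible (D : AddSubgroup A)
    (hD : ∀ n : ℕ, 0 < n → ∀ d ∈ D, ∃ d' ∈ D, n • d' = d) : ∀ d ∈ D, e d = 0 := by
  have hD' : ∀ n : ℕ, 0 < n → ∀ d ∈ D.map (e : A →+ A), ∃ d' ∈ D.map (e : A →+ A), n • d' = d := by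
    rintro n hn _ ⟨d, hd, rfl⟩
    obtain ⟨d', hd', rfl⟩ := hD n hn d hd
    exact ⟨e d', ⟨d', hd', rfl⟩, (map_nsmul e n d').symm⟩
  obtain ⟨π, hπ1, hπ2⟩ := exists_proj _ hD'
  have hππ : π * π = π := by
    ext x
    exact hπ2 _ (hπ1 x)
  intro d hd
  have h1 : π (e d) = e d := hπ2 _ ⟨d, hd, rfl⟩
  have h2 : π (e d) = e (π d) := DFunLike.congr_fun (idem_central hC π e hππ) d
  obtain ⟨x, hx, hx'⟩ := hπ1 d
  have h3 : e (π d) = 0 := by
    rw [← hx']
    exact DFunLike.congr_fun he2 x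
  rw [← h1, h2, h3]

include hC he2 hec in
theorem kill_mem (D : AddSubgroup A)
    (hD : ∀ n : ℕ, 0 < n → ∀ d ∈ D, ∃ d' ∈ D, n • d' = d) (y : A) (hy : e y ∈ D) : e y = 0 := by
  obtain ⟨π, hπ1, hπ2⟩ := exists_proj _ hD
  have hππ : π * π = π := by
    ext x
    exact hπ2 _ (hπ1 x)
  have h2 : π (e y) = e (π y) := DFunLike.congr_fun (idem_central hC π e hππ) y
  rw [← hπ2 _ hy, h2]
  exact kill_divisible hC e he2 hec D hD _ (hπ1 y)

/-- homomorphisms with cyclic image -/
theorem exists_hom {Q : Type} [AddCommGroup Q] (χ : A →+ Q) (y b : A)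
    (h1 : ∀ x, ∃ m : ℤ, χ x = m • χ y) (h2 : ∀ m : ℤ, m • χ y = 0 → m • b = 0) :
    ∃ f : AddMonoid.End A, ∀ x (m : ℤ), χ x = m • χ y → f x = m • b := by
  choose m hm using h1
  have key : ∀ x (n : ℤ), χ x = n • χ y → m x • b = n • b := by
    intro x n hn
    rw [← sub_eq_zero, ← sub_smul]
    apply h2
    rw [sub_smul, ← hm, hn, sub_self]
  refine ⟨AddMonoidHom.mk' (fun x => m x • b) ?_, key⟩
  intro x x'
  rw [← add_smul]
  apply key
  rw [map_add, hm x, hm x', add_smul]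

/-- generators of the torsion of the rational circle -/
theorem circle_gen (P : ℕ) (hP : 0 < P) (w u : AddCircle (1 : ℚ)) (hw : addOrderOf w = P)
    (hu : P • u = 0) : ∃ m : ℤ, u = m • w := by
  have hP0 : (P : ℚ) ≠ 0 := by exact_mod_cast hP.ne'
  obtain ⟨m, -, hm, hmw⟩ := (AddCircle.addOrderOf_eq_pos_iff hP).1 hw
  obtain ⟨t, rfl⟩ := QuotientAddGroup.mk_surjective u
  have h1 : ((P • t : ℚ) : AddCircle (1 : ℚ)) = 0 := hu
  rw [AddCircle.coe_eq_zero_iff] at h1
  obtain ⟨n, hn⟩ := h1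
  have hg : ((1 : ℕ) : ℤ) = (m : ℤ) * Nat.gcdA m P + P * Nat.gcdB m P := by
    rw [← Nat.gcd_eq_gcd_ab, hm]
  refine ⟨n * Nat.gcdA m P, ?_⟩
  rw [← hmw]
  change ((t : ℚ) : AddCircle (1 : ℚ)) =
    (((n * Nat.gcdA m P) • ((m : ℚ) / P * 1) : ℚ) : AddCircle (1 : ℚ))
  rw [← sub_eq_zero, ← AddCircle.coe_sub, AddCircle.coe_eq_zero_iff]
  refine ⟨n * Nat.gcdB m P, ?_⟩
  have hg' : (1 : ℚ) = (m : ℚ) * Nat.gcdA m P + P * Nat.gcdB m P := by exact_mod_cast hg
  have hn' : (n : ℚ) = P * t := by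
    simpa using hn
  have ht : t = n / P := by
    rw [hn']
    field_simp
  simp only [zsmul_eq_mul, mul_one]
  push_cast
  rw [ht]
  field_simp
  linear_combination (-(n : ℚ)) * hg'

include hC in
/-- the case of an element of finite height -/
theorem pi_finite (r s : AddMonoid.End A) (he : e = r * s - s * r) (p : ℕ) (hp : p.Prime) (a : A)
    (hpa : p • a = 0) (j : ℕ) (y : A) (hy : p ^ j • y = a) (ha : ¬ ∃ z, p ^ (j + 1) • z = a) :
    ∃ π : AddMonoid.End A, π * π = π ∧ e * π = 0 ∧ (∀ x, p • x = 0 → π x = 0 → x = 0) ∧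
      ∀ x, ∃ k : ℕ, p ^ k • π x = 0 := by
  have hfact : Fact p.Prime := ⟨hp⟩
  let N : AddSubgroup A := (nsmulAddMonoidHom (α := A) (p ^ (j + 1))).range
  have haN : (QuotientAddGroup.mk' N a) ≠ 0 := by
    intro h
    rw [QuotientAddGroup.mk'_apply, QuotientAddGroup.eq_zero_iff] at h
    obtain ⟨z, hz⟩ := h
    exact ha ⟨z, hz⟩
  obtain ⟨χ0, hχ0⟩ := CharacterModule.exists_character_apply_ne_zero_of_ne_zero haN
  let χ : A →+ AddCircle (1 : ℚ) := AddMonoidHom.comp χ0 (QuotientAddGroup.mk' N)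
  have hχa : χ a ≠ 0 := hχ0
  have hχP : ∀ x, p ^ (j + 1) • χ x = 0 := by
    intro x
    rw [← map_nsmul]
    change χ0 (QuotientAddGroup.mk' N (p ^ (j + 1) • x)) = 0
    have : QuotientAddGroup.mk' N (p ^ (j + 1) • x) = 0 := by
      rw [QuotientAddGroup.mk'_apply, QuotientAddGroup.eq_zero_iff]
      exact ⟨x, rfl⟩
    rw [this, map_zero]
  have hord : addOrderOf (χ y) = p ^ (j + 1) := by
    apply addOrderOf_eq_prime_pow
    · rw [← map_nsmul, hy]
      exact hχa
    · exact hχP y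
  have h1 : ∀ x, ∃ m : ℤ, χ x = m • χ y := fun x =>
    circle_gen _ (pow_pos hp.pos _) _ _ hord (hχP x)
  have hPy : p ^ (j + 1) • y = 0 := by
    rw [pow_succ', mul_smul, hy, hpa]
  have hdvd : ∀ m : ℤ, m • χ y = 0 → ((p ^ (j + 1) : ℕ) : ℤ) ∣ m := by
    intro m hm
    rw [← hord]
    exact addOrderOf_dvd_iff_zsmul_eq_zero.2 hm
  obtain ⟨π, hπ⟩ := exists_hom χ y y h1 (fun m hm => by
    obtain ⟨l, rfl⟩ := hdvd m hm
    rw [mul_comm, mul_smul, natCast_zsmul, hPy, smul_zero])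
  have hπy : π y = y := by
    rw [hπ y 1 (by rw [one_smul]), one_smul]
  have hππ : π * π = π := by
    ext x
    obtain ⟨m, hm⟩ := h1 x
    change π (π x) = π x
    rw [hπ x m hm, map_zsmul, hπy]
  have hcen := fun t => DFunLike.congr_fun (idem_central hC π t hππ)
  have hcen' : ∀ t : AddMonoid.End A, ∀ x, π (t x) = t (π x) := fun t x => hcen t x
  have hmul : ∀ t : AddMonoid.End A, ∃ m : ℤ, t y = m • y := by
    intro t
    obtain ⟨m, hm⟩ := h1 (t y)
    refine ⟨m, ?_⟩
    rw [← hπ (t y) m hm, hcen', hπy]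
  refine ⟨π, hππ, ?_, ?_, ?_⟩
  · ext x
    change e (π x) = 0
    obtain ⟨m, hm⟩ := h1 x
    obtain ⟨k, hk⟩ := hmul r
    obtain ⟨l, hl⟩ := hmul s
    rw [hπ x m hm, map_zsmul]
    have h3 : e y = 0 := by
      rw [he]
      change r (s y) - s (r y) = 0
      rw [hk, hl, map_zsmul, map_zsmul, hk, hl, smul_smul, smul_smul, mul_comm, sub_self]
    rw [h3, smul_zero]
  · intro b hb hπb
    obtain ⟨f, hf⟩ := exists_hom χ y b h1 (fun m hm => by
      obtain ⟨l, rfl⟩ := hdvd m hm
      have : ((p ^ (j + 1) : ℕ) : ℤ) * l = (p ^ j : ℕ) * l * (p : ℕ) := by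
        push_cast
        ring
      rw [this, mul_smul, natCast_zsmul, hb, smul_zero])
    have h3 : f y = b := by
      rw [hf y 1 (by rw [one_smul]), one_smul]
    have h4 := hcen' f y
    rw [h3, hπy, h3, hπb] at h4
    exact h4.symm
  · intro x
    obtain ⟨m, hm⟩ := h1 x
    refine ⟨j + 1, ?_⟩
    rw [hπ x m hm, ← natCast_zsmul, smul_smul, mul_comm, mul_smul, natCast_zsmul, hPy, smul_zero]

/-- the `p`-primary component -/
def prim (A : Type u) [AddCommGroup A] (p : ℕ) : AddSubgroup A where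
  carrier := {x | ∃ n : ℕ, p ^ n • x = 0}
  zero_mem' := ⟨0, by simp⟩
  add_mem' := by
    rintro x y ⟨n, hn⟩ ⟨m, hm⟩
    refine ⟨n + m, ?_⟩
    rw [smul_add, pow_add, mul_smul, smul_comm, hn, smul_zero, zero_add, mul_smul, hm, smul_zero]
  neg_mem' := by
    rintro x ⟨n, hn⟩
    exact ⟨n, by rw [smul_neg, hn, neg_zero]⟩

theorem mem_prim (p : ℕ) (x : A) : x ∈ prim A p ↔ ∃ n : ℕ, p ^ n • x = 0 := Iff.rfl

theorem prim_divisible (p : ℕ) (hp : p.Prime)
    (H : ∀ a : A, p • a = 0 → ∀ k : ℕ, ∃ z, p ^ k • z = a) :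
    ∀ n : ℕ, 0 < n → ∀ d ∈ prim A p, ∃ d' ∈ prim A p, n • d' = d := by
  have hpdiv : ∀ n : ℕ, ∀ x : A, p ^ n • x = 0 → ∃ d' ∈ prim A p, p • d' = x := by
    intro n
    induction n with
    | zero =>
      intro x hx
      rw [pow_zero, one_smul] at hx
      exact ⟨0, AddSubgroup.zero_mem _, by rw [hx, smul_zero]⟩
    | succ n ih =>
      intro x hx
      obtain ⟨z, hz⟩ := H (p ^ n • x) (by rw [← mul_smul, ← pow_succ', hx]) (n + 1)
      obtain ⟨w, hw, hw'⟩ := ih (x - p • z) (by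
        rw [smul_sub, ← mul_smul, ← pow_succ, hz, sub_self])
      refine ⟨w + z, AddSubgroup.add_mem _ hw ⟨n + 2, ?_⟩, ?_⟩
      · rw [pow_succ', mul_smul, hz, ← mul_smul, ← pow_succ', hx]
      · rw [smul_add, hw', sub_add_cancel]
  have hq : ∀ q : ℕ, q.Prime → ∀ d ∈ prim A p, ∃ d' ∈ prim A p, q • d' = d := by
    rintro q hq d ⟨n, hn⟩
    by_cases hqp : q = p
    · subst hqp
      exact hpdiv n d hn
    · have hcop : Nat.Coprime q (p ^ n) := by
        apply Nat.Coprime.pow_right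
        exact (Nat.coprime_primes hq hp).2 hqp
      have hg : ((1 : ℕ) : ℤ) = (q : ℤ) * Nat.gcdA q (p ^ n) + (p ^ n : ℕ) * Nat.gcdB q (p ^ n) := by
        rw [← Nat.gcd_eq_gcd_ab, hcop]
      refine ⟨Nat.gcdA q (p ^ n) • d,
        AddSubgroup.zsmul_mem (prim A p) (show d ∈ prim A p from ⟨n, hn⟩) _, ?_⟩
      have h1 : ((1 : ℕ) : ℤ) • d = d := by simp
      have h2 : (((p ^ n : ℕ) : ℤ) * Nat.gcdB q (p ^ n)) • d = 0 := by
        rw [mul_comm, mul_smul, natCast_zsmul, hn, smul_zero]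
      rw [hg, add_smul, h2, add_zero, mul_smul, natCast_zsmul] at h1
      exact h1
  intro n
  induction n using induction_on_primes with
  | zero => intro h; exact absurd h (lt_irrefl _)
  | one => intro _ d hd; exact ⟨d, hd, one_smul _ _⟩
  | prime_mul q a hqp ih =>
    intro h d hd
    have ha : 0 < a := Nat.pos_of_mul_pos_left h |> fun h => by
      rcases Nat.eq_zero_or_pos a with h0 | h0
      · subst h0; simp at *
      · exact h0
    obtain ⟨d1, hd1, h1⟩ := hq q hqp d hd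
    obtain ⟨d2, hd2, h2⟩ := ih ha d1 hd1
    exact ⟨d2, hd2, by rw [mul_smul, h2, h1]⟩

include hC he2 hec in
/-- for every prime there is a suitable central idempotent -/
theorem exists_pi (r s : AddMonoid.End A) (he : e = r * s - s * r) (p : ℕ) (hp : p.Prime) :
    ∃ π : AddMonoid.End A, π * π = π ∧ e * π = 0 ∧ (∀ x, p • x = 0 → π x = 0 → x = 0) ∧
      ∀ x, ∃ k : ℕ, p ^ k • π x = 0 := by
  classical
  by_cases H : ∀ a : A, p • a = 0 → ∀ k : ℕ, ∃ z, p ^ k • z = a
  · have hdiv := prim_divisible p hp H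
    obtain ⟨π, hπ1, hπ2⟩ := exists_proj _ hdiv
    have hππ : π * π = π := by
      ext x
      exact hπ2 _ (hπ1 x)
    refine ⟨π, hππ, ?_, ?_, hπ1⟩
    · ext x
      exact kill_divisible hC e he2 hec _ hdiv _ (hπ1 x)
    · intro x hx hπx
      rw [← hπx]
      exact (hπ2 x ⟨1, by rwa [pow_one]⟩).symm
  · push Not at H
    obtain ⟨a, hpa, hk⟩ := H
    have hk' : ∃ k : ℕ, ¬ ∃ z, p ^ k • z = a := by
      obtain ⟨k, hk⟩ := hk
      exact ⟨k, fun ⟨z, hz⟩ => hk z hz⟩
    obtain ⟨j, hj⟩ : ∃ j, Nat.find hk' = j + 1 := by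
      apply Nat.exists_eq_succ_of_ne_zero
      intro h0
      have := Nat.find_spec hk'
      rw [h0] at this
      exact this ⟨a, by simp⟩
    have h1 := Nat.find_spec hk'
    rw [hj] at h1
    have h2 := Nat.find_min hk' (m := j) (by omega)
    rw [not_not] at h2
    obtain ⟨y, hy⟩ := h2
    exact pi_finite hC e r s he p hp a hpa j y hy h1

section main

variable {A : Type u} [AddCommGroup A]

/-- the main argument -/
theorem comm_of (hC : CentrallyEssential (AddMonoid.End A))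
    (hD : RightDistributive (AddMonoid.End A)) (f g : AddMonoid.End A) : f * g = g * f := by
  classical
  by_contra hfg
  obtain ⟨r, e, he0, he2, hec, he⟩ := exists_sq_zero hC f g hfg
  have hex : ∀ p : ℕ, ∃ π : AddMonoid.End A, p.Prime → (π * π = π ∧ e * π = 0 ∧
      (∀ x, p • x = 0 → π x = 0 → x = 0) ∧ ∀ x, ∃ k : ℕ, p ^ k • π x = 0) := by
    intro p
    by_cases hp : p.Prime
    · obtain ⟨π, hπ⟩ := exists_pi hC e he2 hec r g he p hp
      exact ⟨π, fun _ => hπ⟩
    · exact ⟨0, fun h => absurd h hp⟩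
  choose π hπ using hex
  have hcen : ∀ p, p.Prime → ∀ (t : AddMonoid.End A) x, π p (t x) = t (π p x) := fun p hp t x =>
    DFunLike.congr_fun (idem_central hC (π p) t (hπ p hp).1) x
  have heπ : ∀ p, p.Prime → ∀ x, π p (e x) = 0 := by
    intro p hp x
    rw [hcen p hp]
    exact DFunLike.congr_fun (hπ p hp).2.1 x
  -- the torsion-free part
  have htf : ∀ n : ℕ, 0 < n → ∀ x : A, (∀ p, p.Prime → π p x = 0) → n • x = 0 → x = 0 := by
    intro n
    induction n using induction_on_primes with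
    | zero => intro h; exact absurd h (lt_irrefl _)
    | one => intro _ x _ hx; rwa [one_smul] at hx
    | prime_mul q a hq ih =>
      intro h x hx hqx
      have ha : 0 < a := by
        rcases Nat.eq_zero_or_pos a with h0 | h0
        · subst h0; simp at h
        · exact h0
      apply (hπ q hq).2.2.1 x _ (hx q hq)
      apply ih ha
      · intro p hp
        rw [map_nsmul, hx p hp, smul_zero]
      · rw [← mul_smul, mul_comm, hqx]
  have hetf : ∀ n : ℕ, 0 < n → ∀ x : A, n • e x = 0 → e x = 0 := fun n hn x hx =>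
    htf n hn (e x) (fun p hp => heπ p hp x) hx
  -- divisibility of `e`
  have hdiv : ∀ n : ℕ, 0 < n → ∃ w : AddMonoid.End A, ∀ x, e x = n • w x := by
    intro n hn
    obtain ⟨t, u, v, h1, h2⟩ := exists_t hD e ((n : ℕ) : AddMonoid.End A)
    refine ⟨u, fun x => ?_⟩
    have h3 : ∀ x, n • e (t x) = 0 := by
      intro x
      have h4 : e (((n : ℕ) : AddMonoid.End A) (t x)) = e (e (v x)) :=
        congrArg e (DFunLike.congr_fun h2 x)
      have h5 : e (e (v x)) = 0 := DFunLike.congr_fun he2 (v x)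
      rw [h5] at h4
      rw [← map_nsmul, ← h4]
      congr 1
    have h6 : e (x - t x) = n • u x := by
      have := DFunLike.congr_fun h1 x
      change e (x - t x) = _ at this
      rw [this]
      rfl
    rw [← h6, map_sub, hetf n hn _ (h3 x), sub_zero]
  -- finite products of complementary idempotents
  have hprod : ∀ S : Finset ℕ, (∀ p ∈ S, p.Prime) → ∃ ρ : AddMonoid.End A, (∀ x, ρ (e x) = e x) ∧
      ∀ p ∈ S, ∀ x, π p (ρ x) = 0 := by
    intro S
    induction S using Finset.induction_on with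
    | empty => exact fun _ => ⟨1, fun x => rfl, fun p hp => absurd hp (Finset.notMem_empty _)⟩
    | insert q S _ ih =>
      intro hS
      obtain ⟨ρ, h1, h2⟩ := ih (fun p hp => hS p (Finset.mem_insert_of_mem hp))
      have hq := hS q (Finset.mem_insert_self _ _)
      have hsub : ∀ x, ((1 - π q) * ρ) x = ρ x - π q (ρ x) := fun x => rfl
      refine ⟨(1 - π q) * ρ, fun x => ?_, fun p hp x => ?_⟩
      · rw [hsub, h1, heπ q hq, sub_zero]
      · rw [hsub, map_sub]
        rcases Finset.mem_insert.1 hp with rfl | hp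
        · have h3 : π p (π p (ρ x)) = π p (ρ x) := DFunLike.congr_fun (hπ p hq).1 (ρ x)
          rw [h3, sub_self]
        · rw [hcen p (hS p (Finset.mem_insert_of_mem hp)) (π q), h2 p hp, map_zero, sub_zero]
  -- the elements divisible in the torsion-free part
  have hB : ∀ n : ℕ, 0 < n → ∀ y, ∃ b, (∀ p, p.Prime → π p b = 0) ∧ n • b = e y := by
    intro n hn y
    obtain ⟨w, hw⟩ := hdiv n hn
    obtain ⟨ρ, h1, h2⟩ := hprod n.primeFactors (fun p hp => Nat.prime_of_mem_primeFactors hp)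
    refine ⟨ρ (w y), fun p hp => ?_, ?_⟩
    · by_cases hpn : p ∈ n.primeFactors
      · exact h2 p hpn _
      · have h3 : n • π p (ρ (w y)) = 0 := by
          rw [← map_nsmul, ← map_nsmul, ← hw, h1, heπ p hp]
        obtain ⟨k, hk⟩ := (hπ p hp).2.2.2 (ρ (w y))
        have hcop : Nat.Coprime n (p ^ k) := by
          apply Nat.Coprime.pow_right
          rw [Nat.coprime_comm, Nat.Prime.coprime_iff_not_dvd hp]
          intro hdvd
          exact hpn (Nat.mem_primeFactors.2 ⟨hp, hdvd, hn.ne'⟩)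
        have h4 : addOrderOf (π p (ρ (w y))) ∣ 1 := by
          rw [← hcop]
          exact Nat.dvd_gcd (addOrderOf_dvd_iff_nsmul_eq_zero.2 h3)
            (addOrderOf_dvd_iff_nsmul_eq_zero.2 hk)
        have h5 := addOrderOf_dvd_iff_nsmul_eq_zero.1 h4
        rwa [one_smul] at h5
    · rw [← map_nsmul, ← hw, h1]
  let D : AddSubgroup A :=
    { carrier := {b | (∀ p, p.Prime → π p b = 0) ∧
        ∀ n : ℕ, 0 < n → ∃ b', (∀ p, p.Prime → π p b' = 0) ∧ n • b' = b}
      zero_mem' := ⟨fun p _ => map_zero _, fun n _ => ⟨0, fun p _ => map_zero _, smul_zero _⟩⟩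
      add_mem' := by
        rintro a b ⟨ha, ha'⟩ ⟨hb, hb'⟩
        refine ⟨fun p hp => by rw [map_add, ha p hp, hb p hp, add_zero], fun n hn => ?_⟩
        obtain ⟨a', h1, h2⟩ := ha' n hn
        obtain ⟨b', h3, h4⟩ := hb' n hn
        exact ⟨a' + b', fun p hp => by rw [map_add, h1 p hp, h3 p hp, add_zero],
          by rw [smul_add, h2, h4]⟩
      neg_mem' := by
        rintro a ⟨ha, ha'⟩
        refine ⟨fun p hp => by rw [map_neg, ha p hp, neg_zero], fun n hn => ?_⟩
        obtain ⟨a', h1, h2⟩ := ha' n hn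
        exact ⟨-a', fun p hp => by rw [map_neg, h1 p hp, neg_zero], by rw [smul_neg, h2]⟩ }
  have hDdiv : ∀ n : ℕ, 0 < n → ∀ d ∈ D, ∃ d' ∈ D, n • d' = d := by
    rintro n hn d ⟨hd, hd'⟩
    obtain ⟨b, hb, hb'⟩ := hd' n hn
    refine ⟨b, ⟨hb, fun m hm => ?_⟩, hb'⟩
    obtain ⟨c, hc, hc'⟩ := hd' (n * m) (Nat.mul_pos hn hm)
    refine ⟨c, hc, ?_⟩
    rw [← sub_eq_zero]
    apply htf n hn
    · intro p hp
      rw [map_sub, map_nsmul, hc p hp, hb p hp, smul_zero, sub_zero]
    · rw [smul_sub, ← mul_smul, hc', hb', sub_self]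
  apply he0
  ext y
  exact kill_mem hC e he2 hec D hDdiv y ⟨fun p hp => heπ p hp y, fun n hn => hB n hn y⟩

end main

end group

end Pool.Agent.R700.RDC
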