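import Pool.Agent.R700.TPDefs

/-!
Non-abelian finite Dedekind groups have commuting probability `5/8` (part of MP_7792ce_al).
-/

set_option autoImplicit false

namespace Pool.Agent.R700.TP

open Subgroup

section quat

variable {G : Type} [Group G]

theorem ded_pow_comm {x y c : G} (h : x * y = y * x * c) (hx : Commute x c) (k : ℕ) :
    x ^ k * y = y * x ^ k * c ^ k := by
  induction k with
  | zero => simp
  | succ k ih =>
    have h1 : c ^ k * x = x * c ^ k := ((hx.pow_right k).eq).symm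
    calc x ^ (k + 1) * y = x * (x ^ k * y) := by rw [pow_succ', mul_assoc]
      _ = x * y * x ^ k * c ^ k := by rw [ih]; simp only [mul_assoc]
      _ = y * x * (c * x ^ k) * c ^ k := by rw [h]; simp only [mul_assoc]
      _ = y * x * (x ^ k * c) * c ^ k := by rw [((hx.pow_left k).eq)]
      _ = y * x ^ (k + 1) * c ^ (k + 1) := by
        rw [pow_succ' x, pow_succ' c]; simp only [mul_assoc]

theorem ded_pow_formula {z y d : G} (h : z * y = y * z * d) (hz : Commute z d) (hy : Commute y d)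
    (n : ℕ) : (y * z) ^ n = y ^ n * z ^ n * d ^ (n.choose 2) := by
  induction n with
  | zero => simp
  | succ n ih =>
    have h1 := ded_pow_comm h hz n
    have h2 : d ^ (n.choose 2) * (y * z) = y * z * d ^ (n.choose 2) :=
      (((hy.mul_left hz).pow_right _).eq).symm
    have h3 : Nat.choose (n + 1) 2 = n + n.choose 2 := by
      rw [Nat.choose_succ_succ]; simp
    have h4 : d ^ n * z = z * d ^ n := ((hz.pow_right n).eq).symm
    calc (y * z) ^ (n + 1) = (y * z) ^ n * (y * z) := pow_succ _ _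
      _ = y ^ n * z ^ n * (d ^ (n.choose 2) * (y * z)) := by rw [ih]; simp only [mul_assoc]
      _ = y ^ n * (z ^ n * y) * z * d ^ (n.choose 2) := by rw [h2]; simp only [mul_assoc]
      _ = y ^ n * y * z ^ n * (d ^ n * z) * d ^ (n.choose 2) := by
        rw [h1]; simp only [mul_assoc]
      _ = y ^ (n + 1) * z ^ (n + 1) * d ^ ((n + 1).choose 2) := by
        rw [h4, h3, pow_succ y, pow_succ z, pow_add]; simp only [mul_assoc]

theorem ded_gen [Finite G] {x c : G} {p N : ℕ} (hp : 0 < p) (hx : orderOf x = N * p)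
    (hc : orderOf c = p) (hcx : c ∈ zpowers x) : zpowers c = zpowers (x ^ N) := by
  have hN : 0 < N := by
    rcases Nat.eq_zero_or_pos N with h | h
    · rw [h, zero_mul] at hx
      exact absurd hx (orderOf_pos x).ne'
    · exact h
  have hxN : orderOf (x ^ N) = p := by
    rw [orderOf_pow_of_dvd hN.ne' (by rw [hx]; exact dvd_mul_right _ _), hx,
      Nat.mul_div_cancel_left _ hN]
  obtain ⟨s, hs⟩ := (mem_powers_iff_mem_zpowers (x := x) (y := c)).2 hcx
  have hs' : x ^ s = c := hs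
  have h1 : orderOf x ∣ s * p := by
    rw [orderOf_dvd_iff_pow_eq_one, pow_mul, hs', ← hc, pow_orderOf_eq_one]
  rw [hx] at h1
  obtain ⟨t, ht⟩ := Nat.dvd_of_mul_dvd_mul_right hp h1
  have h2 : c ∈ zpowers (x ^ N) := by
    rw [← hs', ht, pow_mul]
    exact pow_mem (mem_zpowers _) _
  apply Subgroup.eq_of_le_of_card_ge
  · rwa [zpowers_le]
  · rw [Nat.card_zpowers, Nat.card_zpowers, hxN, hc]

theorem ded_order_two {u c : G} (hu : u ^ 2 = 1) (hc : c ≠ 1) (h : c ∈ zpowers u) : c = u := by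
  obtain ⟨k, hk⟩ := h
  have hk' : u ^ k = c := hk
  rcases Int.even_or_odd k with ⟨m, hm⟩ | ⟨m, hm⟩
  · exfalso
    apply hc
    rw [← hk', hm, ← two_mul, zpow_mul, zpow_ofNat, hu, one_zpow]
  · rw [← hk', hm, zpow_add, zpow_mul, zpow_ofNat, hu, one_zpow, one_mul, zpow_one]

theorem ded_core [Finite G] (hD : ∀ H : Subgroup G, H.Normal) (x y : G) (hxy : x * y ≠ y * x)
    (hmin : ∀ u v : G, u * v ≠ v * u → orderOf x + orderOf y ≤ orderOf u + orderOf v)
    (hle : orderOf y ≤ orderOf x) : x ^ 4 = 1 ∧ x ^ 2 = y ^ 2 ∧ x * y = y * x⁻¹ := by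
  obtain ⟨c, hc⟩ : ∃ c : G, c = x⁻¹ * y⁻¹ * x * y := ⟨_, rfl⟩
  have hrel : x * y = y * x * c := by rw [hc]; group
  have hrel' : y * x = x * y * c⁻¹ := by rw [hc]; group
  have hcx : c ∈ zpowers x := by
    have h1 : y⁻¹ * x * y ∈ zpowers x := by
      have := (hD (zpowers x)).conj_mem x (mem_zpowers x) y⁻¹
      simpa using this
    have h2 : x⁻¹ ∈ zpowers x := inv_mem (mem_zpowers x)
    have := mul_mem h2 h1
    rw [hc]
    simpa [mul_assoc] using this
  have hcy : c ∈ zpowers y := by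
    have h1 : x⁻¹ * y⁻¹ * x ∈ zpowers y := by
      have := (hD (zpowers y)).conj_mem y⁻¹ (inv_mem (mem_zpowers y)) x⁻¹
      simpa using this
    have := mul_mem h1 (mem_zpowers y)
    rw [hc]
    exact this
  have hxc : Commute x c := by
    obtain ⟨k, hk⟩ := hcx
    have hk' : x ^ k = c := hk
    rw [← hk']
    exact (Commute.refl x).zpow_right k
  have hyc : Commute y c := by
    obtain ⟨k, hk⟩ := hcy
    have hk' : y ^ k = c := hk
    rw [← hk']
    exact (Commute.refl y).zpow_right k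
  have hc1 : c ≠ 1 := by
    intro h
    apply hxy
    rw [hrel, h, mul_one]
  have hx0 := orderOf_pos x
  have hy0 := orderOf_pos y
  have hpx : ∀ p : ℕ, p.Prime → p ∣ orderOf x → orderOf c = p := by
    intro p hp hd
    have := Fact.mk hp
    apply orderOf_eq_prime _ hc1
    have h1 : orderOf (x ^ p) = orderOf x / p := orderOf_pow_of_dvd hp.ne_zero hd
    have h2 : orderOf (x ^ p) < orderOf x := by
      rw [h1]; exact Nat.div_lt_self hx0 hp.one_lt
    have h3 : x ^ p * y = y * x ^ p := by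
      by_contra h
      have := hmin _ _ h
      omega
    have h4 := ded_pow_comm hrel hxc p
    rw [h3] at h4
    exact (left_eq_mul.1 h4)
  have hpy : ∀ p : ℕ, p.Prime → p ∣ orderOf y → orderOf c = p := by
    intro p hp hd
    have := Fact.mk hp
    apply orderOf_eq_prime _ hc1
    have h1 : orderOf (y ^ p) = orderOf y / p := orderOf_pow_of_dvd hp.ne_zero hd
    have h2 : orderOf (y ^ p) < orderOf y := by
      rw [h1]; exact Nat.div_lt_self hy0 hp.one_lt
    have h3 : x * y ^ p = y ^ p * x := by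
      by_contra h
      have := hmin _ _ h
      omega
    have h4 := ded_pow_comm hrel' hyc.inv_right p
    rw [h3] at h4
    have h5 := left_eq_mul.1 h4
    rwa [inv_pow, inv_eq_one] at h5
  have hx1 : orderOf x ≠ 1 := by
    intro h
    rw [orderOf_eq_one_iff] at h
    apply hxy
    rw [h]; simp
  have hy1 : orderOf y ≠ 1 := by
    intro h
    rw [orderOf_eq_one_iff] at h
    apply hxy
    rw [h]; simp
  obtain ⟨p, hp, hpd⟩ := Nat.exists_prime_and_dvd hx1
  have hcp := hpx p hp hpd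
  obtain ⟨a, ha⟩ : ∃ a, orderOf x = p ^ a :=
    ⟨_, Nat.eq_prime_pow_of_unique_prime_dvd hx0.ne' (fun {d} hd hdd => by
      rw [← hcp, hpx d hd hdd])⟩
  obtain ⟨b, hb⟩ : ∃ b, orderOf y = p ^ b :=
    ⟨_, Nat.eq_prime_pow_of_unique_prime_dvd hy0.ne' (fun {d} hd hdd => by
      rw [← hcp, hpy d hd hdd])⟩
  have hab : b ≤ a := by
    rw [ha, hb] at hle
    exact (Nat.pow_le_pow_iff_right hp.one_lt).1 hle
  have hb2 : 2 ≤ b := by
    by_contra hlt
    have hb01 : b = 0 ∨ b = 1 := by omega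
    rcases hb01 with h | h
    · rw [h, pow_zero] at hb; exact hy1 hb
    · rw [h, pow_one] at hb
      have h1 : zpowers c = zpowers y := by
        apply Subgroup.eq_of_le_of_card_ge
        · rwa [zpowers_le]
        · rw [Nat.card_zpowers, Nat.card_zpowers, hb, hcp]
      have h2 : y ∈ zpowers c := by rw [h1]; exact mem_zpowers y
      obtain ⟨k, hk⟩ := h2
      have hk' : c ^ k = y := hk
      apply hxy
      rw [← hk']
      exact (hxc.zpow_right k).eq
  obtain ⟨b', rfl⟩ : ∃ b', b = b' + 2 := ⟨b - 2, by omega⟩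
  obtain ⟨e, rfl⟩ : ∃ e, a = b' + 2 + e := ⟨a - (b' + 2), by omega⟩
  obtain ⟨n, hn⟩ : ∃ n, n = p ^ (b' + 1) := ⟨_, rfl⟩
  have hyn : orderOf y = n * p := by rw [hb, hn]; ring
  have hxn : orderOf x = (n * p ^ e) * p := by rw [ha, hn]; ring
  have hn0 : 0 < n := by rw [hn]; exact pow_pos hp.pos _
  have z1 := ded_gen hp.pos hxn hcp hcx
  have z2 := ded_gen hp.pos hyn hcp hcy
  have hmem : (y ^ n)⁻¹ ∈ zpowers (x ^ (n * p ^ e)) := by
    rw [← z1, z2]; exact inv_mem (mem_zpowers _)
  obtain ⟨r, hr⟩ := (mem_powers_iff_mem_zpowers).2 hmem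
  have hr' : (x ^ (n * p ^ e)) ^ r = (y ^ n)⁻¹ := hr
  have hkey : ¬ p ∣ (r * p ^ e) * n.choose 2 := by
    intro hdvd
    have f1 : x ^ (r * p ^ e) * y = y * x ^ (r * p ^ e) * c ^ (r * p ^ e) :=
      ded_pow_comm hrel hxc _
    have f2 := ded_pow_formula f1 (hxc.pow_pow _ _) (hyc.pow_right _) n
    have f3 : (x ^ (r * p ^ e)) ^ n = (y ^ n)⁻¹ := by
      rw [← hr', ← pow_mul, ← pow_mul]
      congr 1
      ring
    have f4 : (c ^ (r * p ^ e)) ^ (n.choose 2) = 1 := by
      rw [← pow_mul]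
      obtain ⟨t, ht⟩ := hdvd
      rw [ht, pow_mul, ← hcp, pow_orderOf_eq_one, one_pow]
    rw [f3, f4, mul_one, mul_inv_cancel] at f2
    have f5 : orderOf (y * x ^ (r * p ^ e)) ≤ n :=
      Nat.le_of_dvd hn0 (orderOf_dvd_of_pow_eq_one f2)
    have f6 : x * (y * x ^ (r * p ^ e)) ≠ (y * x ^ (r * p ^ e)) * x := by
      intro h
      apply hxy
      have h1 : x ^ (r * p ^ e) * x = x * x ^ (r * p ^ e) := (pow_mul_comm' _ _)
      rw [mul_assoc y, h1, ← mul_assoc, ← mul_assoc] at h
      exact mul_right_cancel h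
    have f7 := hmin _ _ f6
    have f8 : n < orderOf y := by
      rw [hyn]
      exact lt_mul_of_one_lt_right hn0 hp.one_lt
    omega
  have he : e = 0 := by
    by_contra h
    apply hkey
    exact Dvd.dvd.mul_right (Dvd.dvd.mul_left (dvd_pow_self p h) r) _
  have hch : ¬ p ∣ n.choose 2 := fun h => hkey (Dvd.dvd.mul_left h _)
  have h2c : 2 * n.choose 2 = n * (n - 1) := by
    rw [Nat.choose_two_right]
    exact Nat.mul_div_cancel' (Nat.even_mul_pred_self n).two_dvd
  have hp2 : p = 2 := by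
    by_contra h
    apply hch
    have h1 : p ∣ 2 * n.choose 2 := by
      rw [h2c, hn, pow_succ]
      exact Dvd.dvd.mul_right (dvd_mul_left _ _) _
    rcases (hp.dvd_mul).1 h1 with h3 | h3
    · exact absurd ((Nat.prime_dvd_prime_iff_eq hp Nat.prime_two).1 h3) h
    · exact h3
  subst hp2
  have hb0 : b' = 0 := by
    by_contra h
    apply hch
    obtain ⟨b'', rfl⟩ : ∃ b'', b' = b'' + 1 := ⟨b' - 1, by omega⟩
    have h1 : 2 * n.choose 2 = 2 * (2 * (2 ^ b'' * (n - 1))) := by
      rw [h2c]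
      nth_rewrite 1 [hn]
      ring
    have h3 := Nat.eq_of_mul_eq_mul_left (by norm_num : 0 < 2) h1
    exact ⟨_, h3⟩
  subst hb0 he
  simp only [zero_add, pow_one, pow_zero, mul_one] at hn z1 z2 hxn hyn
  subst hn
  have hx4 : x ^ 4 = 1 := by
    have := pow_orderOf_eq_one x
    rw [hxn] at this
    exact this
  have hy4 : y ^ 4 = 1 := by
    have := pow_orderOf_eq_one y
    rw [hyn] at this
    exact this
  have e1 : c = x ^ 2 := ded_order_two (by rw [← pow_mul]; exact hx4) hc1
    (by rw [← z1]; exact mem_zpowers c)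
  have e2 : c = y ^ 2 := ded_order_two (by rw [← pow_mul]; exact hy4) hc1
    (by rw [← z2]; exact mem_zpowers c)
  refine ⟨hx4, e1.symm.trans e2, ?_⟩
  rw [hrel, e1]
  have h3 : x * x ^ 2 = x⁻¹ := by
    rw [← pow_succ', eq_inv_iff_mul_eq_one, ← pow_succ]
    exact hx4
  rw [mul_assoc, h3]

theorem ded_quat [Finite G] (hD : ∀ H : Subgroup G, H.Normal) (hna : ∃ a b : G, a * b ≠ b * a) :
    ∃ x y : G, x * y ≠ y * x ∧ x ^ 4 = 1 ∧ x ^ 2 = y ^ 2 ∧ x * y = y * x⁻¹ := by
  obtain ⟨a, b, hab⟩ := hna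
  obtain ⟨⟨x, y⟩, hxy, hmin⟩ := Set.exists_min_image {q : G × G | q.1 * q.2 ≠ q.2 * q.1}
    (fun q => orderOf q.1 + orderOf q.2) (Set.toFinite _) ⟨(a, b), hab⟩
  have hxy' : x * y ≠ y * x := hxy
  have hmin' : ∀ u v : G, u * v ≠ v * u → orderOf x + orderOf y ≤ orderOf u + orderOf v :=
    fun u v h => hmin (u, v) h
  rcases le_total (orderOf y) (orderOf x) with h | h
  · obtain ⟨h1, h2, h3⟩ := ded_core hD x y hxy' hmin' h
    exact ⟨x, y, hxy', h1, h2, h3⟩
  · obtain ⟨h1, h2, h3⟩ := ded_core hD y x hxy'.symm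
      (fun u v huv => by rw [add_comm]; exact hmin' u v huv) h
    exact ⟨y, x, hxy'.symm, h1, h2, h3⟩

end quat

/-- a normal cyclic subgroup of order four -/
theorem ded_conj_four {G : Type} [Group G] (hD : ∀ H : Subgroup G, H.Normal) (x g : G)
    (hx4 : x ^ 4 = 1) (hx2 : x ^ 2 ≠ 1) : g * x = x * g ∨ g * x = x⁻¹ * g := by
  have h1 : g * x * g⁻¹ ∈ zpowers x := (hD (zpowers x)).conj_mem x (mem_zpowers x) g
  obtain ⟨k, hk⟩ := h1
  have hk' : x ^ k = g * x * g⁻¹ := hk
  have hsq : (g * x * g⁻¹) ^ 2 = g * x ^ 2 * g⁻¹ := by rw [conj_pow]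
  rcases Int.even_or_odd k with ⟨m, hm⟩ | ⟨m, hm⟩
  · exfalso
    apply hx2
    have h2 : (x ^ k) ^ 2 = 1 := by
      rw [← zpow_ofNat, ← zpow_mul, hm, show (m + m) * 2 = ((4 : ℕ) : ℤ) * m by
        push_cast; ring, zpow_mul, zpow_natCast, hx4, one_zpow]
    rw [hk', hsq] at h2
    have h3 := congrArg (fun z => g⁻¹ * z * g) h2
    simpa [mul_assoc] using h3
  · rcases Int.even_or_odd m with ⟨l, hl⟩ | ⟨l, hl⟩
    · left
      have h2 : x ^ k = x := by
        rw [hm, hl, show 2 * (l + l) + 1 = ((4 : ℕ) : ℤ) * l + 1 by push_cast; ring, zpow_add,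
          zpow_mul, zpow_natCast, hx4, one_zpow, one_mul, zpow_one]
      rw [hk', mul_inv_eq_iff_eq_mul] at h2
      exact h2
    · right
      have h2 : x ^ k = x⁻¹ := by
        rw [hm, hl, show 2 * (2 * l + 1) + 1 = ((4 : ℕ) : ℤ) * (l + 1) + (-1) by push_cast; ring,
          zpow_add, zpow_mul, zpow_natCast, hx4, one_zpow, one_mul, zpow_neg_one]
      rw [hk', mul_inv_eq_iff_eq_mul] at h2
      exact h2

/-- The centralizer of `x` and `y`. -/
def CC {G : Type} [Group G] (x y : G) : Subgroup G :=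
  centralizer ({x} : Set G) ⊓ centralizer ({y} : Set G)

theorem mem_CC {G : Type} [Group G] {x y g : G} : g ∈ CC x y ↔ g * x = x * g ∧ g * y = y * g := by
  unfold CC
  rw [Subgroup.mem_inf, mem_centralizer_singleton_iff, mem_centralizer_singleton_iff]

theorem ded_abelian {G : Type} [Group G] [Finite G] (hD : ∀ H : Subgroup G, H.Normal) (x y : G)
    (hxy : x * y ≠ y * x) (hr : x * y = y * x⁻¹) (hx4 : x ^ 4 = 1) (hx2 : x ^ 2 ≠ 1) :
    ∀ c ∈ CC x y, ∀ d ∈ CC x y, c * d = d * c := by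
  by_contra hcon
  push Not at hcon
  obtain ⟨c, hc, d, hd, hcd⟩ := hcon
  have hDC : ∀ H : Subgroup (CC x y), H.Normal := by
    intro H
    have h1 : (H.map (CC x y).subtype).Normal := hD _
    constructor
    intro n hn g
    have h2 : (g : G) * (n : G) * (g : G)⁻¹ ∈ H.map (CC x y).subtype :=
      h1.conj_mem (n : G) ⟨n, hn, rfl⟩ (g : G)
    obtain ⟨m, hm, hm'⟩ := h2
    have h3 : m = g * n * g⁻¹ := Subtype.ext hm'
    rw [← h3]; exact hm
  obtain ⟨⟨u, hu⟩, ⟨v, hv⟩, huv, hu4, -, huvr⟩ := ded_quat hDC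
    ⟨⟨c, hc⟩, ⟨d, hd⟩, fun h => hcd (congrArg Subtype.val h)⟩
  have hu4' : u ^ 4 = 1 := congrArg Subtype.val hu4
  have huv' : u * v ≠ v * u := fun h => huv (Subtype.ext h)
  have huvr' : u * v = v * u⁻¹ := congrArg Subtype.val huvr
  have hu2 : u ^ 2 ≠ 1 := by
    intro h
    apply huv'
    have : u⁻¹ = u := by
      rw [inv_eq_iff_mul_eq_one, ← pow_two]; exact h
    rw [huvr', this]
  rw [mem_CC] at hu
  obtain ⟨hux, huy⟩ := hu
  have hcx : Commute x u := hux.symm
  -- `y⁻¹ (x u) y = x⁻¹ u`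
  have h1 : y⁻¹ * (x * u) * y = x⁻¹ * u := by
    have : y⁻¹ * (x * u) * y = y⁻¹ * x * (u * y) := by simp only [mul_assoc]
    rw [this, huy]
    have : y⁻¹ * x * (y * u) = y⁻¹ * (x * y) * u := by simp only [mul_assoc]
    rw [this, hr]
    simp
  have h2 : x⁻¹ * u ∈ zpowers (x * u) := by
    have := (hD (zpowers (x * u))).conj_mem (x * u) (mem_zpowers _) y⁻¹
    rw [inv_inv, h1] at this
    exact this
  obtain ⟨k, hk⟩ := (mem_powers_iff_mem_zpowers).2 h2
  have hk' : (x * u) ^ k = x⁻¹ * u := hk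
  have h4 : (x * u) ^ 4 = 1 := by rw [hcx.mul_pow, hx4, hu4', one_mul]
  have hk2 : (x * u) ^ (k % 4) = x⁻¹ * u := by
    rw [← hk']
    conv_rhs => rw [← Nat.div_add_mod k 4, pow_add, pow_mul, h4, one_pow, one_mul]
  have hnx : u ≠ x := by
    intro h
    apply hxy
    rw [← h]; exact huy
  have hlt : k % 4 < 4 := Nat.mod_lt _ (by norm_num)
  generalize k % 4 = m at hk2 hlt
  interval_cases m
  · apply hnx
    rw [pow_zero, eq_comm, inv_mul_eq_one] at hk2
    exact hk2.symm
  · apply hx2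
    rw [pow_one] at hk2
    have := mul_right_cancel hk2
    rw [pow_two]
    nth_rewrite 1 [this]
    simp
  · apply hnx
    rw [hcx.mul_pow, pow_two u, ← mul_assoc] at hk2
    have h5 := mul_right_cancel hk2
    -- x^2 u = x⁻¹
    have h6 : x ^ 3 * u = 1 := by
      rw [pow_succ', mul_assoc, h5, mul_inv_cancel]
    have h7 : x ^ 3 * x = 1 := by rw [← pow_succ]; exact hx4
    exact mul_left_cancel (h6.trans h7.symm)
  · apply hu2
    rw [hcx.mul_pow] at hk2
    have h6 : x ^ 3 = x⁻¹ := by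
      rw [eq_inv_iff_mul_eq_one, ← pow_succ]; exact hx4
    rw [h6] at hk2
    have h7 := mul_left_cancel hk2
    have h8 : u ^ 2 * u = 1 * u := by rw [← pow_succ, one_mul]; exact h7
    exact mul_right_cancel h8


/-- If the center has index four (`|G| = 4 |Z|`) and `G` is not abelian, then `cp(G) = 5/8`. -/
theorem commProb_of_center {G : Type} [Group G] [Finite G]
    (h4 : Nat.card G = 4 * Nat.card (center G)) : commProb G = 5 / 8 := by
  classical
  have := Fintype.ofFinite G
  obtain ⟨z, hz⟩ : ∃ z, z = Nat.card (center G) := ⟨_, rfl⟩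
  have hz0 : 0 < z := by rw [hz]; exact Nat.card_pos
  rw [← hz] at h4
  have h1 : ∀ g ∈ center G, cz g = 4 * z := by
    intro g hg
    rw [← h4]
    exact cz_of_central g (fun y => Subgroup.mem_center_iff.1 hg y)
  have h2 : ∀ g ∉ center G, cz g = 2 * z := by
    intro g hg
    have e1 : 2 * z ≤ cz g := by
      rw [hz]
      exact two_mul_le_cz g (center G) (fun a ha => (Subgroup.mem_center_iff.1 ha g).symm) g hg rfl
    have e2 : cz g ∣ Nat.card G := Subgroup.card_subgroup_dvd_card _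
    have e3 : cz g ≠ Nat.card G := by
      intro h
      apply hg
      have h5 : centralizer ({g} : Set G) = ⊤ := Subgroup.eq_top_of_card_eq _ h
      rw [Subgroup.mem_center_iff]
      intro y
      have h6 : y ∈ centralizer ({g} : Set G) := by rw [h5]; trivial
      rwa [mem_centralizer_singleton_iff] at h6
    obtain ⟨q, hq⟩ := e2
    have hq2 : 2 ≤ q := by
      by_contra hlt
      have : q = 0 ∨ q = 1 := by omega
      rcases this with h | h
      · rw [h, mul_zero] at hq; omega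
      · rw [h, mul_one] at hq; exact e3 hq.symm
    have h7 : cz g * 2 ≤ cz g * q := Nat.mul_le_mul_left _ hq2
    omega
  have h3 : ∑ g : G, cz g = 10 * z ^ 2 := by
    have e1 : ∀ g : G, cz g = 2 * z + if g ∈ center G then 2 * z else 0 := by
      intro g
      split_ifs with h
      · rw [h1 g h]; ring
      · rw [h2 g h, add_zero]
    rw [Finset.sum_congr rfl (fun g _ => e1 g), Finset.sum_add_distrib, Finset.sum_const,
      ← Finset.sum_filter, Finset.sum_const, Finset.card_univ, ← Nat.card_eq_fintype_card, h4]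
    have e2 : (Finset.univ.filter (fun g => g ∈ center G)).card = z := by
      rw [hz, ← Fintype.card_subtype, ← Nat.card_eq_fintype_card]
    rw [e2, smul_eq_mul, smul_eq_mul]
    ring
  have h5 := commProb_sum (G := G)
  rw [h3, h4] at h5
  push_cast at h5
  have hz' : (z : ℚ) ≠ 0 := by exact_mod_cast hz0.ne'
  have h6 : (commProb G * 8 - 5) * (2 * (z : ℚ) ^ 2) = 0 := by linear_combination h5
  rcases mul_eq_zero.1 h6 with h | h
  · linarith
  · exact absurd h (by positivity)

/-- The four cosets of the centralizer of the quaternion subgroup. -/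
theorem card_of_cosets {G : Type} [Group G] [Finite G] (C : Subgroup G) (x y : G)
    (h1 : ∀ g : G, g ∈ C ∨ x⁻¹ * g ∈ C ∨ y⁻¹ * g ∈ C ∨ (x * y)⁻¹ * g ∈ C)
    (hx : x ∉ C) (hy : y ∉ C) (hxy : x * y ∉ C) (hxy' : x⁻¹ * y ∉ C)
    (hn : C.Normal) : Nat.card G = 4 * Nat.card C := by
  have h2 : C.index = 4 := by
    have e : Fin 4 ≃ G ⧸ C := by
      refine Equiv.ofBijective (![((1 : G) : G ⧸ C), (x : G ⧸ C), (y : G ⧸ C),
        ((x * y : G) : G ⧸ C)]) ⟨?_, ?_⟩
      · have d01 : ((1 : G) : G ⧸ C) ≠ (x : G ⧸ C) := by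
          rw [Ne, QuotientGroup.eq]; simpa using hx
        have d02 : ((1 : G) : G ⧸ C) ≠ (y : G ⧸ C) := by
          rw [Ne, QuotientGroup.eq]; simpa using hy
        have d03 : ((1 : G) : G ⧸ C) ≠ ((x * y : G) : G ⧸ C) := by
          rw [Ne, QuotientGroup.eq]; simpa using hxy
        have d12 : (x : G ⧸ C) ≠ (y : G ⧸ C) := by
          rw [Ne, QuotientGroup.eq]; exact hxy'
        have d13 : (x : G ⧸ C) ≠ ((x * y : G) : G ⧸ C) := by
          rw [Ne, QuotientGroup.eq]; simpa using hy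
        have d23 : (y : G ⧸ C) ≠ ((x * y : G) : G ⧸ C) := by
          rw [Ne, QuotientGroup.eq]
          intro h
          apply hx
          have := hn.conj_mem _ h y
          simpa [mul_assoc] using this
        intro i j hij
        fin_cases i <;> fin_cases j <;> first
          | rfl
          | exact absurd hij d01
          | exact absurd hij d02
          | exact absurd hij d03
          | exact absurd hij d12
          | exact absurd hij d13
          | exact absurd hij d23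
          | exact absurd hij.symm d01
          | exact absurd hij.symm d02
          | exact absurd hij.symm d03
          | exact absurd hij.symm d12
          | exact absurd hij.symm d13
          | exact absurd hij.symm d23
      · intro q
        obtain ⟨g, rfl⟩ := QuotientGroup.mk_surjective q
        rcases h1 g with h | h | h | h
        · exact ⟨0, QuotientGroup.eq.2 (by simpa using h)⟩
        · exact ⟨1, QuotientGroup.eq.2 h⟩
        · exact ⟨2, QuotientGroup.eq.2 h⟩
        · exact ⟨3, QuotientGroup.eq.2 h⟩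
    rw [Subgroup.index, ← Nat.card_congr e, Nat.card_eq_fintype_card, Fintype.card_fin]
  rw [← h2, mul_comm]
  exact (Subgroup.card_mul_index C).symm

/-- **Non-abelian finite Dedekind groups have commuting probability `5/8`.** -/
theorem dedekind_commProb {G : Type} [Group G] [Finite G] (hD : ∀ H : Subgroup G, H.Normal)
    (hna : ∃ a b : G, a * b ≠ b * a) : commProb G = 5 / 8 := by
  obtain ⟨x, y, hxy, hx4, hx2y, hr⟩ := ded_quat hD hna
  have hx2 : x ^ 2 ≠ 1 := by
    intro h
    apply hxy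
    have : x⁻¹ = x := by rw [inv_eq_iff_mul_eq_one, ← pow_two]; exact h
    rw [hr, this]
  have hy2 : y ^ 2 ≠ 1 := by rw [← hx2y]; exact hx2
  have hy4 : y ^ 4 = 1 := by
    rw [show 4 = 2 * 2 from rfl, pow_mul, ← hx2y, ← pow_mul]; exact hx4
  have hyx : y * x = x⁻¹ * y := by
    rw [eq_inv_mul_iff_mul_eq, ← mul_assoc, hr]; simp
  have hxix : x⁻¹ * x⁻¹ = y⁻¹ * y⁻¹ := by
    rw [← mul_inv_rev, ← mul_inv_rev, ← pow_two, ← pow_two, hx2y]
  have hxinv : x⁻¹ = x * x ^ 2 := by
    rw [← pow_succ', inv_eq_iff_mul_eq_one, ← pow_succ']; exact hx4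
  have hyinv : y⁻¹ = y * y ^ 2 := by
    rw [← pow_succ', inv_eq_iff_mul_eq_one, ← pow_succ']; exact hy4
  have hxiy : x * y = y⁻¹ * x := by
    have h1 : y * x ^ 2 = x ^ 2 * y := by
      rw [hx2y, ← pow_succ, ← pow_succ']
    rw [hyinv, ← hx2y, hr, hxinv, pow_two, mul_assoc, mul_assoc]
  have hA : x⁻¹ * y⁻¹ = y * x⁻¹ := by
    have h1 : x⁻¹ * y⁻¹ = (y * x)⁻¹ := by simp
    rw [h1, hyx, mul_inv_rev, inv_inv, ← hxiy, hr]
  have hB : y⁻¹ * x⁻¹ = x * y⁻¹ := by
    have h1 : y⁻¹ * x⁻¹ = (x * y)⁻¹ := by simp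
    rw [h1, hr, mul_inv_rev, inv_inv]
  have habel := ded_abelian hD x y hxy hr hx4 hx2
  have hcos : ∀ g : G, g ∈ CC x y ∨ x⁻¹ * g ∈ CC x y ∨ y⁻¹ * g ∈ CC x y ∨
      (x * y)⁻¹ * g ∈ CC x y := by
    intro g
    rcases ded_conj_four hD x g hx4 hx2 with h1 | h1 <;>
      rcases ded_conj_four hD y g hy4 hy2 with h2 | h2
    · left
      exact mem_CC.2 ⟨h1, h2⟩
    · right; left
      refine mem_CC.2 ⟨?_, ?_⟩
      · rw [mul_assoc, h1]; simp
      · rw [mul_assoc, h2, ← mul_assoc, hA, mul_assoc]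
    · right; right; left
      refine mem_CC.2 ⟨?_, ?_⟩
      · rw [mul_assoc, h1, ← mul_assoc, hB, mul_assoc]
      · rw [mul_assoc, h2]; simp
    · right; right; right
      refine mem_CC.2 ⟨?_, ?_⟩
      · rw [mul_assoc, h1, mul_inv_rev, ← mul_assoc, hB, ← mul_assoc x, mul_assoc x y⁻¹ x⁻¹, hB]
      · rw [mul_assoc, h2, mul_inv_rev, mul_assoc, ← mul_assoc x⁻¹, hA]
        simp [mul_assoc]
  have hcen : CC x y = center G := by
    apply le_antisymm
    · intro c hc
      rw [Subgroup.mem_center_iff]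
      obtain ⟨hcx, hcy⟩ := mem_CC.1 hc
      intro g
      rcases hcos g with h | h | h | h
      · exact habel g h c hc
      · have := habel _ h c hc
        rw [mul_assoc, inv_mul_eq_iff_eq_mul] at this
        rw [this, ← mul_assoc, ← mul_assoc, ← hcx]
        simp [mul_assoc]
      · have := habel _ h c hc
        rw [mul_assoc, inv_mul_eq_iff_eq_mul] at this
        rw [this, ← mul_assoc, ← mul_assoc, ← hcy]
        simp [mul_assoc]
      · have := habel _ h c hc
        have hcxy : c * (x * y) = (x * y) * c := by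
          rw [← mul_assoc, hcx, mul_assoc, hcy, mul_assoc]
        rw [mul_assoc, inv_mul_eq_iff_eq_mul] at this
        rw [this, ← mul_assoc, ← mul_assoc, ← hcxy]
        simp [mul_assoc]
    · intro c hc
      rw [Subgroup.mem_center_iff] at hc
      exact mem_CC.2 ⟨(hc x).symm, (hc y).symm⟩
  apply commProb_of_center
  rw [← hcen]
  apply card_of_cosets (CC x y) x y hcos
  · intro h; exact hxy (mem_CC.1 h).2
  · intro h; exact hxy (mem_CC.1 h).1.symm
  · intro h
    have := (mem_CC.1 h).1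
    rw [mul_assoc] at this
    exact hxy (mul_left_cancel this).symm
  · intro h
    have := (mem_CC.1 h).2
    rw [← mul_assoc y] at this
    have h1 := mul_right_cancel this
    rw [inv_mul_eq_iff_eq_mul, ← mul_assoc, eq_mul_inv_iff_mul_eq] at h1
    exact hxy h1.symm
  · exact hD _

end Pool.Agent.R700.TP
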