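import Pool.Agent.R864.TPGroup

/-!
Transversal probability versus commuting probability (MP_7792ce_al): definitions and basic lemmas.
-/

set_option autoImplicit false

namespace Pool.Agent.R700.TP

open Subgroup

/-- The relators `a^3`, `b^(2^n)`, `b⁻¹ a b a` in the free group on `a = of 0`, `b = of 1`. -/
def gnRels (n : ℕ) : Set (FreeGroup (Fin 2)) :=
  {FreeGroup.of 0 ^ 3, FreeGroup.of 1 ^ 2 ^ n,
    (FreeGroup.of 1)⁻¹ * FreeGroup.of 0 * FreeGroup.of 1 * FreeGroup.of 0}

/-- The group `G_n = ⟨a, b | a^3 = b^(2^n) = 1, b⁻¹ a b = a⁻¹⟩`. -/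
abbrev Gn (n : ℕ) : Type := PresentedGroup (gnRels n)

open Classical in
/-- `cp(G) |G|² = ∑ |C_G(x)|`. -/
theorem commProb_eq_sum {G : Type} [Group G] [Fintype G] :
    commProb G * (Nat.card G : ℚ) ^ 2 = ∑ x : G, (Nat.card (centralizer {x}) : ℚ) := by
  have h0 : (Nat.card G : ℚ) ≠ 0 := by
    have : 0 < Nat.card G := Nat.card_pos
    positivity
  rw [commProb_def, div_mul_cancel₀ _ (pow_ne_zero 2 h0)]
  have e : {p : G × G // Commute p.1 p.2} ≃ Σ x : G, (centralizer ({x} : Set G)) :=
    { toFun := fun p => ⟨p.1.1, p.1.2, by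
        rw [Subgroup.mem_centralizer_singleton_iff]; exact p.2.eq.symm⟩
      invFun := fun q => ⟨(q.1, q.2.1), by
        have := q.2.2
        rw [Subgroup.mem_centralizer_singleton_iff] at this
        exact this.symm⟩
      left_inv := fun p => rfl
      right_inv := fun q => rfl }
  rw [Nat.card_congr e, Nat.card_sigma]
  push_cast
  rfl

/-- the order of the centralizer of an element -/
noncomputable def cz {G : Type} [Group G] (x : G) : ℕ := Nat.card (centralizer ({x} : Set G))

theorem commProb_sum {G : Type} [Group G] [Fintype G] :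
    commProb G * (Nat.card G : ℚ) ^ 2 = ((∑ x : G, cz x : ℕ) : ℚ) := by
  rw [commProb_eq_sum]
  push_cast
  rfl

theorem cz_one {G : Type} [Group G] : cz (1 : G) = Nat.card G := by
  unfold cz
  have : centralizer ({1} : Set G) = ⊤ := by
    rw [eq_top_iff]
    intro x _
    rw [Subgroup.mem_centralizer_singleton_iff]; simp
  rw [this]
  exact Nat.card_congr Subgroup.topEquiv.toEquiv

/-- If every centralizer has at least `c` elements, then `cp(G) > c/|G|`. -/
theorem commProb_gt {G : Type} [Group G] [Finite G] (c : ℕ) (hc : ∀ x : G, c ≤ cz x)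
    (h1 : c < Nat.card G) : (c : ℚ) / Nat.card G < commProb G := by
  have := Fintype.ofFinite G
  have h0 : (0 : ℚ) < Nat.card G := by
    have : 0 < Nat.card G := Nat.card_pos
    exact_mod_cast this
  have hs : c * Nat.card G < ∑ x : G, cz x := by
    have : ∑ x : G, c < ∑ x : G, cz x :=
      Finset.sum_lt_sum (fun x _ => hc x) ⟨1, Finset.mem_univ _, by rw [cz_one]; exact h1⟩
    rw [Finset.sum_const, Finset.card_univ, smul_eq_mul, ← Nat.card_eq_fintype_card] at this
    rw [mul_comm]; exact this
  have hs' : (c : ℚ) * Nat.card G < commProb G * (Nat.card G : ℚ) ^ 2 := by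
    rw [commProb_sum]; exact_mod_cast hs
  rw [div_lt_iff₀ h0]
  nlinarith

/-- Elements of a subgroup all of whose elements commute with `x`. -/
theorem le_cz {G : Type} [Group G] [Finite G] (x : G) (A : Subgroup G)
    (hA : ∀ a ∈ A, a * x = x * a) : Nat.card A ≤ cz x := by
  unfold cz
  apply Subgroup.card_le_of_le
  intro a ha
  rw [Subgroup.mem_centralizer_singleton_iff]
  exact hA a ha

theorem orderOf_le_cz {G : Type} [Group G] [Finite G] (x : G) : orderOf x ≤ cz x := by
  rw [← Nat.card_zpowers]
  apply le_cz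
  rintro _ ⟨k, rfl⟩
  exact ((Commute.refl x).zpow_left k).eq

/-- Central elements have `cz x = |G|`. -/
theorem cz_of_central {G : Type} [Group G] (x : G) (hx : ∀ y : G, y * x = x * y) :
    cz x = Nat.card G := by
  unfold cz
  have : centralizer ({x} : Set G) = ⊤ := by
    rw [eq_top_iff]
    intro y _
    rw [Subgroup.mem_centralizer_singleton_iff]; exact hx y
  rw [this]
  exact Nat.card_congr Subgroup.topEquiv.toEquiv

/-- If a subgroup `A` consists of elements commuting with `x`, and `x` commutes with an element outside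
`A`... doubling: `A < centralizer` implies `2 |A| ≤ cz x`. -/
theorem two_mul_le_cz {G : Type} [Group G] [Finite G] (x : G) (A : Subgroup G)
    (hA : ∀ a ∈ A, a * x = x * a) (y : G) (hy : y ∉ A) (hyx : y * x = x * y) :
    2 * Nat.card A ≤ cz x := by
  have hle : A ≤ centralizer ({x} : Set G) := by
    intro a ha
    rw [Subgroup.mem_centralizer_singleton_iff]
    exact hA a ha
  have hd : Nat.card A ∣ cz x := Subgroup.card_dvd_of_le hle
  have hpos : 0 < cz x := Nat.card_pos
  obtain ⟨q, hq⟩ := hd
  have hq2 : 2 ≤ q := by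
    by_contra hlt
    have hq1 : q = 1 := by
      rcases Nat.eq_zero_or_pos q with h | h
      · rw [h, mul_zero] at hq; omega
      · omega
    have : A = centralizer ({x} : Set G) :=
      Subgroup.eq_of_le_of_card_ge hle (by change cz x ≤ _; rw [hq, hq1, mul_one])
    apply hy
    rw [this, Subgroup.mem_centralizer_singleton_iff]
    exact hyx
  rw [hq, mul_comm]
  exact Nat.mul_le_mul_left _ hq2

/-- An element whose cyclic subgroup is normal and whose square is `1` is central. -/
theorem central_of_sq {G : Type} [Group G] (x : G) (hx : x ^ 2 = 1) (hn : (zpowers x).Normal)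
    (y : G) : y * x = x * y := by
  have h1 : y * x * y⁻¹ ∈ zpowers x := hn.conj_mem x (mem_zpowers x) y
  obtain ⟨k, hk⟩ := h1
  have hk' : x ^ k = y * x * y⁻¹ := hk
  rcases Int.even_or_odd k with ⟨m, hm⟩ | ⟨m, hm⟩
  · have : x ^ k = 1 := by
      rw [hm, ← two_mul, zpow_mul, zpow_ofNat, hx, one_zpow]
    rw [this] at hk'
    have h2 : x = 1 := by
      have := congrArg (fun z => y⁻¹ * z * y) hk'
      simpa [mul_assoc] using this.symm
    rw [h2]; simp
  · have : x ^ k = x := by
      rw [hm, zpow_add, zpow_mul, zpow_ofNat, hx, one_zpow, one_mul, zpow_one]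
    rw [this] at hk'
    rw [eq_mul_inv_iff_mul_eq] at hk'
    exact hk'.symm

end Pool.Agent.R700.TP
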