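import Pool.Agent.R700.TPDefs

/-!
Transversal probability versus commuting probability (MP_7792ce_al): the groups `G_n`.
-/

set_option autoImplicit false

namespace Pool.Agent.R700.TP

open Subgroup

namespace GN

/-! ### The concrete model -/

/-- Underlying set of the model `C₃ ⋊ C_{2^(m+1)}`. -/
def W (m : ℕ) : Type := ZMod 3 × ZMod (2 ^ (m + 1))

instance neZ (m : ℕ) : NeZero (2 ^ (m + 1)) := ⟨by positivity⟩

instance (m : ℕ) : DecidableEq (W m) :=
  (inferInstance : DecidableEq (ZMod 3 × ZMod (2 ^ (m + 1))))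
instance (m : ℕ) : Fintype (W m) := (inferInstance : Fintype (ZMod 3 × ZMod (2 ^ (m + 1))))

/-- the sign `(-1)^j` -/
def s {m : ℕ} (j : ZMod (2 ^ (m + 1))) : ZMod 3 := (-1) ^ j.val

lemma neg_one_pow_mod (m x : ℕ) : (-1 : ZMod 3) ^ (x % 2 ^ (m + 1)) = (-1) ^ x := by
  have h1 : (-1 : ZMod 3) ^ 2 ^ (m + 1) = 1 :=
    Even.neg_one_pow ⟨2 ^ m, by rw [pow_succ]; ring⟩
  generalize 2 ^ (m + 1) = M at *
  conv_rhs => rw [← Nat.mod_add_div x M]
  rw [pow_add, pow_mul, h1, one_pow, mul_one]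

lemma s_add {m : ℕ} (j k : ZMod (2 ^ (m + 1))) : s (j + k) = s j * s k := by
  unfold s
  rw [ZMod.val_add, neg_one_pow_mod, pow_add]

lemma s_zero {m : ℕ} : s (0 : ZMod (2 ^ (m + 1))) = 1 := by
  unfold s
  rw [ZMod.val_zero, pow_zero]

lemma s_one {m : ℕ} : s (1 : ZMod (2 ^ (m + 1))) = -1 := by
  unfold s
  have h1 : (1 : ZMod (2 ^ (m + 1))) = ((1 : ℕ) : ZMod (2 ^ (m + 1))) := by simp
  rw [h1, ZMod.val_natCast, neg_one_pow_mod, pow_one]

lemma s_cases {m : ℕ} (j : ZMod (2 ^ (m + 1))) : s j = 1 ∨ s j = -1 := neg_one_pow_eq_or _ _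

lemma s_sq {m : ℕ} (j : ZMod (2 ^ (m + 1))) : s j * s j = 1 := by
  rcases s_cases j with h | h <;> rw [h] <;> decide

lemma s_neg {m : ℕ} (j : ZMod (2 ^ (m + 1))) : s (-j) = s j := by
  have h1 : s (-j) * s j = 1 := by rw [← s_add, neg_add_cancel, s_zero]
  calc s (-j) = s (-j) * (s j * s j) := by rw [s_sq, mul_one]
    _ = s j := by rw [← mul_assoc, h1, one_mul]

instance (m : ℕ) : Mul (W m) := ⟨fun x y => (x.1 + s x.2 * y.1, x.2 + y.2)⟩
instance (m : ℕ) : One (W m) := ⟨((0 : ZMod 3), (0 : ZMod (2 ^ (m + 1))))⟩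
instance (m : ℕ) : Inv (W m) := ⟨fun x => (-(s x.2 * x.1), -x.2)⟩

instance (m : ℕ) : Group (W m) := Group.ofLeftAxioms
  (by
    intro a b c
    apply Prod.ext
    · change a.1 + s a.2 * b.1 + s (a.2 + b.2) * c.1 = a.1 + s a.2 * (b.1 + s b.2 * c.1)
      rw [s_add]; ring
    · change a.2 + b.2 + c.2 = a.2 + (b.2 + c.2)
      ring)
  (by
    intro a
    apply Prod.ext
    · change 0 + s 0 * a.1 = a.1
      rw [s_zero]; ring
    · change 0 + a.2 = a.2
      ring)
  (by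
    intro a
    apply Prod.ext
    · change -(s a.2 * a.1) + s (-a.2) * a.1 = 0
      rw [s_neg]; ring
    · change -a.2 + a.2 = 0
      ring)

variable {m : ℕ}

lemma mul_fst (x y : W m) : (x * y).1 = x.1 + s x.2 * y.1 := rfl
lemma mul_snd (x y : W m) : (x * y).2 = x.2 + y.2 := rfl
lemma one_fst : (1 : W m).1 = 0 := rfl
lemma one_snd : (1 : W m).2 = 0 := rfl
lemma inv_fst (x : W m) : (x⁻¹).1 = -(s x.2 * x.1) := rfl
lemma inv_snd (x : W m) : (x⁻¹).2 = -x.2 := rfl

/-- the projection -/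
def pr : W m →* Multiplicative (ZMod (2 ^ (m + 1))) where
  toFun x := Multiplicative.ofAdd x.2
  map_one' := rfl
  map_mul' _ _ := rfl

lemma pow_snd (x : W m) (k : ℕ) : (x ^ k).2 = k * x.2 := by
  induction k with
  | zero => simp [one_snd]
  | succ k ih =>
    rw [pow_succ x k, mul_snd, ih]
    push_cast
    ring

lemma pow_fst (x : W m) (hx : s x.2 = 1) (k : ℕ) : (x ^ k).1 = k * x.1 := by
  induction k with
  | zero => simp [one_fst]
  | succ k ih =>
    rw [pow_succ' x k, mul_fst, ih, hx]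
    push_cast
    ring

lemma card_W : Nat.card (W m) = 3 * 2 ^ (m + 1) := by
  show Nat.card (ZMod 3 × ZMod (2 ^ (m + 1))) = _
  rw [Nat.card_prod, Nat.card_zmod, Nat.card_zmod]

/-- generators -/
def wa : W m := ((1 : ZMod 3), (0 : ZMod (2 ^ (m + 1))))
def wb : W m := ((0 : ZMod 3), (1 : ZMod (2 ^ (m + 1))))

lemma wb_pow_fst (k : ℕ) : ((wb : W m) ^ k).1 = 0 := by
  induction k with
  | zero => rfl
  | succ k ih =>
    rw [pow_succ (wb : W m) k, mul_fst, ih]
    show (0 : ZMod 3) + _ * 0 = 0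
    ring

lemma wb_pow (k : ℕ) : (wb : W m) ^ k = ((0 : ZMod 3), (k : ZMod (2 ^ (m + 1)))) := by
  apply Prod.ext
  · exact wb_pow_fst k
  · show ((wb : W m) ^ k).2 = (k : ZMod (2 ^ (m + 1)))
    rw [pow_snd]
    show (k : ZMod (2 ^ (m + 1))) * 1 = k
    ring

lemma wa_pow (k : ℕ) : (wa : W m) ^ k = ((k : ZMod 3), (0 : ZMod (2 ^ (m + 1)))) := by
  apply Prod.ext
  · show ((wa : W m) ^ k).1 = (k : ZMod 3)
    rw [pow_fst _ s_zero]
    show (k : ZMod 3) * 1 = k
    ring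
  · show ((wa : W m) ^ k).2 = 0
    rw [pow_snd]
    show (k : ZMod (2 ^ (m + 1))) * 0 = 0
    ring

lemma wa3 : (wa : W m) ^ 3 = 1 := by
  rw [wa_pow]
  apply Prod.ext
  · show ((3 : ℕ) : ZMod 3) = 0
    exact ZMod.natCast_self 3
  · rfl

lemma wb2 : (wb : W m) ^ 2 ^ (m + 1) = 1 := by
  rw [wb_pow]
  apply Prod.ext
  · rfl
  · show ((2 ^ (m + 1) : ℕ) : ZMod (2 ^ (m + 1))) = 0
    exact ZMod.natCast_self _

lemma wrel : (wb : W m)⁻¹ * wa * wb * wa = 1 := by
  apply Prod.ext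
  · rw [mul_fst, mul_fst, mul_fst, mul_snd, mul_snd, inv_fst, inv_snd]
    show -(s (1 : ZMod (2 ^ (m + 1))) * 0) + s (-(1 : ZMod (2 ^ (m + 1)))) * 1 +
      s (-(1 : ZMod (2 ^ (m + 1))) + 0) * 0 + s (-(1 : ZMod (2 ^ (m + 1))) + 0 + 1) * 1 = 0
    simp only [add_zero, neg_add_cancel, s_neg, s_one, s_zero, mul_zero, neg_zero, mul_one,
      zero_add]
  · rw [mul_snd, mul_snd, mul_snd, inv_snd]
    show -(1 : ZMod (2 ^ (m + 1))) + 0 + 1 + 0 = 0
    ring

lemma w_form (x : W m) : x = wa ^ x.1.val * wb ^ x.2.val := by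
  rw [wa_pow, wb_pow]
  apply Prod.ext
  · rw [mul_fst]
    show x.1 = ((x.1.val : ℕ) : ZMod 3) + s (0 : ZMod (2 ^ (m + 1))) * 0
    rw [ZMod.natCast_zmod_val, mul_zero, add_zero]
  · rw [mul_snd]
    show x.2 = 0 + ((x.2.val : ℕ) : ZMod (2 ^ (m + 1)))
    rw [ZMod.natCast_zmod_val, zero_add]

/-! ### Generators and relations -/

/-- Elements of a group generated by `a, b` with the relations. -/
lemma form {G : Type} [Group G] (n : ℕ) (a b : G)
    (ha : a ^ 3 = 1) (hb : b ^ 2 ^ n = 1) (hab : b⁻¹ * a * b = a⁻¹) (hgen : closure {a, b} = ⊤)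
    (x : G) : ∃ i < 3, ∃ j < 2 ^ n, x = b ^ j * a ^ i := by
  have h1 : a * b = b * a ^ 2 := by
    have : a⁻¹ = a ^ 2 := by
      rw [inv_eq_iff_mul_eq_one, ← pow_succ']
      exact ha
    rw [← this, ← hab]
    group
  have h2 : ∀ i, a ^ i * b = b * a ^ (2 * i) := by
    intro i
    induction i with
    | zero => simp
    | succ i ih =>
      rw [pow_succ', mul_assoc, ih, ← mul_assoc, h1, mul_assoc, ← pow_add]
      congr 2
      ring
  have h3 : ∀ j i, a ^ i * b ^ j = b ^ j * a ^ (2 ^ j * i) := by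
    intro j
    induction j with
    | zero => intro i; simp
    | succ j ih =>
      intro i
      rw [pow_succ', ← mul_assoc, h2, mul_assoc, ih, ← mul_assoc, ← mul_assoc (2 ^ j), ← pow_succ]
  have hpos : 0 < 2 ^ n := by positivity
  let T : Subgroup G :=
    { carrier := {x | ∃ j i : ℕ, x = b ^ j * a ^ i}
      one_mem' := ⟨0, 0, by simp⟩
      mul_mem' := by
        rintro _ _ ⟨j, i, rfl⟩ ⟨j', i', rfl⟩
        refine ⟨j + j', 2 ^ j' * i + i', ?_⟩
        rw [pow_add, pow_add, ← mul_assoc, mul_assoc (b ^ j) (a ^ i), h3]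
        simp only [mul_assoc]
      inv_mem' := by
        rintro _ ⟨j, i, rfl⟩
        have e1 : (a ^ i)⁻¹ = a ^ (2 * i) := by
          rw [inv_eq_iff_mul_eq_one, ← pow_add, show i + 2 * i = 3 * i by ring, pow_mul, ha,
            one_pow]
        have e2 : (b ^ j)⁻¹ = b ^ ((2 ^ n - 1) * j) := by
          rw [inv_eq_iff_mul_eq_one, ← pow_add,
            show j + (2 ^ n - 1) * j = 2 ^ n * j by
              obtain ⟨k, hk⟩ : ∃ k, 2 ^ n = k + 1 := ⟨2 ^ n - 1, by omega⟩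
              rw [hk, Nat.add_sub_cancel]; ring, pow_mul, hb, one_pow]
        exact ⟨(2 ^ n - 1) * j, 2 ^ ((2 ^ n - 1) * j) * (2 * i), by
          rw [mul_inv_rev, e1, e2, h3]⟩ }
  have hT : x ∈ T := by
    have h4 : closure {a, b} ≤ T := by
      rw [closure_le]
      rintro y (rfl | hy)
      · exact ⟨0, 1, by simp⟩
      · rw [Set.mem_singleton_iff.1 hy]
        exact ⟨1, 0, by simp⟩
    rw [hgen] at h4
    exact h4 (mem_top x)
  obtain ⟨j, i, hx⟩ := hT
  refine ⟨i % 3, Nat.mod_lt _ (by norm_num), j % 2 ^ n, Nat.mod_lt _ hpos, ?_⟩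
  have e1 : a ^ i = a ^ (i % 3) := by
    conv_lhs => rw [← Nat.mod_add_div i 3]
    rw [pow_add, pow_mul, ha, one_pow, mul_one]
  have e2 : b ^ j = b ^ (j % 2 ^ n) := by
    conv_lhs => rw [← Nat.mod_add_div j (2 ^ n)]
    rw [pow_add, pow_mul, hb, one_pow, mul_one]
  rw [hx, e1, e2]

lemma card_le {G : Type} [Group G] (n : ℕ) (a b : G)
    (ha : a ^ 3 = 1) (hb : b ^ 2 ^ n = 1) (hab : b⁻¹ * a * b = a⁻¹) (hgen : closure {a, b} = ⊤) :
    Finite G ∧ Nat.card G ≤ 3 * 2 ^ n := by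
  have hsur : Function.Surjective fun p : Fin 3 × Fin (2 ^ n) => b ^ p.2.val * a ^ p.1.val := by
    intro x
    obtain ⟨i, hi, j, hj, hx⟩ := form n a b ha hb hab hgen x
    exact ⟨(⟨i, hi⟩, ⟨j, hj⟩), hx.symm⟩
  refine ⟨Finite.of_surjective _ hsur, ?_⟩
  have := Nat.card_le_card_of_surjective _ hsur
  rw [Nat.card_prod, Nat.card_fin, Nat.card_fin] at this
  exact this

/-- the homomorphism from `G_n` -/
def toG {G : Type} [Group G] (n : ℕ) (a b : G)
    (ha : a ^ 3 = 1) (hb : b ^ 2 ^ n = 1) (hab : b⁻¹ * a * b * a = 1) : Gn n →* G :=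
  PresentedGroup.toGroup (f := ![a, b]) (by
    intro r hr
    rcases hr with rfl | rfl | hr
    · simp [ha]
    · simp [hb]
    · rw [Set.mem_singleton_iff.1 hr]
      simp [hab])

lemma toG_surj {G : Type} [Group G] (n : ℕ) (a b : G)
    (ha : a ^ 3 = 1) (hb : b ^ 2 ^ n = 1) (hab : b⁻¹ * a * b * a = 1)
    (hgen : closure {a, b} = ⊤) : Function.Surjective (toG n a b ha hb hab) := by
  rw [← MonoidHom.range_eq_top, eq_top_iff, ← hgen, closure_le]
  rintro y (rfl | hy)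
  · exact ⟨PresentedGroup.of 0, by unfold toG; rw [PresentedGroup.toGroup.of]; rfl⟩
  · rw [Set.mem_singleton_iff.1 hy]
    exact ⟨PresentedGroup.of 1, by unfold toG; rw [PresentedGroup.toGroup.of]; rfl⟩

lemma gn_rel (n : ℕ) :
    (PresentedGroup.of 0 : Gn n) ^ 3 = 1 ∧ (PresentedGroup.of 1 : Gn n) ^ 2 ^ n = 1 ∧
    (PresentedGroup.of 1 : Gn n)⁻¹ * PresentedGroup.of 0 * PresentedGroup.of 1 =
      (PresentedGroup.of 0)⁻¹ ∧
    closure {(PresentedGroup.of 0 : Gn n), PresentedGroup.of 1} = ⊤ := by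
  refine ⟨?_, ?_, ?_, ?_⟩
  · have h1 : FreeGroup.of 0 ^ 3 ∈ gnRels n := Or.inl rfl
    have := PresentedGroup.one_of_mem h1
    rw [map_pow] at this
    exact this
  · have h1 : FreeGroup.of 1 ^ 2 ^ n ∈ gnRels n := Or.inr (Or.inl rfl)
    have := PresentedGroup.one_of_mem h1
    rw [map_pow] at this
    exact this
  · have h1 : (FreeGroup.of 1)⁻¹ * FreeGroup.of 0 * FreeGroup.of 1 * FreeGroup.of 0 ∈ gnRels n :=
      Or.inr (Or.inr rfl)
    have := PresentedGroup.one_of_mem h1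
    rw [map_mul, map_mul, map_mul, map_inv] at this
    exact eq_inv_of_mul_eq_one_left this
  · have h1 := PresentedGroup.closure_range_of (gnRels n)
    rw [← h1]
    congr 1
    ext x
    constructor
    · rintro (rfl | hx)
      · exact ⟨0, rfl⟩
      · rw [Set.mem_singleton_iff.1 hx]
        exact ⟨1, rfl⟩
    · rintro ⟨i, rfl⟩
      fin_cases i
      · exact Or.inl rfl
      · exact Or.inr rfl

lemma gn_card_le (n : ℕ) : Finite (Gn n) ∧ Nat.card (Gn n) ≤ 3 * 2 ^ n := by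
  obtain ⟨h1, h2, h3, h4⟩ := gn_rel n
  exact card_le n _ _ h1 h2 h3 h4

lemma equiv_of_card {G : Type} [Group G] [Finite G] (n : ℕ) (hcard : Nat.card G = 3 * 2 ^ n)
    (a b : G) (ha : a ^ 3 = 1) (hb : b ^ 2 ^ n = 1) (hab : b⁻¹ * a * b * a = 1)
    (hgen : closure {a, b} = ⊤) : Nonempty (Gn n ≃* G) := by
  obtain ⟨hfin, hle⟩ := gn_card_le n
  have hs := toG_surj n a b ha hb hab hgen
  have hbij : Function.Bijective (toG n a b ha hb hab) :=
    hs.bijective_of_nat_card_le (by rw [hcard]; exact hle)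
  exact ⟨MulEquiv.ofBijective _ hbij⟩

lemma w_gen : closure {(wa : W m), wb} = ⊤ := by
  rw [eq_top_iff]
  intro x _
  rw [w_form x]
  have h1 : (wa : W m) ∈ closure {(wa : W m), wb} := Subgroup.subset_closure (Or.inl rfl)
  have h2 : (wb : W m) ∈ closure {(wa : W m), wb} := Subgroup.subset_closure (Or.inr rfl)
  exact mul_mem (pow_mem h1 _) (pow_mem h2 _)

lemma equivW (m : ℕ) : Nonempty (Gn (m + 1) ≃* W m) :=
  equiv_of_card (m + 1) card_W wa wb wa3 wb2 wrel w_gen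

/-! ### The commuting probability of the model -/

/-- indicator of the even elements -/
def ev (j : ZMod (2 ^ (m + 1))) : ℕ := if s j = 1 then 1 else 0

lemma sum_ev : ∑ j : ZMod (2 ^ (m + 1)), ev j = 2 ^ m := by
  have h1 : ∑ j : ZMod (2 ^ (m + 1)), ev j = ∑ j : ZMod (2 ^ (m + 1)), ev (j + 1) :=
    (Equiv.sum_comp (Equiv.addRight (1 : ZMod (2 ^ (m + 1)))) ev).symm
  have h2 : ∀ j : ZMod (2 ^ (m + 1)), ev j + ev (j + 1) = 1 := by
    intro j
    unfold ev
    rw [s_add, s_one]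
    rcases s_cases j with h | h <;> rw [h] <;> decide
  have h3 : ∑ j : ZMod (2 ^ (m + 1)), (ev j + ev (j + 1)) = 2 ^ (m + 1) := by
    rw [Finset.sum_congr rfl fun j _ => h2 j]
    simp [ZMod.card]
  rw [Finset.sum_add_distrib, ← h1] at h3
  have h4 : (2 : ℕ) ^ (m + 1) = 2 * 2 ^ m := pow_succ' 2 m
  omega

lemma inner_count (u v : ZMod 3) (hu : u = 1 ∨ u = -1) (hv : v = 1 ∨ v = -1) :
    ∑ i : ZMod 3, ∑ i' : ZMod 3, (if i + u * i' = i' + v * i then 1 else 0) =
      3 + 6 * ((if u = 1 then 1 else 0) * (if v = 1 then 1 else 0)) := by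
  revert u v
  decide

lemma card_comm : Fintype.card {p : W m × W m // p.1 * p.2 = p.2 * p.1} =
    18 * (2 ^ m * 2 ^ m) := by
  rw [Fintype.card_subtype, Finset.card_filter, Fintype.sum_prod_type]
  have h1 : ∑ x : W m, ∑ y : W m, (if x * y = y * x then 1 else 0) =
      ∑ x : ZMod 3 × ZMod (2 ^ (m + 1)), ∑ y : ZMod 3 × ZMod (2 ^ (m + 1)),
        (if x.1 + s x.2 * y.1 = y.1 + s y.2 * x.1 then 1 else 0) := by
    refine Finset.sum_congr rfl fun x _ => Finset.sum_congr rfl fun y _ => ?_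
    congr 1
    rw [eq_iff_iff]
    constructor
    · intro h
      exact congrArg Prod.fst h
    · intro h
      apply Prod.ext
      · exact h
      · exact add_comm x.2 y.2
  rw [h1, Fintype.sum_prod_type, Finset.sum_comm]
  simp_rw [Fintype.sum_prod_type]
  have h2 : ∀ j : ZMod (2 ^ (m + 1)), ∑ i : ZMod 3, ∑ i' : ZMod 3,
      ∑ j' : ZMod (2 ^ (m + 1)), (if i + s j * i' = i' + s j' * i then 1 else 0) =
      ∑ j' : ZMod (2 ^ (m + 1)), (3 + 6 * (ev j * ev j')) := by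
    intro j
    have h3 : ∀ i : ZMod 3, ∑ i' : ZMod 3, ∑ j' : ZMod (2 ^ (m + 1)),
        (if i + s j * i' = i' + s j' * i then 1 else 0) =
        ∑ j' : ZMod (2 ^ (m + 1)), ∑ i' : ZMod 3,
        (if i + s j * i' = i' + s j' * i then 1 else 0) := fun i => Finset.sum_comm
    rw [Finset.sum_congr rfl fun i _ => h3 i, Finset.sum_comm]
    refine Finset.sum_congr rfl fun j' _ => ?_
    exact inner_count (s j) (s j') (s_cases j) (s_cases j')
  rw [Finset.sum_congr rfl fun j _ => h2 j]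
  simp_rw [Finset.sum_add_distrib, ← Finset.mul_sum, ← Finset.sum_mul, sum_ev]
  simp only [Finset.sum_const, Finset.card_univ, ZMod.card, smul_eq_mul]
  rw [pow_succ]
  ring

lemma commProb_W : commProb (W m) = 1 / 2 := by
  rw [commProb_def, card_W]
  have h1 : Nat.card {p : W m × W m // Commute p.1 p.2} = 18 * (2 ^ m * 2 ^ m) := by
    rw [← card_comm, ← Nat.card_eq_fintype_card]
    rfl
  rw [h1]
  have h2 : ((2 : ℚ) ^ m) ≠ 0 := by positivity
  have h3 : (2 : ℚ) ^ (m + 1) = 2 * 2 ^ m := pow_succ' 2 m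
  push_cast
  rw [h3]
  field_simp
  norm_num

lemma commProb_congr {G H : Type} [Group G] [Group H] (e : G ≃* H) :
    commProb G = commProb H := by
  rw [commProb_def, commProb_def, Nat.card_congr e.toEquiv]
  congr 2
  apply Nat.card_congr
  refine (Equiv.prodCongr e.toEquiv e.toEquiv).subtypeEquiv ?_
  rintro ⟨x, y⟩
  show x * y = y * x ↔ e x * e y = e y * e x
  rw [← map_mul, ← map_mul, e.injective.eq_iff]

/-! ### Subgroups of the model -/

lemma conj_snd (g x : W m) : (g * x * g⁻¹).2 = x.2 := by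
  rw [mul_snd, mul_snd, inv_snd]
  ring

/-- an element of the normal subgroup of order three -/
def mk0 (m : ℕ) (c : ZMod 3) : W m := (c, (0 : ZMod (2 ^ (m + 1))))

lemma normal_of_a {L : Subgroup (W m)} (h : ∀ c : ZMod 3, mk0 m c ∈ L) : L.Normal := by
  refine ⟨fun x hx g => ?_⟩
  have h1 : g * x * g⁻¹ = mk0 m ((g * x * g⁻¹).1 - x.1) * x := by
    apply Prod.ext
    · rw [mul_fst]
      show (g * x * g⁻¹).1 = ((g * x * g⁻¹).1 - x.1) + s (0 : ZMod (2 ^ (m + 1))) * x.1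
      rw [s_zero]
      ring
    · rw [conj_snd]
      show x.2 = 0 + x.2
      ring
  rw [h1]
  exact mul_mem (h _) hx

lemma W_nonnormal (L : Subgroup (W m)) (hL : ¬ L.Normal) :
    IsCyclic L ∧ Nat.card L = 2 ^ (m + 1) := by
  -- `L` meets `⟨a⟩` trivially
  have htriv : ∀ x ∈ L, x.2 = 0 → x.1 = 0 := by
    intro x hx h2
    by_contra h1
    apply hL
    apply normal_of_a
    intro c
    have hs1 : s x.2 = 1 := by rw [h2, s_zero]
    have hpow : ∀ k : ℕ, x ^ k = mk0 m (k * x.1) := by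
      intro k
      apply Prod.ext
      · exact pow_fst x hs1 k
      · rw [pow_snd, h2, mul_zero]
        rfl
    have hex : ∀ c d : ZMod 3, d ≠ 0 → c = ((0 : ℕ) : ZMod 3) * d ∨ c = ((1 : ℕ) : ZMod 3) * d ∨
        c = ((2 : ℕ) : ZMod 3) * d := by decide
    rcases hex c x.1 h1 with h | h | h <;> rw [h, ← hpow] <;> exact pow_mem hx _
  have hinj : Function.Injective (pr.comp L.subtype) := by
    rw [injective_iff_map_eq_one]
    intro x hx
    have h2 : x.1.2 = 0 := hx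
    have h1 := htriv x.1 x.2 h2
    apply Subtype.ext
    exact Prod.ext h1 h2
  have hcyc : IsCyclic L := isCyclic_of_injective _ hinj
  refine ⟨hcyc, ?_⟩
  have hdvd : Nat.card L ∣ 2 ^ (m + 1) := by
    have := Subgroup.card_dvd_of_injective _ hinj
    rw [Nat.card_congr Multiplicative.toAdd, Nat.card_zmod] at this
    exact this
  -- some element is odd
  obtain ⟨x, hx, hodd⟩ : ∃ x ∈ L, s x.2 = -1 := by
    by_contra hcon
    push Not at hcon
    apply hL
    refine ⟨fun x hx g => ?_⟩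
    have hs1 : s x.2 = 1 := by
      rcases s_cases x.2 with h | h
      · exact h
      · exact absurd h (hcon x hx)
    have h1 : (x ^ 2 ^ (m + 1)).2 = 0 := by
      rw [pow_snd, ZMod.natCast_self, zero_mul]
    have h2 := htriv _ (pow_mem hx _) h1
    rw [pow_fst x hs1] at h2
    have h3 : ((2 ^ (m + 1) : ℕ) : ZMod 3) = (-1) ^ (m + 1) := by
      push_cast
      congr 1
    have h4 : x.1 = 0 := by
      rw [h3] at h2
      rcases neg_one_pow_eq_or (ZMod 3) (m + 1) with h | h <;> rw [h] at h2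
      · simpa using h2
      · simpa using h2
    have h5 : g * x * g⁻¹ = x := by
      apply Prod.ext
      · rw [mul_fst, mul_fst, mul_snd, inv_fst, h4, s_add, hs1, mul_zero, add_zero, mul_one]
        show g.1 + s g.2 * -(s g.2 * g.1) = 0
        rw [show g.1 + s g.2 * -(s g.2 * g.1) = g.1 - (s g.2 * s g.2) * g.1 by ring, s_sq]
        ring
      · exact conj_snd g x
    rw [h5]
    exact hx
  obtain ⟨k, hk, hkc⟩ := (Nat.dvd_prime_pow Nat.prime_two).1 hdvd
  rcases Nat.lt_or_ge k (m + 1) with h | h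
  · exfalso
    have h1 : (⟨x, hx⟩ : L) ^ Nat.card L = 1 := pow_card_eq_one'
    rw [hkc] at h1
    have h2 : x ^ 2 ^ k = 1 := congrArg Subtype.val h1
    have h3 : x ^ 2 ^ m = 1 := by
      obtain ⟨d, rfl⟩ : ∃ d, m = k + d := ⟨m - k, by omega⟩
      rw [pow_add, pow_mul, h2, one_pow]
    have h4 : ((2 ^ m : ℕ) : ZMod (2 ^ (m + 1))) * x.2 = 0 := by
      rw [← pow_snd, h3, one_snd]
    have h5 : ((2 ^ m * x.2.val : ℕ) : ZMod (2 ^ (m + 1))) = 0 := by
      push_cast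
      rw [ZMod.natCast_zmod_val]
      push_cast at h4
      exact h4
    have h5' := (ZMod.natCast_eq_zero_iff _ _).1 h5
    have h5'' : 2 ^ m * 2 ∣ 2 ^ m * x.2.val := by
      rw [← pow_succ]
      exact h5'
    have h6 : 2 ∣ x.2.val := Nat.dvd_of_mul_dvd_mul_left (by positivity) h5''
    have h7 : s x.2 = 1 := by
      unfold s
      obtain ⟨c, hc⟩ := h6
      rw [hc, pow_mul]
      have : (-1 : ZMod 3) ^ 2 = 1 := by decide
      rw [this, one_pow]
    rw [h7] at hodd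
    exact absurd hodd (by decide)
  · rw [hkc, show k = m + 1 by omega]

/-- the subgroup `{(0, j)}` -/
def H0 (m : ℕ) : Subgroup (W m) where
  carrier := {x | x.1 = 0}
  mul_mem' := by
    intro x y hx hy
    have hx' : x.1 = 0 := hx
    have hy' : y.1 = 0 := hy
    show (x * y).1 = 0
    rw [mul_fst, hx', hy']
    ring
  one_mem' := rfl
  inv_mem' := by
    intro x hx
    have hx' : x.1 = 0 := hx
    show (x⁻¹).1 = 0
    rw [inv_fst, hx']
    ring

lemma H0_not_normal : ¬ (H0 m).Normal := by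
  intro h
  have h1 : (wa * wb * wa⁻¹ : W m) ∈ H0 m := h.conj_mem wb rfl wa
  have h2 : (wa * wb * wa⁻¹ : W m).1 = 0 := h1
  rw [mul_fst, mul_fst, mul_snd, inv_fst] at h2
  have h3 : (1 : ZMod 3) + s (0 : ZMod (2 ^ (m + 1))) * 0 +
      s ((0 : ZMod (2 ^ (m + 1))) + 1) * -(s (0 : ZMod (2 ^ (m + 1))) * 1) = 0 := h2
  rw [zero_add, s_zero, s_one] at h3
  exact absurd h3 (by decide)

end GN

open GN

theorem Gn_card (n : ℕ) (hn : 1 ≤ n) : Nat.card (Gn n) = 3 * 2 ^ n := by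
  obtain ⟨m, rfl⟩ : ∃ m, n = m + 1 := ⟨n - 1, by omega⟩
  obtain ⟨e⟩ := equivW m
  rw [Nat.card_congr e.toEquiv, card_W]

theorem Gn_equiv {G : Type} [Group G] [Finite G] (n : ℕ) (hcard : Nat.card G = 3 * 2 ^ n) (a b : G)
    (ha : a ^ 3 = 1) (hb : b ^ 2 ^ n = 1) (hab : b⁻¹ * a * b = a⁻¹) (hgen : closure {a, b} = ⊤) :
    Nonempty (G ≃* Gn n) := by
  obtain ⟨e⟩ := equiv_of_card n hcard a b ha hb (by rw [hab, inv_mul_cancel]) hgen
  exact ⟨e.symm⟩

theorem Gn_commProb (n : ℕ) (hn : 1 ≤ n) : commProb (Gn n) = 1 / 2 := by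
  obtain ⟨m, rfl⟩ : ∃ m, n = m + 1 := ⟨n - 1, by omega⟩
  obtain ⟨e⟩ := equivW m
  rw [commProb_congr e, commProb_W]

theorem Gn_nonnormal (n : ℕ) (hn : 1 ≤ n) (L : Subgroup (Gn n)) (hL : ¬ L.Normal) :
    IsCyclic L ∧ Nat.card L = 2 ^ n := by
  obtain ⟨m, rfl⟩ : ∃ m, n = m + 1 := ⟨n - 1, by omega⟩
  obtain ⟨e⟩ := equivW m
  have h1 : ¬ (L.map (e : Gn (m + 1) →* W m)).Normal := by
    intro h
    apply hL
    have h2 : L = (L.map (e : Gn (m + 1) →* W m)).comap (e : Gn (m + 1) →* W m) :=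
      (comap_map_eq_self_of_injective e.injective L).symm
    rw [h2]
    exact h.comap _
  obtain ⟨h2, h3⟩ := W_nonnormal _ h1
  have e' := e.subgroupMap L
  constructor
  · exact e'.isCyclic.2 h2
  · rw [← h3]
    exact Nat.card_congr e'.toEquiv

theorem Gn_exists_nonnormal (n : ℕ) (hn : 1 ≤ n) : ∃ L : Subgroup (Gn n), ¬ L.Normal := by
  obtain ⟨m, rfl⟩ : ∃ m, n = m + 1 := ⟨n - 1, by omega⟩
  obtain ⟨e⟩ := equivW m
  refine ⟨(H0 m).comap (e : Gn (m + 1) →* W m), fun h => ?_⟩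
  apply H0_not_normal (m := m)
  have h1 := h.map (e : Gn (m + 1) →* W m) e.surjective
  rw [map_comap_eq_self_of_surjective e.surjective] at h1
  exact h1

end Pool.Agent.R700.TP
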