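import Pool.Agent.R700.TPDefs

/-!
Transversal probability versus commuting probability (MP_7792ce_al): the generalized quaternion
group of order 16.
-/

set_option autoImplicit false

namespace Pool.Agent.R700.TP

open Subgroup

namespace Q16

open QuaternionGroup

abbrev Q : Type := QuaternionGroup 4

theorem cnt112 : Fintype.card {p : Q × Q // p.1 * p.2 = p.2 * p.1} = 112 := by
  decide +kernel

theorem card16 : Nat.card Q = 16 := by
  rw [Nat.card_eq_fintype_card]
  decide +kernel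

theorem conj_a4 : ∀ (g : Q) (i : ZMod (2 * 4)),
    g * a i * g⁻¹ = a i ∨ g * a i * g⁻¹ = (a i)⁻¹ := by
  decide +kernel

theorem conj_xa4 : ∀ (g : Q) (i : ZMod (2 * 4)), g * xa i * g⁻¹ = xa i * a 2 ^ 0 ∨
    g * xa i * g⁻¹ = xa i * a 2 ^ 1 ∨ g * xa i * g⁻¹ = xa i * a 2 ^ 2 ∨
      g * xa i * g⁻¹ = xa i * a 2 ^ 3 := by
  decide +kernel

theorem a_pow_two : ∀ i : ZMod (2 * 4), i ≠ 0 → i ≠ 4 →
    (a 2 : Q) = (a i) ^ 1 ∨ (a 2 : Q) = (a i) ^ 2 ∨ (a 2 : Q) = (a i) ^ 3 ∨
      (a 2 : Q) = (a i) ^ 4 ∨ (a 2 : Q) = (a i) ^ 5 ∨ (a 2 : Q) = (a i) ^ 6 := by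
  decide +kernel

theorem xa_pow : ∀ i : ZMod (2 * 4), (xa i : Q) ^ 4 = 1 ∧ (xa i : Q) ^ 2 = a 4 ∧
    (xa i : Q) ^ 2 ≠ 1 ∧ (xa i : Q) ^ 3 = xa (i + 4) := by
  decide +kernel

theorem four_cases : ∀ i j : ZMod (2 * 4), (4 + j - i = 0 ∨ 4 + j - i = 4) →
    (xa j : Q) = xa i ∨ (xa j : Q) = xa i ^ 3 := by
  decide +kernel

theorem ord_xa (i : ZMod (2 * 4)) : orderOf (xa i : Q) = 4 := by
  obtain ⟨h1, -, h3, -⟩ := xa_pow i
  exact orderOf_eq_prime_pow (p := 2) (n := 1) (x := (xa i : Q)) h3 h1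

end Q16

open Q16 QuaternionGroup

theorem Q16_commProb : commProb (QuaternionGroup 4) = 7 / 16 := by
  rw [commProb_def, card16]
  have h1 : Nat.card {p : Q × Q // Commute p.1 p.2} = 112 := by
    rw [← cnt112, ← Nat.card_eq_fintype_card]
    rfl
  rw [h1]
  norm_num

theorem Q16_nonnormal (L : Subgroup (QuaternionGroup 4)) (hL : ¬ L.Normal) :
    IsCyclic L ∧ Nat.card L = 4 := by
  by_cases hx : ∃ j : ZMod (2 * 4), (xa j : Q) ∈ L
  · obtain ⟨j, hj⟩ := hx
    by_cases hi : ∃ i : ZMod (2 * 4), i ≠ 0 ∧ i ≠ 4 ∧ (a i : Q) ∈ L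
    · exfalso
      apply hL
      obtain ⟨i, h0, h4, hi⟩ := hi
      have h2 : (a 2 : Q) ∈ L := by
        rcases a_pow_two i h0 h4 with h | h | h | h | h | h <;> rw [h] <;> exact L.pow_mem hi _
      refine ⟨fun x hxL g => ?_⟩
      rcases x with k | k
      · rcases conj_a4 g k with h | h
        · rw [h]; exact hxL
        · rw [h]; exact L.inv_mem hxL
      · rcases conj_xa4 g k with h | h | h | h <;> rw [h] <;>
          exact L.mul_mem hxL (L.pow_mem h2 _)
    · push Not at hi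
      have hLz : L = zpowers (xa j : Q) := by
        apply le_antisymm
        · intro x hxL
          rcases x with k | k
          · have hk : k = 0 ∨ k = 4 := by
              by_contra hcon
              push Not at hcon
              exact hi k hcon.1 hcon.2 hxL
            rcases hk with rfl | rfl
            · exact one_mem _
            · rw [← (xa_pow j).2.1]
              exact pow_mem (mem_zpowers _) 2
          · have h1 : (xa j : Q) * xa k ∈ L := L.mul_mem hj hxL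
            rw [xa_mul_xa] at h1
            have hk : 4 + k - j = 0 ∨ 4 + k - j = 4 := by
              by_contra hcon
              push Not at hcon
              exact hi _ hcon.1 hcon.2 h1
            rcases four_cases j k hk with h | h
            · rw [h]; exact mem_zpowers _
            · rw [h]; exact pow_mem (mem_zpowers _) 3
        · rw [zpowers_le]; exact hj
      rw [hLz]
      refine ⟨inferInstance, ?_⟩
      rw [Nat.card_zpowers, ord_xa]
  · exfalso
    apply hL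
    push Not at hx
    refine ⟨fun x hxL g => ?_⟩
    rcases x with k | k
    · rcases conj_a4 g k with h | h
      · rw [h]; exact hxL
      · rw [h]; exact L.inv_mem hxL
    · exact absurd hxL (hx k)

theorem Q16_exists_nonnormal : ∃ L : Subgroup (QuaternionGroup 4), ¬ L.Normal := by
  refine ⟨zpowers (xa 0 : Q), fun hN => ?_⟩
  have h1 : (a 1 : Q) * xa 0 * (a 1)⁻¹ ∈ zpowers (xa 0 : Q) :=
    hN.conj_mem _ (mem_zpowers _) _
  have h2 : (a 1 : Q) * xa 0 * (a 1)⁻¹ = xa 6 := by decide +kernel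
  have h3 : (xa 0 : Q) * xa 6 = a 2 := by decide +kernel
  have h4 : (a 2 : Q) ∈ zpowers (xa 0 : Q) := by
    rw [← h3]
    exact mul_mem (mem_zpowers _) (h2 ▸ h1)
  have h5 : Commute (a 2 : Q) (xa 0) := by
    obtain ⟨k, hk⟩ := h4
    have hk' : (xa 0 : Q) ^ k = a 2 := hk
    rw [← hk']
    exact (Commute.refl (xa 0 : Q)).zpow_left k
  have h6 : ¬ ((a 2 : Q) * xa 0 = xa 0 * a 2) := by decide +kernel
  exact h6 h5.eq

theorem Q16_equiv {G : Type} [Group G] [Finite G] (hcard : Nat.card G = 16) (x y : G)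
    (hx : orderOf x = 8) (hyx : y ^ 2 = x ^ 4) (hxy : y⁻¹ * x * y = x⁻¹) :
    Nonempty (G ≃* QuaternionGroup 4) := by
  have hx8 : x ^ 8 = 1 := by rw [← hx]; exact pow_orderOf_eq_one x
  let p : ZMod (2 * 4) → G := fun i => x ^ i.val
  have p_add : ∀ i j, p (i + j) = p i * p j := by
    intro i j
    show x ^ (i + j).val = x ^ i.val * x ^ j.val
    rw [ZMod.val_add, ← pow_add]
    conv_rhs => rw [← Nat.mod_add_div (i.val + j.val) (2 * 4)]
    rw [pow_add, pow_mul, show x ^ (2 * 4) = 1 from hx8, one_pow, mul_one]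
  have p_zero : p 0 = 1 := by
    show x ^ (0 : ZMod (2 * 4)).val = 1
    rw [ZMod.val_zero, pow_zero]
  have p_neg : ∀ i, p (-i) = (p i)⁻¹ := by
    intro i
    rw [eq_inv_iff_mul_eq_one, ← p_add, neg_add_cancel, p_zero]
  have p_four : p 4 = y * y := by
    show x ^ (4 : ZMod (2 * 4)).val = y * y
    rw [← pow_two, hyx]
    rfl
  have hsw : ∀ i, p i * y = y * (p i)⁻¹ := by
    intro i
    have h1 : x * y = y * x⁻¹ := by rw [← hxy]; group
    have h2 : ∀ n : ℕ, x ^ n * y = y * (x ^ n)⁻¹ := by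
      intro n
      induction n with
      | zero => simp
      | succ n ih =>
        rw [pow_succ, mul_assoc, h1, ← mul_assoc, ih]
        group
    exact h2 _
  let f : Q → G := fun q => match q with
    | a i => p i
    | xa i => y * p i
  have hmul : ∀ q q' : Q, f (q * q') = f q * f q' := by
    rintro (i | i) (j | j)
    · show p (i + j) = p i * p j
      exact p_add i j
    · show y * p (j - i) = p i * (y * p j)
      rw [← mul_assoc, hsw, sub_eq_add_neg, add_comm j, p_add, p_neg, mul_assoc]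
    · show y * p (i + j) = y * p i * p j
      rw [p_add, mul_assoc]
    · show p (4 + j - i) = y * p i * (y * p j)
      rw [mul_assoc, ← mul_assoc (p i) y, hsw, sub_eq_add_neg, p_add, p_add, p_four, p_neg]
      have h3 : p j * (p i)⁻¹ = (p i)⁻¹ * p j := by
        rw [← p_neg, ← p_add, ← p_add, add_comm]
      simp only [mul_assoc]
      rw [h3]
  let F : Q →* G := MonoidHom.mk' f hmul
  have hinj : Function.Injective F := by
    rw [injective_iff_map_eq_one]
    rintro (i | i) hq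
    · have h1 : x ^ i.val = 1 := hq
      have h2 := orderOf_dvd_of_pow_eq_one h1
      rw [hx] at h2
      have h3 : i.val < 8 := ZMod.val_lt i
      have h4 : i.val = 0 := Nat.eq_zero_of_dvd_of_lt h2 h3
      have h5 : i = 0 := (ZMod.val_eq_zero i).1 h4
      rw [h5]
      rfl
    · exfalso
      have h1 : y * x ^ i.val = 1 := hq
      have h2 : y = (x ^ i.val)⁻¹ := eq_inv_of_mul_eq_one_left h1
      have h3 : Commute x y := by
        rw [h2]
        exact ((Commute.refl x).pow_right _).inv_right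
      have h4 : x = x⁻¹ := by
        rw [← hxy, mul_assoc, h3.eq]
        group
      have h5 : x ^ 2 = 1 := by
        rw [pow_two]
        nth_rw 1 [h4]
        group
      have h6 := orderOf_dvd_of_pow_eq_one h5
      rw [hx] at h6
      omega
  have hbij : Function.Bijective F :=
    hinj.bijective_of_nat_card_le (by rw [hcard, card16])
  exact ⟨(MulEquiv.ofBijective F hbij).symm⟩

namespace Q16

lemma zp4 {G : Type} [Group G] {h t : G} (h4 : h ^ 4 = 1) (ht : t ∈ zpowers h) :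
    t = 1 ∨ t = h ∨ t = h ^ 2 ∨ t = h ^ 3 := by
  obtain ⟨k, hk⟩ := ht
  have hk' : h ^ k = t := hk
  have h1 : h ^ k = h ^ (k % 4) := by
    conv_lhs => rw [← Int.emod_add_mul_ediv k 4]
    rw [zpow_add, zpow_mul, show h ^ (4 : ℤ) = 1 by exact_mod_cast h4, one_zpow, mul_one]
  rw [h1] at hk'
  have h2 : k % 4 = 0 ∨ k % 4 = 1 ∨ k % 4 = 2 ∨ k % 4 = 3 := by omega
  rcases h2 with h2 | h2 | h2 | h2 <;> rw [h2] at hk'
  · left; rw [← hk', zpow_zero]
  · right; left; rw [← hk', zpow_one]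
  · right; right; left; rw [← hk']; norm_cast
  · right; right; right; rw [← hk']; norm_cast

/-- Elements of the normalizer of `⟨h⟩`, `h` of order four, fix or invert `h`. -/
lemma norm4 {G : Type} [Group G] {h u : G} (h4 : orderOf h = 4)
    (hu : u ∈ normalizer (zpowers h : Set G)) : u * h * u⁻¹ = h ∨ u * h * u⁻¹ = h⁻¹ := by
  have h41 : h ^ 4 = 1 := by rw [← h4]; exact pow_orderOf_eq_one h
  have h2 : h ^ 2 ≠ 1 := by
    intro hc
    have := orderOf_dvd_of_pow_eq_one hc
    rw [h4] at this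
    omega
  have hm : u * h * u⁻¹ ∈ zpowers h := (mem_normalizer_iff.1 hu h).1 (mem_zpowers h)
  have hc2 : (u * h * u⁻¹) ^ 2 ≠ 1 := by
    rw [conj_pow]
    intro hc
    apply h2
    rw [mul_inv_eq_one] at hc
    exact mul_left_cancel (a := u) (by rw [hc, mul_one])
  rcases zp4 h41 hm with h5 | h5 | h5 | h5
  · rw [h5, one_pow] at hc2; exact absurd rfl hc2
  · exact Or.inl h5
  · rw [h5, ← pow_mul] at hc2; exact absurd h41 hc2
  · right
    rw [h5, eq_inv_iff_mul_eq_one, ← pow_succ]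
    exact h41

/-- The main computation. -/
lemma core16 {G : Type} [Group G] [Finite G] (hcard : Nat.card G = 16)
    (hinv : ∀ x : G, x ^ 2 = 1 → ∀ y, y * x = x * y)
    (h : G) (h4 : orderOf h = 4) (hN : Nat.card (normalizer (zpowers h : Set G)) = 8)
    (g h' k : G) (hg : g ∉ normalizer (zpowers h : Set G)) (hgh : g * h * g⁻¹ = h')
    (hk : k = h * h') (hgk : g * k * g⁻¹ = k)
    (hh : h * h' * h = h') (hsq : h ^ 2 = h' ^ 2) :
    ∃ x y : G, orderOf x = 8 ∧ y ^ 2 = x ^ 4 ∧ y⁻¹ * x * y = x⁻¹ := by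
  have h41 : h ^ 4 = 1 := by rw [← h4]; exact pow_orderOf_eq_one h
  have hz1 : h ^ 2 ≠ 1 := by
    intro hc
    have := orderOf_dvd_of_pow_eq_one hc
    rw [h4] at this
    omega
  have hz : ∀ y, y * h ^ 2 = h ^ 2 * y := hinv (h ^ 2) (by rw [← pow_mul]; exact h41)
  have hidx : (normalizer (zpowers h : Set G)).index = 2 := by
    have := (normalizer (zpowers h : Set G)).index_mul_card
    rw [hN, hcard] at this
    omega
  have hnorm : (normalizer (zpowers h : Set G)).Normal := normal_of_index_eq_two hidx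
  have hhN : h ∈ normalizer (zpowers h : Set G) := le_normalizer (mem_zpowers h)
  have hh'N : h' ∈ normalizer (zpowers h : Set G) := by
    rw [← hgh]
    exact hnorm.conj_mem _ hhN _
  have hg2 : g ^ 2 ∈ normalizer (zpowers h : Set G) := sq_mem_of_index_two hidx g
  -- relations
  have hk2 : k * k = h ^ 2 := by
    rw [hk, show h * h' * (h * h') = (h * h' * h) * h' by group, hh, hsq, pow_two]
  have hgh' : g * h' * g⁻¹ = h⁻¹ := by
    have h1 : g * k * g⁻¹ = (g * h * g⁻¹) * (g * h' * g⁻¹) := by rw [hk]; group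
    rw [hgk, hgh, hk] at h1
    -- h h' = h' t, so t = h'⁻¹ h h' = h⁻¹
    have h2 : g * h' * g⁻¹ = h'⁻¹ * (h * h') := by rw [h1]; group
    rw [h2, show h'⁻¹ * (h * h') = h'⁻¹ * (h * h' * h) * h⁻¹ by group, hh]
    group
  have hg2h : g ^ 2 * h * (g ^ 2)⁻¹ = h⁻¹ := by
    rw [← hgh', ← hgh]
    simp only [pow_two, mul_inv_rev, mul_assoc]
  have hninv : h ≠ h⁻¹ := by
    intro hc
    apply hz1
    rw [pow_two]
    nth_rw 1 [hc]
    group
  -- `g²` lies in `⟨h⟩ h'`
  have hnot1 : g ^ 2 ∉ zpowers h := by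
    rintro ⟨j, hj⟩
    have hj' : h ^ j = g ^ 2 := hj
    apply hninv
    rw [← hj'] at hg2h
    have h1 : h ^ j * h * (h ^ j)⁻¹ = h := by group
    rw [h1] at hg2h
    exact hg2h
  have hh'h : h' * h = h ^ 2 * k := by
    have h1 : h' * h = h⁻¹ * (h * h' * h) := by group
    rw [h1, hh, hk, ← mul_assoc, ← pow_succ]
    have h2 : h ^ (2 + 1) = h⁻¹ := by
      rw [eq_inv_iff_mul_eq_one, ← pow_succ]
      exact h41
    rw [h2]
  have hnot2 : h' ∉ zpowers h := by
    rintro ⟨j, hj⟩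
    have hj' : h ^ j = h' := hj
    have h1 : h * h' = h' * h := by rw [← hj']; group
    apply hz1
    rw [hh'h, ← hk] at h1
    have h2 : k = h ^ 2 * k := h1
    exact (mul_eq_right.1 h2.symm)
  have hcos : ∃ t ∈ zpowers h, g ^ 2 = t * h' := by
    have hZle : zpowers h ≤ normalizer (zpowers h : Set G) := le_normalizer
    set N := normalizer (zpowers h : Set G) with hNdef
    have hZc : Nat.card ((zpowers h).subgroupOf N) = 4 := by
      rw [Nat.card_congr (subgroupOfEquivOfLe hZle).toEquiv, Nat.card_zpowers, h4]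
    have hZi : ((zpowers h).subgroupOf N).index = 2 := by
      have := ((zpowers h).subgroupOf N).index_mul_card
      rw [hZc, hN] at this
      omega
    have h1 : (⟨g ^ 2, hg2⟩ : N) * (⟨h', hh'N⟩ : N)⁻¹ ∈ (zpowers h).subgroupOf N := by
      rw [mul_mem_iff_of_index_two hZi, inv_mem_iff]
      constructor
      · intro h2
        exact absurd (mem_subgroupOf.1 h2) hnot1
      · intro h2
        exact absurd (mem_subgroupOf.1 h2) hnot2
    have h2 : g ^ 2 * h'⁻¹ ∈ zpowers h := by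
      have := mem_subgroupOf.1 h1
      simpa using this
    exact ⟨_, h2, by group⟩
  have hkk : ∀ y, y * k * y⁻¹ = k → h ^ 2 * k ≠ y * k * y⁻¹ := by
    intro y hy hc
    rw [hy] at hc
    exact hz1 (mul_eq_right.1 hc)
  -- `h` and `h'` invert `k`
  have c1 : h * k * h⁻¹ = h ^ 2 * k := by
    have h1 : h * h' * h⁻¹ = (h * h' * h) * (h ^ 2)⁻¹ := by group
    rw [hk, show h * (h * h') * h⁻¹ = h * (h * h' * h⁻¹) by group, h1, hh]
    have h2 : (h ^ 2)⁻¹ = h ^ 2 := by
      rw [inv_eq_iff_mul_eq_one, ← pow_add]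
      exact h41
    rw [h2, hz, ← mul_assoc, hz, mul_assoc]
  have c2 : h' * k * h'⁻¹ = h ^ 2 * k := by
    rw [hk, show h' * (h * h') * h'⁻¹ = h' * h by group, hh'h, hk]
  have hg2k : g ^ 2 * k * (g ^ 2)⁻¹ = k := by
    rw [show g ^ 2 * k * (g ^ 2)⁻¹ = g * (g * k * g⁻¹) * g⁻¹ by
      simp only [pow_two, mul_inv_rev, mul_assoc], hgk, hgk]
  have hgk2 : g ^ 2 = k ∨ g ^ 2 = h ^ 2 * k := by
    obtain ⟨t, ht, hgt⟩ := hcos
    rcases zp4 h41 ht with h5 | h5 | h5 | h5
    · exfalso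
      rw [hgt, h5, one_mul, c2] at hg2k
      exact hz1 (mul_eq_right.1 hg2k)
    · left
      rw [hgt, h5, hk]
    · exfalso
      rw [hgt, h5] at hg2k
      rw [show h ^ 2 * h' * k * (h ^ 2 * h')⁻¹ = h ^ 2 * (h' * k * h'⁻¹) * (h ^ 2)⁻¹ by group,
        c2, ← hz (h ^ 2 * k)] at hg2k
      rw [mul_inv_cancel_right] at hg2k
      exact hz1 (mul_eq_right.1 hg2k)
    · right
      rw [hgt, h5, hk, pow_succ, mul_assoc]
  have hg4 : g ^ 4 = h ^ 2 := by
    rw [show g ^ 4 = g ^ 2 * g ^ 2 by rw [← pow_add]]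
    rcases hgk2 with h5 | h5
    · rw [h5, hk2]
    · rw [h5, show h ^ 2 * k * (h ^ 2 * k) = h ^ 2 * (k * h ^ 2) * k by group, hz k,
        show h ^ 2 * (h ^ 2 * k) * k = h ^ 4 * (k * k) by group, h41, hk2, one_mul]
  have hord : orderOf g = 8 := by
    have := orderOf_eq_prime_pow (p := 2) (n := 2) (x := g) (by
      show ¬ g ^ 4 = 1
      rw [hg4]; exact hz1) (by
      show g ^ 8 = 1
      rw [show g ^ 8 = g ^ 4 * g ^ 4 by rw [← pow_add], hg4, ← pow_add]
      exact h41)
    simpa using this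
  -- conjugation of `g` by `h`
  have hgi : g⁻¹ * h⁻¹ * g = h' := by
    rw [← hgh']
    group
  have hconj : h⁻¹ * g * h = g * (h ^ 2 * k) := by
    rw [show h⁻¹ * g * h = g * ((g⁻¹ * h⁻¹ * g) * h) by group, hgi, hh'h]
  rcases hgk2 with h5 | h5
  · refine ⟨g, h, hord, hg4.symm, ?_⟩
    rw [hconj, ← h5, ← hg4, ← pow_add, ← pow_succ', eq_inv_iff_mul_eq_one, ← pow_succ]
    show g ^ 8 = 1
    rw [show g ^ 8 = g ^ 4 * g ^ 4 by rw [← pow_add], hg4, ← pow_add]
    exact h41
  · exfalso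
    have h6 : h⁻¹ * g * h = g ^ 3 := by
      rw [hconj, ← h5, ← pow_succ']
    have h7 : h * g * h⁻¹ = g ^ 3 := by
      have h8 : h * g * h⁻¹ = h ^ 2 * (h⁻¹ * g * h) * (h ^ 2)⁻¹ := by group
      rw [h8, h6, ← hz (g ^ 3), mul_inv_cancel_right]
    have h8 : (g * h) ^ 2 = 1 := by
      rw [pow_two, show g * h * (g * h) = g * (h * g * h⁻¹) * h ^ 2 by group, h7, ← pow_succ', hg4,
        ← pow_add]
      exact h41
    have h9 := hinv _ h8
    have h10 : g * h ∈ normalizer (zpowers h : Set G) := by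
      rw [mem_normalizer_iff]
      intro t
      rw [← h9 t, mul_inv_cancel_right]
    apply hg
    have := mul_mem h10 (inv_mem hhN)
    rwa [mul_inv_cancel_right] at this

end Q16

theorem q8_case16 {G : Type} [Group G] [Finite G] (hcard : Nat.card G = 16)
    (hinv : ∀ x : G, x ^ 2 = 1 → ∀ y, y * x = x * y)
    (h : G) (h4 : orderOf h = 4) (hN : Nat.card (normalizer (zpowers h : Set G)) = 8)
    (g : G) (hg : g ∉ normalizer (zpowers h : Set G)) (hnc : ¬ Commute h (g * h * g⁻¹)) :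
    ∃ x y : G, orderOf x = 8 ∧ y ^ 2 = x ^ 4 ∧ y⁻¹ * x * y = x⁻¹ := by
  have h41 : h ^ 4 = 1 := by rw [← h4]; exact pow_orderOf_eq_one h
  have hz : ∀ y, y * h ^ 2 = h ^ 2 * y := hinv (h ^ 2) (by rw [← pow_mul]; exact h41)
  have hidx : (normalizer (zpowers h : Set G)).index = 2 := by
    have := (normalizer (zpowers h : Set G)).index_mul_card
    rw [hN, hcard] at this
    omega
  have hnorm : (normalizer (zpowers h : Set G)).Normal := normal_of_index_eq_two hidx
  have hhN : h ∈ normalizer (zpowers h : Set G) := le_normalizer (mem_zpowers h)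
  obtain ⟨h', hgh⟩ : ∃ h', g * h * g⁻¹ = h' := ⟨_, rfl⟩
  rw [hgh] at hnc
  have hh'N : h' ∈ normalizer (zpowers h : Set G) := by
    rw [← hgh]
    exact hnorm.conj_mem _ hhN _
  -- `h'` inverts `h`
  have r1 : h' * h * h'⁻¹ = h⁻¹ := by
    rcases norm4 h4 hh'N with h5 | h5
    · exact absurd (by rw [mul_inv_eq_iff_eq_mul] at h5; exact h5.symm) hnc
    · exact h5
  -- `h` inverts `h'`
  have r2 : h * h' * h⁻¹ = h'⁻¹ := by
    have h6 : g⁻¹ * h * g ∈ normalizer (zpowers h : Set G) := by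
      have := hnorm.conj_mem h hhN g⁻¹
      simpa using this
    rcases norm4 h4 h6 with h5 | h5
    · exfalso
      apply hnc
      have h7 : h * h' * h⁻¹ = h' := by
        have h8 : h * h' * h⁻¹ = g * (g⁻¹ * h * g * h * (g⁻¹ * h * g)⁻¹) * g⁻¹ := by
          rw [← hgh]; group
        rw [h8, h5, hgh]
      rw [mul_inv_eq_iff_eq_mul] at h7
      exact h7
    · have h8 : h * h' * h⁻¹ = g * (g⁻¹ * h * g * h * (g⁻¹ * h * g)⁻¹) * g⁻¹ := by
        rw [← hgh]; group
      rw [h8, h5, ← hgh]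
      group
  have hh : h * h' * h = h' := by
    have h5 : h' * h = h⁻¹ * h' := by rw [← r1]; group
    rw [mul_assoc, h5]
    group
  have hsq : h ^ 2 = h' ^ 2 := by
    have h5 : h * h' = h'⁻¹ * h := by rw [← r2]; group
    have h6 : h'⁻¹ * h * h = h' := by rw [← h5]; exact hh
    rw [pow_two, pow_two]
    calc h * h = h' * (h'⁻¹ * h * h) := by group
      _ = h' * h' := by rw [h6]
  have hg2 : g ^ 2 ∈ normalizer (zpowers h : Set G) := sq_mem_of_index_two hidx g
  obtain ⟨k, hk⟩ : ∃ k, k = h * h' := ⟨_, rfl⟩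
  have hinvz : (h ^ 2)⁻¹ = h ^ 2 := by
    rw [inv_eq_iff_mul_eq_one, ← pow_add]
    exact h41
  have hinvh : h⁻¹ = h ^ 2 * h := by
    rw [inv_eq_iff_mul_eq_one, ← pow_succ, ← pow_succ']
    exact h41
  have hinvh' : h'⁻¹ = h ^ 2 * h' := by
    rw [hsq, inv_eq_iff_mul_eq_one, ← pow_succ, ← pow_succ']
    have : h' ^ 4 = (h' ^ 2) ^ 2 := by rw [← pow_mul]
    show h' ^ 4 = 1
    rw [this, ← hsq, ← pow_mul]
    exact h41
  have hh'h : h' * h = h ^ 2 * k := by
    have h5 : h' * h = h⁻¹ * h' := by rw [← r1]; group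
    rw [h5, hinvh, hk, mul_assoc]
  have hkconj : g * k * g⁻¹ = h' * (g * h' * g⁻¹) := by
    rw [hk, ← hgh]; group
  have hgg : g * h' * g⁻¹ = g ^ 2 * h * (g ^ 2)⁻¹ := by
    rw [← hgh]
    simp only [pow_two, mul_inv_rev, mul_assoc]
  rcases norm4 h4 hg2 with h5 | h5
  · -- replace `g` by `g h`
    have h6 : g * k * g⁻¹ = h ^ 2 * k := by
      rw [hkconj, hgg, h5, hh'h]
    refine core16 hcard hinv h h4 hN (g * h) h' k ?_ ?_ hk ?_ hh hsq
    · intro h7
      apply hg
      have := mul_mem h7 (inv_mem hhN)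
      rwa [mul_inv_cancel_right] at this
    · rw [← hgh]; group
    · have h7 : h * k * h⁻¹ = h ^ 2 * k := by
        rw [hk, show h * (h * h') * h⁻¹ = h * (h * h' * h⁻¹) by group, r2, hinvh', ← mul_assoc,
          hz, mul_assoc]
      rw [show g * h * k * (g * h)⁻¹ = g * (h * k * h⁻¹) * g⁻¹ by group, h7,
        show g * (h ^ 2 * k) * g⁻¹ = (g * h ^ 2) * k * g⁻¹ by group, hz,
        show h ^ 2 * g * k * g⁻¹ = h ^ 2 * (g * k * g⁻¹) by group, h6, ← mul_assoc, ← pow_add]
      rw [show h ^ (2 + 2) = 1 from h41, one_mul]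
  · refine core16 hcard hinv h h4 hN g h' k hg hgh hk ?_ hh hsq
    rw [hkconj, hgg, h5, hinvh, ← mul_assoc, hz, mul_assoc, hh'h, ← mul_assoc, ← pow_add]
    rw [show h ^ (2 + 2) = 1 from h41, one_mul]

end Pool.Agent.R700.TP
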