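import Pool.Agent.R700.TPDefs

set_option autoImplicit false

namespace Pool.Agent.R700.TP

open Subgroup

theorem q8_sq_ne {G : Type} [Group G] (h : G) (h4 : orderOf h = 4) : h ^ 2 ≠ 1 := by
  intro e
  have h1 := orderOf_dvd_of_pow_eq_one e
  rw [h4] at h1
  norm_num at h1

theorem q8_four {G : Type} [Group G] (h : G) (h4 : orderOf h = 4) : h ^ 4 = 1 := by
  rw [← h4]; exact pow_orderOf_eq_one h

/-- conjugates of an element of order four inside its cyclic group -/
theorem q8_conj {G : Type} [Group G] (h x : G) (h4 : orderOf h = 4)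
    (hx : x * h * x⁻¹ ∈ zpowers h) : x * h = h * x ∨ x * h = h⁻¹ * x := by
  have hp4 := q8_four h h4
  have h2 := q8_sq_ne h h4
  obtain ⟨k, hk⟩ := hx
  have hk' : h ^ k = x * h * x⁻¹ := hk
  have hmod : h ^ (k % 4) = x * h * x⁻¹ := by
    rw [← hk', ← zpow_mod_orderOf h k, h4]
    rfl
  have hc : x * h ^ 2 * x⁻¹ = (x * h * x⁻¹) ^ 2 := by
    rw [sq, sq]; group
  rcases (by omega : k % 4 = 0 ∨ k % 4 = 1 ∨ k % 4 = 2 ∨ k % 4 = 3) with e | e | e | e
  · exfalso
    rw [e, zpow_zero] at hmod
    rw [← hmod, one_pow, mul_inv_eq_one] at hc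
    exact h2 (mul_eq_left.1 hc)
  · left
    rw [e, zpow_one, eq_mul_inv_iff_mul_eq] at hmod
    exact hmod.symm
  · exfalso
    have e2 : h ^ (2 : ℤ) = h ^ 2 := zpow_ofNat h 2
    rw [e, e2] at hmod
    rw [← hmod, ← pow_mul, hp4, mul_inv_eq_one] at hc
    exact h2 (mul_eq_left.1 hc)
  · right
    have e2 : h ^ (3 : ℤ) = h⁻¹ := by
      rw [eq_inv_iff_mul_eq_one, ← zpow_add_one]
      have : h ^ ((3 : ℤ) + 1) = h ^ 4 := zpow_ofNat h 4
      rw [this, hp4]
    rw [e, e2, eq_mul_inv_iff_mul_eq] at hmod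
    exact hmod.symm

theorem q8_common {G : Type} [Group G] [Finite G] (h g k : G) (h4 : orderOf h = 4)
    (hidx : Nat.card G = 2 * Nat.card (normalizer (zpowers h : Set G)))
    (hz : ∀ y : G, y * h ^ 2 = h ^ 2 * y) (hk : k = g * h * g⁻¹)
    (hnc : ¬ Commute h k) :
    k ^ 2 = h ^ 2 ∧ k * h = h⁻¹ * k ∧ h * k = k⁻¹ * h ∧
    (∀ x ∈ normalizer (zpowers h : Set G), ∃ c ∈ centralizer ({h, k} : Set G),
      x = c ∨ x = h * c ∨ x = k * c ∨ x = h * k * c) ∧
    Nat.card (normalizer (zpowers h : Set G)) = 4 * Nat.card (centralizer ({h, k} : Set G)) := by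
  have hp4 := q8_four h h4
  have h2 := q8_sq_ne h h4
  set N := normalizer (zpowers h : Set G) with hNdef
  have hNi : N.index = 2 := by
    have h1 := N.card_mul_index
    have h3 : 0 < Nat.card N := Nat.card_pos
    rw [hidx, mul_comm 2] at h1
    exact Nat.eq_of_mul_eq_mul_left h3 h1
  have hNn : N.Normal := normal_of_index_eq_two hNi
  have hhN : h ∈ N := le_normalizer (mem_zpowers h)
  have hkN : k ∈ N := by rw [hk]; exact hNn.conj_mem h hhN g
  have hk2 : k ^ 2 = h ^ 2 := by
    have : k ^ 2 = g * h ^ 2 * g⁻¹ := by rw [hk, sq, sq]; group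
    rw [this, hz g, mul_inv_cancel_right]
  have hk4 : orderOf k = 4 := by
    have e : k = (MulAut.conj g) h := by rw [hk, MulAut.conj_apply]
    rw [e, MulEquiv.orderOf_eq, h4]
  have cN : ∀ x ∈ N, x * h = h * x ∨ x * h = h⁻¹ * x := by
    intro x hx
    exact q8_conj h x h4 ((mem_normalizer_iff.1 hx h).1 (mem_zpowers h))
  have cN' : ∀ x ∈ N, x * k = k * x ∨ x * k = k⁻¹ * x := by
    intro x hx
    have hx' : g⁻¹ * x * g ∈ N := by
      have := hNn.conj_mem x hx g⁻¹
      rwa [inv_inv] at this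
    rcases cN _ hx' with e | e
    · left
      have := congrArg (fun t => g * t * g⁻¹) e
      rw [hk]
      simpa [mul_assoc] using this
    · right
      have := congrArg (fun t => g * t * g⁻¹) e
      rw [hk]
      simpa [mul_assoc] using this
  have r1 : k * h = h⁻¹ * k := by
    rcases cN k hkN with e | e
    · exact absurd e.symm hnc
    · exact e
  have r2 : h * k = k⁻¹ * h := by
    rcases cN' h hhN with e | e
    · exact absurd e hnc
    · exact e
  have hkn : k⁻¹ ≠ k := by
    intro e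
    have : k ^ 2 = 1 := by rw [sq]; nth_rewrite 1 [← e]; exact inv_mul_cancel k
    exact q8_sq_ne k hk4 this
  have hhn : h⁻¹ ≠ h := by
    intro e
    have : h ^ 2 = 1 := by rw [sq]; nth_rewrite 1 [← e]; exact inv_mul_cancel h
    exact h2 this
  have mC : ∀ c : G, c ∈ centralizer ({h, k} : Set G) ↔ (c * h = h * c ∧ c * k = k * c) := by
    intro c
    rw [mem_centralizer_iff]
    simp only [Set.mem_insert_iff, Set.mem_singleton_iff, forall_eq_or_imp, forall_eq]
    constructor
    · rintro ⟨a, b⟩; exact ⟨a.symm, b.symm⟩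
    · rintro ⟨a, b⟩; exact ⟨a.symm, b.symm⟩
  have r3 : k * h⁻¹ = h⁻¹ * k⁻¹ := by
    have := congrArg (fun t => h⁻¹ * t * h⁻¹) r2
    simpa [mul_assoc] using this
  have r4 : h * k⁻¹ = k⁻¹ * h⁻¹ := by
    have := congrArg (fun t => k⁻¹ * t * k⁻¹) r1
    simpa [mul_assoc] using this
  have hdec : ∀ x ∈ N, ∃ c ∈ centralizer ({h, k} : Set G),
      x = c ∨ x = h * c ∨ x = k * c ∨ x = h * k * c := by
    intro x hx
    rcases cN x hx with e | e <;> rcases cN' x hx with e' | e'
    · exact ⟨x, (mC x).2 ⟨e, e'⟩, Or.inl rfl⟩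
    · refine ⟨h⁻¹ * x, (mC _).2 ⟨?_, ?_⟩, Or.inr (Or.inl (by group))⟩
      · rw [mul_assoc, e]; group
      · rw [mul_assoc, e', ← mul_assoc, ← r3, mul_assoc]
    · refine ⟨k⁻¹ * x, (mC _).2 ⟨?_, ?_⟩, Or.inr (Or.inr (Or.inl (by group)))⟩
      · rw [mul_assoc, e, ← mul_assoc, ← r4, mul_assoc]
      · rw [mul_assoc, e']; group
    · refine ⟨k⁻¹ * h⁻¹ * x, (mC _).2 ⟨?_, ?_⟩, Or.inr (Or.inr (Or.inr (by group)))⟩
      · rw [mul_assoc, e, ← mul_assoc, ← mul_assoc, ← mul_assoc, r4]
      · rw [mul_assoc, e', mul_assoc, ← mul_assoc h⁻¹, ← r3]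
        group
  refine ⟨hk2, r1, r2, hdec, ?_⟩
  have hCN : ∀ c ∈ centralizer ({h, k} : Set G), c ∈ N := by
    intro c hc
    have h1 := ((mC c).1 hc).1
    have hcm : Commute c h := h1
    rw [mem_normalizer_iff]
    intro y
    constructor
    · rintro ⟨m, rfl⟩
      refine ⟨m, ?_⟩
      show h ^ m = c * h ^ m * c⁻¹
      rw [(hcm.zpow_right m).eq, mul_inv_cancel_right]
    · rintro ⟨m, hm⟩
      refine ⟨m, ?_⟩
      have hm' : h ^ m = c * y * c⁻¹ := hm
      show h ^ m = y
      have h5 : h ^ m * c = c * y := by rw [hm']; group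
      rw [← (hcm.zpow_right m).eq] at h5
      exact mul_left_cancel h5
  let F : Bool × Bool × centralizer ({h, k} : Set G) → N := fun p =>
    ⟨(if p.1 then h else 1) * (if p.2.1 then k else 1) * (p.2.2 : G), by
      refine N.mul_mem (N.mul_mem ?_ ?_) (hCN _ p.2.2.2)
      · split_ifs
        · exact hhN
        · exact N.one_mem
      · split_ifs
        · exact hkN
        · exact N.one_mem⟩
  have P1 : ∀ p, (F p : G) * h = (if p.2.1 then h⁻¹ else h) * (F p : G) := by
    rintro ⟨b1, b2, c, hc⟩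
    have hc' := (mC c).1 hc
    show (if b1 then h else 1) * (if b2 then k else 1) * c * h =
      (if b2 then h⁻¹ else h) * ((if b1 then h else 1) * (if b2 then k else 1) * c)
    rw [mul_assoc _ c h, hc'.1, ← mul_assoc _ h c]
    cases b1 <;> cases b2
    · simp
    · simp only [if_true, if_false, one_mul, Bool.false_eq_true]
      rw [r1, mul_assoc]
    · simp only [if_true, if_false, mul_one, Bool.false_eq_true, mul_assoc]
    · simp only [if_true]
      rw [mul_assoc h k h, r1]
      group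
  have P2 : ∀ p, (F p : G) * k = (if p.1 then k⁻¹ else k) * (F p : G) := by
    rintro ⟨b1, b2, c, hc⟩
    have hc' := (mC c).1 hc
    show (if b1 then h else 1) * (if b2 then k else 1) * c * k =
      (if b1 then k⁻¹ else k) * ((if b1 then h else 1) * (if b2 then k else 1) * c)
    rw [mul_assoc _ c k, hc'.2, ← mul_assoc _ k c]
    cases b1 <;> cases b2
    · simp
    · simp only [if_true, if_false, one_mul, Bool.false_eq_true, mul_assoc]
    · simp only [if_true, if_false, mul_one, Bool.false_eq_true]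
      rw [r2, mul_assoc]
    · simp only [if_true]
      rw [r2, mul_assoc k⁻¹ h k, r2]
      group
  have hinj : Function.Injective F := by
    intro p q hpq
    have hpq' : (F p : G) = (F q : G) := by rw [hpq]
    have e1 : (if p.2.1 then h⁻¹ else h) = (if q.2.1 then h⁻¹ else h) := by
      have h5 := P1 p
      rw [hpq', P1 q] at h5
      exact (mul_right_cancel h5).symm
    have e2 : (if p.1 then k⁻¹ else k) = (if q.1 then k⁻¹ else k) := by
      have h5 := P2 p
      rw [hpq', P2 q] at h5
      exact (mul_right_cancel h5).symm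
    obtain ⟨b1, b2, c, hc⟩ := p
    obtain ⟨b1', b2', c', hc'⟩ := q
    have hb2 : b2 = b2' := by
      cases b2 <;> cases b2'
      · rfl
      · simp at e1; exact absurd e1.symm hhn
      · simp at e1; exact absurd e1 hhn
      · rfl
    have hb1 : b1 = b1' := by
      cases b1 <;> cases b1'
      · rfl
      · simp at e2; exact absurd e2.symm hkn
      · simp at e2; exact absurd e2 hkn
      · rfl
    subst hb1 hb2
    have h6 : (if b1 then h else 1) * (if b2 then k else 1) * c =
      (if b1 then h else 1) * (if b2 then k else 1) * c' := hpq'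
    have h7 := mul_left_cancel h6
    subst h7
    rfl
  have hsurj : Function.Surjective F := by
    rintro ⟨x, hx⟩
    obtain ⟨c, hc, e | e | e | e⟩ := hdec x hx
    · exact ⟨(false, false, ⟨c, hc⟩), Subtype.ext (by simp [F, e])⟩
    · exact ⟨(true, false, ⟨c, hc⟩), Subtype.ext (by simp [F, e])⟩
    · exact ⟨(false, true, ⟨c, hc⟩), Subtype.ext (by simp [F, e])⟩
    · exact ⟨(true, true, ⟨c, hc⟩), Subtype.ext (by simp [F, e])⟩
  have := Nat.card_congr (Equiv.ofBijective F ⟨hinj, hsurj⟩)
  rw [← this, Nat.card_prod, Nat.card_prod, Nat.card_eq_fintype_card, Fintype.card_bool]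
  ring

theorem q8_case32 {G : Type} [Group G] [Finite G] (hcard : Nat.card G = 32)
    (hinv : ∀ x : G, x ^ 2 = 1 → ∀ y, y * x = x * y)
    (h : G) (h4 : orderOf h = 4) (hN : Nat.card (normalizer (zpowers h : Set G)) = 16)
    (g : G) (hg : g ∉ normalizer (zpowers h : Set G)) (hnc : ¬ Commute h (g * h * g⁻¹)) :
    1 / 4 < commProb G := by
  have hp4 := q8_four h h4
  have h2 := q8_sq_ne h h4
  have hz : ∀ y : G, y * h ^ 2 = h ^ 2 * y :=
    hinv (h ^ 2) (by rw [← pow_mul]; exact hp4)
  obtain ⟨k, hk⟩ : ∃ k, k = g * h * g⁻¹ := ⟨_, rfl⟩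
  rw [← hk] at hnc
  obtain ⟨hk2, r1, r2, hdec, hcd⟩ := q8_common h g k h4 (by rw [hcard, hN]) hz hk hnc
  rw [hN] at hcd
  set C := centralizer ({h, k} : Set G) with hC
  have hC4 : Nat.card C = 4 := by omega
  have mC : ∀ c : G, c ∈ C ↔ (c * h = h * c ∧ c * k = k * c) := by
    intro c
    rw [hC, mem_centralizer_iff]
    simp only [Set.mem_insert_iff, Set.mem_singleton_iff, forall_eq_or_imp, forall_eq]
    constructor
    · rintro ⟨a, b⟩; exact ⟨a.symm, b.symm⟩
    · rintro ⟨a, b⟩; exact ⟨a.symm, b.symm⟩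
  have hzC : h ^ 2 ∈ C := (mC _).2 ⟨(hz h).symm, (hz k).symm⟩
  have hsq : ∀ c ∈ C, c ^ 2 = 1 := by
    intro c hc
    by_contra hne
    have hc4 : c ^ 4 = 1 := by
      have : (⟨c, hc⟩ : C) ^ Nat.card C = 1 := pow_card_eq_one'
      rw [hC4] at this
      exact congrArg Subtype.val this
    have ho : orderOf c = 4 := by
      have : orderOf c = 2 ^ (1 + 1) := orderOf_eq_prime_pow (by simpa using hne) (by simpa using hc4)
      simpa using this
    have hzp : zpowers c = C := by
      apply Subgroup.eq_of_le_of_card_ge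
      · rw [zpowers_le]; exact hc
      · rw [hC4, Nat.card_zpowers, ho]
    have hzc : c ^ 2 = h ^ 2 := by
      have h5 : h ^ 2 ∈ zpowers c := by rw [hzp]; exact hzC
      obtain ⟨m, hm⟩ := h5
      have hm' : c ^ (m % 4) = h ^ 2 := by
        have : c ^ m = h ^ 2 := hm
        rw [← this, ← zpow_mod_orderOf c m, ho]
        rfl
      have hsq2 : (h ^ 2) ^ 2 = 1 := by rw [← pow_mul]; exact hp4
      rcases (by omega : m % 4 = 0 ∨ m % 4 = 1 ∨ m % 4 = 2 ∨ m % 4 = 3) with e | e | e | e
      · rw [e, zpow_zero] at hm'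
        exact absurd hm'.symm h2
      · rw [e, zpow_one] at hm'
        rw [← hm'] at hsq2
        exact absurd hsq2 hne
      · rw [e] at hm'
        have e2 : c ^ (2 : ℤ) = c ^ 2 := zpow_ofNat c 2
        rwa [e2] at hm'
      · rw [e] at hm'
        have e2 : c ^ (3 : ℤ) = c ^ 3 := zpow_ofNat c 3
        rw [e2] at hm'
        rw [← hm', ← pow_mul] at hsq2
        have e3 : c ^ (3 * 2) = c ^ 4 * c ^ 2 := by rw [← pow_add]
        rw [e3, hc4, one_mul] at hsq2
        exact absurd hsq2 hne
    have hch := ((mC c).1 hc).1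
    have hck := ((mC c).1 hc).2
    have hhc2 : (h * c) ^ 2 = 1 := by
      have : (h * c) ^ 2 = h ^ 2 * c ^ 2 := by
        have hcm : Commute h c := hch.symm
        exact hcm.mul_pow 2
      rw [this, hzc, ← pow_add]
      exact hp4
    have h6 := hinv (h * c) hhc2 k
    apply hnc
    show h * k = k * h
    have h7 : h * k * c = k * h * c := by
      rw [mul_assoc h k c, ← hck, ← mul_assoc, ← h6, mul_assoc]
    exact mul_right_cancel h7
  have hcen : ∀ c ∈ C, ∀ y, y * c = c * y := fun c hc => hinv c (hsq c hc)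
  have hall : ∀ x : G, 8 ≤ cz x := by
    intro x
    by_cases hx : x ∈ C
    · rw [cz_of_central x (hcen x hx), hcard]; norm_num
    · have := two_mul_le_cz x C (fun a ha => (hcen a ha x).symm) x hx rfl
      rw [hC4] at this
      exact this
  have := commProb_gt 8 hall (by rw [hcard]; norm_num)
  rw [hcard] at this
  norm_num at this
  norm_num
  exact this

theorem q8_case48 {G : Type} [Group G] [Finite G] (hcard : Nat.card G = 48)
    (hmin : ∀ x : G, orderOf x < 4 → (zpowers x).Normal)
    (h : G) (h4 : orderOf h = 4) (hN : Nat.card (normalizer (zpowers h : Set G)) = 24)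
    (g : G) (hg : g ∉ normalizer (zpowers h : Set G)) (hnc : ¬ Commute h (g * h * g⁻¹)) :
    1 / 8 < commProb G := by
  have hp4 := q8_four h h4
  have h2 := q8_sq_ne h h4
  have hsq2 : (h ^ 2) ^ 2 = 1 := by rw [← pow_mul]; exact hp4
  have hoz : orderOf (h ^ 2) = 2 := orderOf_eq_prime hsq2 h2
  have hz : ∀ y : G, y * h ^ 2 = h ^ 2 * y :=
    central_of_sq (h ^ 2) hsq2 (hmin _ (by rw [hoz]; norm_num))
  obtain ⟨k, hk⟩ : ∃ k, k = g * h * g⁻¹ := ⟨_, rfl⟩
  rw [← hk] at hnc
  obtain ⟨hk2, r1, r2, hdec, hcd⟩ := q8_common h g k h4 (by rw [hcard, hN]) hz hk hnc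
  rw [hN] at hcd
  set C := centralizer ({h, k} : Set G) with hC
  have hC6 : Nat.card C = 6 := by omega
  have mC : ∀ c : G, c ∈ C ↔ (c * h = h * c ∧ c * k = k * c) := by
    intro c
    rw [hC, mem_centralizer_iff]
    simp only [Set.mem_insert_iff, Set.mem_singleton_iff, forall_eq_or_imp, forall_eq]
    constructor
    · rintro ⟨a, b⟩; exact ⟨a.symm, b.symm⟩
    · rintro ⟨a, b⟩; exact ⟨a.symm, b.symm⟩
  have hzC : h ^ 2 ∈ C := (mC _).2 ⟨(hz h).symm, (hz k).symm⟩
  obtain ⟨⟨y, hyC⟩, hy⟩ := exists_prime_orderOf_dvd_card' (G := C) 3 (by rw [hC6]; norm_num)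
  have hy3 : orderOf y = 3 := by
    rw [← Subgroup.orderOf_mk y hyC]; exact hy
  have hyh := ((mC y).1 hyC).1
  have hyk := ((mC y).1 hyC).2
  -- `C` is generated by `y z`
  have hyz : orderOf (y * h ^ 2) = 6 := by
    have hcm : Commute y (h ^ 2) := hz y
    rw [hcm.orderOf_mul_eq_mul_orderOf_of_coprime (by rw [hy3, hoz]; norm_num), hy3, hoz]
  have hgen : zpowers (y * h ^ 2) = C := by
    apply Subgroup.eq_of_le_of_card_ge
    · rw [zpowers_le]; exact C.mul_mem hyC hzC
    · rw [hC6, Nat.card_zpowers, hyz]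
  have hCy : ∀ c ∈ C, c * y = y * c := by
    intro c hc
    rw [← hgen] at hc
    obtain ⟨m, rfl⟩ := hc
    have hcm : Commute (y * h ^ 2) y := (Commute.refl y).mul_left (hz y).symm
    exact (hcm.zpow_left m).eq
  -- an element of order four commuting with everything in `C`
  have key : ∀ w : G, w ^ 2 = h ^ 2 → (∀ c ∈ C, c * w = w * c) → ∀ x : G, x * w = w * x →
      x * y = y * x → 12 ≤ cz x := by
    intro w hw2 hwC x hxw hxy
    have hw4 : orderOf w = 4 := by
      have : orderOf w = 2 ^ (1 + 1) := orderOf_eq_prime_pow (by rw [pow_one, hw2]; exact h2)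
        (by
          have : w ^ 2 ^ (1 + 1) = (w ^ 2) ^ 2 := by rw [← pow_mul]; norm_num
          rw [this, hw2, hsq2])
      simpa using this
    have hcm : Commute w y := (hwC y hyC).symm
    have ho : orderOf (w * y) = 12 := by
      rw [hcm.orderOf_mul_eq_mul_orderOf_of_coprime (by rw [hy3, hw4]; norm_num), hy3, hw4]
    have hcx : Commute (w * y) x := (show Commute w x from hxw.symm).mul_left hxy.symm
    have := le_cz x (zpowers (w * y)) (by
      rintro _ ⟨m, rfl⟩
      exact (hcx.zpow_left m).eq)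
    rwa [Nat.card_zpowers, ho] at this
  have hN12 : ∀ x ∈ normalizer (zpowers h : Set G), 12 ≤ cz x := by
    intro x hx
    obtain ⟨c, hc, e⟩ := hdec x hx
    have hch := ((mC c).1 hc).1
    have hck := ((mC c).1 hc).2
    have hcy := hCy c hc
    have c1 : Commute c h := hch
    have c2 : Commute c k := hck
    have c3 : Commute c y := hcy
    have c4 : Commute y h := hyh
    have c5 : Commute y k := hyk
    rcases e with e | e | e | e
    · exact key h rfl (fun c hc => ((mC c).1 hc).1) x (by rw [e]; exact hch) (by rw [e]; exact hcy)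
    · exact key h rfl (fun c hc => ((mC c).1 hc).1) x
        (by rw [e]; exact ((Commute.refl h).mul_left c1).eq)
        (by rw [e]; exact (c4.symm.mul_left c3).eq)
    · exact key k hk2 (fun c hc => ((mC c).1 hc).2) x
        (by rw [e]; exact ((Commute.refl k).mul_left c2).eq)
        (by rw [e]; exact (c5.symm.mul_left c3).eq)
    · refine key (h * k) ?_ (fun c hc => ?_) x
        (by rw [e]; exact ((Commute.refl (h * k)).mul_left (c1.mul_right c2)).eq)
        (by rw [e]; exact ((c4.symm.mul_left c5.symm).mul_left c3).eq)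
      · rw [sq, mul_assoc, ← mul_assoc k h k, r1]
        have : h * (h⁻¹ * k * k) = k ^ 2 := by rw [sq]; group
        rw [this, hk2]
      · have d1 : Commute c h := ((mC c).1 hc).1
        have d2 : Commute c k := ((mC c).1 hc).2
        exact (d1.mul_right d2).eq
  have := Fintype.ofFinite G
  classical
  have hs := commProb_sum (G := G)
  have hlow : 312 ≤ ∑ x : G, cz x := by
    have h5 : ∑ x : G, (if x ∈ normalizer (zpowers h : Set G) then 12 else 1) ≤ ∑ x : G, cz x := by
      apply Finset.sum_le_sum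
      intro x _
      split_ifs with hx
      · exact hN12 x hx
      · exact (Nat.card_pos : 0 < Nat.card (centralizer ({x} : Set G)))
    refine le_trans ?_ h5
    rw [Finset.sum_ite, Finset.sum_const, Finset.sum_const]
    have h6 : (Finset.univ.filter (fun x : G => x ∈ normalizer (zpowers h : Set G))).card = 24 := by
      rw [← hN, Nat.card_eq_fintype_card, Fintype.card_subtype]
    have h7 : (Finset.univ.filter (fun x : G => x ∈ normalizer (zpowers h : Set G))).card +
        (Finset.univ.filter (fun x : G => ¬ x ∈ normalizer (zpowers h : Set G))).card = 48 := by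
      rw [Finset.card_filter_add_card_filter_not, Finset.card_univ, ← Nat.card_eq_fintype_card, hcard]
    rw [h6] at h7 ⊢
    simp only [smul_eq_mul]
    omega
  have hlow' : (312 : ℚ) ≤ ((∑ x : G, cz x : ℕ) : ℚ) := by exact_mod_cast hlow
  rw [← hs, hcard] at hlow'
  norm_num at hlow'
  norm_num
  linarith

end Pool.Agent.R700.TP
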