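import Pool.Agent.R700.TPDefs

/-!
MP_7792ce_al: minimal nonnormal cyclic subgroups and the value of `P`.
-/

set_option autoImplicit false

namespace Pool.Agent.R700.TP

open Subgroup Pool.Agent.R864.TP

variable {G : Type} [Group G]

/-- `h` generates a cyclic subgroup which is not normal, of least possible order. -/
structure MinNN (h : G) : Prop where
  nn : ¬ (zpowers h).Normal
  min : ∀ x : G, orderOf x < orderOf h → (zpowers x).Normal

theorem exists_min [Finite G] (hx : ∃ x : G, ¬ (zpowers x).Normal) : ∃ h : G, MinNN h := by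
  classical
  have hex : ∃ n, ∃ x : G, orderOf x = n ∧ ¬ (zpowers x).Normal := by
    obtain ⟨x, hx⟩ := hx
    exact ⟨_, x, rfl, hx⟩
  obtain ⟨h, hn, hh⟩ := Nat.find_spec hex
  refine ⟨h, hh, fun x hx => ?_⟩
  by_contra hcon
  rw [hn] at hx
  exact Nat.find_min hex hx ⟨x, rfl, hcon⟩

/-- A finite group in which all cyclic subgroups are normal is Dedekind. -/
theorem dedekind_of_cyclic (hx : ∀ x : G, (zpowers x).Normal) (H : Subgroup G) : H.Normal := by
  refine ⟨fun a ha b => ?_⟩
  have h1 := (hx a).conj_mem a (mem_zpowers a) b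
  exact (zpowers_le.mpr ha) h1

theorem normal_sup_zpowers (a b : G) (ha : (zpowers a).Normal) (hb : (zpowers b).Normal) :
    (zpowers a ⊔ zpowers b).Normal := by
  exact Subgroup.sup_normal _ _

theorem zpowers_coprime (h : G) (a b : ℕ) (hc : a.Coprime b) : zpowers h = zpowers (h ^ a) ⊔ zpowers (h ^ b) := by
  apply le_antisymm
  · rw [zpowers_le]
    have hbez := Nat.gcd_eq_gcd_ab a b
    rw [hc.gcd_eq_one] at hbez
    have : h = (h ^ a) ^ (Nat.gcdA a b) * (h ^ b) ^ (Nat.gcdB a b) := by
      rw [← zpow_natCast, ← zpow_natCast, ← zpow_mul, ← zpow_mul, ← zpow_add, ← hbez]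
      simp
    have h2 : (h ^ a) ^ (Nat.gcdA a b) * (h ^ b) ^ (Nat.gcdB a b) ∈
        zpowers (h ^ a) ⊔ zpowers (h ^ b) :=
      mul_mem (mem_sup_left (zpow_mem (mem_zpowers _) _))
        (mem_sup_right (zpow_mem (mem_zpowers _) _))
    rw [← this] at h2
    exact h2
  · exact sup_le (zpowers_le.mpr (pow_mem (mem_zpowers h) _))
      (zpowers_le.mpr (pow_mem (mem_zpowers h) _))

theorem orderOf_pow_lt [Finite G] (h : G) (a : ℕ) (ha : 1 < a) (hd : a ∣ orderOf h) :
    orderOf (h ^ a) < orderOf h := by
  have h0 : 0 < orderOf h := orderOf_pos h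
  rw [orderOf_pow_of_dvd (by omega) hd]
  exact Nat.div_lt_self h0 ha

theorem MinNN.one_lt {h : G} (hh : MinNN h) : 1 < orderOf h ∨ orderOf h = 0 := by
  by_contra hcon
  push Not at hcon
  have : orderOf h = 1 := by omega
  rw [orderOf_eq_one_iff] at this
  apply hh.nn
  rw [this, zpowers_one_eq_bot]
  infer_instance

theorem MinNN.prime_pow [Finite G] {h : G} (hh : MinNN h) :
    ∃ p e, p.Prime ∧ 1 ≤ e ∧ orderOf h = p ^ e := by
  have h0 : 0 < orderOf h := orderOf_pos h
  have h1 : 1 < orderOf h := by
    rcases hh.one_lt with h | h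
    · exact h
    · omega
  set m := orderOf h with hm
  obtain ⟨p, hp, hpm⟩ := Nat.exists_prime_and_dvd (show m ≠ 1 by omega)
  refine ⟨p, m.factorization p, hp, ?_, ?_⟩
  · exact (hp.dvd_iff_one_le_factorization (by omega)).mp hpm
  · by_contra hne
    set a := p ^ m.factorization p with ha
    have hab : a * (m / a) = m := Nat.ordProj_mul_ordCompl_eq_self m p
    have hcop : a.Coprime (m / a) := (Nat.coprime_ordCompl hp (by omega)).pow_left _
    have ha1 : 1 < a := by
      rw [ha]
      apply Nat.one_lt_pow
      · have := (hp.dvd_iff_one_le_factorization (by omega)).mp hpm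
        omega
      · exact hp.one_lt
    have hb1 : 1 < m / a := by
      by_contra hlt
      have : m / a = 0 ∨ m / a = 1 := by
        generalize m / a = y at hlt
        omega
      rcases this with h2 | h2
      · rw [h2, mul_zero] at hab; omega
      · rw [h2, mul_one] at hab; exact hne hab.symm
    apply hh.nn
    rw [zpowers_coprime h a (m / a) hcop]
    have n1 := hh.min (h ^ a) (orderOf_pow_lt h a ha1 ⟨_, hab.symm⟩)
    have n2 := hh.min (h ^ (m / a)) (orderOf_pow_lt h (m / a) hb1 ⟨a, by rw [mul_comm]; exact hab.symm⟩)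
    exact normal_sup_zpowers _ _ n1 n2

/-- the subgroup `H ∩ g H g⁻¹` -/
def Lg (H : Subgroup G) (g : G) : Subgroup G := H ⊓ H.map (MulAut.conj g).toMonoidHom

theorem mem_Lg (H : Subgroup G) (g x : G) : x ∈ Lg H g ↔ x ∈ H ∧ g⁻¹ * x * g ∈ H := by
  unfold Lg
  rw [Subgroup.mem_inf]
  constructor
  · rintro ⟨h1, y, hy, rfl⟩
    refine ⟨h1, ?_⟩
    simpa [mul_assoc] using hy
  · rintro ⟨h1, h2⟩
    exact ⟨h1, _, h2, by simp [mul_assoc]⟩

theorem s_eq_card_Lg (H : Subgroup G) (g : G) : s H g = Nat.card (Lg H g) := by
  unfold s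
  refine Nat.card_congr ⟨fun x => ⟨x.1.1, (mem_Lg H g _).mpr ⟨x.1.2, x.2⟩⟩,
    fun x => ⟨⟨x.1, ((mem_Lg H g _).mp x.2).1⟩, ((mem_Lg H g _).mp x.2).2⟩, ?_, ?_⟩
  · intro x; rfl
  · intro x; rfl

theorem s_normalizer (H : Subgroup G) (g : G) (hg : g ∈ normalizer (H : Set G)) :
    s H g = Nat.card H := by
  rw [s_eq_card_Lg]
  congr 1
  have : Lg H g = H := by
    ext x
    rw [mem_Lg]
    constructor
    · exact fun h => h.1
    · intro hx
      exact ⟨hx, (mem_normalizer_iff''.mp hg x).mp hx⟩
  rw [this]

/-- The value of `P` when `|H ∩ gHg⁻¹| = |H|/p` for all `g` not normalizing `H`. -/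
theorem P_formula [Finite G] (H : Subgroup G) (p t : ℕ)
    (hs : ∀ g ∉ normalizer (H : Set G), p * s H g = Nat.card H)
    (ht : Nat.card G = Nat.card (normalizer (H : Set G)) + Nat.card H * p * t) :
    P H = F p ^ t := by
  classical
  have := Fintype.ofFinite G
  have hH : 0 < Nat.card H := Nat.card_pos
  rcases Nat.eq_zero_or_pos p with hp0 | hp
  · -- then every g normalizes
    have hall : ∀ g, g ∈ normalizer (H : Set G) := by
      intro g
      by_contra hg
      have := hs g hg
      rw [hp0, zero_mul] at this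
      omega
    have h1 : P H ^ (Nat.card H ^ 2) = 1 := by
      rw [P_pow]
      apply Finset.prod_eq_one
      intro g _
      rw [s_normalizer H g (hall g), Nat.div_self hH]
      norm_num [F]
    have h2 : P H = 1 := by
      have := P_nonneg H
      exact (pow_eq_one_iff_of_nonneg this (by positivity)).mp h1
    rw [h2, hp0]
    norm_num [F]
  have h1 : P H ^ (Nat.card H ^ 2) = (F p ^ t) ^ (Nat.card H ^ 2) := by
    rw [P_pow]
    rw [← Finset.prod_filter_mul_prod_filter_not Finset.univ (fun g => g ∈ normalizer (H : Set G))]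
    have e1 : ∏ g ∈ Finset.univ.filter (fun g => g ∈ normalizer (H : Set G)),
        F (Nat.card H / s H g) ^ s H g = 1 := by
      apply Finset.prod_eq_one
      intro g hg
      rw [Finset.mem_filter] at hg
      rw [s_normalizer H g hg.2, Nat.div_self hH]
      norm_num [F]
    have e2 : ∏ g ∈ Finset.univ.filter (fun g => ¬ g ∈ normalizer (H : Set G)),
        F (Nat.card H / s H g) ^ s H g =
        ∏ g ∈ Finset.univ.filter (fun g => ¬ g ∈ normalizer (H : Set G)), F p ^ (Nat.card H / p) := by
      apply Finset.prod_congr rfl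
      intro g hg
      rw [Finset.mem_filter] at hg
      have h3 := hs g hg.2
      have h4 : 0 < s H g := by
        rcases Nat.eq_zero_or_pos (s H g) with h | h
        · rw [h] at h3; omega
        · exact h
      have h5 : Nat.card H / p = s H g := by
        rw [← h3, Nat.mul_div_cancel_left _ hp]
      have h6 : Nat.card H / s H g = p := by
        rw [← h3, Nat.mul_div_cancel _ h4]
      rw [h5, h6]
    have e3 : (Finset.univ.filter (fun g => ¬ g ∈ normalizer (H : Set G))).card =
        Nat.card H * p * t := by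
      have h7 := Finset.card_filter_add_card_filter_not (s := (Finset.univ : Finset G))
        (fun g => g ∈ normalizer (H : Set G))
      have h8 : (Finset.univ.filter (fun g => g ∈ normalizer (H : Set G))).card =
          Nat.card (normalizer (H : Set G)) := by
        rw [← Fintype.card_subtype, ← Nat.card_eq_fintype_card]
      rw [h8, Finset.card_univ, ← Nat.card_eq_fintype_card, ht] at h7
      omega
    rw [e1, e2, one_mul, Finset.prod_const, e3]
    rcases Finset.eq_empty_or_nonempty
      (Finset.univ.filter (fun g => ¬ g ∈ normalizer (H : Set G))) with h9 | ⟨g, hg⟩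
    · rw [h9, Finset.card_empty] at e3
      have ht0 : t = 0 := by
        rcases Nat.eq_zero_or_pos t with h | h
        · exact h
        · have : 0 < Nat.card H * p * t := by positivity
          omega
      rw [ht0]; simp
    · rw [Finset.mem_filter] at hg
      have h3 := hs g hg.2
      have hdiv : p ∣ Nat.card H := ⟨_, h3.symm⟩
      rw [← pow_mul, ← pow_mul]
      congr 1
      have h10 : Nat.card H / p * p = Nat.card H := Nat.div_mul_cancel hdiv
      calc Nat.card H / p * (Nat.card H * p * t) = (Nat.card H / p * p) * Nat.card H * t := by ring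
        _ = t * Nat.card H ^ 2 := by rw [h10, sq]; ring
  have h2 := P_nonneg H
  have h3 : 0 ≤ F p ^ t := by unfold F; positivity
  exact (pow_left_inj₀ h2 h3 (by positivity)).mp h1

theorem MinNN.P_eq [Finite G] {h : G} (hh : MinNN h) {p e : ℕ} (hp : p.Prime) (he : 1 ≤ e)
    (ho : orderOf h = p ^ e) :
    ∃ t, 1 ≤ t ∧ Nat.card G = Nat.card (normalizer (zpowers h : Set G)) + p ^ e * p * t ∧
      P (zpowers h) = F p ^ t := by
  have : Fact p.Prime := ⟨hp⟩
  have hcard : Nat.card (zpowers h) = p ^ e := by rw [Nat.card_zpowers, ho]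
  have hmod := Sylow.card_normalizer_modEq_card (p := p) (n := e) (H := zpowers h) hcard
  have hle : Nat.card (normalizer (zpowers h : Set G)) ≤ Nat.card G := Subgroup.card_le_card_group _
  have hd : p ^ (e + 1) ∣ Nat.card G - Nat.card (normalizer (zpowers h : Set G)) :=
    (Nat.modEq_iff_dvd' hle).mp hmod
  obtain ⟨t, ht⟩ := hd
  have ht' : Nat.card G = Nat.card (normalizer (zpowers h : Set G)) + p ^ e * p * t := by
    rw [pow_succ] at ht
    omega
  refine ⟨t, ?_, ht', ?_⟩
  · rcases Nat.eq_zero_or_pos t with h0 | h0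
    · exfalso
      rw [h0, mul_zero, add_zero] at ht'
      apply hh.nn
      rw [← normalizer_eq_top_iff]
      exact Subgroup.eq_top_of_card_eq _ ht'.symm
    · exact h0
  · apply P_formula
    · intro g hg
      rw [s_eq_card_Lg]
      have hKn : (zpowers (h ^ p)).Normal := by
        apply hh.min
        apply orderOf_pow_lt h p hp.one_lt
        rw [ho]
        exact dvd_pow_self p (by omega)
      have hKL : zpowers (h ^ p) ≤ Lg (zpowers h) g := by
        rw [zpowers_le, mem_Lg]
        refine ⟨pow_mem (mem_zpowers h) p, ?_⟩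
        have h1 := hKn.conj_mem _ (mem_zpowers (h ^ p)) g⁻¹
        rw [inv_inv] at h1
        exact (zpowers_le.mpr (pow_mem (mem_zpowers h) p)) h1
      have hLH : Lg (zpowers h) g ≤ zpowers h := inf_le_left
      have hK : Nat.card (zpowers (h ^ p)) * p = p ^ e := by
        rw [Nat.card_zpowers, orderOf_pow_of_dvd hp.ne_zero (by rw [ho]; exact dvd_pow_self p (by omega)),
          ho]
        exact Nat.div_mul_cancel (dvd_pow_self p (by omega))
      obtain ⟨u, hu⟩ := Subgroup.card_dvd_of_le hKL
      obtain ⟨v, hv⟩ := Subgroup.card_dvd_of_le hLH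
      have hKpos : 0 < Nat.card (zpowers (h ^ p)) := Nat.card_pos
      have huv : u * v = p := by
        rw [hcard, hu] at hv
        rw [← hK] at hv
        have : Nat.card (zpowers (h ^ p)) * p = Nat.card (zpowers (h ^ p)) * (u * v) := by
          rw [hv]; ring
        exact (Nat.eq_of_mul_eq_mul_left hKpos this).symm
      have hv1 : v ≠ 1 := by
        intro hv1
        rw [hv1, mul_one] at hv
        have heq : Lg (zpowers h) g = zpowers h := Subgroup.eq_of_le_of_card_ge hLH hv.le
        apply hg
        have hsub : (zpowers h).map (MulAut.conj g).toMonoidHom = zpowers h := by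
          have hle' : zpowers h ≤ (zpowers h).map (MulAut.conj g).toMonoidHom := by
            intro x hx
            rw [← heq] at hx
            exact hx.2
          apply (Subgroup.eq_of_le_of_card_ge hle' _).symm
          rw [Nat.card_congr ((zpowers h).equivMapOfInjective _
            (MulAut.conj g).injective).toEquiv.symm]
        rw [mem_normalizer_iff_map_conj_eq]
        exact hsub
      have hu1 : u = 1 := by
        have hup : u ∣ p := ⟨v, huv.symm⟩
        rcases (Nat.dvd_prime hp).mp hup with h1 | h1
        · exact h1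
        · exfalso
          apply hv1
          rw [h1] at huv
          exact Nat.eq_of_mul_eq_mul_left hp.pos (by rw [huv, mul_one])
      rw [hu, hu1, mul_one, hcard, mul_comm]
      exact hK
    · rw [hcard]; exact ht'

end Pool.Agent.R700.TP
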