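import Pool.Agent.R700.TPa

/-!
MP_7792ce_al: lower bounds for centralizers.
-/

set_option autoImplicit false

namespace Pool.Agent.R700.TP

open Subgroup Pool.Agent.R864.TP

variable {G : Type} [Group G]

theorem pow_relIndex_mem (A : Subgroup G) (x : G) : x ^ A.relIndex (zpowers x) ∈ A := by
  have : IsMulCommutative (zpowers x) := inferInstance
  have hn : (A.subgroupOf (zpowers x)).Normal := Subgroup.normal_of_isMulCommutative _
  have h := Subgroup.pow_index_mem (A.subgroupOf (zpowers x)) (⟨x, mem_zpowers x⟩ : zpowers x)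
  exact h

/-- For an abelian subgroup `A` and `x` with `⟨x⟩` normal, `|C(x)| ≥ |A|`. -/
theorem card_le_cz [Finite G] (A : Subgroup G) (hA : ∀ a ∈ A, ∀ b ∈ A, a * b = b * a) (x : G)
    (hx : (zpowers x).Normal) : Nat.card A ≤ cz x := by
  classical
  have := Fintype.ofFinite G
  set l := A.relIndex (zpowers x) with hl
  have hl0 : 0 < l := by
    rw [hl]
    exact Nat.pos_of_ne_zero (Subgroup.index_ne_zero_of_finite)
  have hxl : x ^ l ∈ A := pow_relIndex_mem A x
  set CA : Subgroup G := A ⊓ centralizer ({x} : Set G) with hCA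
  -- step 1
  have h1 : Nat.card A ≤ Nat.card CA * l := by
    let f : A → zpowers x := fun a => ⟨x⁻¹ * (a.1⁻¹ * x * a.1), mul_mem (inv_mem (mem_zpowers x))
      (by simpa using hx.conj_mem x (mem_zpowers x) a.1⁻¹)⟩
    have hf : ∀ a : A, f a ^ l = 1 := by
      intro a
      apply Subtype.ext
      change (x⁻¹ * (a.1⁻¹ * x * a.1)) ^ l = 1
      have hmem : a.1⁻¹ * x * a.1 ∈ zpowers x := by
        simpa using hx.conj_mem x (mem_zpowers x) a.1⁻¹
      obtain ⟨k, hk⟩ := hmem
      have hk' : x ^ k = a.1⁻¹ * x * a.1 := hk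
      have hcomm : Commute x⁻¹ (a.1⁻¹ * x * a.1) := by
        rw [← hk']
        exact ((Commute.refl x).zpow_right k).inv_left
      rw [hcomm.mul_pow]
      have h2 : (a.1⁻¹ * x * a.1) ^ l = x ^ l := by
        have h3 : (a.1⁻¹ * x * a.1) ^ l = a.1⁻¹ * x ^ l * a.1 := by
          have := conj_pow (i := l) (a := a.1⁻¹) (b := x)
          simpa using this
        rw [h3, mul_assoc, hA _ hxl _ a.2]
        simp
      rw [h2]
      simp
    have hfib : ∀ y ∈ Finset.univ.image f, (Finset.univ.filter (fun a : A => f a = y)).card ≤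
        Nat.card CA := by
      intro y hy
      rw [Finset.mem_image] at hy
      obtain ⟨a₀, -, rfl⟩ := hy
      rw [← Fintype.card_subtype, ← Nat.card_eq_fintype_card]
      refine Nat.card_le_card_of_injective (fun a => (⟨a.1.1 * a₀.1⁻¹, ?_⟩ : CA)) ?_
      · rw [hCA, Subgroup.mem_inf, Subgroup.mem_centralizer_singleton_iff]
        refine ⟨mul_mem a.1.2 (inv_mem a₀.2), ?_⟩
        have h4 : x⁻¹ * (a.1.1⁻¹ * x * a.1.1) = x⁻¹ * (a₀.1⁻¹ * x * a₀.1) :=
          congrArg Subtype.val a.2
        have h5 : a.1.1⁻¹ * x * a.1.1 = a₀.1⁻¹ * x * a₀.1 := mul_left_cancel h4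
        have h6 : x * a.1.1 = a.1.1 * (a₀.1⁻¹ * x * a₀.1) := by
          rw [← h5]; group
        calc a.1.1 * a₀.1⁻¹ * x = a.1.1 * (a₀.1⁻¹ * x * a₀.1) * a₀.1⁻¹ := by group
          _ = x * a.1.1 * a₀.1⁻¹ := by rw [← h6]
          _ = x * (a.1.1 * a₀.1⁻¹) := by group
      · intro a b hab
        have := congrArg Subtype.val hab
        exact Subtype.ext (Subtype.ext (mul_right_cancel this))
    have h7 := Finset.card_le_mul_card_image (f := f) Finset.univ (Nat.card CA) hfib
    have h8 : (Finset.univ.image f).card ≤ l := by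
      have hsub : Finset.univ.image f ⊆ Finset.univ.filter (fun y : zpowers x => y ^ l = 1) := by
        intro y hy
        rw [Finset.mem_image] at hy
        obtain ⟨a, -, rfl⟩ := hy
        rw [Finset.mem_filter]
        exact ⟨Finset.mem_univ _, hf a⟩
      exact (Finset.card_le_card hsub).trans (IsCyclic.card_pow_eq_one_le hl0)
    rw [Finset.card_univ, ← Nat.card_eq_fintype_card] at h7
    exact h7.trans (Nat.mul_le_mul_left _ h8)
  -- step 2
  have h2 : Nat.card CA * l ≤ cz x := by
    have hle : zpowers x ≤ centralizer ({x} : Set G) := by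
      rw [zpowers_le, Subgroup.mem_centralizer_singleton_iff]
    have h3 : l ≤ A.relIndex (centralizer ({x} : Set G)) :=
      relIndex_le_of_le_right hle Subgroup.index_ne_zero_of_finite
    have h4 : Nat.card CA * A.relIndex (centralizer ({x} : Set G)) = cz x := by
      have h5 := (A.subgroupOf (centralizer ({x} : Set G))).card_mul_index
      have h6 : Nat.card (A.subgroupOf (centralizer ({x} : Set G))) = Nat.card CA := by
        rw [hCA, ← Subgroup.inf_subgroupOf_right]
        exact Nat.card_congr (Subgroup.subgroupOfEquivOfLe inf_le_right).toEquiv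
      rw [h6] at h5
      exact h5
    rw [← h4]
    exact Nat.mul_le_mul_left _ h3
  exact h1.trans h2

theorem zpowers_comm (h : G) : ∀ a ∈ zpowers h, ∀ b ∈ zpowers h, a * b = b * a := by
  rintro _ ⟨i, rfl⟩ _ ⟨j, rfl⟩
  exact (((Commute.refl h).zpow_left i).zpow_right j).eq

/-- All centralizers have order at least the order of a minimal `h`. -/
theorem MinNN.le_cz [Finite G] {h : G} (hh : MinNN h) (x : G) : orderOf h ≤ cz x := by
  by_cases hx : (zpowers x).Normal
  · have := card_le_cz (zpowers h) (zpowers_comm h) x hx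
    rwa [Nat.card_zpowers] at this
  · have : orderOf h ≤ orderOf x := by
      by_contra hlt
      push Not at hlt
      exact hx (hh.min x hlt)
    exact this.trans (orderOf_le_cz x)

theorem MinNN.lt_card [Finite G] {h : G} (hh : MinNN h) : orderOf h < Nat.card G := by
  rcases lt_or_eq_of_le (Nat.le_of_dvd Nat.card_pos (orderOf_dvd_natCard h)) with h1 | h1
  · exact h1
  · exfalso
    apply hh.nn
    have : zpowers h = ⊤ := by
      apply Subgroup.eq_top_of_card_eq
      rw [Nat.card_zpowers, h1]
    rw [this]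
    infer_instance

/-- `cp > m/|G|`. -/
theorem MinNN.commProb_gt [Finite G] {h : G} (hh : MinNN h) :
    (orderOf h : ℚ) / Nat.card G < commProb G :=
  TP.commProb_gt (orderOf h) hh.le_cz hh.lt_card

end Pool.Agent.R700.TP
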