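import Pool.Agent.R700.TPb

/-!
MP_7792ce_al: automorphisms of cyclic 2-groups, the case of a normalizer of index 2.
-/

set_option autoImplicit false

namespace Pool.Agent.R700.TP

open Subgroup Pool.Agent.R864.TP

variable {G : Type} [Group G]

theorem totient_two_pow_dvd (f : ℕ) : Nat.totient (2 ^ f) ∣ 2 ^ f := by
  rcases Nat.eq_zero_or_pos f with h | h
  · rw [h]; simp
  · rw [Nat.totient_prime_pow Nat.prime_two h]
    norm_num
    exact pow_dvd_pow 2 (by omega)

/-- An element of odd order normalizing a cyclic 2-group centralizes it. -/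
theorem comm_of_odd [Finite G] (c y : G) (f : ℕ) (hc : orderOf c = 2 ^ f) (hy : Odd (orderOf y))
    (hyn : y ∈ normalizer (zpowers c : Set G)) : y * c = c * y := by
  set ψ := (zpowers c).normalizerMonoidHom ⟨y, hyn⟩ with hψ
  have h1 : orderOf ψ ∣ orderOf y := by
    have h2 := orderOf_map_dvd (zpowers c).normalizerMonoidHom ⟨y, hyn⟩
    have h3 : orderOf (⟨y, hyn⟩ : normalizer (zpowers c : Set G)) = orderOf y :=
      (Subgroup.orderOf_coe _).symm
    rw [h3] at h2
    exact h2
  have h2 : orderOf ψ ∣ 2 ^ f := by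
    have h3 : orderOf ψ ∣ Nat.card (MulAut (zpowers c)) := orderOf_dvd_natCard ψ
    rw [IsCyclic.card_mulAut, Nat.card_zpowers, hc] at h3
    exact h3.trans (totient_two_pow_dvd f)
  have h3 : orderOf ψ = 1 := by
    have h4 : Nat.Coprime (orderOf y) (2 ^ f) := (Nat.Coprime.pow_right f (Nat.coprime_two_right.mpr hy))
    exact Nat.eq_one_of_dvd_coprimes h4 h1 h2
  rw [orderOf_eq_one_iff] at h3
  have h4 : (⟨y, hyn⟩ : normalizer (zpowers c : Set G)) ∈ (zpowers c).normalizerMonoidHom.ker := by
    rw [MonoidHom.mem_ker]; exact h3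
  rw [normalizerMonoidHom_ker, mem_subgroupOf, mem_centralizer_iff] at h4
  exact (h4 c (mem_zpowers c)).symm

/-- A normal cyclic 2-subgroup contained in an abelian subgroup of odd index is central. -/
theorem central_of_odd_index [Finite G] (c : G) (f : ℕ) (hc : orderOf c = 2 ^ f)
    (hn : (zpowers c).Normal) (H : Subgroup G) (hH : ∀ x ∈ H, x * c = c * x) (hodd : Odd H.index)
    (y : G) : y * c = c * y := by
  have hle : H ≤ (MulAut.conjNormal (H := zpowers c)).ker := by
    intro x hx
    rw [MonoidHom.mem_ker]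
    ext ⟨z, k, hk⟩
    have hk' : c ^ k = z := hk
    have h1 : Commute x c := hH x hx
    have h2 : x * c ^ k = c ^ k * x := (h1.zpow_right k).eq
    rw [MulAut.conjNormal_apply]
    change x * z * x⁻¹ = z
    rw [← hk', h2]
    group
  have h1 : (MulAut.conjNormal (H := zpowers c)).ker.index ∣ H.index := index_dvd_of_le hle
  have h2 : (MulAut.conjNormal (H := zpowers c)).ker.index ∣ 2 ^ f := by
    rw [Subgroup.index_ker]
    refine (Subgroup.card_subgroup_dvd_card _).trans ?_
    rw [IsCyclic.card_mulAut, Nat.card_zpowers, hc]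
    exact totient_two_pow_dvd f
  have h3 : (MulAut.conjNormal (H := zpowers c)).ker.index = 1 := by
    have h4 : Nat.Coprime H.index (2 ^ f) :=
      (Nat.Coprime.pow_right f (Nat.coprime_two_right.mpr hodd))
    exact Nat.eq_one_of_dvd_coprimes h4 h1 h2
  rw [Subgroup.index_eq_one] at h3
  have h4 : y ∈ (MulAut.conjNormal (H := zpowers c)).ker := by rw [h3]; exact mem_top y
  rw [MonoidHom.mem_ker] at h4
  have h5 := congrArg (fun (φ : MulAut (zpowers c)) => (φ ⟨c, mem_zpowers c⟩ : G)) h4
  have h6 : y * c * y⁻¹ = c := by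
    rw [← MulAut.conjNormal_apply (H := zpowers c) y ⟨c, mem_zpowers c⟩]
    exact h5
  rw [mul_inv_eq_iff_eq_mul] at h6
  exact h6

/-- An involution-like element of a normal cyclic group is fixed by conjugation. -/
theorem fixed_of_sq [Finite G] (r v h : G) (hr : (zpowers r).Normal) (hv : v ∈ zpowers r)
    (hv2 : v ^ 2 = 1) : h * v * h⁻¹ = v := by
  classical
  have := Fintype.ofFinite G
  by_contra hne
  have hv1 : v ≠ 1 := by
    rintro rfl
    apply hne; simp
  have hw : h * v * h⁻¹ ∈ zpowers r := hr.conj_mem v hv h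
  have hw2 : (h * v * h⁻¹) ^ 2 = 1 := by
    rw [conj_pow, hv2]; simp
  have hw1 : h * v * h⁻¹ ≠ 1 := by
    intro h1
    apply hv1
    have := congrArg (fun z => h⁻¹ * z * h) h1
    simpa [mul_assoc] using this
  have hc := IsCyclic.card_pow_eq_one_le (α := zpowers r) (n := 2) (by norm_num)
  have hsub : ({1, ⟨v, hv⟩, ⟨h * v * h⁻¹, hw⟩} : Finset (zpowers r)) ⊆
      Finset.univ.filter (fun a : zpowers r => a ^ 2 = 1) := by
    intro a ha
    rw [Finset.mem_filter]
    refine ⟨Finset.mem_univ _, ?_⟩
    simp only [Finset.mem_insert, Finset.mem_singleton] at ha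
    rcases ha with rfl | rfl | rfl
    · simp
    · exact Subtype.ext hv2
    · exact Subtype.ext hw2
  have h3 := (Finset.card_le_card hsub).trans hc
  rw [Finset.card_insert_of_notMem, Finset.card_insert_of_notMem, Finset.card_singleton] at h3
  · omega
  · rw [Finset.mem_singleton]
    intro h4
    exact hne (congrArg Subtype.val h4).symm
  · simp only [Finset.mem_insert, Finset.mem_singleton, not_or]
    constructor
    · intro h4
      exact hv1 (congrArg Subtype.val h4).symm
    · intro h4
      exact hw1 (congrArg Subtype.val h4).symm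

/-- If `⟨r⟩` is normal and `h` fixes `r^2`, then `h^2` commutes with `r`. -/
theorem sq_comm [Finite G] (r h : G) (hr : (zpowers r).Normal) (h2 : h * r ^ 2 = r ^ 2 * h) :
    h ^ 2 * r = r * h ^ 2 := by
  have hw : h * r * h⁻¹ ∈ zpowers r := hr.conj_mem r (mem_zpowers r) h
  set v := r⁻¹ * (h * r * h⁻¹) with hv
  have hvm : v ∈ zpowers r := mul_mem (inv_mem (mem_zpowers r)) hw
  have hcomm : Commute r⁻¹ (h * r * h⁻¹) := zpowers_comm r _ (inv_mem (mem_zpowers r)) _ hw
  have hv2 : v ^ 2 = 1 := by
    rw [hv, hcomm.mul_pow, conj_pow, h2]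
    simp
  have hfix := fixed_of_sq r v h hr hvm hv2
  have h3 : h * r * h⁻¹ = r * v := by rw [hv]; group
  have h4 : h ^ 2 * r * (h ^ 2)⁻¹ = r := by
    calc h ^ 2 * r * (h ^ 2)⁻¹ = h * (h * r * h⁻¹) * h⁻¹ := by rw [sq]; group
      _ = h * (r * v) * h⁻¹ := by rw [h3]
      _ = (h * r * h⁻¹) * (h * v * h⁻¹) := by group
      _ = r * v * v := by rw [h3, hfix]
      _ = r * v ^ 2 := by rw [sq]; group
      _ = r := by rw [hv2, mul_one]
  rw [mul_inv_eq_iff_eq_mul] at h4
  exact h4

theorem two_mul_card_le [Finite G] (A B : Subgroup G) (hle : A ≤ B) (y : G) (hy : y ∉ A)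
    (hyB : y ∈ B) : 2 * Nat.card A ≤ Nat.card B := by
  have hd : Nat.card A ∣ Nat.card B := Subgroup.card_dvd_of_le hle
  have hpos : 0 < Nat.card B := Nat.card_pos
  obtain ⟨q, hq⟩ := hd
  have hq2 : 2 ≤ q := by
    by_contra hlt
    have hq1 : q = 1 := by
      rcases Nat.eq_zero_or_pos q with h | h
      · rw [h, mul_zero] at hq; omega
      · omega
    have : A = B := Subgroup.eq_of_le_of_card_ge hle (by rw [hq, hq1, mul_one])
    exact hy (this ▸ hyB)
  rw [hq, mul_comm]
  exact Nat.mul_le_mul_left _ hq2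

/-- The subgroup generated by a commuting set is commutative. -/
theorem closure_comm (S : Set G) (hS : ∀ a ∈ S, ∀ b ∈ S, a * b = b * a) :
    ∀ a ∈ closure S, ∀ b ∈ closure S, a * b = b * a := by
  have h1 : closure S ≤ centralizer S := by
    rw [closure_le]
    intro a ha
    rw [SetLike.mem_coe, mem_centralizer_iff]
    exact fun b hb => hS b hb a ha
  have h2 : S ⊆ centralizer (closure S : Set G) := by
    intro a ha
    rw [SetLike.mem_coe, mem_centralizer_iff]
    intro b hb
    exact ((mem_centralizer_iff.mp (h1 hb)) a ha).symm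
  have h3 : closure S ≤ centralizer (closure S : Set G) := (closure_le _).mpr h2
  intro a ha b hb
  exact (mem_centralizer_iff.mp (h3 hb)) a ha

theorem not_comm_of_not_mem [Finite G] (x : G) (hx : ¬ (zpowers x).Normal) :
    ∃ g : G, g * x * g⁻¹ ∉ zpowers x := by
  by_contra hcon
  push Not at hcon
  apply hx
  refine ⟨fun a ha g => ?_⟩
  obtain ⟨k, hk⟩ := ha
  have hk' : x ^ k = a := hk
  rw [← hk', ← conj_zpow]
  exact zpow_mem (hcon g) k

/-- Elements of odd order lie in subgroups of index two. -/
theorem mem_of_odd [Finite G] (N : Subgroup G) (hN : N.index = 2) (x : G) (hx : Odd (orderOf x)) :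
    x ∈ N := by
  have h1 : x ^ 2 ∈ N := Subgroup.sq_mem_of_index_two hN x
  obtain ⟨k, hk⟩ := hx
  have h2 : x = (x ^ 2) ^ (k + 1) := by
    rw [← pow_mul]
    have : 2 * (k + 1) = orderOf x + 1 := by omega
    rw [this, pow_succ, pow_orderOf_eq_one, one_mul]
  rw [h2]
  exact pow_mem h1 _

/-- The bound `|C(x)| ≥ 2m` for `x` of order `> m`. -/
theorem MinNN.two_mul_le_cz_of_lt [Finite G] {h : G} (hh : MinNN h) {e : ℕ}
    (ho : orderOf h = 2 ^ e) (hN : (normalizer (zpowers h : Set G)).index = 2) (x : G)
    (hx : ¬ (zpowers x).Normal) (hlt : orderOf h < orderOf x) : 2 * orderOf h ≤ cz x := by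
  by_cases hge : 2 * orderOf h ≤ orderOf x
  · exact hge.trans (orderOf_le_cz x)
  push Not at hge
  have hx0 : 0 < orderOf x := orderOf_pos x
  -- the order of x is odd
  have hodd : Odd (orderOf x) := by
    set r := orderOf x with hr
    by_contra hne
    rw [Nat.not_odd_iff_even] at hne
    set a := 2 ^ r.factorization 2 with ha
    have hab : a * (r / a) = r := Nat.ordProj_mul_ordCompl_eq_self r 2
    have hcop : a.Coprime (r / a) := (Nat.coprime_ordCompl Nat.prime_two (by omega)).pow_left _
    have hf : 1 ≤ r.factorization 2 :=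
      (Nat.prime_two.dvd_iff_one_le_factorization (by omega)).mp hne.two_dvd
    have ha2 : 2 ≤ a := by
      rw [ha]
      calc 2 = 2 ^ 1 := by norm_num
        _ ≤ 2 ^ r.factorization 2 := Nat.pow_le_pow_right (by norm_num) hf
    have hb1 : r / a ≠ 1 := by
      intro hb
      rw [hb, mul_one] at hab
      rw [ho] at hlt hge
      rw [← hab, ha] at hlt hge
      have h1 : e < r.factorization 2 := (Nat.pow_lt_pow_iff_right (by norm_num)).mp hlt
      have h2 : r.factorization 2 < e + 1 := by
        apply (Nat.pow_lt_pow_iff_right (a := 2) (by norm_num)).mp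
        rw [pow_succ, mul_comm]
        exact hge
      omega
    have hb0 : r / a ≠ 0 := by
      intro hb
      rw [hb, mul_zero] at hab
      omega
    have hb3 : 3 ≤ r / a := by
      have : r / a ≠ 2 := by
        intro hb
        rw [hb] at hcop
        have h3 : 2 ∣ a := by rw [ha]; exact dvd_pow_self 2 (by omega)
        have := Nat.Coprime.eq_one_of_dvd hcop.symm h3
        omega
      generalize r / a = y at *
      omega
    generalize hy : r / a = b at *
    have hbr : b ∣ r := ⟨a, by rw [mul_comm]; exact hab.symm⟩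
    have har : a ∣ r := ⟨b, hab.symm⟩
    apply hx
    rw [zpowers_coprime x a b hcop]
    have n1 : (zpowers (x ^ a)).Normal := by
      apply hh.min
      rw [orderOf_pow_of_dvd (by omega) (hr ▸ har), ← hr, ← hab, Nat.mul_div_cancel_left _ (by omega)]
      nlinarith
    have n2 : (zpowers (x ^ b)).Normal := by
      apply hh.min
      rw [orderOf_pow_of_dvd (by omega) (hr ▸ hbr), ← hr, ← hab, Nat.mul_div_cancel _ (by omega)]
      nlinarith
    exact normal_sup_zpowers _ _ n1 n2
  have hxN := mem_of_odd _ hN x hodd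
  have hcomm := comm_of_odd h x e ho hodd hxN
  -- both orders divide the order of the centralizer
  have h1 : orderOf x ∣ cz x := by
    rw [← Nat.card_zpowers]
    apply Subgroup.card_dvd_of_le
    rw [zpowers_le, mem_centralizer_singleton_iff]
  have h2 : orderOf h ∣ cz x := by
    rw [← Nat.card_zpowers h]
    apply Subgroup.card_dvd_of_le
    rw [zpowers_le, mem_centralizer_singleton_iff]
    exact hcomm.symm
  have h3 : Nat.Coprime (orderOf x) (orderOf h) := by
    rw [ho]
    exact Nat.Coprime.pow_right e (Nat.coprime_two_right.mpr hodd)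
  have h4 := Nat.Coprime.mul_dvd_of_dvd_of_dvd h3 h1 h2
  have h5 : orderOf x * orderOf h ≤ cz x := Nat.le_of_dvd Nat.card_pos h4
  have h6 : 2 ≤ orderOf x := by
    have : 0 < orderOf h := orderOf_pos h
    omega
  exact (Nat.mul_le_mul_right _ h6).trans h5

end Pool.Agent.R700.TP
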