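import Pool.Agent.R700.TPc

/-!
MP_7792ce_al: the case of a normalizer of index 2.
-/

set_option autoImplicit false

namespace Pool.Agent.R700.TP

open Subgroup Pool.Agent.R864.TP

variable {G : Type} [Group G]

/-- For `e = 1` and `e ≥ 3` a minimal `h` with normalizer of index 2 commutes with its conjugates. -/
theorem MinNN.commute_conj [Finite G] {h : G} (hh : MinNN h) {e : ℕ} (he : 1 ≤ e) (he2 : e ≠ 2)
    (ho : orderOf h = 2 ^ e) (hN : (normalizer (zpowers h : Set G)).index = 2) (g : G) :
    Commute h (g * h * g⁻¹) := by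
  set h' := g * h * g⁻¹ with hh'
  have hNn : (normalizer (zpowers h : Set G)).Normal := Subgroup.normal_of_index_eq_two hN
  have hhN : h ∈ normalizer (zpowers h : Set G) := le_normalizer (mem_zpowers h)
  have hh'N : h' ∈ normalizer (zpowers h : Set G) := hNn.conj_mem h hhN g
  have hz0 : h' * h * h'⁻¹ ∈ zpowers h := (mem_normalizer_iff.mp hh'N h).mp (mem_zpowers h)
  -- K = <h^2> is normal
  have hKn : (zpowers (h ^ 2)).Normal := by
    apply hh.min
    apply orderOf_pow_lt h 2 (by norm_num)
    rw [ho]; exact dvd_pow_self 2 (by omega)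
  have hsq : h' ^ 2 = g * h ^ 2 * g⁻¹ := by rw [hh', conj_pow]
  have hh'2 : h' ^ 2 ∈ zpowers (h ^ 2) := by rw [hsq]; exact hKn.conj_mem _ (mem_zpowers _) g
  have hKK : zpowers (h' ^ 2) = zpowers (h ^ 2) := by
    apply Subgroup.eq_of_le_of_card_ge (zpowers_le.mpr hh'2)
    rw [Nat.card_zpowers, Nat.card_zpowers, hsq]
    have : orderOf (g * h ^ 2 * g⁻¹) = orderOf (h ^ 2) := by
      have := orderOf_injective (MulAut.conj g).toMonoidHom (MulAut.conj g).injective (h ^ 2)
      simpa using this
    rw [this]
  -- h' commutes with h^2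
  have hc2 : Commute h' (h ^ 2) := by
    have h1 : h ^ 2 ∈ zpowers (h' ^ 2) := by rw [hKK]; exact mem_zpowers _
    obtain ⟨k, hk⟩ := h1
    have hk' : (h' ^ 2) ^ k = h ^ 2 := hk
    rw [← hk']
    exact ((Commute.refl h').pow_right 2).zpow_right k
  set z := h' * h * h'⁻¹ * h⁻¹ with hz
  have hzm : z ∈ zpowers h := mul_mem hz0 (inv_mem (mem_zpowers h))
  have hzh : h' * h * h'⁻¹ = z * h := by rw [hz]; group
  have hzc : Commute z h := zpowers_comm h _ hzm _ (mem_zpowers h)
  have hz2 : z ^ 2 = 1 := by
    have h1 : (h' * h * h'⁻¹) ^ 2 = h ^ 2 := by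
      rw [conj_pow, hc2.eq]; group
    rw [hzh, hzc.mul_pow] at h1
    exact mul_eq_right.mp h1
  by_cases hz1 : z = 1
  · rw [hz1, one_mul, mul_inv_eq_iff_eq_mul] at hzh
    exact hzh.symm
  exfalso
  have hzo : orderOf z = 2 := orderOf_eq_prime hz2 hz1
  rcases Nat.lt_or_ge e 2 with h2 | h2
  · -- e = 1 : h has order 2
    have he1 : e = 1 := by omega
    rw [he1, pow_one] at ho
    have hhsq : h ^ 2 = 1 := by rw [← ho]; exact pow_orderOf_eq_one h
    -- z ∈ <h>, z ≠ 1, so z = h
    have hzh' : z = h := by
      obtain ⟨k, hk⟩ := hzm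
      have hk' : h ^ k = z := hk
      rcases Int.even_or_odd k with ⟨m, hm⟩ | ⟨m, hm⟩
      · exfalso
        apply hz1
        rw [← hk', hm, ← two_mul, zpow_mul, zpow_ofNat, hhsq, one_zpow]
      · rw [← hk', hm, zpow_add, zpow_mul, zpow_ofNat, hhsq, one_zpow, one_mul, zpow_one]
    rw [hzh', ← sq, hhsq] at hzh
    have h3 : h = 1 := by
      have := congrArg (fun y => h'⁻¹ * y * h') hzh
      simpa [mul_assoc] using this
    rw [h3] at ho
    simp at ho
  · have he3 : 3 ≤ e := by omega
    obtain ⟨u, hu⟩ := hh'2
    have hu' : (h ^ 2) ^ u = h' ^ 2 := hu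
    -- u is odd
    have hodd : Odd u := by
      by_contra hne
      rw [Int.not_odd_iff_even] at hne
      obtain ⟨j, hj⟩ := hne
      have h4 : (h' ^ 2) ^ (2 ^ (e - 2)) = 1 := by
        rw [← hu', hj, ← two_mul]
        have : ((h ^ 2) ^ (2 * j)) ^ (2 ^ (e - 2)) = (h ^ (2 ^ e)) ^ j := by
          rw [← zpow_natCast, ← zpow_natCast, ← zpow_natCast, ← zpow_mul, ← zpow_mul, ← zpow_mul]
          congr 1
          have : (2 : ℤ) ^ e = 2 ^ (e - 2) * 4 := by
            have h5 : e = (e - 2) + 2 := by omega
            conv_lhs => rw [h5, pow_add]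
            norm_num
          push_cast
          rw [this]
          ring
        rw [this, ← ho, pow_orderOf_eq_one, one_zpow]
      have h5 : orderOf (h' ^ 2) = 2 ^ (e - 1) := by
        have h6 : orderOf (h' ^ 2) = orderOf (h ^ 2) := by
          rw [← Nat.card_zpowers, ← Nat.card_zpowers, hKK]
        rw [h6, orderOf_pow_of_dvd (by norm_num) (by rw [ho]; exact dvd_pow_self 2 (by omega)), ho]
        have h7 : e = (e - 1) + 1 := by omega
        conv_lhs => rw [h7, pow_succ]
        simp
      have h6 := orderOf_dvd_of_pow_eq_one h4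
      rw [h5] at h6
      have h7 : e - 1 ≤ e - 2 := (Nat.pow_dvd_pow_iff_le_right (by norm_num)).mp h6
      omega
    have hmin2 : ∀ v : G, v ^ 2 = 1 → ∀ y, y * v = v * y := by
      intro v hv y
      apply central_of_sq v hv
      apply hh.min
      have h4 : orderOf v ≤ 2 := Nat.le_of_dvd (by norm_num) (orderOf_dvd_of_pow_eq_one hv)
      have h5 : 2 ^ 2 ≤ 2 ^ e := Nat.pow_le_pow_right (by norm_num) h2
      rw [ho]
      omega
    have hzcen := hmin2 z hz2
    -- w
    set w := h ^ (-u) * h' with hw
    have hh'w : h' = h ^ u * w := by rw [hw]; group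
    have hconj : h' * h ^ (-u) * h'⁻¹ = z ^ (-u) * h ^ (-u) := by
      rw [← conj_zpow, hzh, hzc.mul_zpow]
    have hw2 : w ^ 2 = z := by
      have h4 : w ^ 2 = h ^ (-u) * (h' * h ^ (-u) * h'⁻¹) * h' ^ 2 := by
        rw [hw, sq, sq]; group
      rw [h4, hconj, ← hu']
      have h5 : Commute (h ^ (-u)) (z ^ (-u)) := ((hzc.symm).zpow_left _).zpow_right _
      have h6 : h ^ (-u) * (z ^ (-u) * h ^ (-u)) * (h ^ 2) ^ u = z ^ (-u) := by
        rw [← mul_assoc, h5.eq]
        have : (h ^ 2) ^ u = h ^ u * h ^ u := by
          rw [← zpow_natCast, ← zpow_mul, ← zpow_add]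
          congr 1
          push_cast; ring
        rw [this]
        group
      rw [h6]
      obtain ⟨j, hj⟩ := hodd
      have h7 : z ^ (-u) = z := by
        have : -u = 2 * (-j - 1) + 1 := by rw [hj]; ring
        rw [this, zpow_add, zpow_mul, zpow_ofNat, hz2, one_zpow, one_mul, zpow_one]
      exact h7
    -- c
    set c := h ^ (2 ^ (e - 2)) with hc
    have hcz : c ^ 2 = z := by
      -- both are the involution of <h>
      have h4 : (c ^ 2) ^ 2 = 1 := by
        rw [hc, ← pow_mul, ← pow_mul]
        have : 2 ^ (e - 2) * (2 * 2) = 2 ^ e := by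
          have h5 : e = (e - 2) + 2 := by omega
          conv_rhs => rw [h5, pow_add]
          ring
        rw [this, ← ho, pow_orderOf_eq_one]
      have h5 : c ^ 2 ≠ 1 := by
        intro h6
        rw [hc, ← pow_mul] at h6
        have h7 := orderOf_dvd_of_pow_eq_one h6
        have h8 : 2 ^ (e - 2) * 2 = 2 ^ (e - 1) := by
          have : e - 1 = (e - 2) + 1 := by omega
          rw [this, pow_succ]
        rw [ho, h8] at h7
        have h9 : e ≤ e - 1 := (Nat.pow_dvd_pow_iff_le_right (by norm_num)).mp h7
        omega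
      by_contra hne
      classical
      have := Fintype.ofFinite G
      have h6 := IsCyclic.card_pow_eq_one_le (α := zpowers h) (n := 2) (by norm_num)
      have hcm : c ^ 2 ∈ zpowers h := pow_mem (pow_mem (mem_zpowers h) _) _
      have hsub : ({1, ⟨z, hzm⟩, ⟨c ^ 2, hcm⟩} : Finset (zpowers h)) ⊆
          Finset.univ.filter (fun a : zpowers h => a ^ 2 = 1) := by
        intro a ha
        rw [Finset.mem_filter]
        refine ⟨Finset.mem_univ _, ?_⟩
        simp only [Finset.mem_insert, Finset.mem_singleton] at ha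
        rcases ha with rfl | rfl | rfl
        · simp
        · exact Subtype.ext hz2
        · exact Subtype.ext h4
      have h7 := (Finset.card_le_card hsub).trans h6
      rw [Finset.card_insert_of_notMem, Finset.card_insert_of_notMem, Finset.card_singleton] at h7
      · omega
      · rw [Finset.mem_singleton]
        intro h8
        exact hne (congrArg Subtype.val h8).symm
      · simp only [Finset.mem_insert, Finset.mem_singleton, not_or]
        constructor
        · intro h8
          exact hz1 (congrArg Subtype.val h8).symm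
        · intro h8
          exact h5 (congrArg Subtype.val h8).symm
    -- c commutes with h and h'
    have hch : Commute c h := (Commute.refl h).pow_left _
    have hch' : Commute c h' := by
      have h4 : c = (h ^ 2) ^ (2 ^ (e - 3)) := by
        rw [hc, ← pow_mul]
        congr 1
        have : e - 2 = (e - 3) + 1 := by omega
        rw [this, pow_succ]; ring
      rw [h4]
      exact (hc2.symm).pow_left _
    have hcw : Commute c w := by
      rw [hw]
      exact (hch.zpow_right _).mul_right hch'
    have hv2 : (c * w) ^ 2 = 1 := by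
      rw [hcw.mul_pow, hcz, hw2, ← sq, hz2]
    have hvcen := hmin2 (c * w) hv2
    have hh'v : h' = h ^ u * c⁻¹ * (c * w) := by rw [hh'w]; group
    have hcomm : Commute h' h := by
      rw [hh'v]
      apply Commute.mul_left
      · exact ((Commute.refl h).zpow_left u).mul_left hch.inv_left
      · exact (hvcen h).symm
    apply hz1
    rw [hz, hcomm.eq]; group

/-- If minimal elements commute with their conjugates and the normalizers have index two, all
centralizers have order at least `2m`. -/
theorem two_mul_le_cz_all [Finite G] {h : G} (hh : MinNN h) {e : ℕ} (ho : orderOf h = 2 ^ e)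
    (hN : (normalizer (zpowers h : Set G)).index = 2)
    (hall : ∀ x : G, MinNN x → orderOf x = orderOf h → ∀ g : G, Commute x (g * x * g⁻¹)) (x : G) :
    2 * orderOf h ≤ cz x := by
  by_cases hx : (zpowers x).Normal
  · obtain ⟨g, hg⟩ := not_comm_of_not_mem h hh.nn
    have hA := closure_comm ({h, g * h * g⁻¹} : Set G) (by
      have h1 := hall h hh rfl g
      intro a ha b hb
      simp only [Set.mem_insert_iff, Set.mem_singleton_iff] at ha hb
      rcases ha with rfl | rfl <;> rcases hb with rfl | rfl
      · rfl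
      · exact h1.eq
      · exact h1.symm.eq
      · rfl)
    have h2 := card_le_cz _ hA x hx
    have h3 : 2 * Nat.card (zpowers h) ≤ Nat.card (closure ({h, g * h * g⁻¹} : Set G)) := by
      apply two_mul_card_le (zpowers h) (closure ({h, g * h * g⁻¹} : Set G)) _ (g * h * g⁻¹) hg
      · exact subset_closure (by simp)
      · rw [zpowers_le]; exact subset_closure (by simp)
    rw [Nat.card_zpowers] at h3
    exact h3.trans h2
  · have hle : orderOf h ≤ orderOf x := by
      by_contra hlt
      push Not at hlt
      exact hx (hh.min x hlt)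
    rcases Nat.lt_or_eq_of_le hle with h1 | h1
    · exact hh.two_mul_le_cz_of_lt ho hN x hx h1
    · have hxm : MinNN x := ⟨hx, fun y hy => hh.min y (by rw [h1]; exact hy)⟩
      obtain ⟨g, hg⟩ := not_comm_of_not_mem x hx
      have h2 := hall x hxm h1.symm g
      have h3 := two_mul_le_cz x (zpowers x)
        (fun a ha => zpowers_comm x a ha x (mem_zpowers x)) (g * x * g⁻¹) hg h2.symm.eq
      rw [Nat.card_zpowers] at h3
      rw [h1]
      exact h3

end Pool.Agent.R700.TP
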