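import Pool.Agent.R700.TPd

/-!
MP_7792ce_al: the numerical inequality and the exceptional cases with normalizer of index ≥ 3.
-/

set_option autoImplicit false

namespace Pool.Agent.R700.TP

open Subgroup Pool.Agent.R864.TP

/-! ### Numbers -/

theorem two_pow_bernoulli (n : ℕ) (hn : 1 ≤ n) : 2 * n ^ n ≤ (n + 1) ^ n := by
  have h0 : (0 : ℝ) < n := by exact_mod_cast hn
  have h1 : (1 : ℝ) + n * (1 / n) ≤ (1 + 1 / n) ^ n :=
    one_add_mul_le_pow (by have : (0 : ℝ) < 1 / n := by positivity
                           linarith) n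
  have h2 : (1 : ℝ) + n * (1 / n) = 2 := by field_simp; norm_num
  rw [h2] at h1
  have h3 : (2 : ℝ) * n ^ n ≤ (n + 1) ^ n := by
    calc (2 : ℝ) * n ^ n ≤ (1 + 1 / n) ^ n * n ^ n := by gcongr
      _ = (n + 1) ^ n := by
        rw [← mul_pow]; congr 1; field_simp
  exact_mod_cast h3

theorem fact_bound (n : ℕ) (hn : 4 ≤ n) : 2 * n * n.factorial ≤ n ^ n := by
  induction n, hn using Nat.le_induction with
  | base => decide
  | succ n hn ih =>
    have h1 := two_pow_bernoulli n (by omega)
    rw [Nat.factorial_succ]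
    calc 2 * (n + 1) * ((n + 1) * n.factorial) ≤ 2 * (n + 1) * ((2 * n) * n.factorial) := by
          gcongr; omega
      _ ≤ 2 * (n + 1) * n ^ n := by gcongr
      _ = (n + 1) * (2 * n ^ n) := by ring
      _ ≤ (n + 1) * (n + 1) ^ n := by gcongr
      _ = (n + 1) ^ (n + 1) := by ring

theorem four_mul_le_two_pow (t : ℕ) (ht : 4 ≤ t) : 4 * t ≤ 2 ^ t := by
  induction t, ht using Nat.le_induction with
  | base => decide
  | succ t ht ih => rw [pow_succ]; omega

theorem six_mul_le (t : ℕ) (ht : 2 ≤ t) : 6 * t * 2 ^ t ≤ 9 ^ t := by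
  induction t, ht using Nat.le_induction with
  | base => decide
  | succ t ht ih =>
    have h1 : 6 * (t + 1) ≤ 12 * t := by omega
    calc 6 * (t + 1) * 2 ^ (t + 1) ≤ 12 * t * 2 ^ (t + 1) := by gcongr
      _ = 4 * (6 * t * 2 ^ t) := by ring
      _ ≤ 4 * 9 ^ t := by gcongr
      _ ≤ 9 ^ (t + 1) := by rw [pow_succ]; omega

theorem F_two' : F 2 = 1 / 2 := by norm_num [F]
theorem F_three : F 3 = 2 / 9 := by norm_num [F, Nat.factorial]

theorem F_bound (p : ℕ) (hp : 4 ≤ p) : F p ≤ 1 / (2 * p) := by
  unfold F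
  have h0 : (0 : ℝ) < p := by exact_mod_cast (by omega : 0 < p)
  rw [div_le_div_iff₀ (by positivity) (by positivity)]
  have := fact_bound p hp
  have h1 : (2 : ℝ) * p * p.factorial ≤ (p : ℝ) ^ p := by exact_mod_cast this
  linarith

theorem le_pow_mul (q t : ℕ) (hq : 2 ≤ q) : q * t ≤ q ^ t ∨ t = 0 := by
  rcases Nat.eq_zero_or_pos t with h | h
  · right; exact h
  · left
    induction t, h using Nat.le_induction with
    | base => simp
    | succ t ht ih =>
      have h1 : q ≤ q ^ t := by
        calc q = q ^ 1 := (pow_one q).symm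
          _ ≤ q ^ t := Nat.pow_le_pow_right (by omega) ht
      calc q * (t + 1) = q * t + q := by ring
        _ ≤ q ^ t + q ^ t := by omega
        _ = 2 * q ^ t := by ring
        _ ≤ q * q ^ t := by gcongr
        _ = q ^ (t + 1) := by ring

/-- The numerical inequality. -/
theorem numeric (p t k : ℕ) (hp : p.Prime) (ht : 1 ≤ t) (hk : 1 ≤ k) (hd : k ∣ p * t) :
    F p ^ t ≤ 1 / ((k + p * t : ℕ) : ℝ) ∨
    (p = 2 ∧ ((t = 1 ∧ (k = 1 ∨ k = 2)) ∨ (t = 2 ∧ (k = 1 ∨ k = 2 ∨ k = 4)) ∨
      (t = 3 ∧ (k = 3 ∨ k = 6)))) ∨ (p = 3 ∧ t = 1 ∧ k = 3) := by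
  have hkle : k ≤ p * t := Nat.le_of_dvd (Nat.mul_pos hp.pos (by omega)) hd
  rcases Nat.lt_or_ge p 5 with h5 | h5
  · have h23 : p = 2 ∨ p = 3 := by
      have := hp.two_le
      interval_cases p
      · left; rfl
      · right; rfl
      · exfalso; revert hp; decide
    rcases h23 with rfl | rfl
    · rcases Nat.lt_or_ge t 4 with h4 | h4
      · interval_cases t
        · have : k = 1 ∨ k = 2 := by omega
          right; left; exact ⟨rfl, Or.inl ⟨rfl, this⟩⟩
        · have : k = 1 ∨ k = 2 ∨ k = 3 ∨ k = 4 := by omega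
          rcases this with rfl | rfl | rfl | rfl
          · right; left; simp
          · right; left; simp
          · exfalso; omega
          · right; left; simp
        · have : k = 1 ∨ k = 2 ∨ k = 3 ∨ k = 4 ∨ k = 5 ∨ k = 6 := by omega
          rcases this with rfl | rfl | rfl | rfl | rfl | rfl
          · left; rw [F_two']; norm_num
          · left; rw [F_two']; norm_num
          · right; left; simp
          · exfalso; omega
          · exfalso; omega
          · right; left; simp
      · left
        rw [F_two']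
        have h1 := four_mul_le_two_pow t h4
        have h2 : k + 2 * t ≤ 2 ^ t := by omega
        rw [div_pow, one_pow]
        apply one_div_le_one_div_of_le
        · have : 0 < k + 2 * t := by omega
          exact_mod_cast this
        · exact_mod_cast h2
    · rcases Nat.lt_or_ge t 2 with h2 | h2
      · have ht1 : t = 1 := by omega
        subst ht1
        have : k = 1 ∨ k = 2 ∨ k = 3 := by omega
        rcases this with rfl | rfl | rfl
        · left; rw [F_three]; norm_num
        · exfalso; omega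
        · right; right; exact ⟨rfl, rfl, rfl⟩
      · left
        rw [F_three]
        have h1 := six_mul_le t h2
        have h3 : (k + 3 * t) * 2 ^ t ≤ 9 ^ t := by
          refine le_trans ?_ h1
          gcongr
          omega
        have h4 : ((k + 3 * t : ℕ) : ℝ) * 2 ^ t ≤ 9 ^ t := by exact_mod_cast h3
        have h5 : (0 : ℝ) < ((k + 3 * t : ℕ) : ℝ) := by
          have : 0 < k + 3 * t := by omega
          exact_mod_cast this
        rw [div_pow, div_le_div_iff₀ (by positivity) h5]
        linarith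
  · left
    have h1 := F_bound p (by omega)
    have h0 : (0 : ℝ) < p := by exact_mod_cast hp.pos
    have h2 : F p ^ t ≤ (1 / (2 * p)) ^ t := by
      apply pow_le_pow_left₀ _ h1
      unfold F; positivity
    refine h2.trans ?_
    rcases le_pow_mul (2 * p) t (by omega) with h3 | h3
    · rw [div_pow, one_pow]
      apply one_div_le_one_div_of_le
      · have : 0 < k + p * t := by omega
        exact_mod_cast this
      · have : k + p * t ≤ (2 * p) ^ t := by
          refine le_trans ?_ h3
          nlinarith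
        exact_mod_cast this
    · omega

variable {G : Type} [Group G]

/-! ### Sums of centralizer orders -/

theorem sum_cz [Fintype G] (B : Subgroup G) (b c : ℕ) (hB : ∀ x ∈ B, b ≤ cz x)
    (hc : ∀ x : G, c ≤ cz x) :
    Nat.card G + Nat.card B * b + (Nat.card G - Nat.card B) * c ≤ (∑ x : G, cz x) + b := by
  classical
  have hfilt : (Finset.univ.filter (fun x : G => x ∈ B)).card = Nat.card B := by
    rw [← Fintype.card_subtype, ← Nat.card_eq_fintype_card]
  have hfilt' : (Finset.univ.filter (fun x : G => ¬ x ∈ B)).card = Nat.card G - Nat.card B := by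
    have h7 := Finset.card_filter_add_card_filter_not (s := (Finset.univ : Finset G))
        (fun x : G => x ∈ B)
    rw [hfilt, Finset.card_univ, ← Nat.card_eq_fintype_card] at h7
    omega
  rw [← Finset.sum_filter_add_sum_filter_not Finset.univ (fun x : G => x ∈ B)]
  have h1 : (Nat.card G - Nat.card B) * c ≤
      ∑ x ∈ Finset.univ.filter (fun x : G => ¬ x ∈ B), cz x := by
    rw [← hfilt', ← smul_eq_mul]
    exact Finset.card_nsmul_le_sum _ _ _ (fun x _ => hc x)
  have h2 : Nat.card G + Nat.card B * b ≤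
      (∑ x ∈ Finset.univ.filter (fun x : G => x ∈ B), cz x) + b := by
    have h1m : (1 : G) ∈ Finset.univ.filter (fun x : G => x ∈ B) := by
      rw [Finset.mem_filter]; exact ⟨Finset.mem_univ _, one_mem B⟩
    rw [← Finset.add_sum_erase _ _ h1m, cz_one]
    have h3 : (Nat.card B - 1) * b ≤
        ∑ x ∈ (Finset.univ.filter (fun x : G => x ∈ B)).erase 1, cz x := by
      rw [← hfilt, ← Finset.card_erase_of_mem h1m, ← smul_eq_mul]
      apply Finset.card_nsmul_le_sum
      intro x hx
      rw [Finset.mem_erase, Finset.mem_filter] at hx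
      exact hB x hx.2.2
    have h4 : 1 ≤ Nat.card B := Nat.card_pos
    obtain ⟨q, hq⟩ := Nat.exists_eq_add_of_le h4
    rw [hq] at h3 ⊢
    have : 1 + q - 1 = q := by omega
    rw [this] at h3
    calc Nat.card G + (1 + q) * b = Nat.card G + q * b + b := by ring
      _ ≤ _ := by omega
  omega

theorem lt_commProb_of_sum [Fintype G] (a b : ℕ) (hb : 0 < b)
    (h : a * Nat.card G ^ 2 < b * ∑ x : G, cz x) : (a : ℚ) / b < commProb G := by
  have h0 : (0 : ℚ) < Nat.card G := by
    have : 0 < Nat.card G := Nat.card_pos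
    exact_mod_cast this
  have hb' : (0 : ℚ) < b := by exact_mod_cast hb
  have h1 : (a : ℚ) * (Nat.card G : ℚ) ^ 2 < b * (commProb G * (Nat.card G : ℚ) ^ 2) := by
    rw [commProb_sum]; exact_mod_cast h
  rw [div_lt_iff₀ hb']
  have h2 : (0 : ℚ) < (Nat.card G : ℚ) ^ 2 := by positivity
  by_contra hcon
  push Not at hcon
  nlinarith

/-! ### Exceptional cases -/

/-- `k = 1`, `t = 1`: the groups `G_n`. -/
theorem case_three [Finite G] {h : G} (hh : MinNN h) {e : ℕ} (he : 1 ≤ e) (ho : orderOf h = 2 ^ e)
    (hcard : Nat.card G = 3 * 2 ^ e) :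
    ∃ a b : G, a ^ 3 = 1 ∧ b ^ 2 ^ e = 1 ∧ b⁻¹ * a * b = a⁻¹ ∧ closure {a, b} = ⊤ := by
  classical
  have : Fact (Nat.Prime 3) := ⟨Nat.prime_three⟩
  obtain ⟨a, ha⟩ := exists_prime_orderOf_dvd_card' (G := G) 3 ⟨2 ^ e, hcard⟩
  have ha3 : a ^ 3 = 1 := by rw [← ha]; exact pow_orderOf_eq_one a
  have han : (zpowers a).Normal := by
    rcases Nat.lt_or_ge e 2 with h1 | h1
    · have he1 : e = 1 := by omega
      apply Subgroup.normal_of_index_eq_two
      have h2 := (zpowers a).card_mul_index
      rw [Nat.card_zpowers, ha, hcard, he1] at h2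
      omega
    · apply hh.min
      rw [ha, ho]
      have : 2 ^ 2 ≤ 2 ^ e := Nat.pow_le_pow_right (by norm_num) h1
      omega
  have hgen : closure {a, h} = ⊤ := by
    apply Subgroup.eq_top_of_card_eq
    apply Nat.dvd_antisymm (Subgroup.card_subgroup_dvd_card _)
    rw [hcard]
    apply Nat.Coprime.mul_dvd_of_dvd_of_dvd
    · exact Nat.Coprime.pow_right e (by norm_num)
    · rw [← ha, ← Nat.card_zpowers]
      apply Subgroup.card_dvd_of_le
      rw [zpowers_le]; exact subset_closure (by simp)
    · rw [← ho, ← Nat.card_zpowers]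
      apply Subgroup.card_dvd_of_le
      rw [zpowers_le]; exact subset_closure (by simp)
  refine ⟨a, h, ha3, by rw [← ho]; exact pow_orderOf_eq_one h, ?_, hgen⟩
  have h1 : h⁻¹ * a * h ∈ zpowers a := by
    have := han.conj_mem a (mem_zpowers a) h⁻¹
    simpa using this
  rw [mem_zpowers_iff_mem_range_orderOf] at h1
  rw [ha] at h1
  simp only [Finset.mem_image, Finset.mem_range] at h1
  obtain ⟨i, hi, hi2⟩ := h1
  interval_cases i
  · exfalso
    rw [pow_zero] at hi2
    have h2 : a = 1 := by
      have := congrArg (fun z => h * z * h⁻¹) hi2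
      simpa [mul_assoc] using this.symm
    rw [h2] at ha
    simp at ha
  · exfalso
    rw [pow_one] at hi2
    have h2 : a * h = h * a := by
      have := congrArg (fun z => h * z) hi2
      simpa [mul_assoc] using this.symm
    have hA := closure_comm ({a, h} : Set G) (by
      intro x hx y hy
      simp only [Set.mem_insert_iff, Set.mem_singleton_iff] at hx hy
      rcases hx with rfl | rfl <;> rcases hy with rfl | rfl
      · rfl
      · exact h2
      · exact h2.symm
      · rfl)
    rw [hgen] at hA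
    apply hh.nn
    refine ⟨fun x hx g => ?_⟩
    have h3 := hA g (mem_top g) x (mem_top x)
    rw [h3]
    simpa using hx
  · rw [← hi2]
    rw [eq_inv_iff_mul_eq_one, ← pow_succ]
    exact ha3

/-- odd index: `K` is central -/
theorem sq_central [Finite G] {h : G} (hh : MinNN h) {e : ℕ} (he : 1 ≤ e) (ho : orderOf h = 2 ^ e)
    (n : ℕ) (hn : Odd n) (hcard : Nat.card G = n * 2 ^ e) (y : G) : y * h ^ 2 = h ^ 2 * y := by
  have hKn : (zpowers (h ^ 2)).Normal := by
    apply hh.min
    apply orderOf_pow_lt h 2 (by norm_num)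
    rw [ho]; exact dvd_pow_self 2 (by omega)
  apply central_of_odd_index (h ^ 2) (e - 1) _ hKn (zpowers h)
  · intro x hx
    exact zpowers_comm h x hx _ (pow_mem (mem_zpowers h) 2)
  · have h1 := (zpowers h).card_mul_index
    rw [Nat.card_zpowers, ho, hcard, mul_comm] at h1
    have h2 : (zpowers h).index = n := Nat.eq_of_mul_eq_mul_right (by positivity) h1
    rw [h2]; exact hn
  · rw [orderOf_pow_of_dvd (by norm_num) (by rw [ho]; exact dvd_pow_self 2 (by omega)), ho]
    have h7 : e = (e - 1) + 1 := by omega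
    conv_lhs => rw [h7, pow_succ]
    simp

/-- odd index, `cp > (3n-1)/(2n^2)` (weak form) -/
theorem sum_odd [Fintype G] {h : G} (hh : MinNN h) {e : ℕ} (he : 1 ≤ e) (ho : orderOf h = 2 ^ e)
    (n : ℕ) (hn : Odd n) (hcard : Nat.card G = n * 2 ^ e) :
    (3 * n - 1) * (2 ^ e) ^ 2 ≤ 2 * ∑ x : G, cz x := by
  have hcen := sq_central hh he ho n hn hcard
  have hK : 2 * Nat.card (zpowers (h ^ 2)) = 2 ^ e := by
    rw [Nat.card_zpowers, orderOf_pow_of_dvd (by norm_num)
      (by rw [ho]; exact dvd_pow_self 2 (by omega)), ho]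
    exact Nat.mul_div_cancel' (dvd_pow_self 2 (by omega))
  have h1 := sum_cz (zpowers (h ^ 2)) (Nat.card G) (2 ^ e) (by
    intro x hx
    rw [cz_of_central]
    intro y
    obtain ⟨k, hk⟩ := hx
    have hk' : (h ^ 2) ^ k = x := hk
    rw [← hk']
    have : Commute y (h ^ 2) := hcen y
    exact (this.zpow_right k).eq) (fun x => by rw [← ho]; exact hh.le_cz x)
  set q := Nat.card (zpowers (h ^ 2)) with hq
  set S := ∑ x : G, cz x with hS
  rw [hcard, ← hK] at h1
  rw [← hK]
  have hn1 : 1 ≤ n := hn.pos
  obtain ⟨n', rfl⟩ := Nat.exists_eq_add_of_le hn1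
  have e1 : (1 + n') * (2 * q) - q = (1 + 2 * n') * q := by
    have : (1 + n') * (2 * q) = (1 + 2 * n') * q + q := by ring
    omega
  rw [e1] at h1
  have e2 : 3 * (1 + n') - 1 = 3 * n' + 2 := by omega
  rw [e2]
  nlinarith

end Pool.Agent.R700.TP
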