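import Pool.Agent.R700.TPe

/-!
MP_7792ce_al: the exceptional cases of index 6.
-/

set_option autoImplicit false

namespace Pool.Agent.R700.TP

open Subgroup Pool.Agent.R864.TP

variable {G : Type} [Group G]

theorem card_inf_relIndex [Finite G] (A B : Subgroup G) :
    Nat.card (A ⊓ B : Subgroup G) * A.relIndex B = Nat.card B := by
  have h5 := (A.subgroupOf B).card_mul_index
  have h6 : Nat.card (A.subgroupOf B) = Nat.card (A ⊓ B : Subgroup G) := by
    rw [← Subgroup.inf_subgroupOf_right]
    exact Nat.card_congr (Subgroup.subgroupOfEquivOfLe inf_le_right).toEquiv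
  rw [h6] at h5
  exact h5

/-- `|G| = 12`, `m = 2`. -/
theorem case_twelve [Finite G] {h : G} (hh : MinNN h) (ho : orderOf h = 2)
    (hcard : Nat.card G = 12) (hN : Nat.card (normalizer (zpowers h : Set G)) = 4) :
    1 / 4 < commProb G := by
  have := Fintype.ofFinite G
  have : Fact (Nat.Prime 2) := ⟨Nat.prime_two⟩
  have hmc : IsMulCommutative (normalizer (zpowers h : Set G)) :=
    IsPGroup.isMulCommutative_of_card_eq_prime_sq (p := 2) (by rw [hN]; norm_num)
  have hcomm : ∀ a b : normalizer (zpowers h : Set G), a * b = b * a := fun a b =>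
    hmc.is_comm.comm a b
  have h1 := sum_cz (normalizer (zpowers h : Set G)) 4 2 (by
    intro x hx
    have := le_cz x (normalizer (zpowers h : Set G)) (fun a ha =>
      congrArg Subtype.val (hcomm ⟨a, ha⟩ ⟨x, hx⟩))
    rwa [hN] at this) (fun x => by rw [← ho]; exact hh.le_cz x)
  rw [hN, hcard] at h1
  have h2 := lt_commProb_of_sum (G := G) 1 4 (by norm_num) (by rw [hcard]; omega)
  norm_num at h2 ⊢
  exact h2

theorem case_six [Finite G] {h : G} (hh : MinNN h) {e : ℕ} (he : 1 ≤ e) (ho : orderOf h = 2 ^ e)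
    (hcard : Nat.card G = 6 * 2 ^ e)
    (hN : Nat.card (normalizer (zpowers h : Set G)) = 2 * 2 ^ e) : 1 / 4 < commProb G := by
  have := Fintype.ofFinite G
  rcases Nat.lt_or_ge e 2 with he2 | he2
  · have he1 : e = 1 := by omega
    subst he1
    exact case_twelve hh (by rw [ho]; norm_num) (by rw [hcard]; norm_num) (by rw [hN]; norm_num)
  have h4 : 2 ^ 2 ≤ 2 ^ e := Nat.pow_le_pow_right (by norm_num) he2
  have : Fact (Nat.Prime 3) := ⟨Nat.prime_three⟩
  obtain ⟨y, hy⟩ := exists_prime_orderOf_dvd_card' (G := G) 3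
    ⟨2 * 2 ^ e, by rw [hcard]; ring⟩
  have hy3 : y ^ 3 = 1 := by rw [← hy]; exact pow_orderOf_eq_one y
  have hyn : (zpowers y).Normal := by
    apply hh.min
    rw [hy, ho]
    omega
  have hy1 : y ≠ 1 := by
    rintro rfl
    simp at hy
  -- conjugates of y
  have hconj : ∀ g : G, g * y * g⁻¹ = y ∨ g * y * g⁻¹ = y ^ 2 := by
    classical
    intro g
    have h1 : g * y * g⁻¹ ∈ zpowers y := hyn.conj_mem y (mem_zpowers y) g
    rw [mem_zpowers_iff_mem_range_orderOf, hy] at h1
    simp only [Finset.mem_image, Finset.mem_range] at h1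
    obtain ⟨i, hi, hi2⟩ := h1
    interval_cases i
    · exfalso
      rw [pow_zero] at hi2
      apply hy1
      have := congrArg (fun z => g⁻¹ * z * g) hi2
      simpa [mul_assoc] using this.symm
    · left; rw [← hi2, pow_one]
    · right; exact hi2.symm
  set D : Subgroup G := centralizer ({y} : Set G) with hD
  have hmemD : ∀ g : G, g ∈ D ↔ g * y * g⁻¹ = y := by
    intro g
    rw [hD, mem_centralizer_singleton_iff, mul_inv_eq_iff_eq_mul]
  have hhD : h ∉ D := by
    intro hcon
    rw [hD, mem_centralizer_singleton_iff] at hcon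
    have h1 : y ∈ normalizer (zpowers h : Set G) := by
      rw [mem_normalizer_iff]
      intro x
      have key : ∀ z ∈ zpowers h, y * z * y⁻¹ = z := by
        rintro z ⟨k, hk⟩
        have hk' : h ^ k = z := hk
        have h2 : Commute y h := hcon.symm
        rw [← hk', mul_inv_eq_iff_eq_mul]
        exact (h2.zpow_right k).eq
      constructor
      · intro hx; rw [key x hx]; exact hx
      · intro hx
        have h3 := key _ hx
        have h4 : y * x * y⁻¹ = x := by
          have := congrArg (fun z => y⁻¹ * z * y) h3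
          simpa [mul_assoc] using this
        rwa [h4] at hx
    have h2 : orderOf y ∣ Nat.card (normalizer (zpowers h : Set G)) :=
      Subgroup.orderOf_dvd_natCard _ h1
    rw [hy, hN] at h2
    have h3 : 2 * 2 ^ e = 2 ^ (e + 1) := by rw [pow_succ]; ring
    rw [h3] at h2
    have h5 := Nat.prime_three.dvd_of_dvd_pow h2
    omega
  have hhy : h * y * h⁻¹ = y ^ 2 := by
    rcases hconj h with h1 | h1
    · exact absurd ((hmemD h).mpr h1) hhD
    · exact h1
  have hDi : D.index = 2 := by
    rw [index_eq_two_iff]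
    refine ⟨h, fun b => ?_⟩
    have hbh : b * h * y * (b * h)⁻¹ = b * (h * y * h⁻¹) * b⁻¹ := by group
    rcases hconj b with h1 | h1
    · right
      refine ⟨(hmemD b).mpr h1, ?_⟩
      rw [hmemD, hbh, hhy, ← conj_pow, h1]
      intro h2
      apply hy1
      rw [sq] at h2
      exact mul_eq_left.mp h2
    · left
      refine ⟨?_, ?_⟩
      · rw [hmemD, hbh, hhy, ← conj_pow, h1, ← pow_mul]
        have : y ^ (2 * 2) = y ^ 3 * y := by rw [← pow_succ]
        rw [this, hy3, one_mul]
      · rw [hmemD, h1]
        intro h2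
        apply hy1
        rw [sq] at h2
        exact mul_eq_left.mp h2
  have hDn : D.Normal := Subgroup.normal_of_index_eq_two hDi
  set N : Subgroup G := normalizer (zpowers h : Set G) with hNdef
  have hhN : h ∈ N := le_normalizer (mem_zpowers h)
  -- |D ⊓ N| = 2^e
  have hR : Nat.card (D ⊓ N : Subgroup G) = 2 ^ e := by
    have h1 := card_inf_relIndex D N
    have h2 : D.relIndex N ∣ 2 := hDi ▸ relIndex_dvd_index_of_normal D N
    have h3 : D.relIndex N ≠ 1 := by
      rw [Ne, relIndex_eq_one]
      intro hle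
      exact hhD (hle hhN)
    have h5 : D.relIndex N = 2 := by
      rcases (Nat.dvd_prime Nat.prime_two).mp h2 with h | h
      · exact absurd h h3
      · exact h
    rw [h5, hN] at h1
    omega
  set K : Subgroup G := zpowers (h ^ 2) with hK
  have hKcard : 2 * Nat.card K = 2 ^ e := by
    rw [hK, Nat.card_zpowers, orderOf_pow_of_dvd (by norm_num)
      (by rw [ho]; exact dvd_pow_self 2 (by omega)), ho]
    exact Nat.mul_div_cancel' (dvd_pow_self 2 (by omega))
  have hKle : K ≤ D ⊓ N := by
    rw [hK, zpowers_le, mem_inf]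
    exact ⟨Subgroup.sq_mem_of_index_two hDi h, pow_mem hhN 2⟩
  have hKh : K ≤ zpowers h := zpowers_le.mpr (pow_mem (mem_zpowers h) 2)
  obtain ⟨r, hr, hrK⟩ : ∃ r, r ∈ D ⊓ N ∧ r ∉ K := by
    by_contra hcon
    push Not at hcon
    have h1 : Nat.card (D ⊓ N : Subgroup G) ≤ Nat.card K := Subgroup.card_le_of_le hcon
    rw [hR] at h1
    have : 0 < Nat.card K := Nat.card_pos
    omega
  -- r commutes with h^2
  have hrh : h ^ 2 * r = r * h ^ 2 := by
    by_cases hrn : (zpowers r).Normal
    · have h1 : r ^ 2 ∈ K := by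
        have h2 : (K.subgroupOf (D ⊓ N)).index = 2 := by
          have h3 := (K.subgroupOf (D ⊓ N)).card_mul_index
          have h5 : Nat.card (K.subgroupOf (D ⊓ N)) = Nat.card K :=
            Nat.card_congr (Subgroup.subgroupOfEquivOfLe hKle).toEquiv
          rw [h5, hR, ← hKcard, mul_comm] at h3
          exact Nat.eq_of_mul_eq_mul_right Nat.card_pos h3
        exact Subgroup.sq_mem_of_index_two h2 (⟨r, hr⟩ : (D ⊓ N : Subgroup G))
      exact sq_comm r h hrn (zpowers_comm h _ (mem_zpowers h) _ (hKh h1))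
    · have h1 : orderOf h ≤ orderOf r := by
        by_contra hlt
        push Not at hlt
        exact hrn (hh.min r hlt)
      have h2 : zpowers r = D ⊓ N := by
        apply Subgroup.eq_of_le_of_card_ge (zpowers_le.mpr hr)
        rw [Nat.card_zpowers, hR, ← ho]
        exact h1
      have h3 : h ^ 2 ∈ zpowers r := by rw [h2]; exact hKle (mem_zpowers _)
      exact zpowers_comm r _ h3 _ (mem_zpowers r)
  have hry : r * y = y * r := by
    have := (mem_inf.mp hr).1
    rw [hD, mem_centralizer_singleton_iff] at this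
    exact this
  have hh2y : h ^ 2 * y = y * h ^ 2 := by
    have := (mem_inf.mp (hKle (mem_zpowers (h ^ 2)))).1
    rw [hD, mem_centralizer_singleton_iff] at this
    exact this
  have hE := closure_comm ({y, h ^ 2, r} : Set G) (by
    intro a ha b hb
    simp only [Set.mem_insert_iff, Set.mem_singleton_iff] at ha hb
    rcases ha with rfl | rfl | rfl <;> rcases hb with rfl | rfl | rfl
    · rfl
    · exact hh2y.symm
    · exact hry.symm
    · exact hh2y
    · rfl
    · exact hrh
    · exact hry
    · exact hrh.symm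
    · rfl)
  set E : Subgroup G := closure ({y, h ^ 2, r} : Set G) with hEdef
  have hEcard : 3 * 2 ^ e ∣ Nat.card E := by
    apply Nat.Coprime.mul_dvd_of_dvd_of_dvd
    · exact Nat.Coprime.pow_right e (by norm_num)
    · rw [← hy, ← Nat.card_zpowers]
      apply Subgroup.card_dvd_of_le
      rw [zpowers_le]; exact subset_closure (by simp)
    · have h1 : closure ({h ^ 2, r} : Set G) ≤ D ⊓ N := by
        rw [closure_le]
        intro x hx
        simp only [Set.mem_insert_iff, Set.mem_singleton_iff] at hx
        rcases hx with rfl | rfl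
        · exact hKle (mem_zpowers _)
        · exact hr
      have h2 : 2 * Nat.card K ≤ Nat.card (closure ({h ^ 2, r} : Set G)) := by
        apply two_mul_card_le K _ _ r hrK
        · exact subset_closure (by simp)
        · rw [hK, zpowers_le]; exact subset_closure (by simp)
      have h3 : Nat.card (closure ({h ^ 2, r} : Set G)) ∣ 2 ^ e := by
        rw [← hR]; exact Subgroup.card_dvd_of_le h1
      have h5 : Nat.card (closure ({h ^ 2, r} : Set G)) = 2 ^ e := by
        apply le_antisymm (Nat.le_of_dvd (by positivity) h3)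
        omega
      rw [← h5]
      apply Subgroup.card_dvd_of_le
      apply Subgroup.closure_mono
      intro x hx
      simp only [Set.mem_insert_iff, Set.mem_singleton_iff] at hx ⊢
      tauto
  have hEge : 3 * 2 ^ e ≤ Nat.card E := Nat.le_of_dvd Nat.card_pos hEcard
  have h1 := sum_cz E (3 * 2 ^ e) 0 (by
    intro x hx
    exact hEge.trans (le_cz x E (fun a ha => hE a ha x hx))) (fun x => Nat.zero_le _)
  rw [hcard] at h1
  have h2 := lt_commProb_of_sum (G := G) 1 4 (by norm_num) (by
    rw [hcard]
    have h3 : 3 * 2 ^ e * (3 * 2 ^ e) ≤ Nat.card E * (3 * 2 ^ e) := Nat.mul_le_mul_right _ hEge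
    have h5 : 0 < 2 ^ e := by positivity
    nlinarith)
  norm_num at h2 ⊢
  exact h2

/-- `p = 3`, index 6 does not occur. -/
theorem case_p_three [Finite G] {h : G} (hh : MinNN h) {e : ℕ} (he : 1 ≤ e)
    (ho : orderOf h = 3 ^ e) (hcard : Nat.card G = 6 * 3 ^ e)
    (hN : Nat.card (normalizer (zpowers h : Set G)) = 3 * 3 ^ e) : False := by
  have : Fact (Nat.Prime 2) := ⟨Nat.prime_two⟩
  obtain ⟨y, hy⟩ := exists_prime_orderOf_dvd_card' (G := G) 2
    ⟨3 * 3 ^ e, by rw [hcard]; ring⟩
  have hy2 : y ^ 2 = 1 := by rw [← hy]; exact pow_orderOf_eq_one y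
  have h3 : 3 ^ 1 ≤ 3 ^ e := Nat.pow_le_pow_right (by norm_num) he
  have hyn : (zpowers y).Normal := by
    apply hh.min
    rw [hy, ho]
    omega
  have hcen := central_of_sq y hy2 hyn
  have h1 : y ∈ normalizer (zpowers h : Set G) := by
    rw [mem_normalizer_iff]
    intro x
    rw [← hcen x]
    simp
  have h2 : orderOf y ∣ Nat.card (normalizer (zpowers h : Set G)) :=
    Subgroup.orderOf_dvd_natCard _ h1
  rw [hy, hN] at h2
  have h4 : 3 * 3 ^ e = 3 ^ (e + 1) := by rw [pow_succ]; ring
  rw [h4] at h2
  have h5 := Nat.prime_two.dvd_of_dvd_pow h2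
  omega

end Pool.Agent.R700.TP
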