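import Pool.Agent.R700.TPf
import Pool.Agent.R700.TPDed
import Pool.Agent.R700.TPGn
import Pool.Agent.R700.TPQ16
import Pool.Agent.R700.TPQ8

/-!
MP_7792ce_al: assembly.
-/

set_option autoImplicit false

namespace Pool.Agent.R700.TP

open Subgroup Pool.Agent.R864.TP

variable {G : Type} [Group G]

theorem P_normal [Finite G] (H : Subgroup G) (hH : H.Normal) : P H = 1 := by
  have htop : normalizer (H : Set G) = ⊤ := normalizer_eq_top_iff.mpr hH
  have h1 := P_formula H 1 0 (fun g hg => by
    exfalso; apply hg; rw [htop]; exact mem_top g) (by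
    rw [htop, mul_zero, add_zero]
    exact (Nat.card_congr Subgroup.topEquiv.toEquiv).symm)
  rw [h1, pow_zero]

theorem tp_dedekind [Finite G] (hD : ∀ H : Subgroup G, H.Normal) : tp G = 1 := by
  unfold tp
  have : (fun H : Subgroup G => P H) = fun _ => 1 := funext fun H => P_normal H (hD H)
  rw [this, ciInf_const]

theorem tp_half [Finite G] (hex : ∃ L : Subgroup G, ¬ L.Normal)
    (hall : ∀ L : Subgroup G, ¬ L.Normal → P L = 1 / 2) : tp G = 1 / 2 := by
  apply le_antisymm
  · obtain ⟨L, hL⟩ := hex
    rw [← hall L hL]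
    exact tp_le L
  · unfold tp
    apply le_ciInf
    intro L
    by_cases hL : L.Normal
    · rw [P_normal L hL]; norm_num
    · rw [hall L hL]

theorem P_half [Finite G] (n : ℕ) (hn : 1 ≤ n)
    (hall : ∀ L : Subgroup G, ¬ L.Normal → IsCyclic L ∧ Nat.card L = 2 ^ n)
    (hcard : Nat.card G ≤ 4 * 2 ^ n) (L : Subgroup G) (hL : ¬ L.Normal) : P L = 1 / 2 := by
  obtain ⟨hc, hLc⟩ := hall L hL
  obtain ⟨h, rfl⟩ := (Subgroup.isCyclic_iff_exists_zpowers_eq_top L).mp hc
  have ho : orderOf h = 2 ^ n := by rw [← Nat.card_zpowers, hLc]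
  have hh : MinNN h := by
    refine ⟨hL, fun x hx => ?_⟩
    by_contra hcon
    have := (hall _ hcon).2
    rw [Nat.card_zpowers] at this
    omega
  obtain ⟨t, ht, hG, hP⟩ := hh.P_eq Nat.prime_two hn ho
  have hNpos : 0 < Nat.card (normalizer (zpowers h : Set G)) := Nat.card_pos
  have ht1 : t = 1 := by
    by_contra hne
    have ht2 : 2 ≤ t := by omega
    have : 2 ^ n * 2 * 2 ≤ 2 ^ n * 2 * t := Nat.mul_le_mul_left _ ht2
    omega
  rw [hP, ht1, F_two']
  norm_num

theorem nonnormal_congr {G G' : Type} [Group G] [Group G'] (e : G ≃* G') (n : ℕ)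
    (hall : ∀ L : Subgroup G', ¬ L.Normal → IsCyclic L ∧ Nat.card L = n) :
    ∀ L : Subgroup G, ¬ L.Normal → IsCyclic L ∧ Nat.card L = n := by
  intro L hL
  have h1 : ¬ (L.map (e : G →* G')).Normal := by
    intro h
    apply hL
    have h2 : L = (L.map (e : G →* G')).comap (e : G →* G') :=
      (comap_map_eq_self_of_injective e.injective L).symm
    rw [h2]
    exact h.comap _
  obtain ⟨h2, h3⟩ := hall _ h1
  have e' := e.subgroupMap L
  constructor
  · exact e'.isCyclic.2 h2
  · rw [← h3]
    exact Nat.card_congr e'.toEquiv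

theorem exists_nonnormal_congr {G G' : Type} [Group G] [Group G'] (e : G ≃* G')
    (hex : ∃ L : Subgroup G', ¬ L.Normal) : ∃ L : Subgroup G, ¬ L.Normal := by
  obtain ⟨L, hL⟩ := hex
  refine ⟨L.comap (e : G →* G'), fun h => hL ?_⟩
  have h1 := h.map (e : G →* G') e.surjective
  rw [map_comap_eq_self_of_surjective e.surjective] at h1
  exact h1

theorem tp_Gn [Finite G] (n : ℕ) (hn : 1 ≤ n) (e : G ≃* Gn n) : tp G = 1 / 2 := by
  have hcard : Nat.card G = 3 * 2 ^ n := by rw [Nat.card_congr e.toEquiv, Gn_card n hn]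
  exact tp_half (exists_nonnormal_congr e (Gn_exists_nonnormal n hn))
    (P_half n hn (nonnormal_congr e _ (Gn_nonnormal n hn)) (by rw [hcard]; omega))

theorem cp_Gn [Finite G] (n : ℕ) (hn : 1 ≤ n) (e : G ≃* Gn n) : commProb G = 1 / 2 := by
  rw [GN.commProb_congr e, Gn_commProb n hn]

theorem tp_Q16 [Finite G] (e : G ≃* QuaternionGroup 4) : tp G = 1 / 2 := by
  have hcard : Nat.card G = 16 := by
    rw [Nat.card_congr e.toEquiv, Nat.card_eq_fintype_card, QuaternionGroup.card]
  exact tp_half (exists_nonnormal_congr e Q16_exists_nonnormal)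
    (P_half 2 (by norm_num) (nonnormal_congr e _ (by norm_num; exact Q16_nonnormal))
      (by rw [hcard]; norm_num))

theorem cp_Q16 [Finite G] (e : G ≃* QuaternionGroup 4) : commProb G = 7 / 16 := by
  rw [GN.commProb_congr e, Q16_commProb]

/-- The case of normalizers of index 2. -/
theorem j2_final [Finite G] {h : G} (hh : MinNN h) {e : ℕ} (he : 1 ≤ e) (ho : orderOf h = 2 ^ e)
    (t : ℕ) (ht : t = 1 ∨ t = 2 ∨ t = 3) (hcard : Nat.card G = 4 * t * 2 ^ e)
    (hN : ∀ x : G, MinNN x → orderOf x = orderOf h →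
      Nat.card (normalizer (zpowers x : Set G)) = 2 * t * 2 ^ e) :
    (1 / 2 : ℚ) ^ t < commProb G ∨ Nonempty (G ≃* QuaternionGroup 4) := by
  have hpow : 0 < 2 ^ e := by positivity
  have hidx : ∀ x : G, MinNN x → orderOf x = orderOf h →
      (normalizer (zpowers x : Set G)).index = 2 := by
    intro x hx hxo
    have h1 := (normalizer (zpowers x : Set G)).card_mul_index
    rw [hN x hx hxo, hcard] at h1
    have ht0 : 0 < t := by omega
    have h2 : 2 * t * 2 ^ e * (normalizer (zpowers x : Set G)).index = 2 * t * 2 ^ e * 2 := by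
      rw [h1]; ring
    exact Nat.eq_of_mul_eq_mul_left (by positivity) h2
  by_cases hall : ∀ x : G, MinNN x → orderOf x = orderOf h → ∀ g : G, Commute x (g * x * g⁻¹)
  · left
    have h1 := two_mul_le_cz_all hh ho (hidx h hh rfl) hall
    have h2 := TP.commProb_gt (2 * orderOf h) h1 (by
      rw [hcard, ho]
      rcases ht with rfl | rfl | rfl <;> omega)
    refine lt_of_le_of_lt ?_ h2
    rw [hcard, ho]
    have hp : (0 : ℚ) < 2 ^ e := by positivity
    rcases ht with rfl | rfl | rfl
    · push_cast; rw [le_div_iff₀ (by positivity)]; nlinarith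
    · push_cast; rw [le_div_iff₀ (by positivity)]; nlinarith
    · push_cast; rw [le_div_iff₀ (by positivity)]; nlinarith
  · push Not at hall
    obtain ⟨x, hx, hxo, g, hg⟩ := hall
    have hxo' : orderOf x = 2 ^ e := by rw [hxo, ho]
    have he2 : e = 2 := by
      by_contra hne
      exact hg (hx.commute_conj he hne hxo' (hidx x hx hxo) g)
    subst he2
    have h4 : orderOf x = 4 := by rw [hxo']; norm_num
    have hgN : g ∉ normalizer (zpowers x : Set G) := by
      intro hcon
      apply hg
      have h1 : g * x * g⁻¹ ∈ zpowers x := (mem_normalizer_iff.mp hcon x).mp (mem_zpowers x)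
      exact zpowers_comm x _ (mem_zpowers x) _ h1
    have hmin : ∀ y : G, orderOf y < 4 → (zpowers y).Normal := by
      intro y hy
      exact hx.min y (by rw [h4]; exact hy)
    have hinv : ∀ y : G, y ^ 2 = 1 → ∀ z, z * y = y * z := by
      intro y hy
      apply central_of_sq y hy
      apply hmin
      have := Nat.le_of_dvd (by norm_num) (orderOf_dvd_of_pow_eq_one hy)
      omega
    have hNx := hN x hx hxo
    rcases ht with rfl | rfl | rfl
    · right
      obtain ⟨a, b, ha, hba, hab⟩ := q8_case16 (by rw [hcard]; norm_num) hinv x h4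
        (by rw [hNx]; norm_num) g hgN hg
      exact Q16_equiv (by rw [hcard]; norm_num) a b ha hba hab
    · left
      have := q8_case32 (by rw [hcard]; norm_num) hinv x h4 (by rw [hNx]; norm_num) g hgN hg
      norm_num at this ⊢
      exact this
    · left
      have := q8_case48 (by rw [hcard]; norm_num) hmin x h4 (by rw [hNx]; norm_num) g hgN hg
      norm_num at this ⊢
      exact this

/-- **Main inequality.** -/
theorem main_ineq [Finite G] (hnd : ¬ ∀ H : Subgroup G, H.Normal) :
    tp G < (commProb G : ℝ) ∨ (∃ n, 1 ≤ n ∧ Nonempty (G ≃* Gn n)) ∨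
      Nonempty (G ≃* QuaternionGroup 4) := by
  have := Fintype.ofFinite G
  by_contra hcon
  push Not at hcon
  obtain ⟨hle, hGn, hQ⟩ := hcon
  have hex : ∃ x : G, ¬ (zpowers x).Normal := by
    by_contra hcon
    push Not at hcon
    exact hnd (dedekind_of_cyclic hcon)
  have key : ∀ q : ℚ, q < commProb G → (q : ℝ) < tp G := by
    intro q hq
    have : (q : ℝ) < (commProb G : ℝ) := by exact_mod_cast hq
    exact this.trans_le hle
  have claim : ∀ h : G, MinNN h → ∃ e t, 1 ≤ e ∧ orderOf h = 2 ^ e ∧ (t = 1 ∨ t = 2 ∨ t = 3) ∧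
      Nat.card G = 4 * t * 2 ^ e ∧
      Nat.card (normalizer (zpowers h : Set G)) = 2 * t * 2 ^ e ∧ tp G ≤ (1 / 2) ^ t := by
    intro h hh
    obtain ⟨p, e, hp, he, ho⟩ := hh.prime_pow
    obtain ⟨t, ht, hG, hP⟩ := hh.P_eq hp he ho
    have hppos : 0 < p ^ e := pow_pos hp.pos e
    have hdvd : p ^ e ∣ Nat.card (normalizer (zpowers h : Set G)) := by
      rw [← ho, ← Nat.card_zpowers]
      exact Subgroup.card_dvd_of_le le_normalizer
    obtain ⟨k, hk⟩ := hdvd
    have hk1 : 1 ≤ k := by
      rcases Nat.eq_zero_or_pos k with h0 | h0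
      · rw [h0, mul_zero] at hk
        have : 0 < Nat.card (normalizer (zpowers h : Set G)) := Nat.card_pos
        omega
      · exact h0
    have hG' : Nat.card G = (k + p * t) * p ^ e := by rw [hG, hk]; ring
    have hkd : k ∣ p * t := by
      have h1 : Nat.card (normalizer (zpowers h : Set G)) ∣ Nat.card G :=
        Subgroup.card_subgroup_dvd_card _
      rw [hk, hG', mul_comm] at h1
      have h2 : k ∣ k + p * t := Nat.dvd_of_mul_dvd_mul_right hppos h1
      exact (Nat.dvd_add_right (dvd_refl k)).mp h2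
    have htpP : tp G ≤ F p ^ t := by rw [← hP]; exact tp_le _
    rcases numeric p t k hp ht hk1 hkd with h1 | ⟨rfl, h1⟩ | ⟨rfl, rfl, rfl⟩
    · exfalso
      have h2 := key _ hh.commProb_gt
      have h3 : ((orderOf h : ℚ) / Nat.card G : ℚ) = 1 / ((k + p * t : ℕ) : ℚ) := by
        rw [ho, hG']
        have h4 : (0 : ℚ) < (p : ℚ) ^ e := by
          have : (0 : ℚ) < p := by exact_mod_cast hp.pos
          positivity
        have h5 : (0 : ℚ) < ((k + p * t : ℕ) : ℚ) := by
          have : 0 < k + p * t := by omega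
          exact_mod_cast this
        rw [Nat.cast_mul, Nat.cast_pow]
        field_simp
      rw [h3] at h2
      push_cast at h2 h1
      linarith
    · have hF : F 2 ^ t = (1 / 2) ^ t := by rw [F_two']
      rw [hF] at htpP
      rcases h1 with ⟨rfl, rfl | rfl⟩ | ⟨rfl, rfl | rfl | rfl⟩ | ⟨rfl, rfl | rfl⟩
      · exfalso
        have hc3 : Nat.card G = 3 * 2 ^ e := by rw [hG']
        obtain ⟨a, b, ha, hb, hab, hgen⟩ := case_three hh he ho hc3
        exact (hGn e he).false (Gn_equiv e hc3 a b ha hb hab hgen).some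
      · exact ⟨e, 1, he, ho, Or.inl rfl, by rw [hG'], by rw [hk]; ring, htpP⟩
      · exfalso
        have hc : Nat.card G = 5 * 2 ^ e := by rw [hG']
        have h2 := sum_odd hh he ho 5 (by decide) hc
        have h3 := lt_commProb_of_sum (G := G) 1 4 (by norm_num) (by
          rw [hc]
          have : 0 < (2 ^ e) ^ 2 := by positivity
          norm_num at h2
          nlinarith)
        have h4 := key _ h3
        norm_num at h4 htpP
        linarith
      · exfalso
        have hc : Nat.card G = 6 * 2 ^ e := by rw [hG']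
        have h3 := case_six hh he ho hc (by rw [hk]; ring)
        have h4 := key _ h3
        norm_num at h4 htpP
        linarith
      · exact ⟨e, 2, he, ho, Or.inr (Or.inl rfl), by rw [hG'], by rw [hk]; ring, htpP⟩
      · exfalso
        have hc : Nat.card G = 9 * 2 ^ e := by rw [hG']
        have h2 := sum_odd hh he ho 9 (by decide) hc
        have h3 := lt_commProb_of_sum (G := G) 1 8 (by norm_num) (by
          rw [hc]
          have : 0 < (2 ^ e) ^ 2 := by positivity
          norm_num at h2
          nlinarith)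
        have h4 := key _ h3
        norm_num at h4 htpP
        linarith
      · exact ⟨e, 3, he, ho, Or.inr (Or.inr rfl), by rw [hG'], by rw [hk]; ring, htpP⟩
    · exfalso
      exact case_p_three hh he ho (by rw [hG']) (by rw [hk]; ring)
  obtain ⟨h, hh⟩ := exists_min hex
  obtain ⟨e, t, he, ho, ht, hcard, hNc, htp⟩ := claim h hh
  have hN : ∀ x : G, MinNN x → orderOf x = orderOf h →
      Nat.card (normalizer (zpowers x : Set G)) = 2 * t * 2 ^ e := by
    intro x hx hxo
    obtain ⟨e', t', he', ho', ht', hcard', hNc', -⟩ := claim x hx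
    have hee : e' = e := by
      rw [ho', ho] at hxo
      exact Nat.pow_right_injective (le_refl 2) hxo
    subst hee
    have htt : t' = t := by
      rw [hcard] at hcard'
      have h1 : 0 < 2 ^ e' := by positivity
      have h2 := Nat.eq_of_mul_eq_mul_right h1 hcard'
      omega
    rw [hNc', htt]
  rcases j2_final hh he ho t ht hcard hN with h1 | h1
  · have h2 := key _ h1
    push_cast at h2
    linarith
  · exact hQ.false h1.some

end Pool.Agent.R700.TP
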