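import Mathlib

set_option autoImplicit false

/-!
# Realising rings as endomorphism rings of torsion-free abelian groups between `R` and `ℚ R`
-/

namespace Pool.Agent.R700.Zas

universe u

variable {E : Type u} [Ring E] [Algebra ℚ E] (R : Subring E)

/-- The localisation of the subring `R` at the prime `p`, inside `E`. -/
def Loc (p : ℕ) (hp : p.Prime) : Subring E where
  carrier := {e | ∃ b : ℤ, ¬ (p : ℤ) ∣ b ∧ b • e ∈ R}
  mul_mem' := by
    rintro x y hx hy
    rw [Set.mem_ofPred_eq] at *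
    obtain ⟨b, hb, hx⟩ := hx
    obtain ⟨c, hc, hy⟩ := hy
    refine ⟨b * c, fun h => ?_, ?_⟩
    · rcases (Nat.prime_iff_prime_int.1 hp).dvd_or_dvd h with h | h
      · exact hb h
      · exact hc h
    · have : (b * c) • (x * y) = (b • x) * (c • y) := by
        rw [smul_mul_smul_comm]
      rw [this]
      exact R.mul_mem hx hy
  one_mem' := by
    rw [Set.mem_ofPred_eq]
    refine ⟨1, fun h => ?_, ?_⟩
    · exact (Nat.prime_iff_prime_int.1 hp).not_isUnit (isUnit_of_dvd_one h)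
    · rw [one_smul]; exact R.one_mem
  add_mem' := by
    rintro x y hx hy
    rw [Set.mem_ofPred_eq] at *
    obtain ⟨b, hb, hx⟩ := hx
    obtain ⟨c, hc, hy⟩ := hy
    refine ⟨b * c, fun h => ?_, ?_⟩
    · rcases (Nat.prime_iff_prime_int.1 hp).dvd_or_dvd h with h | h
      · exact hb h
      · exact hc h
    · have : (b * c) • (x + y) = c • (b • x) + b • (c • y) := by
        rw [smul_add, smul_smul, smul_smul, mul_comm c b]
      rw [this]
      exact R.add_mem (R.zsmul_mem hx _) (R.zsmul_mem hy _)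
  zero_mem' := by
    rw [Set.mem_ofPred_eq]
    refine ⟨1, fun h => ?_, ?_⟩
    · exact (Nat.prime_iff_prime_int.1 hp).not_isUnit (isUnit_of_dvd_one h)
    · rw [one_smul]; exact R.zero_mem
  neg_mem' := by
    rintro x hx
    rw [Set.mem_ofPred_eq] at *
    obtain ⟨b, hb, hx⟩ := hx
    exact ⟨b, hb, by rw [smul_neg]; exact R.neg_mem hx⟩

theorem mem_Loc (p : ℕ) (hp : p.Prime) (e : E) :
    e ∈ Loc R p hp ↔ ∃ b : ℤ, ¬ (p : ℤ) ∣ b ∧ b • e ∈ R := by
  unfold Loc
  exact Set.mem_ofPred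

theorem le_Loc (p : ℕ) (hp : p.Prime) : R ≤ Loc R p hp := by
  intro x hx
  rw [mem_Loc]
  refine ⟨1, fun h => ?_, ?_⟩
  · exact (Nat.prime_iff_prime_int.1 hp).not_isUnit (isUnit_of_dvd_one h)
  · rw [one_smul]; exact hx

theorem mem_of_forall_Loc (h1 : ∀ e : E, ∃ n : ℕ, 0 < n ∧ n • e ∈ R) (e : E)
    (he : ∀ (p : ℕ) (hp : p.Prime), e ∈ Loc R p hp) : e ∈ R := by
  classical
  have hex := h1 e
  set n := Nat.find hex with hn
  obtain ⟨hn0, hne⟩ := Nat.find_spec hex
  by_cases hn1 : n = 1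
  · rw [← hn, hn1, one_smul] at hne
    exact hne
  exfalso
  obtain ⟨p, hp, hpn⟩ := Nat.exists_prime_and_dvd hn1
  obtain ⟨b, hb, hbe⟩ := (mem_Loc R p hp e).1 (he p hp)
  have h2 : (Int.gcd n b) • e ∈ R := by
    have h3 : ((Int.gcd n b : ℕ) : ℤ) • e = (Int.gcdA n b) • ((n : ℤ) • e) +
        (Int.gcdB n b) • (b • e) := by
      rw [Int.gcd_eq_gcd_ab, smul_smul, smul_smul, ← add_smul]
      congr 1
      ring
    rw [← natCast_zsmul, h3]
    refine R.add_mem (R.zsmul_mem ?_ _) (R.zsmul_mem hbe _)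
    rw [natCast_zsmul]
    exact hne
  have h4 : 0 < Int.gcd n b := Int.gcd_pos_of_ne_zero_left _ (by exact_mod_cast hn0.ne')
  have h5 : n ≤ Int.gcd n b := Nat.find_min' hex ⟨h4, h2⟩
  have h6 : (Int.gcd n b) ∣ n := by
    have := Int.gcd_dvd_left (a := (n : ℤ)) (b := b)
    exact_mod_cast this
  have h7 : Int.gcd n b = n := le_antisymm (Nat.le_of_dvd hn0 h6) h5
  have h8 : (n : ℤ) ∣ b := by
    have := Int.gcd_dvd_right (a := (n : ℤ)) (b := b)
    rw [h7] at this
    exact this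
  exact hb ((Int.natCast_dvd_natCast.2 hpn).trans h8)

/-- The group of all `v ∈ E` with `v h_p ∈ R_(p)` for all primes `p`. -/
def Grp (h : ℕ → E) : AddSubgroup E where
  carrier := {v | ∀ (p : ℕ) (hp : p.Prime), v * h p ∈ Loc R p hp}
  add_mem' := by
    intro a b ha hb
    rw [Set.mem_ofPred_eq] at *
    intro p hp
    rw [add_mul]
    exact (Loc R p hp).add_mem (ha p hp) (hb p hp)
  zero_mem' := by
    rw [Set.mem_ofPred_eq]
    intro p hp
    rw [zero_mul]
    exact (Loc R p hp).zero_mem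
  neg_mem' := by
    intro a ha
    rw [Set.mem_ofPred_eq] at *
    intro p hp
    rw [neg_mul]
    exact (Loc R p hp).neg_mem (ha p hp)

theorem mem_Grp (h : ℕ → E) (v : E) :
    v ∈ Grp R h ↔ ∀ (p : ℕ) (hp : p.Prime), v * h p ∈ Loc R p hp := by
  unfold Grp
  exact Set.mem_ofPred

variable {R}

theorem le_Grp {h : ℕ → E} (hh : ∀ p, h p ∈ R) {v : E} (hv : v ∈ R) : v ∈ Grp R h := by
  rw [mem_Grp]
  intro p hp
  exact le_Loc R p hp (R.mul_mem hv (hh p))

theorem mul_mem_Grp {h : ℕ → E} {r v : E} (hr : r ∈ R) (hv : v ∈ Grp R h) : r * v ∈ Grp R h := by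
  rw [mem_Grp] at *
  intro p hp
  rw [mul_assoc]
  exact (Loc R p hp).mul_mem (le_Loc R p hp hr) (hv p hp)

theorem not_dvd_mul {p l : ℕ} (hp : p.Prime) (hl : l.Prime) (hne : l ≠ p) :
    ¬ (l : ℤ) ∣ ((p * p : ℕ) : ℤ) := by
  intro h
  rw [Int.natCast_dvd_natCast] at h
  rcases (Nat.Prime.dvd_mul hl).1 h with h | h <;>
    exact hne ((Nat.prime_dvd_prime_iff_eq hl hp).1 h)

theorem not_dvd_one {p l : ℕ} (hp : p.Prime) (hl : l.Prime) (hne : l ≠ p) :
    ¬ (l : ℤ) ∣ (p : ℤ) := by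
  intro h
  rw [Int.natCast_dvd_natCast] at h
  exact hne ((Nat.prime_dvd_prime_iff_eq hl hp).1 h)

/-- infinitely many primes remain after removing the divisors of a nonzero integer -/
theorem infinite_remove {P : Set ℕ} (hP : P.Infinite) {N : ℕ} (hN : 0 < N) :
    (P \ {p | p ∣ N}).Infinite := by
  refine hP.sdiff ?_
  refine (Finset.finite_toSet (Nat.divisors N)).subset ?_
  intro p hp
  rw [Set.mem_ofPred_eq] at hp
  simp [hp, hN.ne']

theorem mem_Loc_of_not_dvd {p : ℕ} (hp : p.Prime) {N : ℕ} (hpN : ¬ p ∣ N) {e : E}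
    (he : N • e ∈ R) : e ∈ Loc R p hp := by
  rw [mem_Loc]
  refine ⟨N, fun h => hpN (by exact_mod_cast h), ?_⟩
  rw [natCast_zsmul]
  exact he

section key

variable {h : ℕ → E} (hh : ∀ p, h p ∈ R)
  (h1 : ∀ e : E, ∃ n : ℕ, 0 < n ∧ n • e ∈ R)
  (h2 : ∀ e : E, {p : ℕ | ∃ hp : p.Prime, ∃ f ∈ Loc R p hp, e = p • f}.Infinite → e = 0)
  (φ : Grp R h →+ Grp R h)

include h1 h2

omit h2 in
theorem exists_common (x y : E) : ∃ N : ℕ, 0 < N ∧ N • x ∈ R ∧ N • y ∈ R := by
  obtain ⟨n, hn, hx⟩ := h1 x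
  obtain ⟨m, hm, hy⟩ := h1 y
  refine ⟨n * m, Nat.mul_pos hn hm, ?_, ?_⟩
  · rw [mul_comm, mul_smul]; exact R.nsmul_mem hx m
  · rw [mul_smul]; exact R.nsmul_mem hy n

theorem key_nil {g w : E} (hg : g ∈ R) (hgg : g * g = 0)
    (hinf : {p : ℕ | p.Prime ∧ h p = (p : E) - g}.Infinite) (hw : w ∈ R) :
    (φ ⟨w * g, le_Grp hh (R.mul_mem hw hg)⟩ : E) = φ ⟨w, le_Grp hh hw⟩ * g := by
  set X : E := ((φ ⟨w, le_Grp hh hw⟩ : Grp R h) : E) with hX
  set Y : E := ((φ ⟨w * g, le_Grp hh (R.mul_mem hw hg)⟩ : Grp R h) : E) with hY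
  obtain ⟨N, hN, hNX, hNY⟩ := exists_common h1 X Y
  have hcast : ∀ p : ℕ, (p : ℚ) • (1 : E) = (p : E) := by
    intro p
    rw [← Algebra.algebraMap_eq_smul_one, map_natCast]
  have key : ∀ (p : ℕ) (hp : p.Prime), h p = (p : E) - g →
      ∃ F ∈ Loc R p hp, (p * p) • F = (p * p) • X + p • (Y - X * g) - Y * g := by
    intro p hp hhp
    have hp0 : (p : ℚ) ≠ 0 := by exact_mod_cast hp.ne_zero
    let v : E := (p : ℚ)⁻¹ • w + ((p : ℚ)⁻¹ * (p : ℚ)⁻¹) • (w * g)
    have hv2 : (p * p) • v = p • w + w * g := by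
      have e1 : (p * p) • v = ((p : ℚ) * (p : ℚ)) • v := by
        rw [← Nat.cast_mul, Nat.cast_smul_eq_nsmul]
      rw [e1, smul_add, smul_smul, smul_smul]
      have e2 : (p : ℚ) * p * (p : ℚ)⁻¹ = p := by field_simp
      have e3 : (p : ℚ) * p * ((p : ℚ)⁻¹ * (p : ℚ)⁻¹) = 1 := by field_simp
      rw [e2, e3, one_smul, Nat.cast_smul_eq_nsmul]
    have hv : v ∈ Grp R h := by
      rw [mem_Grp]
      intro l hl
      by_cases hlp : l = p
      · subst hlp
        have : v * h l = w := by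
          rw [hhp, mul_sub]
          have e4 : v * (l : E) = (l : ℚ) • v := by
            rw [← hcast, mul_smul_comm, mul_one]
          rw [e4]
          simp only [v]
          rw [smul_add, smul_smul, smul_smul, add_mul, smul_mul_assoc, smul_mul_assoc, mul_assoc,
            hgg, mul_zero, smul_zero, add_zero, mul_inv_cancel₀ hp0, one_smul, ← mul_assoc,
            mul_inv_cancel₀ hp0, one_mul, add_sub_cancel_right]
        rw [this]
        exact le_Loc R l hl hw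
      · rw [mem_Loc]
        refine ⟨((p * p : ℕ) : ℤ), not_dvd_mul hp hl hlp, ?_⟩
        rw [natCast_zsmul, ← smul_mul_assoc, hv2]
        exact R.mul_mem (R.add_mem (R.nsmul_mem hw _) (R.mul_mem hw hg)) (hh l)
    have e5 : (p * p) • (φ ⟨v, hv⟩ : E) = p • X + Y := by
      have : (p * p) • (⟨v, hv⟩ : Grp R h) =
          p • ⟨w, le_Grp hh hw⟩ + ⟨w * g, le_Grp hh (R.mul_mem hw hg)⟩ := by
        apply Subtype.ext
        simpa using hv2
      have h3 := congrArg φ this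
      rw [map_nsmul, map_add, map_nsmul] at h3
      have h4 := congrArg Subtype.val h3
      rwa [AddSubgroup.coe_nsmul, AddSubgroup.coe_add, AddSubgroup.coe_nsmul] at h4
    refine ⟨φ ⟨v, hv⟩ * h p, (mem_Grp R h _).1 (φ ⟨v, hv⟩).2 p hp, ?_⟩
    rw [← smul_mul_assoc, e5, hhp, mul_sub]
    have e6 : (p • X + Y) * (p : E) = (p * p) • X + p • Y := by
      rw [add_mul, ← nsmul_eq_mul', ← nsmul_eq_mul', smul_smul]
    rw [e6, add_mul, smul_mul_assoc, smul_sub]
    abel
  have hYg : Y * g = 0 := by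
    apply h2
    refine (infinite_remove hinf hN).mono ?_
    rintro p ⟨hp, hpN⟩
    rw [Set.mem_ofPred_eq] at *
    obtain ⟨hp, hhp⟩ := hp
    obtain ⟨F, hF, hFe⟩ := key p hp hhp
    have hXl := mem_Loc_of_not_dvd hp hpN hNX
    have hYl := mem_Loc_of_not_dvd hp hpN hNY
    refine ⟨hp, p • X + (Y - X * g) - p • F, ?_, ?_⟩
    · refine (Loc R p hp).sub_mem ((Loc R p hp).add_mem ((Loc R p hp).nsmul_mem hXl _)
        ((Loc R p hp).sub_mem hYl ((Loc R p hp).mul_mem hXl (le_Loc R p hp hg))))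
        ((Loc R p hp).nsmul_mem hF _)
    · rw [smul_sub, smul_add, smul_smul, smul_smul, hFe]
      abel
  have hXg : Y - X * g = 0 := by
    apply h2
    refine (infinite_remove hinf hN).mono ?_
    rintro p ⟨hp, hpN⟩
    rw [Set.mem_ofPred_eq] at *
    obtain ⟨hp, hhp⟩ := hp
    obtain ⟨F, hF, hFe⟩ := key p hp hhp
    have hXl := mem_Loc_of_not_dvd hp hpN hNX
    refine ⟨hp, F - X, (Loc R p hp).sub_mem hF hXl, ?_⟩
    rw [hYg, sub_zero] at hFe
    have h3 : p • (p • (F - X)) = p • (Y - X * g) := by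
      rw [smul_smul, smul_sub, hFe]
      abel
    have hp0 : (p : ℚ) ≠ 0 := by exact_mod_cast hp.ne_zero
    rw [← Nat.cast_smul_eq_nsmul ℚ p, ← Nat.cast_smul_eq_nsmul ℚ p (Y - X * g)] at h3
    exact (smul_right_injective E hp0 h3).symm
  exact sub_eq_zero.1 hXg

theorem key_idem {e w : E} (he : e ∈ R) (hee : e * e = e)
    (hinf : {p : ℕ | p.Prime ∧ h p = 1 + ((p : E) - 1) * e}.Infinite) (hw : w ∈ R) :
    (φ ⟨w * e, le_Grp hh (R.mul_mem hw he)⟩ : E) * (1 - e) = 0 := by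
  set Y : E := ((φ ⟨w * e, le_Grp hh (R.mul_mem hw he)⟩ : Grp R h) : E) with hY
  have hcast : ∀ p : ℕ, (p : ℚ) • (1 : E) = (p : E) := by
    intro p
    rw [← Algebra.algebraMap_eq_smul_one, map_natCast]
  apply h2
  refine hinf.mono ?_
  intro p hp
  rw [Set.mem_ofPred_eq] at *
  obtain ⟨hp, hhp⟩ := hp
  have hp0 : (p : ℚ) ≠ 0 := by exact_mod_cast hp.ne_zero
  let v : E := (p : ℚ)⁻¹ • (w * e)
  have hv1 : p • v = w * e := by
    rw [← Nat.cast_smul_eq_nsmul ℚ p, smul_smul, mul_inv_cancel₀ hp0, one_smul]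
  have hv : v ∈ Grp R h := by
    rw [mem_Grp]
    intro l hl
    by_cases hlp : l = p
    · subst hlp
      have : v * h l = w * e := by
        have e1 : e * (1 + ((l : E) - 1) * e) = l • e := by
          have e2 : e * ((l : E) * e) = l • (e * e) := by
            rw [← mul_assoc, ← nsmul_eq_mul', smul_mul_assoc]
          rw [sub_mul, one_mul, mul_add, mul_one, mul_sub, e2, hee, add_sub_cancel]
        rw [hhp]
        simp only [v]
        rw [smul_mul_assoc, mul_assoc, e1, ← Nat.cast_smul_eq_nsmul ℚ l, mul_smul_comm, smul_smul,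
          inv_mul_cancel₀ hp0, one_smul]
      rw [this]
      exact le_Loc R l hl (R.mul_mem hw he)
    · rw [mem_Loc]
      refine ⟨(p : ℤ), not_dvd_one hp hl hlp, ?_⟩
      rw [natCast_zsmul, ← smul_mul_assoc, hv1]
      exact R.mul_mem (R.mul_mem hw he) (hh l)
  have e5 : p • (φ ⟨v, hv⟩ : E) = Y := by
    have : p • (⟨v, hv⟩ : Grp R h) = ⟨w * e, le_Grp hh (R.mul_mem hw he)⟩ := by
      apply Subtype.ext
      simpa using hv1
    have h3 := congrArg φ this
    rw [map_nsmul] at h3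
    have h4 := congrArg Subtype.val h3
    rwa [AddSubgroup.coe_nsmul] at h4
  refine ⟨hp, φ ⟨v, hv⟩ * (1 - e), ?_, ?_⟩
  · have h3 := (mem_Grp R h _).1 (φ ⟨v, hv⟩).2 p hp
    have h4 := (Loc R p hp).mul_mem h3 (le_Loc R p hp (R.sub_mem R.one_mem he))
    have e6 : (1 + ((p : E) - 1) * e) * (1 - e) = 1 - e := by
      rw [add_mul, one_mul, mul_assoc, mul_sub, mul_one, hee, sub_self, mul_zero, add_zero]
    rw [mul_assoc, hhp, e6] at h4
    exact h4
  · rw [← smul_mul_assoc, e5]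

theorem key_idem' {e w : E} (he : e ∈ R) (hee : e * e = e)
    (hinf : {p : ℕ | p.Prime ∧ h p = 1 + ((p : E) - 1) * e}.Infinite)
    (hinf' : {p : ℕ | p.Prime ∧ h p = 1 + ((p : E) - 1) * (1 - e)}.Infinite) (hw : w ∈ R) :
    (φ ⟨w * e, le_Grp hh (R.mul_mem hw he)⟩ : E) = φ ⟨w, le_Grp hh hw⟩ * e := by
  have he' : 1 - e ∈ R := R.sub_mem R.one_mem he
  have k1 := key_idem hh h1 h2 φ he hee hinf hw
  have k2 := key_idem hh h1 h2 φ he' (by
    rw [mul_sub, sub_mul, sub_mul, hee]; simp) hinf' hw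
  rw [mul_sub, mul_one, sub_eq_zero] at k1
  rw [sub_sub_cancel] at k2
  have k3 : (φ ⟨w, le_Grp hh hw⟩ : E) = φ ⟨w * e, le_Grp hh (R.mul_mem hw he)⟩ +
      φ ⟨w * (1 - e), le_Grp hh (R.mul_mem hw he')⟩ := by
    rw [← AddSubgroup.coe_add, ← map_add]
    congr 2
    apply Subtype.ext
    rw [AddSubgroup.coe_add]
    change w = w * e + w * (1 - e)
    rw [mul_sub, mul_one]
    abel
  rw [k3, add_mul, k2, add_zero, ← k1]

end key

/-- **Realisation theorem.** -/
theorem main {h : ℕ → E} (h1 : ∀ e : E, ∃ n : ℕ, 0 < n ∧ n • e ∈ R)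
    (h2 : ∀ e : E, {p : ℕ | ∃ hp : p.Prime, ∃ f ∈ Loc R p hp, e = p • f}.Infinite → e = 0)
    (hh : ∀ p, h p ∈ R)
    (hp : ∀ p, p.Prime → (∃ g ∈ R, g * g = 0 ∧ h p = (p : E) - g) ∨
      ∃ e ∈ R, e * e = e ∧ h p = 1 + ((p : E) - 1) * e)
    (G : Set E) (hG : Subring.closure G = R)
    (hinf : ∀ g ∈ G, (g * g = 0 ∧ {p : ℕ | p.Prime ∧ h p = (p : E) - g}.Infinite) ∨
      (g * g = g ∧ {p : ℕ | p.Prime ∧ h p = 1 + ((p : E) - 1) * g}.Infinite ∧
        {p : ℕ | p.Prime ∧ h p = 1 + ((p : E) - 1) * (1 - g)}.Infinite))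
    (φ : Grp R h →+ Grp R h) :
    ∃ r ∈ R, ∀ v : Grp R h, (φ v : E) = r * v := by
  have hGR : G ⊆ R := by rw [← hG]; exact Subring.subset_closure
  have hcomm : ∀ g (hg : g ∈ G), ∀ w (hw : w ∈ R),
      (φ ⟨w * g, le_Grp hh (R.mul_mem hw (hGR hg))⟩ : E) = φ ⟨w, le_Grp hh hw⟩ * g := by
    intro g hg w hw
    rcases hinf g hg with ⟨k1, k2⟩ | ⟨k1, k2, k3⟩
    · exact key_nil hh h1 h2 φ (hGR hg) k1 k2 hw
    · exact key_idem' hh h1 h2 φ (hGR hg) k1 k2 k3 hw
  have hcomm2 : ∀ a (ha : a ∈ R), ∀ w (hw : w ∈ R),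
      (φ ⟨w * a, le_Grp hh (R.mul_mem hw ha)⟩ : E) = φ ⟨w, le_Grp hh hw⟩ * a := by
    intro a ha
    have ha' : a ∈ Subring.closure G := by rw [hG]; exact ha
    have key : ∀ a (ha : a ∈ Subring.closure G), ∀ (ha' : a ∈ R), ∀ w (hw : w ∈ R),
      (φ ⟨w * a, le_Grp hh (R.mul_mem hw ha')⟩ : E) = φ ⟨w, le_Grp hh hw⟩ * a := by
      intro a ha
      induction ha using Subring.closure_induction with
      | mem x hx => exact fun _ w hw => hcomm x hx w hw
      | zero =>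
        intro h0 w hw
        have : (⟨w * 0, le_Grp hh (R.mul_mem hw h0)⟩ : Grp R h) = 0 :=
          Subtype.ext (mul_zero w)
        rw [this, map_zero, mul_zero]
        rfl
      | one =>
        intro h0 w hw
        have : (⟨w * 1, le_Grp hh (R.mul_mem hw h0)⟩ : Grp R h) = ⟨w, le_Grp hh hw⟩ :=
          Subtype.ext (mul_one w)
        rw [this, mul_one]
      | add x y hx hy ihx ihy =>
        intro h0 w hw
        have hx' : x ∈ R := by rw [← hG]; exact hx
        have hy' : y ∈ R := by rw [← hG]; exact hy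
        have : (⟨w * (x + y), le_Grp hh (R.mul_mem hw h0)⟩ : Grp R h) =
          ⟨w * x, le_Grp hh (R.mul_mem hw hx')⟩ + ⟨w * y, le_Grp hh (R.mul_mem hw hy')⟩ :=
          Subtype.ext (mul_add w x y)
        rw [this, map_add, AddSubgroup.coe_add, ihx hx' w hw, ihy hy' w hw, mul_add]
      | neg x hx ihx =>
        intro h0 w hw
        have hx' : x ∈ R := by rw [← hG]; exact hx
        have : (⟨w * (-x), le_Grp hh (R.mul_mem hw h0)⟩ : Grp R h) =
          -⟨w * x, le_Grp hh (R.mul_mem hw hx')⟩ :=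
          Subtype.ext (mul_neg w x)
        rw [this, map_neg, AddSubgroup.coe_neg, ihx hx' w hw, mul_neg]
      | mul x y hx hy ihx ihy =>
        intro h0 w hw
        have hx' : x ∈ R := by rw [← hG]; exact hx
        have hy' : y ∈ R := by rw [← hG]; exact hy
        have : (⟨w * (x * y), le_Grp hh (R.mul_mem hw h0)⟩ : Grp R h) =
          ⟨w * x * y, le_Grp hh (R.mul_mem (R.mul_mem hw hx') hy')⟩ :=
          Subtype.ext (mul_assoc w x y).symm
        rw [this, ihy hy' (w * x) (R.mul_mem hw hx'), ihx hx' w hw, mul_assoc]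
    exact key a ha' ha
  set r : E := ((φ ⟨1, le_Grp hh R.one_mem⟩ : Grp R h) : E) with hr
  have hR : ∀ w (hw : w ∈ R), (φ ⟨w, le_Grp hh hw⟩ : E) = r * w := by
    intro w hw
    rw [hr, ← hcomm2 w hw 1 R.one_mem]
    congr 2
    exact Subtype.ext (one_mul w).symm
  have hall : ∀ v : Grp R h, (φ v : E) = r * v := by
    intro v
    obtain ⟨n, hn, hnv⟩ := h1 v
    have e1 : (n • v : Grp R h) = ⟨n • (v : E), le_Grp hh hnv⟩ := Subtype.ext (by simp)
    have e2 := hR _ hnv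
    rw [← e1, map_nsmul, AddSubgroup.coe_nsmul, mul_smul_comm] at e2
    have hn0 : (n : ℚ) ≠ 0 := by exact_mod_cast hn.ne'
    rw [← Nat.cast_smul_eq_nsmul ℚ n, ← Nat.cast_smul_eq_nsmul ℚ n] at e2
    exact smul_right_injective E hn0 e2
  refine ⟨r, ?_, hall⟩
  apply mem_of_forall_Loc R h1
  intro p hpp
  have hp0 : (p : ℚ) ≠ 0 := by exact_mod_cast hpp.ne_zero
  have hcast : (p : ℚ) • (1 : E) = (p : E) := by
    rw [← Algebra.algebraMap_eq_smul_one, map_natCast]
  -- an inverse of `h p` in the group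
  have hinv : ∃ v ∈ Grp R h, v * h p = 1 := by
    rcases hp p hpp with ⟨g, hg, hgg, hhp⟩ | ⟨e, he, hee, hhp⟩
    · refine ⟨(p : ℚ)⁻¹ • 1 + ((p : ℚ)⁻¹ * (p : ℚ)⁻¹) • g, ?_, ?_⟩
      · rw [mem_Grp]
        intro l hl
        by_cases hlp : l = p
        · subst hlp
          have : ((l : ℚ)⁻¹ • (1 : E) + ((l : ℚ)⁻¹ * (l : ℚ)⁻¹) • g) * h l = 1 := by
            rw [hhp, mul_sub, ← hcast, mul_smul_comm, mul_one, smul_add, smul_smul, smul_smul,
              add_mul, smul_mul_assoc, smul_mul_assoc, hgg, one_mul, smul_zero, add_zero,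
              mul_inv_cancel₀ hp0, one_smul, ← mul_assoc, mul_inv_cancel₀ hp0, one_mul,
              add_sub_cancel_right]
          rw [this]
          exact (Loc R l hl).one_mem
        · rw [mem_Loc]
          refine ⟨((p * p : ℕ) : ℤ), not_dvd_mul hpp hl hlp, ?_⟩
          have e1 : ((p * p : ℕ) : ℤ) • (((p : ℚ)⁻¹ • (1 : E) + ((p : ℚ)⁻¹ * (p : ℚ)⁻¹) • g) * h l) =
              (p • 1 + g) * h l := by
            rw [natCast_zsmul, ← smul_mul_assoc]
            congr 1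
            rw [← Nat.cast_smul_eq_nsmul ℚ (p * p), Nat.cast_mul, smul_add, smul_smul, smul_smul]
            have e2 : (p : ℚ) * p * (p : ℚ)⁻¹ = p := by field_simp
            have e3 : (p : ℚ) * p * ((p : ℚ)⁻¹ * (p : ℚ)⁻¹) = 1 := by field_simp
            rw [e2, e3, one_smul, Nat.cast_smul_eq_nsmul]
          rw [e1]
          exact R.mul_mem (R.add_mem (R.nsmul_mem R.one_mem _) hg) (hh l)
      · rw [hhp, mul_sub, ← hcast, mul_smul_comm, mul_one, smul_add, smul_smul, smul_smul,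
          add_mul, smul_mul_assoc, smul_mul_assoc, hgg, one_mul, smul_zero, add_zero,
          mul_inv_cancel₀ hp0, one_smul, ← mul_assoc, mul_inv_cancel₀ hp0, one_mul,
          add_sub_cancel_right]
    · have e1 : (1 - e + (p : ℚ)⁻¹ • e) * h p = 1 := by
        have e2 : e * (1 + ((p : E) - 1) * e) = (p : ℚ) • e := by
          have e3 : e * ((p : E) * e) = (p : ℚ) • (e * e) := by
            rw [← hcast, smul_mul_assoc, one_mul, mul_smul_comm]
          rw [sub_mul, one_mul, mul_add, mul_one, mul_sub, e3, hee, add_sub_cancel]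
        rw [hhp, add_mul, sub_mul, one_mul, e2, smul_mul_assoc, e2, smul_smul,
          inv_mul_cancel₀ hp0, one_smul, sub_mul, one_mul, ← hcast, smul_mul_assoc, one_mul]
        abel
      refine ⟨1 - e + (p : ℚ)⁻¹ • e, ?_, e1⟩
      rw [mem_Grp]
      intro l hl
      by_cases hlp : l = p
      · subst hlp
        rw [e1]
        exact (Loc R l hl).one_mem
      · rw [mem_Loc]
        refine ⟨(p : ℤ), not_dvd_one hpp hl hlp, ?_⟩
        have e4 : (p : ℤ) • ((1 - e + (p : ℚ)⁻¹ • e) * h l) = (p • (1 - e) + e) * h l := by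
          rw [natCast_zsmul, ← smul_mul_assoc, smul_add]
          congr 2
          rw [← Nat.cast_smul_eq_nsmul ℚ p, smul_smul, mul_inv_cancel₀ hp0, one_smul]
        rw [e4]
        exact R.mul_mem (R.add_mem (R.nsmul_mem (R.sub_mem R.one_mem he) _) he) (hh l)
  obtain ⟨v, hv, hv1⟩ := hinv
  have h3 := (mem_Grp R h _).1 (φ ⟨v, hv⟩).2 p hpp
  rw [hall ⟨v, hv⟩, mul_assoc, hv1, mul_one] at h3
  exact h3

end Pool.Agent.R700.Zas
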